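import Mathlib

/-!
# Lines and the group law of a Weierstrass curve

`IsLine W x1 x2 x3 l n`: the line `y = l x + n` cuts `W` in the abscissas `x1, x2, x3` (with multiplicities).
`line_sum`: three points on such a line have sum `0`.  `sum_line`: the converse.
`hom_of_line`: a map which respects `0`, negation and lines is additive.
-/

set_option autoImplicit false

namespace Pool.Agent.RkT

open WeierstrassCurve

variable {F : Type*} [Field F] [DecidableEq F]

/-- the line `y = l x + n` cuts `W` in the abscissas `x1, x2, x3` -/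
structure IsLine (W : WeierstrassCurve F) (x1 x2 x3 l n : F) : Prop where
  s1 : x1 + x2 + x3 = l ^ 2 + W.a₁ * l - W.a₂
  s2 : x1 * x2 + x1 * x3 + x2 * x3 = W.a₄ - 2 * l * n - W.a₁ * n - W.a₃ * l
  s3 : x1 * x2 * x3 = n ^ 2 + W.a₃ * n - W.a₆

theorem IsLine.swap {W : WeierstrassCurve F} {x1 x2 x3 l n : F} (h : IsLine W x1 x2 x3 l n) :
    IsLine W x2 x1 x3 l n :=
  ⟨by linear_combination h.s1, by linear_combination h.s2, by linear_combination h.s3⟩

theorem IsLine.rot {W : WeierstrassCurve F} {x1 x2 x3 l n : F} (h : IsLine W x1 x2 x3 l n) :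
    IsLine W x2 x3 x1 l n :=
  ⟨by linear_combination h.s1, by linear_combination h.s2, by linear_combination h.s3⟩

theorem line_sum {W : WeierstrassCurve F} {x1 y1 x2 y2 x3 y3 l n : F}
    (h1 : W.toAffine.Nonsingular x1 y1) (h2 : W.toAffine.Nonsingular x2 y2)
    (h3 : W.toAffine.Nonsingular x3 y3) (e1 : y1 = l * x1 + n) (e2 : y2 = l * x2 + n)
    (e3 : y3 = l * x3 + n) (h : IsLine W x1 x2 x3 l n) :
    (Affine.Point.some x1 y1 h1 : W.toAffine.Point) + Affine.Point.some x2 y2 h2 +
      Affine.Point.some x3 y3 h3 = 0 := by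
  have key : ¬ (x1 = x2 ∧ y1 = W.toAffine.negY x2 y2) ∧ W.toAffine.slope x1 x2 y1 y2 = l := by
    by_cases hx : x1 = x2
    · subst hx
      have hy : y1 = y2 := by rw [e1, e2]
      subst hy
      have hd : 3 * x1 ^ 2 + 2 * W.a₂ * x1 + W.a₄ - W.a₁ * y1 -
          (y1 - W.toAffine.negY x1 y1) * l = 0 := by
        unfold Affine.negY
        rw [e1]
        linear_combination (2 * x1) * h.s1 - h.s2
      have hne : y1 ≠ W.toAffine.negY x1 y1 := by
        intro hc
        have h4 := ((W.toAffine.nonsingular_iff x1 y1).1 h1).2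
        rcases h4 with h4 | h4
        · apply h4
          have h5 : y1 - W.toAffine.negY x1 y1 = 0 := sub_eq_zero.2 hc
          rw [h5] at hd
          linear_combination -hd
        · exact h4 hc
      refine ⟨fun hc => hne hc.2, ?_⟩
      rw [Affine.slope_of_Y_ne rfl hne, div_eq_iff (sub_ne_zero.2 hne)]
      linear_combination hd
    · refine ⟨fun hc => hx hc.1, ?_⟩
      rw [Affine.slope_of_X_ne hx, div_eq_iff (sub_ne_zero.2 hx), e1, e2]
      ring
  have hX : W.toAffine.addX x1 x2 l = x3 := by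
    unfold Affine.addX
    linear_combination -h.s1
  have hY : W.toAffine.addY x1 x2 y1 l = W.toAffine.negY x3 y3 := by
    unfold Affine.addY Affine.negAddY
    rw [hX, e1, e3]
    congr 1
    ring
  rw [Affine.Point.add_some key.1]
  have h5 : (Affine.Point.some x3 y3 h3 : W.toAffine.Point) =
      -Affine.Point.some (W.toAffine.addX x1 x2 (W.toAffine.slope x1 x2 y1 y2))
        (W.toAffine.addY x1 x2 y1 (W.toAffine.slope x1 x2 y1 y2))
        (Affine.nonsingular_add h1 h2 key.1) := by
    rw [Affine.Point.neg_some]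
    have e6 : W.toAffine.addX x1 x2 (W.toAffine.slope x1 x2 y1 y2) = x3 := by rw [key.2, hX]
    have e7 : W.toAffine.negY (W.toAffine.addX x1 x2 (W.toAffine.slope x1 x2 y1 y2))
        (W.toAffine.addY x1 x2 y1 (W.toAffine.slope x1 x2 y1 y2)) = y3 := by
      rw [key.2, hX, hY, Affine.negY_negY]
    congr 1
    · exact e6.symm
    · exact e7.symm
  rw [h5]
  exact add_neg_cancel _

theorem sum_line {W : WeierstrassCurve F} {x1 y1 x2 y2 x3 y3 : F}
    (h1 : W.toAffine.Nonsingular x1 y1) (h2 : W.toAffine.Nonsingular x2 y2)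
    (h3 : W.toAffine.Nonsingular x3 y3)
    (h : (Affine.Point.some x1 y1 h1 : W.toAffine.Point) + Affine.Point.some x2 y2 h2 +
      Affine.Point.some x3 y3 h3 = 0) :
    ∃ l n, y1 = l * x1 + n ∧ y2 = l * x2 + n ∧ y3 = l * x3 + n ∧ IsLine W x1 x2 x3 l n := by
  have hneg : (Affine.Point.some x1 y1 h1 : W.toAffine.Point) + Affine.Point.some x2 y2 h2 =
      -Affine.Point.some x3 y3 h3 := eq_neg_of_add_eq_zero_left h
  have hxy : ¬ (x1 = x2 ∧ y1 = W.toAffine.negY x2 y2) := by
    rintro ⟨hx, hy⟩
    rw [Affine.Point.add_of_Y_eq hx hy] at hneg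
    have h4 : (Affine.Point.some x3 y3 h3 : W.toAffine.Point) = 0 := by
      rw [← neg_neg (Affine.Point.some x3 y3 h3 : W.toAffine.Point), ← hneg, neg_zero]
    exact Affine.Point.some_ne_zero h3 h4
  rw [Affine.Point.add_some hxy, Affine.Point.neg_some] at hneg
  set l := W.toAffine.slope x1 x2 y1 y2 with hl
  have hX : W.toAffine.addX x1 x2 l = x3 := by
    injection hneg
  have hY : W.toAffine.addY x1 x2 y1 l = W.toAffine.negY x3 y3 := by
    injection hneg
  have hpoly := Affine.addPolynomial_slope h1.1 h2.1 hxy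
  rw [← hl, hX, Affine.addPolynomial_eq, neg_inj, Cubic.prod_X_sub_C_eq,
    Cubic.toPoly_injective] at hpoly
  have hb := congrArg Cubic.b hpoly
  have hc := congrArg Cubic.c hpoly
  have hd := congrArg Cubic.d hpoly
  simp only at hb hc hd
  have hy3 : y3 = l * (x3 - x1) + y1 := by
    have h4 : W.toAffine.negY x3 (l * (x3 - x1) + y1) = W.toAffine.negY x3 y3 := by
      rw [← hY]
      unfold Affine.addY Affine.negAddY
      rw [hX]
    have h5 := congrArg (W.toAffine.negY x3) h4
    rw [Affine.negY_negY, Affine.negY_negY] at h5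
    exact h5.symm
  have hy2 : y2 = l * (x2 - x1) + y1 := by
    by_cases hx : x1 = x2
    · have hy : y1 ≠ W.toAffine.negY x2 y2 := fun hc => hxy ⟨hx, hc⟩
      have := Affine.Y_eq_of_Y_ne h1.1 h2.1 hx hy
      rw [hx, this]
      ring
    · rw [hl, Affine.slope_of_X_ne hx]
      field_simp [sub_ne_zero.2 hx]
      ring
  refine ⟨l, y1 - l * x1, by ring, by rw [hy2]; ring, by rw [hy3]; ring, ?_, ?_, ?_⟩
  · linear_combination hb
  · linear_combination -hc
  · linear_combination hd

/-- A map which respects `0`, negation and lines is additive. -/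
theorem hom_of_line {W : WeierstrassCurve F} {B : Type*} [AddCommGroup B]
    (f : W.toAffine.Point → B) (h0 : f 0 = 0) (hneg : ∀ P, f (-P) = -f P)
    (hl : ∀ (x1 y1 x2 y2 x3 y3 l n : F) (h1 : W.toAffine.Nonsingular x1 y1)
      (h2 : W.toAffine.Nonsingular x2 y2) (h3 : W.toAffine.Nonsingular x3 y3),
      y1 = l * x1 + n → y2 = l * x2 + n → y3 = l * x3 + n → IsLine W x1 x2 x3 l n →
      f (Affine.Point.some x1 y1 h1) + f (Affine.Point.some x2 y2 h2) +
        f (Affine.Point.some x3 y3 h3) = 0) (P Q : W.toAffine.Point) :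
    f (P + Q) = f P + f Q := by
  rcases P with _ | ⟨x1, y1, h1⟩
  · rw [← Affine.Point.zero_def, zero_add, h0, zero_add]
  rcases Q with _ | ⟨x2, y2, h2⟩
  · rw [← Affine.Point.zero_def, add_zero, h0, add_zero]
  generalize hR : -((Affine.Point.some x1 y1 h1 : W.toAffine.Point) +
    Affine.Point.some x2 y2 h2) = R
  have hsum : (Affine.Point.some x1 y1 h1 : W.toAffine.Point) + Affine.Point.some x2 y2 h2 + R =
      0 := by
    rw [← hR]
    exact add_neg_cancel _
  have hPQ : (Affine.Point.some x1 y1 h1 : W.toAffine.Point) + Affine.Point.some x2 y2 h2 = -R :=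
    eq_neg_of_add_eq_zero_left hsum
  rw [hPQ, hneg]
  rcases R with _ | ⟨x3, y3, h3⟩
  · rw [← Affine.Point.zero_def] at hsum ⊢
    rw [add_zero] at hsum
    rw [h0, neg_zero]
    have h4 : (Affine.Point.some x1 y1 h1 : W.toAffine.Point) =
        -Affine.Point.some x2 y2 h2 := eq_neg_of_add_eq_zero_left hsum
    rw [h4, hneg]
    exact (neg_add_cancel _).symm
  · obtain ⟨l, n, e1, e2, e3, hL⟩ := sum_line h1 h2 h3 hsum
    have := hl x1 y1 x2 y2 x3 y3 l n h1 h2 h3 e1 e2 e3 hL
    exact neg_eq_of_add_eq_zero_left this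

end Pool.Agent.RkT
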