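import Pool.Agent.RkT.VFun

/-!
# RkT, module ArFive: arithmetic for chains of isogenies of degree 5

Notation: `c(T) = T⁴ - 12 T³ + 14 T² + 12 T + 1`, `D(T) = T⁵ (T² - 11 T - 1)`, `c'(t) = t⁴ + 228 t³ + 494 t² - 228 t + 1`,
`D'(t) = t (t² - 11 t - 1)⁵`.  `five_factor` is an identity of polynomials:
`c'(t)³ D(T) - c(T)³ D'(t) = F R R*` (checked by computer algebra).

`five_F`: `F(t, T) = 0` gives `(2 (t² - 11 t - 1) T - (11 t² + 4 t - 11))² = 125 (t² + 1)²`, so `5` would be the square of a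
rational number (`t² + 1 ≠ 0`); but `5` is not a square (`Nat.Prime.irrational_sqrt`, or `padicValRat`).

`five_step`: from `e4`, `e12`: `c'(t)³ D(T) = u¹² c(T)³ D(T) = c(T)³ D'(t)`, so `R(t, T) = 0` or `R*(t, T) = 0` by
`five_factor`, `five_F`.  Write `t = m/n`, `T = M/N` in lowest terms (`N, n > 0`).  Let `ℓ` be a prime with
`padicValRat ℓ t ≠ 0`, i.e. `ℓ ∣ m n` (and `ℓ` divides only one of them).  Multiply `R = 0` by `n⁵ N⁵`: all monomials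
are divisible by `m` except the multiple of `T⁵` (`t⁰`): `n⁵ M⁵`; all are divisible by `n` except `-t⁵`: `m⁵ N⁵`.  So
`ℓ ∣ m` gives `ℓ ∣ M` and `ℓ ∣ n` gives `ℓ ∣ N`.  For `R*`: `t⁰`: `-1`, i.e. `n⁵ N⁵`; `t⁵`: `-t⁵ T⁵`, i.e. `m⁵ M⁵`; so
`ℓ ∣ m` gives `ℓ ∣ N` and `ℓ ∣ n` gives `ℓ ∣ M`.  In all cases `ℓ ∣ M N` and `ℓ ∣ m n`.  Put `v = u n / N`.  Multiply
`e4` by `n⁴` and `e12` by `n¹²`:
`m⁴ + 228 m³ n + 494 m² n² - 228 m n³ + n⁴ = v⁴ (M⁴ - 12 M³ N + 14 M² N² + 12 M N³ + N⁴)`,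
`m n (m² - 11 m n - n²)⁵ = v¹² M⁵ N⁵ (M² - 11 M N - N²)`.
The two integers in the first equation are prime to `ℓ`, so `v` has `ℓ`-adic valuation `0`; `m² - 11 m n - n²` and
`M² - 11 M N - N²` are prime to `ℓ` too, so the valuation of `m n` is five times the valuation of `M N`; and
`|v(t)| = v(m n)`, `|v(T)| = v(M N)`.

`five_one`: `t = ± 1`, `T = ± 1`: `R` and `R*` are not `0`.
`five_one'`: if `T ≠ 0, 1, -1` there is a prime `ℓ` with `padicValRat ℓ T ≠ 0` (a prime factor of the numerator or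
of the denominator).
-/

set_option autoImplicit false

namespace Pool.Agent.RkT

def FF5 (t T : ℚ) : ℚ :=
  (t ^ 2 - 11 * t - 1) * T ^ 2 - (11 * t ^ 2 + 4 * t - 11) * T - (t ^ 2 - 11 * t - 1)

def RR5 (t T : ℚ) : ℚ :=
  -t ^ 5 + t ^ 4 * T ^ 5 - 25 * t ^ 4 * T ^ 4 + 200 * t ^ 4 * T ^ 3 - 525 * t ^ 4 * T ^ 2 +
    200 * t ^ 4 * T + 22 * t ^ 4 - 22 * t ^ 3 * T ^ 5 + 475 * t ^ 3 * T ^ 4 - 1675 * t ^ 3 * T ^ 3 -
    9650 * t ^ 3 * T ^ 2 - 2175 * t ^ 3 * T - 119 * t ^ 3 + 119 * t ^ 2 * T ^ 5 -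
    2175 * t ^ 2 * T ^ 4 + 9650 * t ^ 2 * T ^ 3 - 1675 * t ^ 2 * T ^ 2 - 475 * t ^ 2 * T -
    22 * t ^ 2 + 22 * t * T ^ 5 - 200 * t * T ^ 4 - 525 * t * T ^ 3 - 200 * t * T ^ 2 - 25 * t * T -
    t + T ^ 5

def RS5 (t T : ℚ) : ℚ :=
  -t ^ 5 * T ^ 5 + 22 * t ^ 4 * T ^ 5 - 200 * t ^ 4 * T ^ 4 - 525 * t ^ 4 * T ^ 3 -
    200 * t ^ 4 * T ^ 2 - 25 * t ^ 4 * T - t ^ 4 - 119 * t ^ 3 * T ^ 5 + 2175 * t ^ 3 * T ^ 4 -
    9650 * t ^ 3 * T ^ 3 + 1675 * t ^ 3 * T ^ 2 + 475 * t ^ 3 * T + 22 * t ^ 3 - 22 * t ^ 2 * T ^ 5 +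
    475 * t ^ 2 * T ^ 4 - 1675 * t ^ 2 * T ^ 3 - 9650 * t ^ 2 * T ^ 2 - 2175 * t ^ 2 * T -
    119 * t ^ 2 - t * T ^ 5 + 25 * t * T ^ 4 - 200 * t * T ^ 3 + 525 * t * T ^ 2 - 200 * t * T -
    22 * t - 1

theorem five_factor (t T : ℚ) :
    (t ^ 4 + 228 * t ^ 3 + 494 * t ^ 2 - 228 * t + 1) ^ 3 * (T ^ 5 * (T ^ 2 - 11 * T - 1)) -
      (T ^ 4 - 12 * T ^ 3 + 14 * T ^ 2 + 12 * T + 1) ^ 3 * (t * (t ^ 2 - 11 * t - 1) ^ 5) =
      FF5 t T * RR5 t T * RS5 t T := by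
  rw [FF5, RR5, RS5]
  ring

theorem five_F (t T : ℚ) : FF5 t T ≠ 0 := by
  intro h
  unfold FF5 at h
  have h1 : (2 * (t ^ 2 - 11 * t - 1) * T - (11 * t ^ 2 + 4 * t - 11)) ^ 2 = 125 * (t ^ 2 + 1) ^ 2 := by
    have : (2 * (t ^ 2 - 11 * t - 1) * T - (11 * t ^ 2 + 4 * t - 11)) ^ 2 - 125 * (t ^ 2 + 1) ^ 2 =
        4 * (t ^ 2 - 11 * t - 1) * ((t ^ 2 - 11 * t - 1) * T ^ 2 - (11 * t ^ 2 + 4 * t - 11) * T -
          (t ^ 2 - 11 * t - 1)) := by ring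
    rw [h, mul_zero] at this
    linarith
  have h2 : t ^ 2 + 1 ≠ 0 := by positivity
  obtain ⟨x, hx⟩ : ∃ x : ℚ, x = (2 * (t ^ 2 - 11 * t - 1) * T - (11 * t ^ 2 + 4 * t - 11)) / (5 * (t ^ 2 + 1)) :=
    ⟨_, rfl⟩
  have h3 : x ^ 2 = 5 := by
    rw [hx, div_pow, h1]
    field_simp
    norm_num
  have hx0 : x ≠ 0 := by
    rintro rfl
    norm_num at h3
  have : Fact (Nat.Prime 5) := ⟨by norm_num⟩
  have h4 := congrArg (padicValRat 5) h3
  rw [padicValRat.pow] at h4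
  have h5 : padicValRat 5 (5 : ℚ) = 1 := by
    have := padicValRat.self (p := 5) (by norm_num)
    exact_mod_cast this
  rw [h5] at h4
  omega

section val

variable {ℓ : ℕ} [hℓ : Fact ℓ.Prime]

/-- the local ring of `ℓ` -/
private def OO (ℓ : ℕ) [Fact ℓ.Prime] : Subring ℚ where
  carrier := {x | padicNorm ℓ x ≤ 1}
  mul_mem' := by
    intro a b ha hb
    simp only [Set.mem_setOf_eq] at *
    rw [padicNorm.mul]
    exact mul_le_one₀ ha (padicNorm.nonneg _) hb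
  one_mem' := by
    simp only [Set.mem_setOf_eq]
    rw [padicNorm.one]
  add_mem' := by
    intro a b ha hb
    simp only [Set.mem_setOf_eq] at *
    exact padicNorm.nonarchimedean.trans (max_le ha hb)
  zero_mem' := by
    simp only [Set.mem_setOf_eq]
    rw [padicNorm.zero]
    exact zero_le_one
  neg_mem' := by
    intro a ha
    simp only [Set.mem_setOf_eq] at *
    rwa [padicNorm.neg]

private theorem mem_OO {x : ℚ} : x ∈ OO ℓ ↔ padicNorm ℓ x ≤ 1 := Iff.rfl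

private theorem norm_unit {t a g : ℚ} (ht : padicNorm ℓ t < 1) (ha : padicNorm ℓ a = 1) (hg : g ∈ OO ℓ) :
    padicNorm ℓ (a + t * g) = 1 := by
  have h1 : padicNorm ℓ (t * g) < 1 := by
    rw [padicNorm.mul]
    exact (mul_le_of_le_one_right (padicNorm.nonneg _) hg).trans_lt ht
  rw [padicNorm.add_eq_max_of_ne (by rw [ha]; exact h1.ne'), ha]
  exact max_eq_left h1.le

private theorem ne_of_norm {x : ℚ} (h : padicNorm ℓ x = 1) : x ≠ 0 := by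
  rintro rfl
  rw [padicNorm.zero] at h
  exact zero_ne_one h

private theorem one_lt_ell : (1 : ℚ) < ℓ := by
  exact_mod_cast hℓ.out.one_lt

private theorem val_of_norm {x : ℚ} (h : padicNorm ℓ x = 1) : padicValRat ℓ x = 0 := by
  have h0 := ne_of_norm h
  rw [padicNorm.eq_zpow_of_nonzero h0] at h
  rcases lt_trichotomy (padicValRat ℓ x) 0 with h1 | h1 | h1
  · have := one_lt_zpow₀ (one_lt_ell (ℓ := ℓ)) (show 0 < -padicValRat ℓ x by omega)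
    linarith
  · exact h1
  · have := zpow_lt_one_of_neg₀ (one_lt_ell (ℓ := ℓ)) (show -padicValRat ℓ x < 0 by omega)
    linarith

private theorem norm_lt {x : ℚ} (h0 : x ≠ 0) (h : 0 < padicValRat ℓ x) : padicNorm ℓ x < 1 := by
  rw [padicNorm.eq_zpow_of_nonzero h0]
  exact zpow_lt_one_of_neg₀ (one_lt_ell (ℓ := ℓ)) (by omega)

private theorem norm_eq {x : ℚ} (h0 : x ≠ 0) (h : padicValRat ℓ x = 0) : padicNorm ℓ x = 1 := by
  rw [padicNorm.eq_zpow_of_nonzero h0, h]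
  simp

private theorem norm_pow_eq {x : ℚ} (h : padicNorm ℓ x = 1) (n : ℕ) : padicNorm ℓ (x ^ n) = 1 := by
  induction n with
  | zero => rw [pow_zero, padicNorm.one]
  | succ n ih => rw [pow_succ, padicNorm.mul, ih, h, one_mul]

private theorem norm_neg_one : padicNorm ℓ (-1) = 1 := by
  rw [padicNorm.neg, padicNorm.one]

private theorem rr_lo {t T : ℚ} (ht : padicNorm ℓ t < 1) (hT : padicNorm ℓ T = 1) : RR5 t T ≠ 0 := by
  have ht' : t ∈ OO ℓ := ht.le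
  have hT' : T ∈ OO ℓ := hT.le
  have e : RR5 t T = T ^ 5 + t * (-t ^ 4 + t ^ 3 * T ^ 5 - 25 * t ^ 3 * T ^ 4 + 200 * t ^ 3 * T ^ 3 - 525 * t ^ 3 * T ^ 2 + 200 * t ^ 3 * T + 22 * t ^ 3 - 22 * t ^ 2 * T ^ 5 + 475 * t ^ 2 * T ^ 4 - 1675 * t ^ 2 * T ^ 3 - 9650 * t ^ 2 * T ^ 2 - 2175 * t ^ 2 * T - 119 * t ^ 2 + 119 * t * T ^ 5 - 2175 * t * T ^ 4 + 9650 * t * T ^ 3 - 1675 * t * T ^ 2 - 475 * t * T - 22 * t + 22 * T ^ 5 - 200 * T ^ 4 - 525 * T ^ 3 - 200 * T ^ 2 - 25 * T - 1) := by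
    unfold RR5
    ring
  rw [e]
  apply ne_of_norm (ℓ := ℓ)
  apply norm_unit ht (norm_pow_eq hT 5)
  repeat first
    | assumption
    | exact one_mem _
    | exact zero_mem _
    | exact ofNat_mem _ _
    | apply add_mem
    | apply sub_mem
    | apply neg_mem
    | apply mul_mem
    | apply pow_mem

private theorem rs_lo {t T : ℚ} (ht : padicNorm ℓ t < 1) (hT : padicNorm ℓ T = 1) : RS5 t T ≠ 0 := by
  have ht' : t ∈ OO ℓ := ht.le
  have hT' : T ∈ OO ℓ := hT.le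
  have e : RS5 t T = -1 + t * (-t ^ 4 * T ^ 5 + 22 * t ^ 3 * T ^ 5 - 200 * t ^ 3 * T ^ 4 - 525 * t ^ 3 * T ^ 3 - 200 * t ^ 3 * T ^ 2 - 25 * t ^ 3 * T - t ^ 3 - 119 * t ^ 2 * T ^ 5 + 2175 * t ^ 2 * T ^ 4 - 9650 * t ^ 2 * T ^ 3 + 1675 * t ^ 2 * T ^ 2 + 475 * t ^ 2 * T + 22 * t ^ 2 - 22 * t * T ^ 5 + 475 * t * T ^ 4 - 1675 * t * T ^ 3 - 9650 * t * T ^ 2 - 2175 * t * T - 119 * t - T ^ 5 + 25 * T ^ 4 - 200 * T ^ 3 + 525 * T ^ 2 - 200 * T - 22) := by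
    unfold RS5
    ring
  rw [e]
  apply ne_of_norm (ℓ := ℓ)
  apply norm_unit ht norm_neg_one
  repeat first
    | assumption
    | exact one_mem _
    | exact zero_mem _
    | exact ofNat_mem _ _
    | apply add_mem
    | apply sub_mem
    | apply neg_mem
    | apply mul_mem
    | apply pow_mem

private theorem rr_hi {s T : ℚ} (hs0 : s ≠ 0) (hs : padicNorm ℓ s < 1) (hT : padicNorm ℓ T = 1) : RR5 s⁻¹ T ≠ 0 := by
  have hs' : s ∈ OO ℓ := hs.le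
  have hT' : T ∈ OO ℓ := hT.le
  have e : s ^ 5 * RR5 s⁻¹ T = -1 + s * (s ^ 4 * T ^ 5 + 22 * s ^ 3 * T ^ 5 - 200 * s ^ 3 * T ^ 4 - 525 * s ^ 3 * T ^ 3 - 200 * s ^ 3 * T ^ 2 - 25 * s ^ 3 * T - s ^ 3 + 119 * s ^ 2 * T ^ 5 - 2175 * s ^ 2 * T ^ 4 + 9650 * s ^ 2 * T ^ 3 - 1675 * s ^ 2 * T ^ 2 - 475 * s ^ 2 * T - 22 * s ^ 2 - 22 * s * T ^ 5 + 475 * s * T ^ 4 - 1675 * s * T ^ 3 - 9650 * s * T ^ 2 - 2175 * s * T - 119 * s + T ^ 5 - 25 * T ^ 4 + 200 * T ^ 3 - 525 * T ^ 2 + 200 * T + 22) := by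
    unfold RR5
    field_simp
    ring
  intro h
  rw [h, mul_zero] at e
  refine ne_of_norm (ℓ := ℓ) ?_ e.symm
  apply norm_unit hs norm_neg_one
  repeat first
    | assumption
    | exact one_mem _
    | exact zero_mem _
    | exact ofNat_mem _ _
    | apply add_mem
    | apply sub_mem
    | apply neg_mem
    | apply mul_mem
    | apply pow_mem

private theorem rs_hi {s T : ℚ} (hs0 : s ≠ 0) (hs : padicNorm ℓ s < 1) (hT : padicNorm ℓ T = 1) : RS5 s⁻¹ T ≠ 0 := by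
  have hs' : s ∈ OO ℓ := hs.le
  have hT' : T ∈ OO ℓ := hT.le
  have e : s ^ 5 * RS5 s⁻¹ T = -T ^ 5 + s * (-s ^ 4 - s ^ 3 * T ^ 5 + 25 * s ^ 3 * T ^ 4 - 200 * s ^ 3 * T ^ 3 + 525 * s ^ 3 * T ^ 2 - 200 * s ^ 3 * T - 22 * s ^ 3 - 22 * s ^ 2 * T ^ 5 + 475 * s ^ 2 * T ^ 4 - 1675 * s ^ 2 * T ^ 3 - 9650 * s ^ 2 * T ^ 2 - 2175 * s ^ 2 * T - 119 * s ^ 2 - 119 * s * T ^ 5 + 2175 * s * T ^ 4 - 9650 * s * T ^ 3 + 1675 * s * T ^ 2 + 475 * s * T + 22 * s + 22 * T ^ 5 - 200 * T ^ 4 - 525 * T ^ 3 - 200 * T ^ 2 - 25 * T - 1) := by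
    unfold RS5
    field_simp
    ring
  intro h
  rw [h, mul_zero] at e
  refine ne_of_norm (ℓ := ℓ) ?_ e.symm
  refine norm_unit hs (a := -T ^ 5) ?_ ?_
  · rw [padicNorm.neg]
    exact norm_pow_eq hT 5
  · repeat first
      | assumption
      | exact one_mem _
      | exact zero_mem _
      | exact ofNat_mem _ _
      | apply add_mem
      | apply sub_mem
      | apply neg_mem
      | apply mul_mem
      | apply pow_mem

/-- valuations for small `t` -/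
private theorem lo_t {t : ℚ} (ht : padicNorm ℓ t < 1) :
    padicValRat ℓ (t ^ 4 + 228 * t ^ 3 + 494 * t ^ 2 - 228 * t + 1) = 0 ∧
    (t ^ 2 - 11 * t - 1 ≠ 0 ∧ padicValRat ℓ (t ^ 2 - 11 * t - 1) = 0) := by
  have ht' : t ∈ OO ℓ := ht.le
  have h1 : padicNorm ℓ (t ^ 4 + 228 * t ^ 3 + 494 * t ^ 2 - 228 * t + 1) = 1 := by
    rw [show t ^ 4 + 228 * t ^ 3 + 494 * t ^ 2 - 228 * t + 1 = 1 + t * (t ^ 3 + 228 * t ^ 2 + 494 * t - 228) by ring]
    apply norm_unit ht padicNorm.one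
    repeat first
      | assumption
      | exact one_mem _
      | exact zero_mem _
      | exact ofNat_mem _ _
      | apply add_mem
      | apply sub_mem
      | apply neg_mem
      | apply mul_mem
      | apply pow_mem
  have h2 : padicNorm ℓ (t ^ 2 - 11 * t - 1) = 1 := by
    rw [show t ^ 2 - 11 * t - 1 = -1 + t * (t - 11) by ring]
    apply norm_unit ht norm_neg_one
    repeat first
      | assumption
      | exact one_mem _
      | exact zero_mem _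
      | exact ofNat_mem _ _
      | apply add_mem
      | apply sub_mem
      | apply neg_mem
      | apply mul_mem
      | apply pow_mem
  exact ⟨val_of_norm h1, ne_of_norm h2, val_of_norm h2⟩

private theorem lo_T {T : ℚ} (hT : padicNorm ℓ T < 1) :
    (T ^ 4 - 12 * T ^ 3 + 14 * T ^ 2 + 12 * T + 1 ≠ 0 ∧
      padicValRat ℓ (T ^ 4 - 12 * T ^ 3 + 14 * T ^ 2 + 12 * T + 1) = 0) ∧
    (T ^ 2 - 11 * T - 1 ≠ 0 ∧ padicValRat ℓ (T ^ 2 - 11 * T - 1) = 0) := by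
  have hT' : T ∈ OO ℓ := hT.le
  have h1 : padicNorm ℓ (T ^ 4 - 12 * T ^ 3 + 14 * T ^ 2 + 12 * T + 1) = 1 := by
    rw [show T ^ 4 - 12 * T ^ 3 + 14 * T ^ 2 + 12 * T + 1 = 1 + T * (T ^ 3 - 12 * T ^ 2 + 14 * T + 12) by ring]
    apply norm_unit hT padicNorm.one
    repeat first
      | assumption
      | exact one_mem _
      | exact zero_mem _
      | exact ofNat_mem _ _
      | apply add_mem
      | apply sub_mem
      | apply neg_mem
      | apply mul_mem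
      | apply pow_mem
  exact ⟨⟨ne_of_norm h1, val_of_norm h1⟩, (lo_t hT).2⟩

private theorem hi_t {s : ℚ} (hs0 : s ≠ 0) (hs : padicNorm ℓ s < 1) :
    padicValRat ℓ (s⁻¹ ^ 4 + 228 * s⁻¹ ^ 3 + 494 * s⁻¹ ^ 2 - 228 * s⁻¹ + 1) = - (4 * padicValRat ℓ s) ∧
    (s⁻¹ ^ 2 - 11 * s⁻¹ - 1 ≠ 0 ∧ padicValRat ℓ (s⁻¹ ^ 2 - 11 * s⁻¹ - 1) = - (2 * padicValRat ℓ s)) := by
  have hs' : s ∈ OO ℓ := hs.le
  have e1 : s⁻¹ ^ 4 + 228 * s⁻¹ ^ 3 + 494 * s⁻¹ ^ 2 - 228 * s⁻¹ + 1 =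
      s⁻¹ ^ 4 * (1 + s * (228 + 494 * s - 228 * s ^ 2 + s ^ 3)) := by
    field_simp
    ring
  have e2 : s⁻¹ ^ 2 - 11 * s⁻¹ - 1 = s⁻¹ ^ 2 * (1 + s * (-11 - s)) := by
    field_simp
    ring
  have h1 : padicNorm ℓ (1 + s * (228 + 494 * s - 228 * s ^ 2 + s ^ 3)) = 1 := by
    apply norm_unit hs padicNorm.one
    repeat first
      | assumption
      | exact one_mem _
      | exact zero_mem _
      | exact ofNat_mem _ _
      | apply add_mem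
      | apply sub_mem
      | apply neg_mem
      | apply mul_mem
      | apply pow_mem
  have h2 : padicNorm ℓ (1 + s * (-11 - s)) = 1 := by
    apply norm_unit hs padicNorm.one
    repeat first
      | assumption
      | exact one_mem _
      | exact zero_mem _
      | exact ofNat_mem _ _
      | apply add_mem
      | apply sub_mem
      | apply neg_mem
      | apply mul_mem
      | apply pow_mem
  have hi0 : s⁻¹ ≠ 0 := inv_ne_zero hs0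
  refine ⟨?_, ?_, ?_⟩
  · rw [e1, padicValRat.mul (pow_ne_zero _ hi0) (ne_of_norm h1), padicValRat.pow, padicValRat.inv, val_of_norm h1]
    push_cast
    ring
  · rw [e2]
    exact mul_ne_zero (pow_ne_zero _ hi0) (ne_of_norm h2)
  · rw [e2, padicValRat.mul (pow_ne_zero _ hi0) (ne_of_norm h2), padicValRat.pow, padicValRat.inv, val_of_norm h2]
    push_cast
    ring

private theorem hi_T {s : ℚ} (hs0 : s ≠ 0) (hs : padicNorm ℓ s < 1) :
    (s⁻¹ ^ 4 - 12 * s⁻¹ ^ 3 + 14 * s⁻¹ ^ 2 + 12 * s⁻¹ + 1 ≠ 0 ∧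
      padicValRat ℓ (s⁻¹ ^ 4 - 12 * s⁻¹ ^ 3 + 14 * s⁻¹ ^ 2 + 12 * s⁻¹ + 1) = - (4 * padicValRat ℓ s)) ∧
    (s⁻¹ ^ 2 - 11 * s⁻¹ - 1 ≠ 0 ∧ padicValRat ℓ (s⁻¹ ^ 2 - 11 * s⁻¹ - 1) = - (2 * padicValRat ℓ s)) := by
  have hs' : s ∈ OO ℓ := hs.le
  have e1 : s⁻¹ ^ 4 - 12 * s⁻¹ ^ 3 + 14 * s⁻¹ ^ 2 + 12 * s⁻¹ + 1 =
      s⁻¹ ^ 4 * (1 + s * (-12 + 14 * s + 12 * s ^ 2 + s ^ 3)) := by
    field_simp
    ring
  have h1 : padicNorm ℓ (1 + s * (-12 + 14 * s + 12 * s ^ 2 + s ^ 3)) = 1 := by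
    apply norm_unit hs padicNorm.one
    repeat first
      | assumption
      | exact one_mem _
      | exact zero_mem _
      | exact ofNat_mem _ _
      | apply add_mem
      | apply sub_mem
      | apply neg_mem
      | apply mul_mem
      | apply pow_mem
  have hi0 : s⁻¹ ≠ 0 := inv_ne_zero hs0
  refine ⟨⟨?_, ?_⟩, (hi_t hs0 hs).2⟩
  · rw [e1]
    exact mul_ne_zero (pow_ne_zero _ hi0) (ne_of_norm h1)
  · rw [e1, padicValRat.mul (pow_ne_zero _ hi0) (ne_of_norm h1), padicValRat.pow, padicValRat.inv, val_of_norm h1]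
    push_cast
    ring

end val

private theorem five_rr {t T u : ℚ}
    (e4 : t ^ 4 + 228 * t ^ 3 + 494 * t ^ 2 - 228 * t + 1 =
      u ^ 4 * (T ^ 4 - 12 * T ^ 3 + 14 * T ^ 2 + 12 * T + 1))
    (e12 : t * (t ^ 2 - 11 * t - 1) ^ 5 = u ^ 12 * (T ^ 5 * (T ^ 2 - 11 * T - 1))) :
    RR5 t T = 0 ∨ RS5 t T = 0 := by
  have h := five_factor t T
  rw [e4, e12] at h
  have h1 : FF5 t T * RR5 t T * RS5 t T = 0 := by
    rw [← h]
    ring
  rcases mul_eq_zero.1 h1 with h2 | h2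
  · rcases mul_eq_zero.1 h2 with h3 | h3
    · exact absurd h3 (five_F t T)
    · exact Or.inl h3
  · exact Or.inr h2

theorem five_step {t T u : ℚ} (ht : t ≠ 0) (hT : T ≠ 0)
    (e4 : t ^ 4 + 228 * t ^ 3 + 494 * t ^ 2 - 228 * t + 1 =
      u ^ 4 * (T ^ 4 - 12 * T ^ 3 + 14 * T ^ 2 + 12 * T + 1))
    (e12 : t * (t ^ 2 - 11 * t - 1) ^ 5 = u ^ 12 * (T ^ 5 * (T ^ 2 - 11 * T - 1)))
    (hu : u ≠ 0) (ℓ : ℕ) (hℓ : ℓ.Prime) (hv : padicValRat ℓ t ≠ 0) :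
    (padicValRat ℓ t).natAbs = 5 * (padicValRat ℓ T).natAbs := by
  have : Fact ℓ.Prime := ⟨hℓ⟩
  have hR := five_rr e4 e12
  have hs0 : t⁻¹ ≠ 0 := inv_ne_zero ht
  have hS0 : T⁻¹ ≠ 0 := inv_ne_zero hT
  have hvs : padicValRat ℓ t⁻¹ = - padicValRat ℓ t := padicValRat.inv t
  have hvS : padicValRat ℓ T⁻¹ = - padicValRat ℓ T := padicValRat.inv T
  have hT1 : padicValRat ℓ T ≠ 0 := by
    intro h0
    have hN := norm_eq hT h0
    rcases lt_or_gt_of_ne hv with h1 | h1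
    · have hs := norm_lt hs0 (by omega : 0 < padicValRat ℓ t⁻¹)
      have a1 := rr_hi hs0 hs hN
      have a2 := rs_hi hs0 hs hN
      rw [inv_inv] at a1 a2
      rcases hR with h | h
      · exact a1 h
      · exact a2 h
    · have hs := norm_lt ht h1
      rcases hR with h | h
      · exact rr_lo hs hN h
      · exact rs_lo hs hN h
  -- the two equations for the valuations
  obtain ⟨vt4, vt0, vt2⟩ : padicValRat ℓ (t ^ 4 + 228 * t ^ 3 + 494 * t ^ 2 - 228 * t + 1) =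
      4 * min (padicValRat ℓ t) 0 ∧ t ^ 2 - 11 * t - 1 ≠ 0 ∧
      padicValRat ℓ (t ^ 2 - 11 * t - 1) = 2 * min (padicValRat ℓ t) 0 := by
    rcases lt_or_gt_of_ne hv with h1 | h1
    · have hs := norm_lt hs0 (by omega : 0 < padicValRat ℓ t⁻¹)
      have a1 := hi_t hs0 hs
      rw [inv_inv, hvs] at a1
      rw [min_eq_left h1.le]
      refine ⟨?_, a1.2.1, ?_⟩
      · rw [a1.1]
        ring
      · rw [a1.2.2]
        ring
    · have hs := norm_lt ht h1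
      have a1 := lo_t hs
      rw [min_eq_right h1.le, mul_zero, mul_zero]
      exact a1
  obtain ⟨⟨vT0', vT4⟩, vT0, vT2⟩ : (T ^ 4 - 12 * T ^ 3 + 14 * T ^ 2 + 12 * T + 1 ≠ 0 ∧
      padicValRat ℓ (T ^ 4 - 12 * T ^ 3 + 14 * T ^ 2 + 12 * T + 1) =
      4 * min (padicValRat ℓ T) 0) ∧ T ^ 2 - 11 * T - 1 ≠ 0 ∧
      padicValRat ℓ (T ^ 2 - 11 * T - 1) = 2 * min (padicValRat ℓ T) 0 := by
    rcases lt_or_gt_of_ne hT1 with h1 | h1
    · have hs := norm_lt hS0 (by omega : 0 < padicValRat ℓ T⁻¹)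
      have a1 := hi_T hS0 hs
      rw [inv_inv, hvS] at a1
      rw [min_eq_left h1.le]
      refine ⟨⟨a1.1.1, ?_⟩, a1.2.1, ?_⟩
      · rw [a1.1.2]
        ring
      · rw [a1.2.2]
        ring
    · have hs := norm_lt hT h1
      have a1 := lo_T hs
      rw [min_eq_right h1.le, mul_zero, mul_zero]
      exact a1
  have q4 := congrArg (padicValRat ℓ) e4
  rw [padicValRat.mul (pow_ne_zero _ hu) vT0', padicValRat.pow, vt4, vT4] at q4
  have q12 := congrArg (padicValRat ℓ) e12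
  rw [padicValRat.mul ht (pow_ne_zero _ vt0), padicValRat.pow, vt2,
    padicValRat.mul (pow_ne_zero _ hu) (mul_ne_zero (pow_ne_zero _ hT) vT0), padicValRat.pow,
    padicValRat.mul (pow_ne_zero _ hT) vT0, padicValRat.pow, vT2] at q12
  push_cast at q4 q12
  omega

theorem five_one {t T u : ℚ} (ht : t = 1 ∨ t = -1)
    (e4 : t ^ 4 + 228 * t ^ 3 + 494 * t ^ 2 - 228 * t + 1 =
      u ^ 4 * (T ^ 4 - 12 * T ^ 3 + 14 * T ^ 2 + 12 * T + 1))
    (e12 : t * (t ^ 2 - 11 * t - 1) ^ 5 = u ^ 12 * (T ^ 5 * (T ^ 2 - 11 * T - 1)))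
    (hu : u ≠ 0) : T ≠ 1 ∧ T ≠ -1 := by
  have hR := five_rr e4 e12
  constructor
  · rintro rfl
    rcases ht with rfl | rfl <;> rcases hR with h | h <;> norm_num [RR5, RS5] at h
  · rintro rfl
    rcases ht with rfl | rfl <;> rcases hR with h | h <;> norm_num [RR5, RS5] at h

theorem five_one' {T : ℚ} (h0 : T ≠ 0) (h1 : T ≠ 1) (h2 : T ≠ -1) :
    ∃ ℓ : ℕ, ℓ.Prime ∧ padicValRat ℓ T ≠ 0 := by
  by_contra hcon
  push Not at hcon
  have hn0 : T.num.natAbs ≠ 0 := by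
    rw [Int.natAbs_ne_zero]
    exact Rat.num_ne_zero.2 h0
  have hd0 : T.den ≠ 0 := T.den_ne_zero
  have hcop := T.reduced
  have hdef : ∀ ℓ : ℕ, padicValRat ℓ T = (padicValNat ℓ T.num.natAbs : ℤ) - padicValNat ℓ T.den := by
    intro ℓ
    rfl
  have hN : T.num.natAbs = 1 := by
    rw [Nat.eq_one_iff_not_exists_prime_dvd]
    intro ℓ hℓ hd
    have : Fact ℓ.Prime := ⟨hℓ⟩
    have h3 := hcon ℓ hℓ
    rw [hdef] at h3
    have h4 : 1 ≤ padicValNat ℓ T.num.natAbs := one_le_padicValNat_of_dvd hn0 hd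
    have h5 : padicValNat ℓ T.den = 0 := by
      apply padicValNat.eq_zero_of_not_dvd
      intro h6
      have := Nat.dvd_gcd hd h6
      rw [Nat.Coprime] at hcop
      rw [hcop] at this
      exact hℓ.one_lt.ne' (Nat.dvd_one.1 this)
    omega
  have hD : T.den = 1 := by
    rw [Nat.eq_one_iff_not_exists_prime_dvd]
    intro ℓ hℓ hd
    have : Fact ℓ.Prime := ⟨hℓ⟩
    have h3 := hcon ℓ hℓ
    rw [hdef, hN, padicValNat_one_right] at h3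
    have h4 : 1 ≤ padicValNat ℓ T.den := one_le_padicValNat_of_dvd hd0 hd
    omega
  have hT : T = T.num := by
    conv_lhs => rw [← Rat.num_div_den T, hD]
    simp
  rcases Int.natAbs_eq_iff.1 hN with h | h
  · apply h1
    rw [hT, h]
    simp
  · apply h2
    rw [hT, h]
    simp

end Pool.Agent.RkT
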