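import Pool.Agent.RkT.VFun

/-!
# RkT, module ArSeven: arithmetic for chains of isogenies of degree 7

`w7v d` is the 2-adic valuation of `m n (m - n)` for `d = m/n` in lowest terms.

`seven_pos`: one of `m, n, m - n` is even and none is `0` (`d ≠ 0, 1`).
`seven_step`: `d = m/n`, `D = M/N` in lowest terms; `v = u n²/N²`.  Multiply `e4` by `n⁸` and `e12` by `n²⁴`: with
`c(m, n) = n⁸ C4 (m/n)`, `c'(m, n) = n⁸ C4' (m/n)` (homogeneous polynomials of degree 8 with integral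
coefficients; `C4 d = d⁸ + ...`: expand `16 (a7² - 3 b7) = ((1 + d - d²)² + 4 (d² - d³))² - 24 (1 + d - d²)(d² - d³)`, and
`C4' d = C4 d + 240 s7 d`, where `s7 d` is a polynomial in `d` of degree at most `8` with integral coefficients) one gets
`c'(m, n) = v⁴ c(M, N)` and `m n (m - n) H(m, n)⁷ = v¹² M⁷ N⁷ (M - N)⁷ H(M, N)` with
`H(m, n) = m³ - 8 m² n + 5 m n² + n³`.  Modulo 2 both `c` and `c'` are `(n² + m n - m²)⁴`, which is odd for coprime
`m, n`, and `H(m, n)` is odd for coprime `m, n`.  So `v` has 2-adic valuation `0` and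
`w7v d = 7 w7v D`.
-/

set_option autoImplicit false

namespace Pool.Agent.RkT

/-- the 2-adic valuation of `m n (m - n)` for `d = m/n` -/
def w7v (d : ℚ) : ℕ := padicValInt 2 (d.num * (d.den : ℤ) * (d.num - d.den))

private def aA (m n : ℤ) : ℤ := n ^ 2 + m * n - m ^ 2

private def aB (m n : ℤ) : ℤ := m ^ 2 * n - m ^ 3

private def cc (m n : ℤ) : ℤ := (4 * n * aB m n + aA m n ^ 2) ^ 2 - 24 * aA m n * aB m n * n ^ 3

private def ss (m n : ℤ) : ℤ := 3 * aA m n * aB m n * n ^ 3 + 6 * aB m n ^ 2 * n ^ 2 +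
  6 * (m ^ 2 - m * n) ^ 2 * n ^ 4 +
  (4 * n * aB m n + aA m n ^ 2) * (-aB m n + n * (m ^ 2 - m * n)) * n

private def hh (m n : ℤ) : ℤ := m ^ 3 - 8 * m ^ 2 * n + 5 * m * n ^ 2 + n ^ 3

private theorem cc_eq (m n : ℤ) (hn : n ≠ 0) : C4 ((m : ℚ) / n) * (n : ℚ) ^ 8 = (cc m n : ℤ) := by
  have hn' : (n : ℚ) ≠ 0 := by exact_mod_cast hn
  simp only [C4, a7, b7, cc, aA, aB]
  push_cast
  field_simp
  ring

private theorem cc_eq' (m n : ℤ) (hn : n ≠ 0) :
    C4' ((m : ℚ) / n) * (n : ℚ) ^ 8 = (cc m n + 240 * ss m n : ℤ) := by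
  have hn' : (n : ℚ) ≠ 0 := by exact_mod_cast hn
  simp only [C4', b7', s7, g7, a7, b7, cc, ss, aA, aB]
  push_cast
  field_simp
  ring

private theorem hh_eq (m n : ℤ) (hn : n ≠ 0) :
    (((m : ℚ) / n) ^ 3 - 8 * ((m : ℚ) / n) ^ 2 + 5 * ((m : ℚ) / n) + 1) * (n : ℚ) ^ 3 =
      (hh m n : ℤ) := by
  have hn' : (n : ℚ) ≠ 0 := by exact_mod_cast hn
  simp only [hh]
  push_cast
  field_simp

private theorem not_both {m n : ℤ} (h : IsCoprime m n) : Odd m ∨ Odd n := by
  by_contra hc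
  push Not at hc
  obtain ⟨h1, h2⟩ := hc
  rw [Int.not_odd_iff_even] at h1 h2
  have h3 : IsUnit (2 : ℤ) := h.isUnit_of_dvd' h1.two_dvd h2.two_dvd
  exact absurd h3 (by decide)

private theorem aA_odd {m n : ℤ} (h : Odd m ∨ Odd n) : Odd (aA m n) := by
  unfold aA
  rcases Int.even_or_odd m with hm | hm <;> rcases Int.even_or_odd n with hn | hn
  · rcases h with h | h
    · exact absurd hm (Int.not_even_iff_odd.2 h)
    · exact absurd hn (Int.not_even_iff_odd.2 h)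
  · have h1 := hn.pow (n := 2)
    have h2 : Even (m * n) := hm.mul_right n
    have h3 : Even (m ^ 2) := hm.pow_of_ne_zero (by norm_num)
    exact (h1.add_even h2).sub_even h3
  · have h1 : Even (n ^ 2) := hn.pow_of_ne_zero (by norm_num)
    have h2 : Even (m * n) := hn.mul_left m
    have h3 : Odd (m ^ 2) := hm.pow
    exact (h1.add h2).sub_odd h3
  · have h1 : Odd (n ^ 2) := hn.pow
    have h2 : Odd (m * n) := hm.mul hn
    have h3 : Odd (m ^ 2) := hm.pow
    exact (h1.add_odd h2).sub_odd h3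

private theorem hh_odd {m n : ℤ} (h : Odd m ∨ Odd n) : Odd (hh m n) := by
  unfold hh
  have e8 : Even (8 * m ^ 2 * n) := ⟨4 * m ^ 2 * n, by ring⟩
  rcases Int.even_or_odd m with hm | hm <;> rcases Int.even_or_odd n with hn | hn
  · rcases h with h | h
    · exact absurd hm (Int.not_even_iff_odd.2 h)
    · exact absurd hn (Int.not_even_iff_odd.2 h)
  · have h1 : Odd (n ^ 3) := hn.pow
    have h2 : Even (5 * m * n ^ 2) := (hm.mul_left 5).mul_right _
    have h3 : Even (m ^ 3) := hm.pow_of_ne_zero (by norm_num)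
    exact ((h3.sub e8).add h2).add_odd h1
  · have h1 : Even (n ^ 3) := hn.pow_of_ne_zero (by norm_num)
    have h2 : Even (5 * m * n ^ 2) := (hn.pow_of_ne_zero (by norm_num)).mul_left _
    have h3 : Odd (m ^ 3) := hm.pow
    exact ((h3.sub_even e8).add_even h2).add_even h1
  · have h1 : Odd (n ^ 3) := hn.pow
    have h5 : Odd (5 : ℤ) := by decide
    have h2 : Odd (5 * m * n ^ 2) := (h5.mul hm).mul hn.pow
    have h3 : Odd (m ^ 3) := hm.pow
    exact ((h3.sub_even e8).add_odd h2).add_odd h1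

private theorem cc_odd {m n : ℤ} (h : Odd m ∨ Odd n) : Odd (cc m n) := by
  unfold cc
  have h1 : Even (4 * n * aB m n) := ⟨2 * n * aB m n, by ring⟩
  have h2 : Odd (aA m n ^ 2) := (aA_odd h).pow
  have h3 : Odd ((4 * n * aB m n + aA m n ^ 2) ^ 2) := (h1.add_odd h2).pow
  have h4 : Even (24 * aA m n * aB m n * n ^ 3) := ⟨12 * aA m n * aB m n * n ^ 3, by ring⟩
  exact h3.sub_even h4

private theorem cc_odd' {m n : ℤ} (h : Odd m ∨ Odd n) : Odd (cc m n + 240 * ss m n) :=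
  (cc_odd h).add_even ⟨120 * ss m n, by ring⟩

private theorem val_odd {z : ℤ} (h : Odd z) : padicValRat 2 (z : ℚ) = 0 := by
  rw [padicValRat.of_int]
  have h1 : padicValInt 2 z = 0 := by
    rw [padicValInt.eq_zero_iff]
    right
    right
    intro hc
    exact Int.not_even_iff_odd.2 h (even_iff_two_dvd.2 hc)
  rw [h1]
  rfl

private theorem odd_ne {z : ℤ} (h : Odd z) : (z : ℚ) ≠ 0 := by
  intro hc
  have : z = 0 := by exact_mod_cast hc
  rw [this] at h
  exact absurd h (by decide)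

private theorem rcop (d : ℚ) : IsCoprime d.num (d.den : ℤ) := by
  rw [Int.isCoprime_iff_gcd_eq_one]
  exact d.reduced

private theorem nz {d : ℚ} (h0 : d ≠ 0) (h1 : d ≠ 1) :
    d.num * (d.den : ℤ) * (d.num - d.den) ≠ 0 := by
  have hd : (d.den : ℤ) ≠ 0 := by exact_mod_cast d.den_nz
  refine mul_ne_zero (mul_ne_zero (Rat.num_ne_zero.2 h0) hd) ?_
  intro hc
  apply h1
  have h2 : d.num = d.den := by linarith
  rw [← Rat.num_div_den d, h2]
  have : ((d.den : ℤ) : ℚ) ≠ 0 := by exact_mod_cast hd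
  push_cast at this ⊢
  exact div_self this

theorem seven_pos {d : ℚ} (h0 : d ≠ 0) (h1 : d ≠ 1) : 1 ≤ w7v d := by
  have hz := nz h0 h1
  unfold w7v padicValInt
  apply one_le_padicValNat_of_dvd
  · exact Int.natAbs_ne_zero.2 hz
  · have h2 : (2 : ℤ) ∣ d.num * (d.den : ℤ) * (d.num - d.den) := by
      rw [← even_iff_two_dvd]
      rcases Int.even_or_odd d.num with hm | hm
      · exact (hm.mul_right _).mul_right _
      · rcases Int.even_or_odd (d.den : ℤ) with hn | hn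
        · exact (hn.mul_left _).mul_right _
        · exact (hm.sub_odd hn).mul_left _
    have := Int.natAbs_dvd_natAbs.2 h2
    simpa using this

theorem seven_step {d D u : ℚ} (h0 : d ≠ 0) (h1 : d ≠ 1) (H0 : D ≠ 0) (H1 : D ≠ 1)
    (e4 : C4' d = u ^ 4 * C4 D)
    (e12 : d * (d - 1) * (d ^ 3 - 8 * d ^ 2 + 5 * d + 1) ^ 7 =
      u ^ 12 * (D ^ 7 * (D - 1) ^ 7 * (D ^ 3 - 8 * D ^ 2 + 5 * D + 1)))
    (hu : u ≠ 0) : w7v d = 7 * w7v D := by
  have hn : (d.den : ℤ) ≠ 0 := by exact_mod_cast d.den_nz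
  have hN : (D.den : ℤ) ≠ 0 := by exact_mod_cast D.den_nz
  have hz := nz h0 h1
  have hZ := nz H0 H1
  have hd : d = (d.num : ℚ) / (d.den : ℤ) := by
    conv_lhs => rw [← Rat.num_div_den d]
    push_cast
    rfl
  have hD : D = (D.num : ℚ) / (D.den : ℤ) := by
    conv_lhs => rw [← Rat.num_div_den D]
    push_cast
    rfl
  have ho := not_both (rcop d)
  have hO := not_both (rcop D)
  unfold w7v
  generalize d.num = m at *
  generalize (d.den : ℤ) = n at *
  generalize D.num = M at *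
  generalize (D.den : ℤ) = N at *
  have hn' : (n : ℚ) ≠ 0 := by exact_mod_cast hn
  have hN' : (N : ℚ) ≠ 0 := by exact_mod_cast hN
  have hc := cc_eq' m n hn
  have hC := cc_eq M N hN
  have hh1 := hh_eq m n hn
  have hh2 := hh_eq M N hN
  rw [← hd] at hc hh1
  rw [← hD] at hC hh2
  obtain ⟨v, hv⟩ : ∃ v : ℚ, v = u * (n : ℚ) ^ 2 / (N : ℚ) ^ 2 := ⟨_, rfl⟩
  have hv0 : v ≠ 0 := by
    rw [hv]
    exact div_ne_zero (mul_ne_zero hu (pow_ne_zero 2 hn')) (pow_ne_zero 2 hN')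
  have k1 : ((cc m n + 240 * ss m n : ℤ) : ℚ) = v ^ 4 * (cc M N : ℤ) := by
    rw [← hc, ← hC, e4, hv]
    field_simp
  have k2 : ((m * n * (m - n) : ℤ) : ℚ) * ((hh m n : ℤ) : ℚ) ^ 7 =
      v ^ 12 * (((M * N * (M - N) : ℤ) : ℚ) ^ 7 * ((hh M N : ℤ) : ℚ)) := by
    have hm : (m : ℚ) = d * n := by
      rw [hd]
      field_simp
    have hM : (M : ℚ) = D * N := by
      rw [hD]
      field_simp
    rw [← hh1, ← hh2, hv]
    push_cast
    rw [hm, hM]
    have e5 : d * (n : ℚ) * n * (d * n - n) * ((d ^ 3 - 8 * d ^ 2 + 5 * d + 1) * (n : ℚ) ^ 3) ^ 7 =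
        (d * (d - 1) * (d ^ 3 - 8 * d ^ 2 + 5 * d + 1) ^ 7) * (n : ℚ) ^ 24 := by ring
    rw [e5, e12]
    field_simp
  have p1 := congrArg (padicValRat 2) k1
  have p2 := congrArg (padicValRat 2) k2
  have q1 : ((cc M N : ℤ) : ℚ) ≠ 0 := odd_ne (cc_odd hO)
  have q2 : ((hh m n : ℤ) : ℚ) ≠ 0 := odd_ne (hh_odd ho)
  have q3 : ((hh M N : ℤ) : ℚ) ≠ 0 := odd_ne (hh_odd hO)
  have q4 : ((m * n * (m - n) : ℤ) : ℚ) ≠ 0 := by exact_mod_cast hz
  have q5 : ((M * N * (M - N) : ℤ) : ℚ) ≠ 0 := by exact_mod_cast hZ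
  rw [padicValRat.mul (pow_ne_zero 4 hv0) q1, padicValRat.pow, val_odd (cc_odd hO),
    val_odd (cc_odd' ho)] at p1
  have hv1 : padicValRat 2 v = 0 := by
    push_cast at p1
    linarith
  rw [padicValRat.mul q4 (pow_ne_zero 7 q2), padicValRat.pow,
    padicValRat.mul (pow_ne_zero 12 hv0) (mul_ne_zero (pow_ne_zero 7 q5) q3),
    padicValRat.mul (pow_ne_zero 7 q5) q3, padicValRat.pow, padicValRat.pow,
    val_odd (hh_odd hO), val_odd (hh_odd ho), hv1, padicValRat.of_int, padicValRat.of_int] at p2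
  have : ((padicValInt 2 (m * n * (m - n)) : ℕ) : ℤ) =
      7 * ((padicValInt 2 (M * N * (M - N)) : ℕ) : ℤ) := by
    push_cast at p2
    linarith
  exact_mod_cast this

end Pool.Agent.RkT
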