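import Pool.Agent.RkT.Defs

/-!
# RkT, module GrpT: torsion subgroups and the relation `Isg`

In all statements `M`, `M'` are `p`-primary (`hM`) and `O` is finite without `p`-torsion (`hO`).
`prim`: let `e : torsion A ≃+ M × O`.  `f m = (e.symm (m, 0) : A)`.  If `x = f m` then `p^k m = 0` gives
`p^k x = 0`.  If `p^k x = 0` then `x` is a torsion element (`p ≠ 0`), `e ⟨x, _⟩ = (m, o)` with `p^k o = 0`, so
`o = 0` (`hO`), `x = f m`.
`transfer`: `N = Nat.card O` is prime to `p` (multiplication by `p` is injective on `O`, hence bijective; or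
Cauchy's theorem) and `N o = 0` for all `o`.  Let `A'` be the set of the `x ∈ A` with `N x = 0`, `B'` the set of
the `y ∈ B` with `N y = 0`.  `o ↦ e.symm (0, o)` is a bijection `O → A'` (if `N x = 0` and
`e ⟨x, _⟩ = (m, o)` then `N m = 0` and `p^k m = 0`, so `m = 0`).  `f : A → B` is injective on `A'` (the kernel is
`p`-primary), maps `A'` to `B'`, and `g` is injective on `B'` and maps it to `A'`, which is finite; so `B'` is
finite and `f : A' → B'` is bijective (injections in both directions between finite sets).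
More generally: if `y ∈ B` is torsion, let `n y = 0`, `n = p^j n'`, `n'` prime to `p`; then `y = y₁ + y₂` with
`p^j y₁ = 0`, `n' y₂ = 0` (Bezout).  `y₁` is in the range of the map `φ : M' → B` of `Prim`.  `g y₂ ∈ A` has
`n' (g y₂) = 0`, so `g y₂ ∈ A'` (in `M × O`, the component in `M` is `0`), `N g y₂ = 0`, `N y₂` is in the kernel
of `g`, so it is `p`-primary, and `n' N y₂ = 0`, so `N y₂ = 0`: `y₂ ∈ B'`, `y₂ = f x`, `x ∈ A'`.
So `M' × O → torsion B`, `(m, o) ↦ φ m + f (e.symm (0, o))` is surjective, and it is injective: `φ m = - f x` is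
`p`-primary and killed by `N`, so it is `0`, `m = 0`, `x = 0`.
-/

set_option autoImplicit false

namespace Pool.Agent.RkT

variable {p : ℕ} {A B M M' O : Type} [AddCommGroup A] [AddCommGroup B] [AddCommGroup M]
  [AddCommGroup M'] [AddCommGroup O]

private theorem grpT_pow (hO : ∀ o : O, p • o = 0 → o = 0) (k : ℕ) :
    ∀ o : O, p ^ k • o = 0 → o = 0 := by
  induction k with
  | zero =>
    intro o ho
    simpa using ho
  | succ k ih =>
    intro o ho
    rw [pow_succ, mul_nsmul'] at ho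
    exact hO o (ih _ ho)

private theorem grpT_cop {G : Type} [AddCommGroup G] {x : G} {m n : ℕ} (h : Nat.Coprime m n)
    (h1 : m • x = 0) (h2 : n • x = 0) : x = 0 := by
  have h3 : addOrderOf x ∣ m := addOrderOf_dvd_of_nsmul_eq_zero h1
  have h4 : addOrderOf x ∣ n := addOrderOf_dvd_of_nsmul_eq_zero h2
  have h5 : addOrderOf x = 1 := Nat.eq_one_of_dvd_coprimes h h3 h4
  exact AddMonoid.addOrderOf_eq_one_iff.1 h5

private theorem grpT_tors {G : Type} [AddCommGroup G] {x : G} {n : ℕ} (hn : 0 < n) (h : n • x = 0) :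
    x ∈ AddCommGroup.torsion G :=
  isOfFinAddOrder_iff_nsmul_eq_zero.2 ⟨n, hn, h⟩

private theorem grpT_card (hp : p.Prime) [Finite O] (hO : ∀ o : O, p • o = 0 → o = 0) :
    Nat.Coprime (Nat.card O) p := by
  rw [Nat.coprime_comm, Nat.Prime.coprime_iff_not_dvd hp]
  intro hd
  haveI : Fact p.Prime := ⟨hp⟩
  obtain ⟨x, hx⟩ := exists_prime_addOrderOf_dvd_card' p hd
  have h1 : p • x = 0 := by
    rw [← hx]
    exact addOrderOf_nsmul_eq_zero x
  have h2 := hO x h1
  rw [h2, addOrderOf_zero] at hx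
  exact hp.one_lt.ne hx

/-- An element killed by a number prime to `p` comes from `O`. -/
private theorem grpT_lift (hM : ∀ m : M, ∃ k : ℕ, p ^ k • m = 0) (e : AddCommGroup.torsion A ≃+ M × O)
    {x : A} {n : ℕ} (hn : 0 < n) (hcop : Nat.Coprime n p) (h : n • x = 0) :
    ∃ o : O, ((e.symm (0, o) : AddCommGroup.torsion A) : A) = x := by
  have hx := grpT_tors hn h
  have h1 : n • e ⟨x, hx⟩ = 0 := by
    rw [← map_nsmul]
    have h2 : n • (⟨x, hx⟩ : AddCommGroup.torsion A) = 0 := Subtype.ext h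
    rw [h2, map_zero]
  have h3 : n • (e ⟨x, hx⟩).1 = 0 := by
    have := congrArg Prod.fst h1
    simpa using this
  obtain ⟨k, hk⟩ := hM (e ⟨x, hx⟩).1
  have h4 : (e ⟨x, hx⟩).1 = 0 := grpT_cop (Nat.Coprime.pow_right k hcop) h3 hk
  refine ⟨(e ⟨x, hx⟩).2, ?_⟩
  have h5 : ((0 : M), (e ⟨x, hx⟩).2) = e ⟨x, hx⟩ := Prod.ext h4.symm rfl
  rw [h5, e.symm_apply_apply]

theorem HasT.prim (hp : p.Prime) (hM : ∀ m : M, ∃ k : ℕ, p ^ k • m = 0)
    (hO : ∀ o : O, p • o = 0 → o = 0) (h : HasT A (M × O)) : Prim p M A := by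
  obtain ⟨e⟩ := h
  refine ⟨(AddCommGroup.torsion A).subtype.comp
    ((e.symm : M × O →+ AddCommGroup.torsion A).comp (AddMonoidHom.inl M O)), ?_, ?_⟩
  · intro m m' h
    have h1 : e.symm (m, 0) = e.symm (m', 0) := Subtype.ext h
    have h2 := e.symm.injective h1
    exact (Prod.mk.inj h2).1
  · intro x
    constructor
    · rintro ⟨m, rfl⟩
      obtain ⟨k, hk⟩ := hM m
      refine ⟨k, ?_⟩
      rw [← map_nsmul, hk, map_zero]
    · rintro ⟨k, hk⟩
      have hx : x ∈ AddCommGroup.torsion A := grpT_tors (pow_pos hp.pos k) hk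
      have hy : p ^ k • e ⟨x, hx⟩ = 0 := by
        rw [← map_nsmul]
        have h2 : p ^ k • (⟨x, hx⟩ : AddCommGroup.torsion A) = 0 := Subtype.ext hk
        rw [h2, map_zero]
      have h3 : p ^ k • (e ⟨x, hx⟩).2 = 0 := by
        have := congrArg Prod.snd hy
        simpa using this
      have ho := grpT_pow hO k _ h3
      refine ⟨(e ⟨x, hx⟩).1, ?_⟩
      have h5 : ((e ⟨x, hx⟩).1, (0 : O)) = e ⟨x, hx⟩ := Prod.ext rfl ho.symm
      change ((e.symm ((e ⟨x, hx⟩).1, (0 : O)) : AddCommGroup.torsion A) : A) = x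
      rw [h5, e.symm_apply_apply]

theorem HasT.transfer (hp : p.Prime) [Finite O] (hM : ∀ m : M, ∃ k : ℕ, p ^ k • m = 0)
    (hM' : ∀ m : M', ∃ k : ℕ, p ^ k • m = 0) (hO : ∀ o : O, p • o = 0 → o = 0)
    (h : HasT A (M × O)) (hI : Isg p A B) (hP : Prim p M' B) : HasT B (M' × O) := by
  obtain ⟨e⟩ := h
  obtain ⟨f, g, hf, hg⟩ := hI
  obtain ⟨φ, hφ, hφr⟩ := hP
  have hN : 0 < Nat.card O := Nat.card_pos
  have hcop : Nat.Coprime (Nat.card O) p := grpT_card hp hO
  obtain ⟨ψ, hψ⟩ : ∃ ψ : O →+ A, ∀ o, ψ o = ((e.symm (0, o) : AddCommGroup.torsion A) : A) :=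
    ⟨(AddCommGroup.torsion A).subtype.comp
      ((e.symm : M × O →+ AddCommGroup.torsion A).comp (AddMonoidHom.inr M O)), fun _ => rfl⟩
  have hψi : Function.Injective ψ := by
    intro o o' h
    rw [hψ, hψ] at h
    have h2 := e.symm.injective (Subtype.ext h)
    exact (Prod.mk.inj h2).2
  have hψN : ∀ o, Nat.card O • ψ o = 0 := by
    intro o
    rw [← map_nsmul, card_nsmul_eq_zero', map_zero]
  have hlift : ∀ {x : A} {n : ℕ}, 0 < n → Nat.Coprime n p → n • x = 0 → ∃ o, ψ o = x := by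
    intro x n hn hc hx
    obtain ⟨o, ho⟩ := grpT_lift hM e hn hc hx
    exact ⟨o, by rw [hψ, ho]⟩
  -- injectivity on the elements killed by a number prime to `p`
  have hf0 : ∀ {x : A} {n : ℕ}, Nat.Coprime n p → n • x = 0 → f x = 0 → x = 0 := by
    intro x n hc hx h0
    obtain ⟨k, hk⟩ := hf x h0
    exact grpT_cop (Nat.Coprime.pow_right k hc) hx hk
  have hg0 : ∀ {y : B} {n : ℕ}, Nat.Coprime n p → n • y = 0 → g y = 0 → y = 0 := by
    intro y n hc hy h0
    obtain ⟨k, hk⟩ := hg y h0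
    exact grpT_cop (Nat.Coprime.pow_right k hc) hy hk
  have hfN : ∀ o, Nat.card O • f (ψ o) = 0 := by
    intro o
    rw [← map_nsmul, hψN, map_zero]
  have hθ : ∀ o, ∃ o', ψ o' = g (f (ψ o)) := by
    intro o
    refine hlift hN hcop ?_
    rw [← map_nsmul, hfN, map_zero]
  choose θ hθ using hθ
  have hθi : Function.Injective θ := by
    intro o1 o2 h12
    have h1 : g (f (ψ (o1 - o2))) = 0 := by
      rw [map_sub, map_sub, map_sub, ← hθ, ← hθ, h12, sub_self]
    have h2 := hg0 hcop (hfN _) h1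
    have h3 := hf0 hcop (hψN _) h2
    have h4 : o1 - o2 = 0 := hψi (by rw [h3, map_zero])
    exact sub_eq_zero.1 h4
  have hθs : Function.Surjective θ := Finite.injective_iff_surjective.1 hθi
  have hB' : ∀ y : B, Nat.card O • y = 0 → ∃ o, f (ψ o) = y := by
    intro y hy
    obtain ⟨o', ho'⟩ := hlift (x := g y) hN hcop (by rw [← map_nsmul, hy, map_zero])
    obtain ⟨o, rfl⟩ := hθs o'
    refine ⟨o, ?_⟩
    have h1 : g (f (ψ o) - y) = 0 := by
      rw [map_sub, ← hθ, ho', sub_self]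
    have h2 : Nat.card O • (f (ψ o) - y) = 0 := by
      rw [nsmul_sub, hfN, hy, sub_zero]
    exact sub_eq_zero.1 (hg0 hcop h2 h1)
  have hφt : ∀ m : M', ∃ k : ℕ, p ^ k • φ m = 0 := fun m => (hφr (φ m)).1 ⟨m, rfl⟩
  have hmem : ∀ x : M' × O, φ.coprod (f.comp ψ) x ∈ AddCommGroup.torsion B := by
    rintro ⟨m, o⟩
    obtain ⟨k, hk⟩ := hφt m
    rw [AddMonoidHom.coprod_apply]
    exact add_mem (grpT_tors (pow_pos hp.pos k) hk) (grpT_tors hN (hfN o))
  have hbij : Function.Bijective ((φ.coprod (f.comp ψ)).codRestrict (AddCommGroup.torsion B) hmem) := by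
    constructor
    · rw [injective_iff_map_eq_zero]
      rintro ⟨m, o⟩ h0
      have h1 : φ m + f (ψ o) = 0 := congrArg Subtype.val h0
      have h2 : Nat.card O • φ m = 0 := by
        rw [eq_neg_of_add_eq_zero_left h1, smul_neg, hfN, neg_zero]
      obtain ⟨k, hk⟩ := hφt m
      have h3 : φ m = 0 := grpT_cop (Nat.Coprime.pow_right k hcop) h2 hk
      have h4 : m = 0 := hφ (by rw [h3, map_zero])
      rw [h3, zero_add] at h1
      have h5 := hf0 hcop (hψN o) h1
      have h6 : o = 0 := hψi (by rw [h5, map_zero])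
      rw [h4, h6]
      rfl
    · rintro ⟨y, hy⟩
      obtain ⟨n, hn, hny⟩ := isOfFinAddOrder_iff_nsmul_eq_zero.1 hy
      obtain ⟨j, n', hn', rfl⟩ := Nat.exists_eq_pow_mul_and_not_dvd hn.ne' p hp.one_lt.ne'
      have hc1 : Nat.Coprime n' p := by
        rw [Nat.coprime_comm, Nat.Prime.coprime_iff_not_dvd hp]
        exact hn'
      have hn'0 : 0 < n' := Nat.pos_of_ne_zero (by rintro rfl; exact hn' (dvd_zero p))
      have hc2 : IsCoprime ((p ^ j : ℕ) : ℤ) (n' : ℤ) :=
        Nat.isCoprime_iff_coprime.2 (Nat.Coprime.pow_left j hc1.symm)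
      obtain ⟨u, v, huv⟩ := hc2
      have hz : (((p ^ j : ℕ) : ℤ) * (n' : ℤ)) • y = 0 := by
        rw [← Nat.cast_mul, natCast_zsmul]
        exact hny
      have hy1 : p ^ j • ((v * (n' : ℤ)) • y) = 0 := by
        rw [← natCast_zsmul, smul_smul,
          show ((p ^ j : ℕ) : ℤ) * (v * (n' : ℤ)) = v * (((p ^ j : ℕ) : ℤ) * (n' : ℤ)) by ring,
          mul_smul, hz, smul_zero]
      have hy2 : n' • ((u * ((p ^ j : ℕ) : ℤ)) • y) = 0 := by
        rw [← natCast_zsmul, smul_smul,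
          show (n' : ℤ) * (u * ((p ^ j : ℕ) : ℤ)) = u * (((p ^ j : ℕ) : ℤ) * (n' : ℤ)) by ring,
          mul_smul, hz, smul_zero]
      obtain ⟨m, hm⟩ := (hφr ((v * (n' : ℤ)) • y)).2 ⟨j, hy1⟩
      obtain ⟨o1, ho1⟩ := hlift (x := g ((u * ((p ^ j : ℕ) : ℤ)) • y)) hn'0 hc1
        (by rw [← map_nsmul, hy2, map_zero])
      have h1 : g (Nat.card O • ((u * ((p ^ j : ℕ) : ℤ)) • y)) = 0 := by
        rw [map_nsmul, ← ho1, hψN]
      have h2 : n' • (Nat.card O • ((u * ((p ^ j : ℕ) : ℤ)) • y)) = 0 := by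
        rw [smul_comm, hy2, smul_zero]
      obtain ⟨o, ho⟩ := hB' _ (hg0 hc1 h2 h1)
      refine ⟨(m, o), Subtype.ext ?_⟩
      change φ m + f (ψ o) = y
      rw [hm, ho, ← add_smul, add_comm, huv, one_smul]
  exact ⟨(AddEquiv.ofBijective _ hbij).symm⟩

end Pool.Agent.RkT
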