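import Pool.Agent.RkT.Defs

/-!
# RkT, module GrpP: recognising the `p`-primary torsion

`prim_cyc`: `f : ZMod (p^k) → B`, `1 ↦ x` (`ZMod.lift`, or `zmultiplesHom`), injective since `x` has order `p^k`
(`p^(k-1) x ≠ 0`: a nonzero subgroup of `ZMod (p^k)` contains `p^(k-1)`).  Let `y` be `p`-primary of order
`p^j`; `j ≤ k` (if `j > k` then `z = p^(j-k-1) y` has `p^(k+1) z = 0`, `p^k z ≠ 0`, against `h2`).  Induction on `j`:
`p (p^(j-1) y) = 0`, so `p^(j-1) y = m p^(k-1) x = p^(j-1) (m p^(k-j) x)`, so `y - m p^(k-j) x` has order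
dividing `p^(j-1)`, so it is in the range.
`prim_two`: `f (a, b) = a t + b x`; injective: `a t + b x = 0`; if `a = 0` then `b = 0`; if `a = 1` then
`b x = t` (as `-t = t`), `2 b x = 0`, so `b x ∈ {0, 2^(k-1) x}`, contradiction with `t ≠ 0`,
`t ≠ 2^(k-1) x`.  Surjective onto the `2`-primary torsion: as above; `2^(j-1) y ≠ 0` is killed by `2`; if
`j ≥ 2` it is `2 (2^(j-2) y)`, so by `h3` it is `2^(k-1) x` (`h3` can be used: `j ≤ k`, so `2 ≤ k`) and
`y - 2^(k-j) x` has smaller order; if `j ≤ 1`, `y ∈ {0, t, 2^(k-1) x, t + 2^(k-1) x}`.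
`*_use`: the converse statements, `x = f 1`, resp. `x = f (0, 1)`, `t = f (1, 0)`: facts on `ZMod (p^k)`, resp.
`ZMod 2 × ZMod (2^k)` (elements killed by `2`; no element of order `2^(k+1)`).
`prim_equiv`: compose.  `prim_prim`: every element of `ZMod (p^k)` is killed by `p^k`.
-/

set_option autoImplicit false

namespace Pool.Agent.RkT

variable {p : ℕ} {B B' : Type} [AddCommGroup B] [AddCommGroup B']

private theorem grpP_kill0 (N : ℕ) (a : ZMod N) : N • a = 0 := by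
  rw [nsmul_eq_mul, ZMod.natCast_self, zero_mul]

private theorem grpP_pow2 (k : ℕ) (a : ZMod 2) : 2 ^ (k + 1) • a = 0 := by
  rw [pow_succ', mul_smul, grpP_kill0]

private theorem grpP_killP (k : ℕ) (a : ZMod 2 × ZMod (2 ^ (k + 1))) : 2 ^ (k + 1) • a = 0 :=
  Prod.ext (grpP_pow2 k a.1) (grpP_kill0 _ a.2)

private theorem grpP_hom (N : ℕ) (x : B) (hx : N • x = 0) :
    ∃ f : ZMod N →+ B, ∀ n : ℕ, f (n : ZMod N) = n • x := by
  have h0 : zmultiplesHom B x (N : ℤ) = 0 := by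
    rw [zmultiplesHom_apply, natCast_zsmul, hx]
  refine ⟨ZMod.lift N ⟨zmultiplesHom B x, h0⟩, fun n => ?_⟩
  have h1 := ZMod.lift_coe N ⟨zmultiplesHom B x, h0⟩ (n : ℤ)
  rw [Int.cast_natCast] at h1
  rw [h1]
  change zmultiplesHom B x (n : ℤ) = n • x
  rw [zmultiplesHom_apply, natCast_zsmul]

private theorem grpP_inj {k : ℕ} (hp : p.Prime) (x : B) (hx : p ^ (k + 1) • x = 0)
    (hx' : p ^ k • x ≠ 0) (f : ZMod (p ^ (k + 1)) →+ B) (hf : ∀ n : ℕ, f n = n • x) :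
    Function.Injective f := by
  rw [injective_iff_map_eq_zero]
  intro a ha
  obtain ⟨n, rfl⟩ : ∃ n : ℕ, (n : ZMod (p ^ (k + 1))) = a := by
    have : NeZero (p ^ (k + 1)) := ⟨pow_ne_zero _ hp.ne_zero⟩
    exact ⟨a.val, ZMod.natCast_zmod_val a⟩
  rw [hf] at ha
  have := Fact.mk hp
  rw [ZMod.natCast_eq_zero_iff, ← addOrderOf_eq_prime_pow hx' hx]
  exact addOrderOf_dvd_of_nsmul_eq_zero ha

private theorem grpP_kill {k : ℕ} (h2 : ∀ y : B, p ^ (k + 1) • y = 0 → p ^ k • y = 0) (j : ℕ)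
    (y : B) (h : p ^ j • y = 0) : p ^ k • y = 0 := by
  have key : ∀ i : ℕ, ∀ y : B, p ^ (k + i) • y = 0 → p ^ k • y = 0 := by
    intro i
    induction i with
    | zero => intro y hy; simpa using hy
    | succ i ih =>
      intro y hy
      apply ih
      rw [pow_add, mul_smul]
      apply h2
      rw [← mul_smul, ← pow_add, ← hy]
      congr 2
      ring
  apply key j
  rw [pow_add, mul_smul, h, smul_zero]

private theorem grpP_two {k : ℕ} (b : ZMod (2 ^ (k + 1))) (hb : 2 • b = 0) :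
    ∃ _m : ℕ, b = 0 ∨ b = ((2 ^ k : ℕ) : ZMod (2 ^ (k + 1))) := by
  obtain ⟨n, rfl⟩ : ∃ n : ℕ, (n : ZMod (2 ^ (k + 1))) = b := by
    have : NeZero (2 ^ (k + 1)) := ⟨pow_ne_zero _ two_ne_zero⟩
    exact ⟨b.val, ZMod.natCast_zmod_val b⟩
  rw [nsmul_eq_mul, ← Nat.cast_mul, ZMod.natCast_eq_zero_iff, pow_succ',
    Nat.mul_dvd_mul_iff_left two_pos] at hb
  obtain ⟨m, rfl⟩ := hb
  refine ⟨m, ?_⟩
  rcases Nat.even_or_odd m with ⟨i, rfl⟩ | ⟨i, rfl⟩
  · left
    rw [ZMod.natCast_eq_zero_iff]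
    exact ⟨i, by ring⟩
  · right
    have h1 : ((2 ^ (k + 1) * i : ℕ) : ZMod (2 ^ (k + 1))) = 0 := by
      rw [ZMod.natCast_eq_zero_iff]
      exact ⟨i, rfl⟩
    have h2 : 2 ^ k * (2 * i + 1) = 2 ^ (k + 1) * i + 2 ^ k := by ring
    rw [h2, Nat.cast_add, h1, zero_add]

theorem prim_cyc {k : ℕ} (hp : p.Prime) (x : B) (hk : 1 ≤ k) (hx : p ^ k • x = 0)
    (hx' : p ^ (k - 1) • x ≠ 0)
    (h1 : ∀ y : B, p • y = 0 → ∃ m : ℕ, y = m • (p ^ (k - 1) • x))
    (h2 : ∀ y : B, p ^ (k + 1) • y = 0 → p ^ k • y = 0) : Prim p (ZMod (p ^ k)) B := by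
  obtain ⟨k, rfl⟩ : ∃ k', k = k' + 1 := ⟨k - 1, by omega⟩
  rw [Nat.add_sub_cancel] at hx' h1
  obtain ⟨f, hf⟩ := grpP_hom (p ^ (k + 1)) x hx
  have hx1 : x ∈ f.range := ⟨1, by have := hf 1; simpa using this⟩
  refine ⟨f, grpP_inj hp x hx hx' f hf, fun y => ⟨?_, ?_⟩⟩
  · rintro ⟨a, rfl⟩
    exact ⟨k + 1, by rw [← map_nsmul, grpP_kill0, map_zero]⟩
  · rintro ⟨j, hj⟩
    have hkill := grpP_kill h2 j y hj
    have key : ∀ j : ℕ, j ≤ k + 1 → ∀ y : B, p ^ j • y = 0 → y ∈ f.range := by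
      intro j
      induction j with
      | zero =>
        intro _ y hy
        rw [pow_zero, one_smul] at hy
        rw [hy]
        exact zero_mem _
      | succ j ih =>
        intro hjk y hy
        have hz : p • (p ^ j • y) = 0 := by
          rw [← mul_smul, ← pow_succ', hy]
        obtain ⟨m, hm⟩ := h1 _ hz
        have h3 : p ^ j • (y - (m * p ^ (k - j)) • x) = 0 := by
          rw [smul_sub, hm, ← mul_smul, ← mul_smul, sub_eq_zero]
          congr 1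
          have : k = j + (k - j) := by omega
          nth_rewrite 1 [this]
          rw [pow_add]
          ring
        have h4 := ih (by omega) _ h3
        have h5 : (m * p ^ (k - j)) • x ∈ f.range := nsmul_mem hx1 _
        have h6 := add_mem h4 h5
        rwa [sub_add_cancel] at h6
    exact key (k + 1) le_rfl y hkill

theorem prim_triv (h : ∀ y : B, p • y = 0 → y = 0) : Prim p (ZMod 1) B := by
  refine ⟨0, Function.injective_of_subsingleton _, fun y => ⟨?_, ?_⟩⟩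
  · rintro ⟨a, rfl⟩
    exact ⟨0, by simp⟩
  · rintro ⟨j, hj⟩
    have key : ∀ j : ℕ, ∀ y : B, p ^ j • y = 0 → y = 0 := by
      intro j
      induction j with
      | zero => intro y hy; simpa using hy
      | succ j ih =>
        intro y hy
        apply ih
        apply h
        rw [← mul_smul, ← pow_succ', hy]
    exact ⟨0, by rw [key j y hj]; simp⟩

theorem prim_two {k : ℕ} (x t : B) (hk : 1 ≤ k) (hx : 2 ^ k • x = 0)
    (hx' : 2 ^ (k - 1) • x ≠ 0) (ht : 2 • t = 0) (ht' : t ≠ 0) (hne : t ≠ 2 ^ (k - 1) • x)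
    (h1 : ∀ y : B, 2 • y = 0 →
      y = 0 ∨ y = t ∨ y = 2 ^ (k - 1) • x ∨ y = t + 2 ^ (k - 1) • x)
    (h2 : ∀ y : B, 2 ^ (k + 1) • y = 0 → 2 ^ k • y = 0)
    (h3 : 2 ≤ k → ∀ y : B, 2 • y ≠ t ∧ 2 • y ≠ t + 2 ^ (k - 1) • x) :
    Prim 2 (ZMod 2 × ZMod (2 ^ k)) B := by
  obtain ⟨k, rfl⟩ : ∃ k', k = k' + 1 := ⟨k - 1, by omega⟩
  rw [Nat.add_sub_cancel] at hx' h1 h3 hne
  obtain ⟨f1, hf1⟩ := grpP_hom 2 t ht
  obtain ⟨f2, hf2⟩ := grpP_hom (2 ^ (k + 1)) x hx
  have hinj2 := grpP_inj Nat.prime_two x hx hx' f2 hf2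
  have h2x : 2 • (2 ^ k • x) = 0 := by rw [← mul_smul, ← pow_succ', hx]
  obtain ⟨f, hf⟩ : ∃ f : ZMod 2 × ZMod (2 ^ (k + 1)) →+ B, ∀ a b, f (a, b) = f1 a + f2 b :=
    ⟨f1.coprod f2, fun a b => rfl⟩
  have ht1 : t ∈ f.range := ⟨(1, 0), by
    rw [hf, map_zero, add_zero]
    have := hf1 1
    simpa using this⟩
  have hx1 : x ∈ f.range := ⟨(0, 1), by
    rw [hf, map_zero, zero_add]
    have := hf2 1
    simpa using this⟩
  refine ⟨f, ?_, fun y => ⟨?_, ?_⟩⟩
  · rw [injective_iff_map_eq_zero]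
    rintro ⟨a, b⟩ hab
    rw [hf] at hab
    have ha : a = 0 := by
      by_contra ha
      have ha1 : a = 1 := by
        revert ha
        clear hab
        revert a
        decide
      have e1 : f1 a = t := by
        rw [ha1]
        have := hf1 1
        simpa using this
      rw [e1] at hab
      have hbt : f2 b = t := by
        have h5 : f2 b = -t := eq_neg_of_add_eq_zero_right hab
        rw [h5, neg_eq_iff_add_eq_zero, ← two_nsmul, ht]
      have hb2 : 2 • b = 0 := by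
        apply hinj2
        rw [map_nsmul, hbt, ht, map_zero]
      obtain ⟨m, hm⟩ := grpP_two b hb2
      rcases hm with hm | hm
      · rw [hm, map_zero] at hbt
        exact ht' hbt.symm
      · rw [hm, hf2] at hbt
        exact hne hbt.symm
    have hb : b = 0 := by
      apply hinj2
      rw [ha, map_zero, zero_add] at hab
      rw [hab, map_zero]
    rw [ha, hb]
    rfl
  · rintro ⟨a, rfl⟩
    refine ⟨k + 1, ?_⟩
    rw [← map_nsmul]
    rw [grpP_killP, map_zero]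
  · rintro ⟨j, hj⟩
    have hkill := grpP_kill h2 j y hj
    have key : ∀ j : ℕ, j ≤ k + 1 → ∀ y : B, 2 ^ j • y = 0 → y ∈ f.range := by
      intro j
      induction j with
      | zero =>
        intro _ y hy
        rw [pow_zero, one_smul] at hy
        rw [hy]
        exact zero_mem _
      | succ j ih =>
        intro hjk y hy
        have hz : 2 • (2 ^ j • y) = 0 := by
          rw [← mul_smul, ← pow_succ', hy]
        rcases Nat.eq_zero_or_pos j with hj0 | hj0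
        · subst hj0
          rw [pow_zero, one_smul] at hz
          rcases h1 _ hz with h | h | h | h
          · rw [h]; exact zero_mem _
          · rw [h]; exact ht1
          · rw [h]; exact nsmul_mem hx1 _
          · rw [h]; exact add_mem ht1 (nsmul_mem hx1 _)
        · obtain ⟨i, rfl⟩ : ∃ i, j = i + 1 := ⟨j - 1, by omega⟩
          have e : 2 ^ (i + 1) • y = 2 • (2 ^ i • y) := by rw [← mul_smul, ← pow_succ']
          have h33 := h3 (by omega) (2 ^ i • y)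
          rw [← e] at h33
          rcases h1 _ hz with h | h | h | h
          · exact ih (by omega) y h
          · exact absurd h h33.1
          · have h3' : 2 ^ (i + 1) • (y - 2 ^ (k - (i + 1)) • x) = 0 := by
              rw [smul_sub, h, ← mul_smul, ← pow_add, show i + 1 + (k - (i + 1)) = k by omega,
                sub_self]
            have h4 := ih (by omega) _ h3'
            have h5 : 2 ^ (k - (i + 1)) • x ∈ f.range := nsmul_mem hx1 _
            have h6 := add_mem h4 h5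
            rwa [sub_add_cancel] at h6
          · exact absurd h h33.2
    exact key (k + 1) le_rfl y hkill

theorem prim_cyc_use {k : ℕ} (hp : p.Prime) (hk : 1 ≤ k) (h : Prim p (ZMod (p ^ k)) B) :
    ∃ x : B, p ^ k • x = 0 ∧ p ^ (k - 1) • x ≠ 0 ∧
      (∀ y : B, p • y = 0 → ∃ m : ℕ, y = m • (p ^ (k - 1) • x)) ∧
      ∀ y : B, p ^ (k + 1) • y = 0 → p ^ k • y = 0 := by
  obtain ⟨k, rfl⟩ : ∃ k', k = k' + 1 := ⟨k - 1, by omega⟩
  rw [Nat.add_sub_cancel]
  obtain ⟨f, hi, hr⟩ := h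
  have hn : ∀ n : ℕ, n • f 1 = f (n : ZMod (p ^ (k + 1))) := by
    intro n
    rw [← map_nsmul, nsmul_eq_mul, mul_one]
  refine ⟨f 1, ?_, ?_, ?_, ?_⟩
  · rw [hn, ZMod.natCast_self, map_zero]
  · rw [hn]
    intro h0
    have h1 := hi (h0.trans (map_zero f).symm)
    rw [ZMod.natCast_eq_zero_iff, Nat.pow_dvd_pow_iff_le_right hp.one_lt] at h1
    omega
  · intro y hy
    obtain ⟨a, rfl⟩ := (hr y).2 ⟨1, by rwa [pow_one]⟩
    have h1 : p • a = 0 := by
      apply hi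
      rw [map_nsmul, hy, map_zero]
    obtain ⟨n, rfl⟩ : ∃ n : ℕ, (n : ZMod (p ^ (k + 1))) = a := by
      have : NeZero (p ^ (k + 1)) := ⟨pow_ne_zero _ hp.ne_zero⟩
      exact ⟨a.val, ZMod.natCast_zmod_val a⟩
    rw [nsmul_eq_mul, ← Nat.cast_mul, ZMod.natCast_eq_zero_iff, pow_succ',
      Nat.mul_dvd_mul_iff_left hp.pos] at h1
    obtain ⟨m, rfl⟩ := h1
    refine ⟨m, ?_⟩
    rw [← hn, ← mul_smul, mul_comm]
  · intro y hy
    obtain ⟨a, rfl⟩ := (hr y).2 ⟨k + 1 + 1, hy⟩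
    rw [← map_nsmul, grpP_kill0, map_zero]

theorem prim_two_use {k : ℕ} (hk : 1 ≤ k) (h : Prim 2 (ZMod 2 × ZMod (2 ^ k)) B) :
    ∃ x t : B, 2 ^ k • x = 0 ∧ 2 ^ (k - 1) • x ≠ 0 ∧ 2 • t = 0 ∧ t ≠ 0 ∧
      t ≠ 2 ^ (k - 1) • x ∧
      (∀ y : B, 2 • y = 0 →
        y = 0 ∨ y = t ∨ y = 2 ^ (k - 1) • x ∨ y = t + 2 ^ (k - 1) • x) ∧
      ∀ y : B, 2 ^ (k + 1) • y = 0 → 2 ^ k • y = 0 := by
  obtain ⟨k, rfl⟩ : ∃ k', k = k' + 1 := ⟨k - 1, by omega⟩
  rw [Nat.add_sub_cancel]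
  obtain ⟨f, hi, hr⟩ := h
  have hn : ∀ n : ℕ, n • f (0, 1) = f (0, (n : ZMod (2 ^ (k + 1)))) := by
    intro n
    rw [← map_nsmul]
    congr 1
    refine Prod.ext ?_ ?_
    · simp
    · simp
  have hnn : (((2 ^ k : ℕ) : ZMod (2 ^ (k + 1)))) ≠ 0 := by
    rw [Ne, ZMod.natCast_eq_zero_iff, Nat.pow_dvd_pow_iff_le_right (by norm_num)]
    omega
  have hk2 := grpP_killP k
  refine ⟨f (0, 1), f (1, 0), ?_, ?_, ?_, ?_, ?_, ?_, ?_⟩
  · rw [← map_nsmul, hk2, map_zero]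
  · rw [hn]
    intro h0
    have h1 := hi (h0.trans (map_zero f).symm)
    exact hnn (Prod.ext_iff.1 h1).2
  · rw [← map_nsmul]
    have : (2 : ℕ) • ((1, 0) : ZMod 2 × ZMod (2 ^ (k + 1))) = 0 := by
      refine Prod.ext ?_ ?_
      · rw [Prod.smul_fst, grpP_kill0]
        rfl
      · rw [Prod.smul_snd, smul_zero]
        rfl
    rw [this, map_zero]
  · intro h0
    have h1 := hi (h0.trans (map_zero f).symm)
    exact one_ne_zero (α := ZMod 2) (Prod.ext_iff.1 h1).1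
  · rw [hn]
    intro h0
    have h1 := hi h0
    exact one_ne_zero (α := ZMod 2) (Prod.ext_iff.1 h1).1
  · intro y hy
    obtain ⟨⟨a, b⟩, rfl⟩ := (hr y).2 ⟨1, by rwa [pow_one]⟩
    have h1 : (2 : ℕ) • ((a, b) : ZMod 2 × ZMod (2 ^ (k + 1))) = 0 := by
      apply hi
      rw [map_nsmul, hy, map_zero]
    have hb2 : 2 • b = 0 := (Prod.ext_iff.1 h1).2
    have ha : a = 0 ∨ a = 1 := by
      clear hy h1
      revert a
      decide
    obtain ⟨_, hb⟩ := grpP_two b hb2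
    rcases ha with rfl | rfl <;> rcases hb with rfl | rfl
    · left
      exact map_zero f
    · right; right; left
      rw [hn]
    · right; left; rfl
    · right; right; right
      rw [hn, ← map_add]
      congr 1
      refine Prod.ext ?_ ?_
      · simp
      · simp
  · intro y hy
    obtain ⟨a, rfl⟩ := (hr y).2 ⟨k + 1 + 1, hy⟩
    rw [← map_nsmul, hk2, map_zero]

theorem prim_equiv {M : Type} [AddCommGroup M] (e : B ≃+ B') (h : Prim p M B) :
    Prim p M B' := by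
  obtain ⟨f, hi, hr⟩ := h
  refine ⟨(e : B →+ B').comp f, e.injective.comp hi, fun y => ⟨?_, ?_⟩⟩
  · rintro ⟨a, rfl⟩
    obtain ⟨j, hj⟩ := (hr (f a)).1 ⟨a, rfl⟩
    refine ⟨j, ?_⟩
    change p ^ j • e (f a) = 0
    rw [← map_nsmul, hj, map_zero]
  · rintro ⟨j, hj⟩
    obtain ⟨a, ha⟩ := (hr (e.symm y)).2 ⟨j, by rw [← map_nsmul, hj, map_zero]⟩
    refine ⟨a, ?_⟩
    change e (f a) = y
    rw [ha, e.apply_symm_apply]

theorem prim_prim (k : ℕ) (m : ZMod (p ^ k)) : ∃ j : ℕ, p ^ j • m = 0 := by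
  exact ⟨k, grpP_kill0 _ _⟩

theorem prim_prim2 (k : ℕ) (m : ZMod 2 × ZMod (2 ^ k)) : ∃ j : ℕ, 2 ^ j • m = 0 := by
  refine ⟨k + 1, ?_⟩
  refine Prod.ext (grpP_pow2 k m.1) ?_
  change 2 ^ (k + 1) • m.2 = 0
  rw [pow_succ', mul_smul, grpP_kill0, smul_zero]

end Pool.Agent.RkT
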