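import Pool.Agent.RkT.ThreeIsg
import Pool.Agent.RkT.GrpP

/-!
# RkT, module ThreeArr: removing 3-torsion by 3-isogenies
-/

set_option autoImplicit false

namespace Pool.Agent.RkT

open WeierstrassCurve

theorem three_line {a b c x y : ℚ} (h : (SW a b c).toAffine.Nonsingular x y)
    (h3 : 3 • (Affine.Point.some x y h : Pt (SW a b c)) = 0) :
    ∃ l n, y = l * x + n ∧ 3 * x = l ^ 2 - a ∧ 3 * x ^ 2 = b - 2 * l * n ∧ x ^ 3 = n ^ 2 - c := by
  have h4 : (Affine.Point.some x y h : Pt (SW a b c)) + Affine.Point.some x y h +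
      Affine.Point.some x y h = 0 := by
    rw [← h3]
    abel
  obtain ⟨l, n, e1, -, -, hL⟩ := sum_line h h h h4
  obtain ⟨s1, s2, s3⟩ := sw_line_iff hL
  exact ⟨l, n, e1, by linear_combination s1, by linear_combination s2, by linear_combination s3⟩

/-- normal form of a curve with a point of order 3 -/
theorem three_norm {a b c x y : ℚ} (hΔ : (SW a b c).Δ ≠ 0) (h : (SW a b c).toAffine.Nonsingular x y)
    (h3 : 3 • (Affine.Point.some x y h : Pt (SW a b c)) = 0) :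
    ∃ A, A ^ 2 = a + 3 * x ∧ (E3 1 A y).Δ ≠ 0 ∧ ∃ e : Pt (SW a b c) ≃+ Pt (E3 1 A y), ∃ h',
      e (Affine.Point.some x y h) = Affine.Point.some 0 y h' := by
  obtain ⟨l, n, e1, e2, e3, e4⟩ := three_line h h3
  obtain ⟨hΔ', e, he⟩ := iso_sw (a' := 1 * l ^ 2) (b' := 2 * 1 * l * y) (c' := 1 * y ^ 2) (u := 1) (r := -x)
    one_ne_zero hΔ (by linear_combination -e2)
    (by rw [e1]; linear_combination e3)
    (by rw [e1]; linear_combination -e4)
  refine ⟨l, by linear_combination -e2, hΔ', e, ?_⟩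
  obtain ⟨h', he'⟩ := he x y h
  have h0 : (E3 1 l y).toAffine.Nonsingular 0 y := by
    have e5 : (1 : ℚ) ^ 2 * x + -x = 0 := by ring
    have e6 : (1 : ℚ) ^ 3 * y = y := by ring
    rw [e5, e6] at h'
    exact h'
  exact ⟨h0, he'.trans (pt_congr _ _ (by ring) (by ring))⟩

/-- the quotient curve -/
abbrev T3 (A B : ℚ) : WeierstrassCurve ℚ := E3 (-3 * 1) A ((27 * B - 4 * A ^ 3 * 1) / 9)

/-- points of order 3 on the quotient curve -/
theorem three_core {A B x y : ℚ} (hΔ : (E3 1 A B).Δ ≠ 0) (h : (T3 A B).toAffine.Nonsingular x y)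
    (h3 : 3 • (Affine.Point.some x y h : Pt (T3 A B)) = 0) :
    ∃ c, c ^ 3 = 2 * B ∧ x = 3 * c ^ 2 + 2 * A * c + 4 / 3 * A ^ 2 ∧ y ^ 2 = 9 / 4 * c ^ 2 * x ^ 2 := by
  obtain ⟨l, n, e1, e2, e3, e4⟩ := three_line h h3
  have hE := sw_eq h
  have hβ := (e3_ne (e3_ns' hΔ)).2.1
  obtain ⟨β, hβe⟩ : ∃ β, β = (27 * B - 4 * A ^ 3 * 1) / 9 := ⟨_, rfl⟩
  rw [← hβe] at e3 e4 hE hβ
  have hx : x ≠ 0 := by
    rintro rfl
    have h5 : y ^ 2 = -3 * β ^ 2 := by linear_combination hE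
    have h6 : 0 < β ^ 2 := by positivity
    nlinarith [sq_nonneg y]
  have h7 : x ^ 3 = 4 * A ^ 2 * x ^ 2 + 12 * A * β * x + 12 * β ^ 2 := by
    have h8 : 3 * x * (x ^ 3 - (4 * A ^ 2 * x ^ 2 + 12 * A * β * x + 12 * β ^ 2)) = 0 := by
      have h9 : (3 * x ^ 2 + 6 * A * β) ^ 2 = 4 * (3 * x - 3 * A ^ 2) * (x ^ 3 - 3 * β ^ 2) := by
        have g1 : l ^ 2 = 3 * x - 3 * A ^ 2 := by linear_combination -e2
        have g2 : n ^ 2 = x ^ 3 - 3 * β ^ 2 := by linear_combination -e4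
        have g3 : 3 * x ^ 2 + 6 * A * β = -2 * l * n := by linear_combination e3
        rw [g3, ← g1, ← g2]
        ring
      linear_combination -h9
    rcases mul_eq_zero.1 h8 with h9 | h9
    · exact absurd (by linarith : x = 0) hx
    · linear_combination h9
  refine ⟨2 * (A * x + 3 * β) / (3 * x), ?_, ?_, ?_⟩
  · have g1 : 2 * B = 2 * β / 3 + 8 * A ^ 3 / 27 := by rw [hβe]; ring
    rw [g1]
    field_simp
    linear_combination (-486 * β) * h7
  · field_simp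
    linear_combination (3 : ℚ) * h7
  · field_simp
    rw [hE]
    linear_combination (36 : ℚ) * h7

theorem flt3_rat {a b c : ℚ} (h : a ^ 3 + b ^ 3 = c ^ 3) : a = 0 ∨ b = 0 ∨ c = 0 := by
  by_contra hc
  push Not at hc
  exact (fermatLastTheoremFor_iff_rat.1 fermatLastTheoremThree) a b c hc.1 hc.2.1 hc.2.2 h

theorem cube27 {Y d : ℚ} (h : Y ^ 2 + 27 = 4 * d ^ 3) : (Y = 9 ∨ Y = -9) ∧ d = 3 := by
  have h1 : (9 + Y) ^ 3 + (9 - Y) ^ 3 = (6 * d) ^ 3 := by linear_combination 54 * h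
  have hd : ∀ e : ℚ, 4 * e ^ 3 = 9 ^ 2 + 27 → e = 3 := by
    intro e he
    have h2 : (e - 3) * ((e + 3 / 2) ^ 2 + 27 / 4) = 0 := by linear_combination he / 4
    rcases mul_eq_zero.1 h2 with h3 | h3
    · linarith
    · exfalso
      nlinarith [sq_nonneg (e + 3 / 2)]
  rcases flt3_rat h1 with h2 | h2 | h2
  · have hY : Y = -9 := by linarith
    refine ⟨Or.inr hY, hd d ?_⟩
    rw [← h, hY]
    norm_num
  · have hY : Y = 9 := by linarith
    refine ⟨Or.inl hY, hd d ?_⟩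
    rw [← h, hY]
  · exfalso
    have hd0 : d = 0 := by linarith
    rw [hd0] at h
    nlinarith [sq_nonneg Y]

theorem three_twice {A B x y : ℚ} (hΔ : (E3 1 A B).Δ ≠ 0) (h : (T3 A B).toAffine.Nonsingular x y)
    (h3 : 3 • (Affine.Point.some x y h : Pt (T3 A B)) = 0) {A1 : ℚ} (hA1 : A1 ^ 2 = -3 * 1 * A ^ 2 + 3 * x)
    (hΔ1 : (E3 1 A1 y).Δ ≠ 0) {x' y' : ℚ} (h' : (T3 A1 y).toAffine.Nonsingular x' y')
    (h3' : 3 • (Affine.Point.some x' y' h' : Pt (T3 A1 y)) = 0) : A1 = 0 ∧ A ≠ 0 := by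
  obtain ⟨c, hc, hx, hy⟩ := three_core hΔ h h3
  obtain ⟨c1, hc1, -, -⟩ := three_core hΔ1 h' h3'
  obtain ⟨-, hB, hd⟩ := e3_ne hΔ
  have hc0 : c ≠ 0 := by
    rintro rfl
    apply hB
    linear_combination -hc / 2
  -- a rational cube root of `3 c x`
  obtain ⟨c2, hc2⟩ : ∃ c2, c2 ^ 3 = 3 * c * x := by
    have h4 : (c1 ^ 3 - 3 * c * x) * (c1 ^ 3 + 3 * c * x) = 0 := by
      rw [hc1]
      linear_combination 4 * hy
    rcases mul_eq_zero.1 h4 with h5 | h5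
    · exact ⟨c1, by linarith⟩
    · exact ⟨-c1, by linear_combination -h5⟩
  have h5 : (2 * (2 * A / c) + 3) ^ 2 + 27 = 4 * (c2 / c) ^ 3 := by
    rw [div_pow, hc2, hx]
    field_simp
    ring
  rcases (cube27 h5).1 with h6 | h6
  · exfalso
    have h7 : 2 * A = 3 * c := by
      field_simp at h6
      linarith
    apply hd
    have h8 : A = 3 / 2 * c := by linarith
    rw [h8]
    linear_combination (27 / 2 : ℚ) * hc
  · have h7 : A = -3 * c := by
      field_simp at h6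
      linarith
    refine ⟨?_, ?_⟩
    · have h8 : A1 ^ 2 = 0 := by
        rw [hA1, hx, h7]
        ring
      exact pow_eq_zero_iff (two_ne_zero) |>.1 h8
    · rw [h7]
      exact mul_ne_zero (by norm_num) hc0

theorem isg_equiv {p : ℕ} {A B C : Type} [AddCommGroup A] [AddCommGroup B] [AddCommGroup C]
    (h : Isg p A B) (e : B ≃+ C) : Isg p A C := h.trans (Isg.of_equiv p e)

/-- a 3-torsion point of a curve which is not `0` -/
theorem exists_three {a b c : ℚ} (h : ¬ ∀ P : Pt (SW a b c), 3 • P = 0 → P = 0) :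
    ∃ x y h', 3 • (Affine.Point.some x y h' : Pt (SW a b c)) = 0 := by
  push Not at h
  obtain ⟨P, h1, h2⟩ := h
  rcases P with _ | ⟨x, y, h'⟩
  · exact absurd rfl h2
  · exact ⟨x, y, h', h1⟩

/-- Every curve is linked by 3-isogenies to a curve without 3-torsion. -/
theorem to_three_free {a b c : ℚ} (hΔ : (SW a b c).Δ ≠ 0) :
    ∃ a' b' c', (SW a' b' c').Δ ≠ 0 ∧ Isg 3 (Pt (SW a b c)) (Pt (SW a' b' c')) ∧
      ∀ P : Pt (SW a' b' c'), 3 • P = 0 → P = 0 := by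
  by_cases h0 : ∀ P : Pt (SW a b c), 3 • P = 0 → P = 0
  · exact ⟨a, b, c, hΔ, Isg.refl 3 _, h0⟩
  obtain ⟨x0, y0, g0, k0⟩ := exists_three h0
  obtain ⟨A, -, hΔ0, e, -⟩ := three_norm hΔ g0 k0
  have I1 : Isg 3 (Pt (SW a b c)) (Pt (T3 A y0)) := (Isg.of_equiv 3 e).trans (three_isg hΔ0)
  by_cases h1 : ∀ P : Pt (T3 A y0), 3 • P = 0 → P = 0
  · exact ⟨_, _, _, e3_ns' hΔ0, I1, h1⟩
  obtain ⟨x1, y1, g1, k1⟩ := exists_three h1
  obtain ⟨A1, hA1, hΔ1, e1, -⟩ := three_norm (e3_ns' hΔ0) g1 k1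
  have I2 : Isg 3 (Pt (SW a b c)) (Pt (T3 A1 y1)) := (isg_equiv I1 e1).trans (three_isg hΔ1)
  by_cases h2 : ∀ P : Pt (T3 A1 y1), 3 • P = 0 → P = 0
  · exact ⟨_, _, _, e3_ns' hΔ1, I2, h2⟩
  obtain ⟨x2, y2, g2, k2⟩ := exists_three h2
  obtain ⟨A2, hA2, hΔ2, e2, -⟩ := three_norm (e3_ns' hΔ1) g2 k2
  have I3 : Isg 3 (Pt (SW a b c)) (Pt (T3 A2 y2)) := (isg_equiv I2 e2).trans (three_isg hΔ2)
  refine ⟨_, _, _, e3_ns' hΔ2, I3, ?_⟩
  by_contra h3
  obtain ⟨x3, y3, g3, k3⟩ := exists_three h3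
  exact (three_twice hΔ1 g2 k2 hA2 hΔ2 g3 k3).2 (three_twice hΔ0 g1 k1 hA1 hΔ1 g2 k2).1

theorem three_tors_one {A B x y : ℚ} (h : (E3 1 A B).toAffine.Nonsingular x y)
    (h3 : 3 • (Affine.Point.some x y h : Pt (E3 1 A B)) = 0) : x = 0 := by
  by_contra hx
  obtain ⟨l, n, e1, e2, e3, e4⟩ := three_line h h3
  have hE := sw_eq h
  have h7 : x ^ 3 = -(4 / 3) * A ^ 2 * x ^ 2 - 4 * A * B * x - 4 * B ^ 2 := by
    have h8 : 3 * x * (x ^ 3 - (-(4 / 3) * A ^ 2 * x ^ 2 - 4 * A * B * x - 4 * B ^ 2)) = 0 := by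
      have h9 : (3 * x ^ 2 - 2 * A * B) ^ 2 = 4 * (3 * x + A ^ 2) * (x ^ 3 + B ^ 2) := by
        have g1 : l ^ 2 = 3 * x + A ^ 2 := by linear_combination -e2
        have g2 : n ^ 2 = x ^ 3 + B ^ 2 := by linear_combination -e4
        have g3 : 3 * x ^ 2 - 2 * A * B = -2 * l * n := by linear_combination e3
        rw [g3, ← g1, ← g2]
        ring
      linear_combination -h9
    rcases mul_eq_zero.1 h8 with h9 | h9
    · exact absurd (by linarith : x = 0) hx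
    · linear_combination h9
  have h8 : y ^ 2 = -(1 / 3) * (A * x + 3 * B) ^ 2 := by
    rw [hE]
    linear_combination h7
  have h9 : y = 0 := by
    have : y ^ 2 ≤ 0 := by
      rw [h8]
      nlinarith [sq_nonneg (A * x + 3 * B)]
    exact pow_eq_zero_iff two_ne_zero |>.1 (le_antisymm this (sq_nonneg y))
  have h10 := (two_smul_some h).2 h9
  have h11 : (Affine.Point.some x y h : Pt (E3 1 A B)) = 0 := by
    have : (Affine.Point.some x y h : Pt (E3 1 A B)) =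
        3 • (Affine.Point.some x y h : Pt (E3 1 A B)) - 2 • (Affine.Point.some x y h : Pt (E3 1 A B)) := by
      abel
    rw [this, h3, h10, sub_zero]
  exact Affine.Point.some_ne_zero h h11

theorem no_root {x : ℚ} (h : x ^ 3 + 1 = 3 * x ^ 2) : False := by
  have hd : (x.den : ℚ) ≠ 0 := by exact_mod_cast x.den_nz
  have h1 : (x.num : ℚ) ^ 3 + (x.den : ℚ) ^ 3 = 3 * (x.num : ℚ) ^ 2 * (x.den : ℚ) := by
    have h2 : x = (x.num : ℚ) / (x.den : ℚ) := (Rat.num_div_den x).symm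
    rw [h2] at h
    field_simp at h
    linear_combination h
  have h2 : x.num ^ 3 + (x.den : ℤ) ^ 3 = 3 * x.num ^ 2 * (x.den : ℤ) := by exact_mod_cast h1
  have hcop := x.reduced
  rcases Int.even_or_odd x.num with hn | hn
  · rcases Int.even_or_odd (x.den : ℤ) with hm | hm
    · have h3 : 2 ∣ x.num.natAbs := by
        rw [← Int.natCast_dvd_natCast, Int.dvd_natAbs]
        exact hn.two_dvd
      have h4 : 2 ∣ x.den := by
        have := hm.two_dvd
        exact_mod_cast this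
      have h5 := Nat.dvd_gcd h3 h4
      rw [hcop] at h5
      omega
    · obtain ⟨a, ha⟩ := hn
      obtain ⟨b, hb⟩ := hm
      have h3 : (x.num ^ 3 + (x.den : ℤ) ^ 3) % 2 = (3 * x.num ^ 2 * (x.den : ℤ)) % 2 := by rw [h2]
      rw [ha, hb] at h3
      ring_nf at h3
      omega
  · rcases Int.even_or_odd (x.den : ℤ) with hm | hm
    · obtain ⟨a, ha⟩ := hn
      obtain ⟨b, hb⟩ := hm
      have h3 : (x.num ^ 3 + (x.den : ℤ) ^ 3) % 2 = (3 * x.num ^ 2 * (x.den : ℤ)) % 2 := by rw [h2]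
      rw [ha, hb] at h3
      ring_nf at h3
      omega
    · obtain ⟨a, ha⟩ := hn
      obtain ⟨b, hb⟩ := hm
      have h3 : (x.num ^ 3 + (x.den : ℤ) ^ 3) % 2 = (3 * x.num ^ 2 * (x.den : ℤ)) % 2 := by rw [h2]
      rw [ha, hb] at h3
      ring_nf at h3
      omega

theorem half_curve {x y : ℚ} (h : y ^ 2 = x ^ 3 + 1 / 4) : x = 0 := by
  by_contra hx
  have h1 : (2 * (y * (x ^ 3 - 2) / x ^ 3)) ^ 2 + 27 = 4 * ((x ^ 3 + 1) / x ^ 2) ^ 3 := by
    field_simp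
    linear_combination (4 * (x ^ 3 - 2) ^ 2) * h
  have h2 := (cube27 h1).2
  rw [div_eq_iff (pow_ne_zero 2 hx)] at h2
  exact no_root h2

/-- the 3-torsion of a curve with a point of order 3 -/
theorem three_cyc {a b c : ℚ} (hΔ : (SW a b c).Δ ≠ 0) {Q : Pt (SW a b c)} (hQ : 3 • Q = 0) (hQ0 : Q ≠ 0)
    {y : Pt (SW a b c)} (hy : 3 • y = 0) : ∃ m : ℕ, y = m • Q := by
  rcases Q with _ | ⟨x0, y0, h0⟩
  · exact absurd rfl hQ0
  obtain ⟨A, hA, hΔ1, e, h1, he⟩ := three_norm hΔ h0 hQ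
  have hey : 3 • e y = 0 := by rw [← map_nsmul, hy, map_zero]
  generalize hz : e y = z at hey
  have key : ∃ m : ℕ, z = m • (Affine.Point.some 0 y0 h1 : Pt (E3 1 A y0)) := by
    rcases z with _ | ⟨x, w, h⟩
    · exact ⟨0, (zero_nsmul _).symm⟩
    · have hx := three_tors_one h hey
      subst hx
      have hE := sw_eq h
      have h2 : (w - y0) * (w + y0) = 0 := by linear_combination hE
      rcases mul_eq_zero.1 h2 with h3 | h3
      · exact ⟨1, by rw [one_nsmul]; exact pt_congr _ _ rfl (by linarith)⟩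
      · refine ⟨2, ?_⟩
        obtain ⟨h4, h5⟩ := sw_neg h1
        have h6 : (2 : ℕ) • (Affine.Point.some 0 y0 h1 : Pt (E3 1 A y0)) = -Affine.Point.some 0 y0 h1 := by
          have h7 := e3_kill hΔ1 h1 rfl
          have h8 : (2 : ℕ) • (Affine.Point.some 0 y0 h1 : Pt (E3 1 A y0)) + Affine.Point.some 0 y0 h1 = 0 := by
            rw [← h7]
            abel
          exact eq_neg_of_add_eq_zero_left h8
        rw [h6, h5]
        exact pt_congr _ _ rfl (by linarith)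
  obtain ⟨m, hm⟩ := key
  refine ⟨m, e.injective ?_⟩
  rw [map_nsmul, he, hz, hm]

theorem nine_three {a b c : ℚ} (hΔ : (SW a b c).Δ ≠ 0) (hP : Prim 3 (ZMod (3 ^ 2)) (Pt (SW a b c))) :
    ∃ a' b' c', (SW a' b' c').Δ ≠ 0 ∧ Isg 3 (Pt (SW a b c)) (Pt (SW a' b' c')) ∧
      Prim 3 (ZMod (3 ^ 1)) (Pt (SW a' b' c')) := by
  obtain ⟨x, hx1, hx2, -, -⟩ := prim_cyc_use Nat.prime_three (by norm_num) hP
  have hx2' : 3 • x ≠ 0 := by
    have : 3 ^ (2 - 1) • x = 3 • x := by norm_num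
    rwa [this] at hx2
  have hx3 : 3 • (3 • x) = 0 := by
    rw [← mul_nsmul]
    have : (3 : ℕ) * 3 = 3 ^ 2 := by norm_num
    rw [this]
    exact hx1
  generalize hR : 3 • x = R at hx2' hx3
  rcases R with _ | ⟨x0, y0, g0⟩
  · exact absurd rfl hx2'
  obtain ⟨A, -, hΔ0, e, h0, he⟩ := three_norm hΔ g0 hx3
  obtain ⟨f, hf0, hfk⟩ := three_isog hΔ0
  have I1 : Isg 3 (Pt (SW a b c)) (Pt (T3 A y0)) := (Isg.of_equiv 3 e).trans (three_isg hΔ0)
  refine ⟨_, _, _, e3_ns' hΔ0, I1, ?_⟩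
  have hQ3 : 3 • f (e x) = 0 := by
    rw [← map_nsmul, ← map_nsmul, hR, he]
    exact hf0 _ _ _ rfl
  have hQ0 : f (e x) ≠ 0 := by
    intro h
    have h1 := hfk _ h
    rw [← map_nsmul, hR, he] at h1
    exact Affine.Point.some_ne_zero h0 h1
  generalize f (e x) = Q at hQ3 hQ0
  refine prim_cyc Nat.prime_three Q le_rfl (by rw [pow_one]; exact hQ3) (by simpa using hQ0) ?_ ?_
  · intro y hy
    obtain ⟨m, hm⟩ := three_cyc (e3_ns' hΔ0) hQ3 hQ0 hy
    exact ⟨m, by simpa using hm⟩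
  · intro y hy
    rw [pow_one]
    by_contra hne
    have hy9 : 3 • (3 • y) = 0 := by
      rw [← mul_nsmul]
      exact hy
    generalize hR1 : 3 • y = R1 at hne hy9
    rcases R1 with _ | ⟨x1, y1, g1⟩
    · exact absurd rfl hne
    obtain ⟨A1, hA1, hΔ1, e1, h1, he1⟩ := three_norm (e3_ns' hΔ0) g1 hy9
    obtain ⟨f1, hf1, hfk1⟩ := three_isog hΔ1
    have k1 : 3 • f1 (e1 y) = 0 := by
      rw [← map_nsmul, ← map_nsmul, hR1, he1]
      exact hf1 _ _ _ rfl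
    have k2 : f1 (e1 y) ≠ 0 := by
      intro h
      have h2 := hfk1 _ h
      rw [← map_nsmul, hR1, he1] at h2
      exact Affine.Point.some_ne_zero h1 h2
    generalize f1 (e1 y) = Q1 at k1 k2
    rcases Q1 with _ | ⟨x2, y2, g2⟩
    · exact absurd rfl k2
    have hA10 := (three_twice hΔ0 g1 hy9 hA1 hΔ1 g2 k1).1
    obtain ⟨c1, hc1, -, -⟩ := three_core hΔ1 g2 k1
    have hy1 : y1 ≠ 0 := (e3_ne hΔ1).2.1
    have hc10 : c1 ≠ 0 := by
      rintro rfl
      apply hy1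
      linear_combination -hc1 / 2
    have hyk : 3 • e1 y ≠ 0 := by
      rw [← map_nsmul, hR1, he1]
      exact Affine.Point.some_ne_zero h1
    generalize e1 y = z at hyk
    rcases z with _ | ⟨u, v, g3⟩
    · exact hyk (nsmul_zero 3)
    · have hE := sw_eq g3
      have hE' : v ^ 2 = u ^ 3 + y1 ^ 2 := by
        rw [hE, hA10]
        ring
      have hy1e : y1 = c1 ^ 3 / 2 := by linarith
      have hhalf : (v / c1 ^ 3) ^ 2 = (u / c1 ^ 2) ^ 3 + 1 / 4 := by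
        rw [div_pow, hE', hy1e]
        field_simp
        ring
      have hu := half_curve hhalf
      have hu0 : u = 0 := by
        rcases div_eq_zero_iff.1 hu with h | h
        · exact h
        · exact absurd h (pow_ne_zero 2 hc10)
      exact hyk (e3_kill hΔ1 g3 hu0)

end Pool.Agent.RkT
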