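import Pool.Agent.RkT.TwoD
import Pool.Agent.RkT.ThreeArr
import Pool.Agent.RkT.GrpT

/-!
# RkT, module Final: comparison of ranks for different torsion groups
-/

set_option autoImplicit false

namespace Pool.Agent.RkT

open WeierstrassCurve

/-- the torsion subgroup of `E(ℚ)` is isomorphic to `ℤ/n × ℤ/m` -/
def HasTorsion (E : WeierstrassCurve ℚ) (n m : ℕ) : Prop :=
  Nonempty (AddCommGroup.torsion E.toAffine.Point ≃+ ZMod n × ZMod m)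

/-- the set of the ranks of the elliptic curves over `ℚ` with torsion group `ℤ/n × ℤ/m` -/
def Ranks (n m : ℕ) : Set Cardinal :=
  {r | ∃ E : WeierstrassCurve ℚ, E.IsElliptic ∧ HasTorsion E n m ∧ Module.rank ℤ E.toAffine.Point = r}

/-- `B(T)` for `T = ℤ/n × ℤ/m`, the supremum of the ranks -/
noncomputable def B (n m : ℕ) : ℕ∞ := ⨆ r ∈ Ranks n m, Cardinal.toENat r

theorem pass {p : ℕ} {M M' O T T' : Type} [AddCommGroup M] [AddCommGroup M'] [AddCommGroup O] [AddCommGroup T]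
    [AddCommGroup T'] (hp : p.Prime) [Finite O] (hM : ∀ m : M, ∃ k : ℕ, p ^ k • m = 0)
    (hM' : ∀ m : M', ∃ k : ℕ, p ^ k • m = 0) (hO : ∀ o : O, p • o = 0 → o = 0) (eT : T ≃+ M × O)
    (eT' : M' × O ≃+ T')
    (arrow : ∀ a b c : ℚ, (SW a b c).Δ ≠ 0 → Prim p M (Pt (SW a b c)) → Rch p (Pt (SW a b c)) M')
    (E : WeierstrassCurve ℚ) (hE : E.IsElliptic) (hT : Nonempty (AddCommGroup.torsion E.toAffine.Point ≃+ T)) :
    ∃ E' : WeierstrassCurve ℚ, E'.IsElliptic ∧ Nonempty (AddCommGroup.torsion E'.toAffine.Point ≃+ T') ∧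
      Module.rank ℤ E'.toAffine.Point = Module.rank ℤ E.toAffine.Point := by
  obtain ⟨a, b, c, hΔ, ⟨e⟩⟩ := iso_gen E hE.isUnit.ne_zero
  obtain ⟨t⟩ := hT
  have h1 : HasT (Pt E) (M × O) := ⟨t.trans eT⟩
  have h2 : Prim p M (Pt (SW a b c)) := prim_equiv e (h1.prim hp hM hO)
  obtain ⟨a', b', c', hΔ', hI, hP⟩ := arrow a b c hΔ h2
  have hI' : Isg p (Pt E) (Pt (SW a' b' c')) := (Isg.of_equiv p e).trans hI
  obtain ⟨t'⟩ := h1.transfer hp hM hM' hO hI' hP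
  exact ⟨SW a' b' c', ⟨isUnit_iff_ne_zero.2 hΔ'⟩, ⟨t'.trans eT'⟩, (hI'.rank hp.ne_zero).symm⟩

/-- a 3-isogeny class contains a curve without 3-torsion -/
theorem arr_31 {M : Type} [AddCommGroup M] (a b c : ℚ) (hΔ : (SW a b c).Δ ≠ 0) (_ : Prim 3 M (Pt (SW a b c))) :
    Rch 3 (Pt (SW a b c)) (ZMod 1) := by
  obtain ⟨a', b', c', h1, h2, h3⟩ := to_three_free hΔ
  exact ⟨a', b', c', h1, h2, prim_triv h3⟩

theorem arr_93 (a b c : ℚ) (hΔ : (SW a b c).Δ ≠ 0) (h : Prim 3 (ZMod (3 ^ 2)) (Pt (SW a b c))) :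
    Rch 3 (Pt (SW a b c)) (ZMod (3 ^ 1)) := nine_three hΔ h

theorem arr_822 (a b c : ℚ) (hΔ : (SW a b c).Δ ≠ 0) (h : Prim 2 (ZMod (2 ^ 2)) (Pt (SW a b c))) :
    Rch 2 (Pt (SW a b c)) (ZMod 2 × ZMod (2 ^ 1)) := by
  obtain ⟨x, h1, h2, -, -⟩ := prim_cyc_use Nat.prime_two (by norm_num) h
  refine arr_22 hΔ x h1 ?_
  have : 2 ^ (2 - 1) • x = 2 • x := by norm_num
  rwa [this] at h2

theorem arr_824 (a b c : ℚ) (hΔ : (SW a b c).Δ ≠ 0) (h : Prim 2 (ZMod (2 ^ 3)) (Pt (SW a b c))) :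
    Rch 2 (Pt (SW a b c)) (ZMod 2 × ZMod (2 ^ 2)) := by
  obtain ⟨x, h1, h2, -, -⟩ := prim_cyc_use Nat.prime_two (by norm_num) h
  refine arr_24 hΔ x h1 ?_
  have : 2 ^ (3 - 1) • x = 4 • x := by norm_num
  rwa [this] at h2

theorem arr_222 (a b c : ℚ) (hΔ : (SW a b c).Δ ≠ 0) (h : Prim 2 (ZMod 2 × ZMod (2 ^ 1)) (Pt (SW a b c))) :
    Rch 2 (Pt (SW a b c)) (ZMod (2 ^ 1)) := by
  obtain ⟨x, t, h1, h2, h3, h4, -⟩ := prim_two_use le_rfl h
  exact arr_2 hΔ t h3 h4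

/-- transport along an equality -/
def zc {m n : ℕ} (h : m = n) : ZMod m ≃+ ZMod n := (ZMod.ringEquivCongr h).toAddEquiv

/-- Chinese remainder theorem -/
def crt {m n k : ℕ} (h : Nat.Coprime m n) (hk : k = m * n) : ZMod k ≃+ ZMod m × ZMod n :=
  (zc hk).trans (ZMod.chineseRemainder h).toAddEquiv

/-- remove a trivial factor -/
def rt (A : Type) [AddCommGroup A] : A × ZMod 1 ≃+ A :=
  haveI : Unique (ZMod 1) := inferInstanceAs (Unique (Fin 1))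
  AddEquiv.prodUnique

theorem one_kill (p : ℕ) (m : ZMod 1) : ∃ k : ℕ, p ^ k • m = 0 := ⟨0, Subsingleton.elim _ _⟩

theorem three_kill (m : ZMod 3) : ∃ k : ℕ, 3 ^ k • m = 0 := ⟨1, by revert m; decide⟩

end Pool.Agent.RkT
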