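import Pool.Agent.RkT.Defs

/-!
# RkT, module Iso: changes of coordinates
-/

set_option autoImplicit false

namespace Pool.Agent.RkT

open WeierstrassCurve

/-- the function `(x, y) ↦ (u² x + r, u³ y)` -/
noncomputable def isoFun {a b c a' b' c' : ℚ} (u r : ℚ)
    (H : ∀ x y, (SW a b c).toAffine.Nonsingular x y →
      (SW a' b' c').toAffine.Nonsingular (u ^ 2 * x + r) (u ^ 3 * y)) :
    Pt (SW a b c) → Pt (SW a' b' c')
  | .zero => 0
  | .some x y h => Affine.Point.some (u ^ 2 * x + r) (u ^ 3 * y) (H x y h)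

/-- Change of coordinates `(x, y) ↦ (u² x + r, u³ y)`. -/
theorem iso_sw {a b c a' b' c' u r : ℚ} (hu : u ≠ 0) (hΔ : (SW a b c).Δ ≠ 0)
    (ha : a' = u ^ 2 * a - 3 * r) (hb : b' = u ^ 4 * b - 3 * r ^ 2 - 2 * a' * r)
    (hc : c' = u ^ 6 * c - r ^ 3 - a' * r ^ 2 - b' * r) :
    (SW a' b' c').Δ ≠ 0 ∧ ∃ e : Pt (SW a b c) ≃+ Pt (SW a' b' c'), ∀ x y h, ∃ h',
      e (Affine.Point.some x y h) = Affine.Point.some (u ^ 2 * x + r) (u ^ 3 * y) h' := by
  have hΔ' : (SW a' b' c').Δ ≠ 0 := by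
    have h1 : (SW a' b' c').Δ = u ^ 12 * (SW a b c).Δ := by
      rw [sw_delta, sw_delta, hc, hb, ha]
      ring
    rw [h1]
    exact mul_ne_zero (pow_ne_zero 12 hu) hΔ
  refine ⟨hΔ', ?_⟩
  have H : ∀ x y, (SW a b c).toAffine.Nonsingular x y →
      (SW a' b' c').toAffine.Nonsingular (u ^ 2 * x + r) (u ^ 3 * y) := by
    intro x y h
    have hE := sw_eq h
    apply sw_ns hΔ'
    rw [hc, hb, ha]
    linear_combination u ^ 6 * hE
  have hsome : ∀ x y h, isoFun u r H (Affine.Point.some x y h) =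
      Affine.Point.some (u ^ 2 * x + r) (u ^ 3 * y) (H x y h) := fun x y h => rfl
  have h0 : isoFun u r H 0 = 0 := rfl
  have hneg : ∀ P, isoFun u r H (-P) = -isoFun u r H P := by
    intro P
    rcases P with _ | ⟨x, y, h⟩
    · rw [← Affine.Point.zero_def, neg_zero, h0, neg_zero]
    · obtain ⟨h', e⟩ := sw_neg h
      rw [e, hsome, hsome]
      obtain ⟨h'', e''⟩ := sw_neg (H x y h)
      rw [e'']
      exact pt_congr _ _ rfl (by ring)
  have hadd : ∀ P Q, isoFun u r H (P + Q) = isoFun u r H P + isoFun u r H Q := by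
    refine hom_of_line _ h0 hneg ?_
    intro x1 y1 x2 y2 x3 y3 l n h1 h2 h3 e1 e2 e3 hL
    obtain ⟨s1, s2, s3⟩ := sw_line_iff hL
    rw [hsome, hsome, hsome]
    refine line_sum (l := u * l) (n := u ^ 3 * n - u * l * r) _ _ _ (by rw [e1]; ring)
      (by rw [e2]; ring) (by rw [e3]; ring) (sw_line ?_ ?_ ?_)
    · rw [ha]
      linear_combination u ^ 2 * s1
    · rw [hb, ha]
      linear_combination u ^ 4 * s2 + 2 * r * u ^ 2 * s1
    · rw [hc, hb, ha]
      linear_combination u ^ 6 * s3 + r * u ^ 4 * s2 + r ^ 2 * u ^ 2 * s1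
  let f : Pt (SW a b c) →+ Pt (SW a' b' c') := ⟨⟨isoFun u r H, h0⟩, hadd⟩
  have hf : ∀ P, f P = isoFun u r H P := fun P => rfl
  have hbij : Function.Bijective f := by
    constructor
    · rw [injective_iff_map_eq_zero]
      intro P hP
      rcases P with _ | ⟨x, y, h⟩
      · rfl
      · rw [hf, hsome] at hP
        exact absurd hP (Affine.Point.some_ne_zero _)
    · intro Q
      rcases Q with _ | ⟨x, y, h⟩
      · exact ⟨0, map_zero f⟩
      · have hE := sw_eq h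
        have h' : (SW a b c).toAffine.Nonsingular ((x - r) / u ^ 2) (y / u ^ 3) := by
          apply sw_ns hΔ
          rw [hc, hb, ha] at hE
          field_simp
          linear_combination hE
        refine ⟨Affine.Point.some _ _ h', ?_⟩
        rw [hf, hsome]
        exact pt_congr _ _ (by field_simp; ring) (by field_simp)
  exact ⟨AddEquiv.ofBijective f hbij, fun x y h => ⟨H x y h, rfl⟩⟩

/-- the function `(x, y) ↦ (x, y + (a₁ x + a₃)/2)` -/
noncomputable def isoFun' (E : WeierstrassCurve ℚ)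
    (H : ∀ x y, E.toAffine.Nonsingular x y →
      (SW (E.a₂ + E.a₁ ^ 2 / 4) (E.a₄ + E.a₁ * E.a₃ / 2) (E.a₆ + E.a₃ ^ 2 / 4)).toAffine.Nonsingular x
        (y + (E.a₁ * x + E.a₃) / 2)) :
    Pt E → Pt (SW (E.a₂ + E.a₁ ^ 2 / 4) (E.a₄ + E.a₁ * E.a₃ / 2) (E.a₆ + E.a₃ ^ 2 / 4))
  | .zero => 0
  | .some x y h => Affine.Point.some x (y + (E.a₁ * x + E.a₃) / 2) (H x y h)

/-- Every elliptic curve over `ℚ` is isomorphic to one of the form `SW a b c`. -/
theorem iso_gen (E : WeierstrassCurve ℚ) (hE : E.Δ ≠ 0) :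
    ∃ a b c, (SW a b c).Δ ≠ 0 ∧ Nonempty (Pt E ≃+ Pt (SW a b c)) := by
  have hd : (SW (E.a₂ + E.a₁ ^ 2 / 4) (E.a₄ + E.a₁ * E.a₃ / 2) (E.a₆ + E.a₃ ^ 2 / 4)).Δ = E.Δ := by
    simp only [SW, WeierstrassCurve.Δ, WeierstrassCurve.b₂, WeierstrassCurve.b₄,
      WeierstrassCurve.b₆, WeierstrassCurve.b₈]
    ring
  refine ⟨_, _, _, by rw [hd]; exact hE, ?_⟩
  have hΔ' : (SW (E.a₂ + E.a₁ ^ 2 / 4) (E.a₄ + E.a₁ * E.a₃ / 2) (E.a₆ + E.a₃ ^ 2 / 4)).Δ ≠ 0 := by
    rw [hd]; exact hE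
  have H : ∀ x y, E.toAffine.Nonsingular x y →
      (SW (E.a₂ + E.a₁ ^ 2 / 4) (E.a₄ + E.a₁ * E.a₃ / 2) (E.a₆ + E.a₃ ^ 2 / 4)).toAffine.Nonsingular x
        (y + (E.a₁ * x + E.a₃) / 2) := by
    intro x y h
    have h1 := (Affine.equation_iff _ _).1 h.1
    apply sw_ns hΔ'
    linear_combination h1
  have hsome : ∀ x y h, isoFun' E H (Affine.Point.some x y h) =
      Affine.Point.some x (y + (E.a₁ * x + E.a₃) / 2) (H x y h) := fun x y h => rfl
  have h0 : isoFun' E H 0 = 0 := rfl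
  have hneg : ∀ P, isoFun' E H (-P) = -isoFun' E H P := by
    intro P
    rcases P with _ | ⟨x, y, h⟩
    · rw [← Affine.Point.zero_def, neg_zero, h0, neg_zero]
    · rw [Affine.Point.neg_some, hsome, hsome]
      obtain ⟨h'', e''⟩ := sw_neg (H x y h)
      rw [e'']
      exact pt_congr _ _ rfl (by simp only [Affine.negY]; ring)
  have hadd : ∀ P Q, isoFun' E H (P + Q) = isoFun' E H P + isoFun' E H Q := by
    refine hom_of_line _ h0 hneg ?_
    intro x1 y1 x2 y2 x3 y3 l n h1 h2 h3 e1 e2 e3 hL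
    obtain ⟨s1, s2, s3⟩ := hL
    rw [hsome, hsome, hsome]
    refine line_sum (l := l + E.a₁ / 2) (n := n + E.a₃ / 2) _ _ _ (by rw [e1]; ring)
      (by rw [e2]; ring) (by rw [e3]; ring) (sw_line ?_ ?_ ?_)
    · linear_combination s1
    · linear_combination s2
    · linear_combination s3
  let f : Pt E →+ Pt (SW (E.a₂ + E.a₁ ^ 2 / 4) (E.a₄ + E.a₁ * E.a₃ / 2) (E.a₆ + E.a₃ ^ 2 / 4)) :=
    ⟨⟨isoFun' E H, h0⟩, hadd⟩
  have hf : ∀ P, f P = isoFun' E H P := fun P => rfl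
  have hbij : Function.Bijective f := by
    constructor
    · rw [injective_iff_map_eq_zero]
      intro P hP
      rcases P with _ | ⟨x, y, h⟩
      · rfl
      · rw [hf, hsome] at hP
        exact absurd hP (Affine.Point.some_ne_zero _)
    · intro Q
      rcases Q with _ | ⟨x, y, h⟩
      · exact ⟨0, map_zero f⟩
      · have hQ := sw_eq h
        have h' : E.toAffine.Nonsingular x (y - (E.a₁ * x + E.a₃) / 2) := by
          rw [← Affine.equation_iff_nonsingular_of_Δ_ne_zero hE, Affine.equation_iff]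
          linear_combination hQ
        refine ⟨Affine.Point.some _ _ h', ?_⟩
        rw [hf, hsome]
        exact pt_congr _ _ rfl (by ring)
  exact ⟨AddEquiv.ofBijective f hbij⟩

end Pool.Agent.RkT
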