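import Pool.Agent.RkT.VFun
import Pool.Agent.RkT.Iso

/-!
# RkT, module TateN: normal form of a curve with a rational point of order 5 or 7

Let `P = (r, y₀)` on `SW a b c` and `α = a + 3 r`, `β = b + 2 a r + 3 r²`, `γ = c + b r + a r² + r³` (the coefficients after
the translation `x → x + r`; `y₀² = γ`).  Use the lines (`sum_line`, `sw_line_iff`; abscissas minus `r`):
`P, P, -2P` with slope `λ` (tangent), abscissas `0, 0, x₂`: `x₂ = λ² - α`, `0 = β - 2 λ y₀`, `-y₂ = λ x₂ + y₀`.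

Order 5: `P, 2P, 2P` have sum `0`; slope `l`: `2 x₂ = l² - α`, `x₂² = β - 2 l y₀`, `y₂ = l x₂ + y₀`.  So
`x₂ = l² - λ²`, `(l + λ) x₂ = -2 y₀`, `y₀ ≠ 0` (`two_smul_some`), so `l + λ ≠ 0`.  Put `u = l + λ`,
`t = (l - λ) / (l + λ)`: `λ = u (1 - t)/2`, `l = u (1 + t)/2`, `x₂ = u² t`, `y₀ = -u³ t / 2`,
`α = λ² - x₂ = u² a5 t`, `β = 2 λ y₀ = u⁴ b5 t`, `γ = u⁶ c5 t`.

Order 7: `P, 2P, -3P` with slope `μ`: `x₂ + x₃ = μ² - α`, `x₂ x₃ = β - 2 μ y₀`, `y₂ = μ x₂ + y₀`, `-y₃ = μ x₃ + y₀`;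
`P, 3P, 3P` with slope `ν`: `2 x₃ = ν² - α`, `x₃² = β - 2 ν y₀`, `y₃ = ν x₃ + y₀`.  So `(λ + μ) x₂ = -2 y₀`,
`(μ + ν) x₃ = -2 y₀`, `x₃ = μ² - λ²`, `x₂ = 2 μ² - λ² - ν²`, `λ + μ ≠ 0`, `x₃ ≠ 0` (as `y₀ ≠ 0`), and
`x₃² = 2 y₀ (λ - ν) = -(μ + ν) x₃ (λ - ν)` gives `μ² - λ² = -(μ + ν)(λ - ν)`, i.e.
`(*) μ² - λ² - ν² + λ μ - μ ν + ν λ = 0`.  Put `u = λ + μ`, `d = (μ + ν)/(λ + μ)`.  By `(*)`
`λ = u (1 + d - d²)/2`, so `μ = u (1 - d + d²)/2`, `ν = u (-1 + 3 d - d²)/2`, `x₂ = u² (d³ - d²)`,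
`y₀ = -u³ (d³ - d²)/2`, `α = λ² - x₂ = u² a7 d`, `β = 2 λ y₀ = u⁴ b7 d`, `γ = u⁶ c7 d`.

(`a = α - 3 r`, `b = β - 2 a r - 3 r²`, `c = γ - b r - a r² - r³`.)
-/

set_option autoImplicit false

namespace Pool.Agent.RkT

open WeierstrassCurve

private theorem exists_some {E : WeierstrassCurve ℚ} {Q : Pt E} (hQ : Q ≠ 0) :
    ∃ (x y : ℚ) (h : E.toAffine.Nonsingular x y), Q = Affine.Point.some x y h := by
  rcases Q with _ | ⟨x, y, h⟩
  · exact absurd rfl hQ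
  · exact ⟨x, y, h, rfl⟩

/-- the relation between three points on a line, in coordinates centred at the first one -/
private theorem line_rel {a b c r y0 x1 y1 x2 y2 : ℚ}
    (h0 : (SW a b c).toAffine.Nonsingular r y0) (h1 : (SW a b c).toAffine.Nonsingular x1 y1)
    (h2 : (SW a b c).toAffine.Nonsingular x2 y2)
    (h : (Affine.Point.some r y0 h0 : Pt (SW a b c)) + Affine.Point.some x1 y1 h1 +
      Affine.Point.some x2 y2 h2 = 0) :
    ∃ l : ℚ, (x1 - r) + (x2 - r) = l ^ 2 - (a + 3 * r) ∧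
      (x1 - r) * (x2 - r) = (b + 2 * a * r + 3 * r ^ 2) - 2 * l * y0 ∧
      y1 = l * (x1 - r) + y0 ∧ y2 = l * (x2 - r) + y0 := by
  obtain ⟨l, n, e0, e1, e2, hL⟩ := sum_line h0 h1 h2 h
  obtain ⟨s1, s2, _⟩ := sw_line_iff hL
  refine ⟨l, by linear_combination s1, ?_, ?_, ?_⟩
  · linear_combination s2 - 2 * r * s1 + 2 * l * e0
  · rw [e1, e0]; ring
  · rw [e2, e0]; ring

theorem tate_five {a b c : ℚ} (hΔ : (SW a b c).Δ ≠ 0) {P : Pt (SW a b c)} (hP : P ≠ 0)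
    (h5 : 5 • P = 0) : ∃ t u r : ℚ, u ≠ 0 ∧ a = u ^ 2 * a5 t - 3 * r ∧
      b = u ^ 4 * b5 t - 3 * r ^ 2 - 2 * a * r ∧ c = u ^ 6 * c5 t - r ^ 3 - a * r ^ 2 - b * r := by
  obtain ⟨r, y0, h0, rfl⟩ := exists_some hP
  set P : Pt (SW a b c) := Affine.Point.some r y0 h0 with hPdef
  have h2P : 2 • P ≠ 0 := by
    intro h
    apply hP
    have e : P = 5 • P - 2 • (2 • P) := by
      rw [smul_smul]
      abel
    rw [e, h5, h, nsmul_zero, sub_zero]
  have hy0 : y0 ≠ 0 := fun h => h2P ((two_smul_some h0).2 h)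
  obtain ⟨x2, y2, h2, e2⟩ := exists_some h2P
  obtain ⟨h2', e2'⟩ := sw_neg h2
  obtain ⟨l1, q1, q2, -, q3⟩ := line_rel h0 h0 h2' (by
    rw [← e2', ← e2, ← hPdef]
    abel)
  obtain ⟨l2, w1, w2, w3, -⟩ := line_rel h0 h2 h2 (by
    rw [← e2, ← hPdef, ← h5]
    abel)
  have hE := sw_eq h0
  -- the abscissa and the ordinate
  have hX : x2 - r = (l2 + l1) * (l2 - l1) := by linear_combination w1 - q1
  have hy : 2 * y0 = -((l2 + l1) * (x2 - r)) := by linear_combination -q3 - w3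
  have hu : l2 + l1 ≠ 0 := by
    intro h
    apply hy0
    rw [h] at hy
    linarith
  have hy' : y0 = -((l2 + l1) ^ 2 * (l2 - l1)) / 2 := by
    rw [hX] at hy
    linear_combination hy / 2
  have ht : (l2 + l1) * ((l2 - l1) / (l2 + l1)) = l2 - l1 := by field_simp
  generalize (l2 - l1) / (l2 + l1) = t at ht
  refine ⟨t, l2 + l1, r, hu, ?_, ?_, ?_⟩
  · have e : (l2 + l1) ^ 2 * a5 t = 2 * l1 ^ 2 - l2 ^ 2 := by
      have : (l2 + l1) ^ 2 * a5 t = (((l2 + l1) * t) ^ 2 - 6 * (l2 + l1) * ((l2 + l1) * t) +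
        (l2 + l1) ^ 2) / 4 := by
        rw [a5]; ring
      rw [this, ht]
      ring
    rw [e]
    linear_combination 2 * q1 - w1
  · have e : (l2 + l1) ^ 4 * b5 t = 2 * l1 * y0 := by
      have : (l2 + l1) ^ 4 * b5 t = (l2 + l1) ^ 2 * ((l2 + l1) * t) *
        ((l2 + l1) * t - (l2 + l1)) / 2 := by
        rw [b5]; ring
      rw [this, ht, hy']
      ring
    rw [e]
    linear_combination -q2
  · have e : (l2 + l1) ^ 6 * c5 t = y0 ^ 2 := by
      have : (l2 + l1) ^ 6 * c5 t = (l2 + l1) ^ 4 * ((l2 + l1) * t) ^ 2 / 4 := by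
        rw [c5]; ring
      rw [this, ht, hy']
      ring
    rw [e]
    linear_combination -hE

theorem tate_seven {a b c : ℚ} (hΔ : (SW a b c).Δ ≠ 0) {P : Pt (SW a b c)} (hP : P ≠ 0)
    (h7 : 7 • P = 0) : ∃ d u r : ℚ, u ≠ 0 ∧ a = u ^ 2 * a7 d - 3 * r ∧
      b = u ^ 4 * b7 d - 3 * r ^ 2 - 2 * a * r ∧ c = u ^ 6 * c7 d - r ^ 3 - a * r ^ 2 - b * r := by
  obtain ⟨r, y0, h0, rfl⟩ := exists_some hP
  set P : Pt (SW a b c) := Affine.Point.some r y0 h0 with hPdef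
  have h2P : 2 • P ≠ 0 := by
    intro h
    apply hP
    have e : P = 7 • P - 3 • (2 • P) := by
      rw [smul_smul]
      abel
    rw [e, h7, h, nsmul_zero, sub_zero]
  have h3P : 3 • P ≠ 0 := by
    intro h
    apply hP
    have e : P = 7 • P - 2 • (3 • P) := by
      rw [smul_smul]
      abel
    rw [e, h7, h, nsmul_zero, sub_zero]
  have hy0 : y0 ≠ 0 := fun h => h2P ((two_smul_some h0).2 h)
  obtain ⟨x2, y2, h2, e2⟩ := exists_some h2P
  obtain ⟨x3, y3, h3, e3⟩ := exists_some h3P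
  obtain ⟨h2', e2'⟩ := sw_neg h2
  obtain ⟨h3', e3'⟩ := sw_neg h3
  obtain ⟨l, q1, q2, -, q3⟩ := line_rel h0 h0 h2' (by
    rw [← e2', ← e2, ← hPdef]
    abel)
  obtain ⟨m, w1, w2, w3, w4⟩ := line_rel h0 h2 h3' (by
    rw [← e3', ← e3, ← e2, ← hPdef]
    abel)
  obtain ⟨n, v1, v2, v3, -⟩ := line_rel h0 h3 h3 (by
    rw [← e3, ← hPdef, ← h7]
    abel)
  have hE := sw_eq h0
  have hX3 : x3 - r = m ^ 2 - l ^ 2 := by linear_combination w1 - q1
  have hy : 2 * y0 = -((l + m) * (x2 - r)) := by linear_combination -q3 - w3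
  have hy2 : 2 * y0 = -((m + n) * (x3 - r)) := by linear_combination -w4 - v3
  have hu : l + m ≠ 0 := by
    intro h
    apply hy0
    rw [h] at hy
    linarith
  have hx3 : x3 - r ≠ 0 := by
    intro h
    apply hy0
    rw [h] at hy2
    linarith
  have hs : x3 - r = -((m + n) * (l - n)) := by
    have : (x3 - r) * ((x3 - r) + (m + n) * (l - n)) = 0 := by
      linear_combination v2 - q2 + (l - n) * hy2
    have := (mul_eq_zero.1 this).resolve_left hx3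
    linear_combination this
  have hw : (l + m) * ((m + n) / (l + m)) = m + n := by field_simp
  generalize (m + n) / (l + m) = d at hw
  have hl : 2 * l = (l + m) * (1 + d - d ^ 2) := by
    apply mul_left_cancel₀ hu
    have : (l + m) * ((l + m) * (1 + d - d ^ 2)) = (l + m) ^ 2 + (l + m) * ((l + m) * d) -
        ((l + m) * d) ^ 2 := by ring
    rw [this, hw]
    linear_combination hX3 - hs
  have hx2 : x2 - r = (l + m) ^ 2 * (d ^ 3 - d ^ 2) := by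
    apply mul_left_cancel₀ hu
    have : (l + m) * ((l + m) ^ 2 * (d ^ 3 - d ^ 2)) = ((l + m) * d) ^ 3 -
        (l + m) * ((l + m) * d) ^ 2 := by ring
    rw [this, hw]
    linear_combination hy - hy2 + (m + n) * hs
  have hy' : y0 = -((l + m) ^ 3 * (d ^ 3 - d ^ 2)) / 2 := by
    rw [hx2] at hy
    linear_combination hy / 2
  refine ⟨d, l + m, r, hu, ?_, ?_, ?_⟩
  · have e : (l + m) ^ 2 * a7 d = l ^ 2 - (x2 - r) := by
      have : (l + m) ^ 2 * a7 d = ((l + m) * (1 + d - d ^ 2)) ^ 2 / 4 -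
        (l + m) ^ 2 * (d ^ 3 - d ^ 2) := by
        rw [a7]; ring
      rw [this, ← hl, ← hx2]
      ring
    rw [e]
    linear_combination q1
  · have e : (l + m) ^ 4 * b7 d = 2 * l * y0 := by
      have : (l + m) ^ 4 * b7 d = ((l + m) * (1 + d - d ^ 2)) *
        (-((l + m) ^ 3 * (d ^ 3 - d ^ 2)) / 2) := by
        rw [b7]; ring
      rw [this, ← hl, ← hy']
    rw [e]
    linear_combination -q2
  · have e : (l + m) ^ 6 * c7 d = y0 ^ 2 := by
      rw [hy', c7]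
      ring
    rw [e]
    linear_combination -hE

/-- invariants under a change of coordinates -/
theorem inv_change {a b c a' b' c' u r : ℚ} (ha : a' = u ^ 2 * a - 3 * r)
    (hb : b' = u ^ 4 * b - 3 * r ^ 2 - 2 * a' * r) (hc : c' = u ^ 6 * c - r ^ 3 - a' * r ^ 2 - b' * r) :
    16 * (a' ^ 2 - 3 * b') = u ^ 4 * (16 * (a ^ 2 - 3 * b)) ∧
      (SW a' b' c').Δ = u ^ 12 * (SW a b c).Δ := by
  constructor
  · rw [hb, ha]
    ring
  · rw [sw_delta, sw_delta, hc, hb, ha]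
    ring

end Pool.Agent.RkT
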