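import Pool.Agent.RkT.VDefs

/-!
# RkT, module VSum: sums of coordinates over a coset

`add_sub_x`, `add_sub_y`: `P = (x, y)`, `Q = (u, v)`, `x ≠ u`; `sg_add` for `P + Q` and for `P - Q = P + (u, -v)`
(`sg_neg`), `y² = f x`, `v² = f u`; `field_simp` and `linear_combination`.
`sum_xc`, `sum_yc`: `T` has order `p = 2 m + 1` exactly (`hT`) and `P` is not in `⟨T⟩ = zmultiples T`.
`∑_{i < p} g (P + i T) = g P + ∑_{1 ≤ i ≤ m} (g (P + i T) + g (P - i T))` for every function `g` (the terms with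
`m < i < p` are the `P - (p - i) T`).  For `1 ≤ i ≤ m`, `i T ≠ 0` and `xc P ≠ xc (i T)`: otherwise `P = ± i T`
(`xc_eq`).  Now use `add_sub_x`, `add_sub_y`.
-/

set_option autoImplicit false

namespace Pool.Agent.RkT

open WeierstrassCurve Polynomial

variable {K : Type} [Field K] [DecidableEq K]

/-- the cubic polynomial -/
def fx (a b c x : K) : K := x ^ 3 + a * x ^ 2 + b * x + c

/-- its derivative -/
def fx' (a b x : K) : K := 3 * x ^ 2 + 2 * a * x + b

theorem add_sub_x {a b c x y u v : K} (hΔ : (SG a b c).Δ ≠ 0)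
    (h : (SG a b c).toAffine.Nonsingular x y) (h' : (SG a b c).toAffine.Nonsingular u v)
    (hx : x ≠ u) :
    xc ((Affine.Point.some x y h : PG a b c) + Affine.Point.some u v h') +
        xc ((Affine.Point.some x y h : PG a b c) - Affine.Point.some u v h') =
      2 * u + 2 * fx' a b u / (x - u) + 4 * fx a b c u / (x - u) ^ 2 := by
  obtain ⟨hn, en⟩ := sg_neg h'
  obtain ⟨h1, e1⟩ := sg_add hΔ h h' hx
  obtain ⟨h2, e2⟩ := sg_add hΔ h hn hx
  have hd : x - u ≠ 0 := sub_ne_zero.2 hx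
  have hE := sg_eq h
  have hE' := sg_eq h'
  rw [sub_eq_add_neg, en, e1, e2, xc_some, xc_some, fx, fx']
  field_simp
  linear_combination 2 * hE + 2 * hE'

theorem add_sub_y {a b c x y u v : K} (hΔ : (SG a b c).Δ ≠ 0)
    (h : (SG a b c).toAffine.Nonsingular x y) (h' : (SG a b c).toAffine.Nonsingular u v)
    (hx : x ≠ u) :
    yc ((Affine.Point.some x y h : PG a b c) + Affine.Point.some u v h') +
        yc ((Affine.Point.some x y h : PG a b c) - Affine.Point.some u v h') =
      -y * (2 * fx' a b u / (x - u) ^ 2 + 8 * fx a b c u / (x - u) ^ 3) := by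
  obtain ⟨hn, en⟩ := sg_neg h'
  obtain ⟨h1, e1⟩ := sg_add hΔ h h' hx
  obtain ⟨h2, e2⟩ := sg_add hΔ h hn hx
  have hd : x - u ≠ 0 := sub_ne_zero.2 hx
  have hE := sg_eq h
  have hE' := sg_eq h'
  rw [sub_eq_add_neg, en, e1, e2, yc_some, yc_some, fx, fx']
  field_simp
  linear_combination (-2 * y) * hE - 6 * y * hE'

/-- the terms of a coset sum in opposite pairs -/
private theorem sum_pair {a b c : K} {p m : ℕ} (hpm : p = 2 * m + 1) {T : PG a b c}
    (hTp : p • T = 0) (g : PG a b c → K) (P : PG a b c) :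
    ∑ i ∈ Finset.range p, g (P + i • T) = g P + ∑ i ∈ Finset.range m,
      (g (P + (i + 1) • T) + g (P - (i + 1) • T)) := by
  have e0 : p = (m + m) + 1 := by omega
  have h1 : ∑ i ∈ Finset.range p, g (P + i • T) =
      ∑ i ∈ Finset.range (m + m), g (P + (i + 1) • T) + g P := by
    rw [e0, Finset.sum_range_succ']
    simp
  have h2 : ∑ i ∈ Finset.range (m + m), g (P + (i + 1) • T) =
      ∑ i ∈ Finset.range m, g (P + (i + 1) • T) +
        ∑ i ∈ Finset.range m, g (P + (m + i + 1) • T) :=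
    Finset.sum_range_add (fun i => g (P + (i + 1) • T)) m m
  have h3 : ∑ i ∈ Finset.range m, g (P + (m + i + 1) • T) =
      ∑ i ∈ Finset.range m, g (P - (i + 1) • T) := by
    rw [← Finset.sum_range_reflect]
    refine Finset.sum_congr rfl fun i hi => ?_
    have hi' := Finset.mem_range.1 hi
    have e1 : (m + (m - 1 - i) + 1) + (i + 1) = p := by omega
    have e2 : (m + (m - 1 - i) + 1) • T = -((i + 1) • T) := by
      apply eq_neg_of_add_eq_zero_left
      rw [← add_smul, e1, hTp]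
    rw [e2, ← sub_eq_add_neg]
  rw [h1, h2, h3, ← Finset.sum_add_distrib, add_comm]

/-- the situation of one pair -/
private theorem pair_aux {a b c : K} {p m : ℕ} (hpm : p = 2 * m + 1) {T : PG a b c}
    (hT : ∀ i, 0 < i → i < p → i • T ≠ 0) {P : PG a b c}
    (hP : P ∉ AddSubgroup.zmultiples T) {i : ℕ} (hi : i < m) :
    ∃ (x y u v : K) (h : (SG a b c).toAffine.Nonsingular x y)
      (h' : (SG a b c).toAffine.Nonsingular u v), P = Affine.Point.some x y h ∧
      (i + 1) • T = Affine.Point.some u v h' ∧ x ≠ u := by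
  have hQ : (i + 1) • T ≠ 0 := hT _ (by omega) (by omega)
  have hmem : (i + 1) • T ∈ AddSubgroup.zmultiples T :=
    (AddSubgroup.zmultiples T).nsmul_mem (AddSubgroup.mem_zmultiples T) (i + 1)
  have hP0 : P ≠ 0 := fun e => hP (e ▸ (AddSubgroup.zmultiples T).zero_mem)
  have hne : xc P ≠ xc ((i + 1) • T) := by
    intro e
    rcases xc_eq hP0 hQ e with h1 | h1
    · exact hP (h1 ▸ hmem)
    · exact hP (h1 ▸ (AddSubgroup.zmultiples T).neg_mem hmem)
  generalize (i + 1) • T = Q at hQ hne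
  rcases P with _ | ⟨x, y, h⟩
  · exact absurd rfl hP0
  rcases Q with _ | ⟨u, v, h'⟩
  · exact absurd rfl hQ
  exact ⟨x, y, u, v, h, h', rfl, rfl, hne⟩

theorem sum_xc {a b c : K} (hΔ : (SG a b c).Δ ≠ 0) {p m : ℕ} (hpm : p = 2 * m + 1) {T : PG a b c}
    (hTp : p • T = 0) (hT : ∀ i, 0 < i → i < p → i • T ≠ 0) {P : PG a b c}
    (hP : P ∉ AddSubgroup.zmultiples T) :
    ∑ i ∈ Finset.range p, xc (P + i • T) = xc P + ∑ i ∈ Finset.range m,
      (2 * xc ((i + 1) • T) + 2 * fx' a b (xc ((i + 1) • T)) / (xc P - xc ((i + 1) • T)) +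
        4 * fx a b c (xc ((i + 1) • T)) / (xc P - xc ((i + 1) • T)) ^ 2) := by
  rw [sum_pair hpm hTp xc P]
  congr 1
  refine Finset.sum_congr rfl fun i hi => ?_
  obtain ⟨x, y, u, v, h, h', e1, e2, hne⟩ := pair_aux hpm hT hP (Finset.mem_range.1 hi)
  rw [e1, e2]
  exact add_sub_x hΔ h h' hne

theorem sum_yc {a b c : K} (hΔ : (SG a b c).Δ ≠ 0) {p m : ℕ} (hpm : p = 2 * m + 1) {T : PG a b c}
    (hTp : p • T = 0) (hT : ∀ i, 0 < i → i < p → i • T ≠ 0) {P : PG a b c}
    (hP : P ∉ AddSubgroup.zmultiples T) :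
    ∑ i ∈ Finset.range p, yc (P + i • T) = yc P * (1 - ∑ i ∈ Finset.range m,
      (2 * fx' a b (xc ((i + 1) • T)) / (xc P - xc ((i + 1) • T)) ^ 2 +
        8 * fx a b c (xc ((i + 1) • T)) / (xc P - xc ((i + 1) • T)) ^ 3)) := by
  rw [sum_pair hpm hTp yc P, mul_sub, mul_one, sub_eq_add_neg, Finset.mul_sum,
    ← Finset.sum_neg_distrib]
  congr 1
  refine Finset.sum_congr rfl fun i hi => ?_
  obtain ⟨x, y, u, v, h, h', e1, e2, hne⟩ := pair_aux hpm hT hP (Finset.mem_range.1 hi)
  rw [e1, e2]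
  refine (add_sub_y hΔ h h' hne).trans ?_
  rw [xc_some, xc_some, yc_some]
  ring

/-- the sums do not change if `P` is replaced by `P + T` -/
theorem sum_shift {a b c : K} {p : ℕ} {T : PG a b c} (hTp : p • T = 0) (g : PG a b c → K)
    (P : PG a b c) : ∑ i ∈ Finset.range p, g (P + T + i • T) = ∑ i ∈ Finset.range p, g (P + i • T) := by
  have e : ∀ i : ℕ, P + T + i • T = P + (i + 1) • T := by
    intro i
    rw [add_smul, one_smul]
    abel
  simp only [e]
  have h1 := Finset.sum_range_succ' (fun i => g (P + i • T)) p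
  have h2 := Finset.sum_range_succ (fun i => g (P + i • T)) p
  rw [h2] at h1
  simp only [hTp, zero_smul] at h1
  exact (add_right_cancel h1).symm

end Pool.Agent.RkT
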