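import Pool.Agent.RkT.VFun
import Pool.Agent.RkT.VSum

/-!
# RkT, module VFive: the isogeny of degree 5

`five_mul`: `T = (0, -t/2)`; the multiples are `2 T = (t, t²/2)`, `3 T = (t, -t²/2)`, `4 T = (0, t/2)`, `5 T = 0`
(`sg_double` for `2 T`; `4 T = 2 (2 T)`, by `sg_double` again, or `sg_add`; `4 T = -T` by `sg_neg`, so `5 T = 0`;
`3 T = -(2 T)`).  All `i T ≠ 0` for `0 < i < 5`.
`vel_five`.  `eqn`: an identity of polynomials: unfold `d5`, `n5`, `h5` (compute the derivatives with `simp`), then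
`ring` (or `Polynomial.funext`, evaluate and `field_simp; ring`; `K` is infinite); `C` of quotients by `2`, `4`:
evaluation avoids them.
Degrees: `n5 t = X^5 + lower`, `h5 t = X^2 - C t * X` (`monicity`/`compute_degree`).  `cop`: the roots of `h5` are
`0` and `t`; `N 0 = t⁴`, `N t = t⁶`.  `ker`: the points with abscissa `0` are `(0, ± t/2)`, those with abscissa `t` are
`(t, ± t²/2)` (`sg_eq`), i.e. `± T`, `± 2 T`.
`inv`: by `sum_xc`, `sum_yc` with `m = 2` and `sum_shift` for `P` and `P + T` (`P + T ∉ ⟨T⟩`); for `P ∉ ⟨T⟩`, `x = xc P`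
(`x ≠ 0`, `x ≠ t` by `ker`; `P ≠ 0`): `N x / (h x)² = x + 2 f'(0)/x + 4 f(0)/x² + 2 f'(t)/(x - t) + 4 f(t)/(x - t)²`
and `B x / (h x)³ = 1 - 2 f'(0)/x² - 8 f(0)/x³ - 2 f'(t)/(x - t)² - 8 f(t)/(x - t)³`, where `f(0) = t²/4`,
`2 f'(0) = t² - t`, `4 f(t) = t⁴`, `2 f'(t) = t³ + t²`.
-/

set_option autoImplicit false

namespace Pool.Agent.RkT

open WeierstrassCurve Polynomial

variable {K : Type} [Field K] [DecidableEq K]

theorem five_point [CharZero K] {t : K} (ht : t ≠ 0) (hd : t ^ 2 - 11 * t - 1 ≠ 0) :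
    (SG (a5 t) (b5 t) (c5 t)).toAffine.Nonsingular 0 (-t / 2) := by
  refine sg_ns ?_ ?_
  · rw [delta5]
    exact mul_ne_zero (pow_ne_zero 5 ht) hd
  · rw [a5, b5, c5]
    field_simp
    ring

omit [DecidableEq K] in
theorem n5_expand (t : K) : n5 t = X ^ 5 - C (2 * t) * X ^ 4 + C (t ^ 3 + 3 * t ^ 2 - t) * X ^ 3 +
    C (3 * t ^ 2 - 3 * t ^ 3) * X ^ 2 + C (t ^ 4 - 3 * t ^ 3) * X + C (t ^ 4) := by
  rw [n5]
  simp only [C_add, C_sub, C_mul, C_pow, map_ofNat]
  ring

omit [DecidableEq K] in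
theorem n5_eval (t x : K) : (n5 t).eval x = x ^ 5 - 2 * t * x ^ 4 + (t ^ 3 + 3 * t ^ 2 - t) * x ^ 3 +
    (3 * t ^ 2 - 3 * t ^ 3) * x ^ 2 + (t ^ 4 - 3 * t ^ 3) * x + t ^ 4 := by
  rw [n5_expand]
  simp

omit [DecidableEq K] in
theorem h5_eval (t x : K) : (h5 t).eval x = x * (x - t) := by
  simp [h5]

omit [DecidableEq K] in
theorem d5_eval (t x : K) : (d5 t).eval x =
    (5 * x ^ 4 - 8 * t * x ^ 3 + 3 * (t ^ 3 + 3 * t ^ 2 - t) * x ^ 2 +
      2 * (3 * t ^ 2 - 3 * t ^ 3) * x + (t ^ 4 - 3 * t ^ 3)) * (x * (x - t)) -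
    2 * (x ^ 5 - 2 * t * x ^ 4 + (t ^ 3 + 3 * t ^ 2 - t) * x ^ 3 +
    (3 * t ^ 2 - 3 * t ^ 3) * x ^ 2 + (t ^ 4 - 3 * t ^ 3) * x + t ^ 4) * (2 * x - t) := by
  have h1 : (derivative (n5 t)).eval x = 5 * x ^ 4 - 8 * t * x ^ 3 +
      3 * (t ^ 3 + 3 * t ^ 2 - t) * x ^ 2 +
      2 * (3 * t ^ 2 - 3 * t ^ 3) * x + (t ^ 4 - 3 * t ^ 3) := by
    rw [n5_expand]
    simp only [derivative_add, derivative_sub, derivative_C_mul, derivative_X_pow, derivative_X,
      derivative_C, eval_add, eval_sub, eval_mul, eval_C, eval_pow, eval_X, eval_zero,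
      eval_one]
    push_cast
    ring
  have h2 : (derivative (h5 t)).eval x = 2 * x - t := by
    rw [h5]
    simp
    ring
  rw [d5]
  simp only [eval_sub, eval_mul, h1, h2, n5_eval, h5_eval, eval_ofNat]

omit [DecidableEq K] in
theorem five_fx0 (t : K) : fx (a5 t) (b5 t) (c5 t) 0 = t ^ 2 / 4 := by
  simp [fx, c5]

omit [DecidableEq K] in
theorem five_fxt [CharZero K] (t : K) : fx (a5 t) (b5 t) (c5 t) t = t ^ 4 / 4 := by
  rw [fx, a5, b5, c5]
  field_simp
  ring

omit [DecidableEq K] in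
theorem five_fx'0 (t : K) : fx' (a5 t) (b5 t) 0 = (t ^ 2 - t) / 2 := by
  rw [fx', b5]
  ring

omit [DecidableEq K] in
theorem five_fx't [CharZero K] (t : K) : fx' (a5 t) (b5 t) t = (t ^ 3 + t ^ 2) / 2 := by
  rw [fx', a5, b5]
  field_simp
  ring

omit [DecidableEq K] in
theorem five_delta [CharZero K] {t : K} (ht : t ≠ 0) (hd : t ^ 2 - 11 * t - 1 ≠ 0) :
    (SG (a5 t) (b5 t) (c5 t)).Δ ≠ 0 := by
  rw [delta5]
  exact mul_ne_zero (pow_ne_zero 5 ht) hd

omit [DecidableEq K] in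
theorem five_point2 [CharZero K] {t : K} (ht : t ≠ 0) (hd : t ^ 2 - 11 * t - 1 ≠ 0) :
    (SG (a5 t) (b5 t) (c5 t)).toAffine.Nonsingular t (t ^ 2 / 2) := by
  refine sg_ns (five_delta ht hd) ?_
  rw [a5, b5, c5]
  field_simp
  ring

theorem five_two [CharZero K] {t : K} (ht : t ≠ 0) (hd : t ^ 2 - 11 * t - 1 ≠ 0) :
    2 • (Affine.Point.some 0 (-t / 2) (five_point ht hd) : PG (a5 t) (b5 t) (c5 t)) =
      Affine.Point.some t (t ^ 2 / 2) (five_point2 ht hd) := by
  obtain ⟨h', e⟩ := sg_double (five_point ht hd)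
    (by rw [neg_div]; exact neg_ne_zero.2 (div_ne_zero ht two_ne_zero)) (five_delta ht hd)
  rw [e]
  apply pg_congr
  · rw [a5, b5]
    field_simp
    ring
  · rw [a5, b5]
    field_simp
    ring

theorem five_four [CharZero K] {t : K} (ht : t ≠ 0) (hd : t ^ 2 - 11 * t - 1 ≠ 0) :
    4 • (Affine.Point.some 0 (-t / 2) (five_point ht hd) : PG (a5 t) (b5 t) (c5 t)) =
      -Affine.Point.some 0 (-t / 2) (five_point ht hd) := by
  obtain ⟨h', e⟩ := sg_double (five_point2 ht hd) (div_ne_zero (pow_ne_zero 2 ht) two_ne_zero)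
    (five_delta ht hd)
  have e4 : (4 : ℕ) = 2 * 2 := rfl
  obtain ⟨h'', e'⟩ := sg_neg (five_point ht hd)
  rw [e4, mul_smul, five_two ht hd, e, e']
  apply pg_congr
  · rw [a5, b5]
    field_simp
    ring
  · rw [a5, b5]
    field_simp
    ring

theorem five_five [CharZero K] {t : K} (ht : t ≠ 0) (hd : t ^ 2 - 11 * t - 1 ≠ 0) :
    5 • (Affine.Point.some 0 (-t / 2) (five_point ht hd) : PG (a5 t) (b5 t) (c5 t)) = 0 := by
  have e5 : (5 : ℕ) = 4 + 1 := rfl
  rw [e5, add_smul, five_four ht hd, one_smul, neg_add_cancel]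

theorem five_three [CharZero K] {t : K} (ht : t ≠ 0) (hd : t ^ 2 - 11 * t - 1 ≠ 0) :
    3 • (Affine.Point.some 0 (-t / 2) (five_point ht hd) : PG (a5 t) (b5 t) (c5 t)) =
      -Affine.Point.some t (t ^ 2 / 2) (five_point2 ht hd) := by
  have h := five_five ht hd
  have e5 : (5 : ℕ) = 3 + 2 := rfl
  rw [e5, add_smul, five_two ht hd] at h
  exact eq_neg_of_add_eq_zero_left h

theorem five_ne [CharZero K] {t : K} (ht : t ≠ 0) (hd : t ^ 2 - 11 * t - 1 ≠ 0) (i : ℕ)
    (hi : 0 < i) (hi' : i < 5) :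
    i • (Affine.Point.some 0 (-t / 2) (five_point ht hd) : PG (a5 t) (b5 t) (c5 t)) ≠ 0 := by
  interval_cases i
  · rw [one_smul]
    exact Affine.Point.some_ne_zero _
  · rw [five_two ht hd]
    exact Affine.Point.some_ne_zero _
  · rw [five_three ht hd]
    exact neg_ne_zero.2 (Affine.Point.some_ne_zero _)
  · rw [five_four ht hd]
    exact neg_ne_zero.2 (Affine.Point.some_ne_zero _)

theorem five_ker [CharZero K] {t : K} (ht : t ≠ 0) (hd : t ^ 2 - 11 * t - 1 ≠ 0) (x y : K)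
    (hxy : (SG (a5 t) (b5 t) (c5 t)).toAffine.Nonsingular x y) :
    (h5 t).eval x = 0 ↔ (Affine.Point.some x y hxy : PG (a5 t) (b5 t) (c5 t)) ∈
      AddSubgroup.zmultiples (Affine.Point.some 0 (-t / 2) (five_point ht hd) :
        PG (a5 t) (b5 t) (c5 t)) := by
  set T : PG (a5 t) (b5 t) (c5 t) := Affine.Point.some 0 (-t / 2) (five_point ht hd) with hT
  have hTmem : T ∈ AddSubgroup.zmultiples T := AddSubgroup.mem_zmultiples T
  have h2 : (Affine.Point.some t (t ^ 2 / 2) (five_point2 ht hd) : PG (a5 t) (b5 t) (c5 t)) ∈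
      AddSubgroup.zmultiples T := by
    rw [← five_two ht hd]
    exact AddSubgroup.nsmul_mem _ hTmem 2
  rw [h5_eval]
  constructor
  · intro h
    rcases mul_eq_zero.1 h with h | h
    · rcases xc_eq (P := (Affine.Point.some x y hxy : PG (a5 t) (b5 t) (c5 t))) (Q := T)
        (Affine.Point.some_ne_zero _) (Affine.Point.some_ne_zero _)
        (by rw [hT, xc_some, xc_some, h]) with e | e
      · rw [e]; exact hTmem
      · rw [e]; exact neg_mem hTmem
    · rcases xc_eq (P := (Affine.Point.some x y hxy : PG (a5 t) (b5 t) (c5 t)))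
        (Q := Affine.Point.some t (t ^ 2 / 2) (five_point2 ht hd))
        (Affine.Point.some_ne_zero _) (Affine.Point.some_ne_zero _)
        (by rw [xc_some, xc_some]; exact sub_eq_zero.1 h) with e | e
      · rw [e]; exact h2
      · rw [e]; exact neg_mem h2
  · intro h
    obtain ⟨k, hk⟩ := AddSubgroup.mem_zmultiples_iff.1 h
    have hk2 : k • T = (k % 5).toNat • T := by
      have e1 : ((k % 5).toNat : ℤ) = k % 5 := Int.toNat_of_nonneg (Int.emod_nonneg _ (by norm_num))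
      have e5 : (5 : ℤ) • T = 0 := by
        have := five_five ht hd
        rw [← natCast_zsmul] at this
        exact_mod_cast this
      calc k • T = (5 * (k / 5) + k % 5) • T := by rw [Int.mul_ediv_add_emod]
        _ = (k % 5) • T := by rw [add_smul, mul_comm, mul_smul, e5, smul_zero, zero_add]
        _ = ((k % 5).toNat : ℤ) • T := by rw [e1]
        _ = (k % 5).toNat • T := by rw [natCast_zsmul]
    rw [hk2] at hk
    have hlt : (k % 5).toNat < 5 := by
      have := Int.emod_lt_of_pos k (show (0 : ℤ) < 5 by norm_num)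
      omega
    obtain ⟨h3, e3⟩ := sg_neg (five_point2 ht hd)
    obtain ⟨h4, e4⟩ := sg_neg (five_point ht hd)
    generalize (k % 5).toNat = n at hk hlt
    interval_cases n
    · rw [zero_smul] at hk
      exact absurd hk.symm (Affine.Point.some_ne_zero _)
    · rw [one_smul, hT] at hk
      injection hk with hx _
      rw [← hx]; ring
    · rw [hT, five_two ht hd] at hk
      injection hk with hx _
      rw [← hx]; ring
    · rw [hT, five_three ht hd, e3] at hk
      injection hk with hx _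
      rw [← hx]; ring
    · rw [hT, five_four ht hd, e4] at hk
      injection hk with hx _
      rw [← hx]; ring

/-- the two sums for a point outside the kernel -/
theorem five_sums [CharZero K] {t : K} (ht : t ≠ 0) (hd : t ^ 2 - 11 * t - 1 ≠ 0)
    {P : PG (a5 t) (b5 t) (c5 t)}
    (hP : P ∉ AddSubgroup.zmultiples (Affine.Point.some 0 (-t / 2) (five_point ht hd) :
        PG (a5 t) (b5 t) (c5 t))) :
    (h5 t).eval (xc P) ≠ 0 ∧
    ∑ i ∈ Finset.range 5, xc (P + i • (Affine.Point.some 0 (-t / 2) (five_point ht hd) :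
        PG (a5 t) (b5 t) (c5 t))) = (n5 t).eval (xc P) / (h5 t).eval (xc P) ^ 2 + 2 * t ∧
    ∑ i ∈ Finset.range 5, yc (P + i • (Affine.Point.some 0 (-t / 2) (five_point ht hd) :
        PG (a5 t) (b5 t) (c5 t))) = yc P * (d5 t).eval (xc P) / (h5 t).eval (xc P) ^ 3 := by
  have hh : (h5 t).eval (xc P) ≠ 0 := by
    intro h0
    rcases P with _ | ⟨x, y, h1⟩
    · exact hP (zero_mem _)
    · exact hP ((five_ker ht hd x y h1).1 h0)
  refine ⟨hh, ?_, ?_⟩
  · rw [sum_xc (five_delta ht hd) (p := 5) (m := 2) rfl (five_five ht hd) (five_ne ht hd) hP]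
    simp only [Finset.sum_range_succ, Finset.sum_range_zero, zero_add, one_smul,
      show (1 + 1 : ℕ) = 2 from rfl, five_two ht hd, xc_some, five_fx0, five_fxt, five_fx'0, five_fx't]
    rw [h5_eval] at hh ⊢
    rw [n5_eval]
    have hx := left_ne_zero_of_mul hh
    have hx' := right_ne_zero_of_mul hh
    rw [sub_zero]
    field_simp
    ring
  · rw [sum_yc (five_delta ht hd) (p := 5) (m := 2) rfl (five_five ht hd) (five_ne ht hd) hP]
    simp only [Finset.sum_range_succ, Finset.sum_range_zero, zero_add, one_smul,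
      show (1 + 1 : ℕ) = 2 from rfl, five_two ht hd, xc_some, five_fx0, five_fxt, five_fx'0, five_fx't]
    rw [h5_eval] at hh ⊢
    rw [d5_eval]
    have hx := left_ne_zero_of_mul hh
    have hx' := right_ne_zero_of_mul hh
    rw [sub_zero]
    field_simp
    ring

theorem vel_five [CharZero K] {t : K} (ht : t ≠ 0) (hd : t ^ 2 - 11 * t - 1 ≠ 0) :
    IsVel 5 2 (a5 t) (b5 t) (c5 t) (a5 t) (b5' t) (c5' t) (n5 t) (h5 t) (d5 t)
      (Affine.Point.some 0 (-t / 2) (five_point ht hd)) := by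
  refine ⟨by norm_num, rfl, ?_, ?_, ?_, ?_, rfl, ?_, ?_, Affine.Point.some_ne_zero _,
    five_five ht hd, five_ker ht hd, ?_⟩
  · rw [n5_expand]
    monicity!
  · rw [n5_expand]
    compute_degree!
  · rw [h5]
    exact monic_X.mul (monic_X_sub_C t)
  · rw [h5, natDegree_mul X_ne_zero (X_sub_C_ne_zero t), natDegree_X, natDegree_X_sub_C]
  · apply Polynomial.funext
    intro x
    simp only [eval_add, eval_mul, eval_pow, eval_X, eval_C, n5_eval, h5_eval, d5_eval]
    rw [b5', c5', a5, b5, c5, s5]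
    field_simp
    ring
  · intro x hx
    rw [h5_eval] at hx
    rw [n5_eval]
    rcases mul_eq_zero.1 hx with h | h
    · rw [h]
      ring_nf
      exact pow_ne_zero 4 ht
    · rw [sub_eq_zero.1 h]
      ring_nf
      exact pow_ne_zero 6 ht
  · intro P hP
    obtain ⟨h1, h2, h3⟩ := five_sums ht hd hP
    have hP' : P + (Affine.Point.some 0 (-t / 2) (five_point ht hd) :
        PG (a5 t) (b5 t) (c5 t)) ∉ AddSubgroup.zmultiples (Affine.Point.some 0 (-t / 2)
          (five_point ht hd) : PG (a5 t) (b5 t) (c5 t)) := by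
      intro h
      apply hP
      have := sub_mem h (AddSubgroup.mem_zmultiples (Affine.Point.some 0 (-t / 2)
          (five_point ht hd) : PG (a5 t) (b5 t) (c5 t)))
      rwa [add_sub_cancel_right] at this
    obtain ⟨h1', h2', h3'⟩ := five_sums ht hd hP'
    rw [sum_shift (five_five ht hd) xc P, h2] at h2'
    rw [sum_shift (five_five ht hd) yc P, h3] at h3'
    have h4 := add_right_cancel h2'
    rw [div_eq_div_iff (pow_ne_zero 2 h1) (pow_ne_zero 2 h1')] at h4
    rw [div_eq_div_iff (pow_ne_zero 3 h1) (pow_ne_zero 3 h1')] at h3'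
    exact ⟨h4.symm, h3'.symm⟩

end Pool.Agent.RkT
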