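import Pool.Agent.RkT.VFun
import Pool.Agent.RkT.VSum

/-!
# RkT, module VSeven: the isogeny of degree 7

Let `b = d³ - d²`, `c = d² - d`.  `T = (0, -b/2)`, `2 T = (b, b c/2)`, `3 T = (c, -d (d - 1)³/2)`, `4 T = -(3 T)`,
`5 T = -(2 T)`, `6 T = -T`, `7 T = 0` (`sg_double` for `2 T`, and for `4 T = 2 (2 T)`, whose abscissa is `c` again;
`3 T = T + 2 T` by `sg_add`; `4 T = -(3 T)` by `sg_neg`, so `7 T = 0`).  `d ≠ 0`, `d ≠ 1`; `b ≠ 0`, `c ≠ 0`,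
`b - c = d (d - 1)² ≠ 0`.
`vel_seven`.  `eqn`: an identity of polynomials of degree 21 (checked numerically); e.g. `Polynomial.funext`,
evaluate at `x`, with `B x = N' x * h x - 2 N x * h' x` computed by `simp`; then `ring` after clearing the
denominators 2, 4 in `a7, b7, c7` (`field_simp`); it may help to compute
`4 f(0) = d⁴ (d - 1)²`, `4 f(b) = d⁶ (d - 1)⁴`, `4 f(c) = d² (d - 1)⁶` and the polynomials `g7 d 0`, `g7 d b`,
`g7 d c` (values of `2 f'`) first, and to write the identity as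
`f = X³ + ...`; another way: both sides have degree at most 21 in `x`, but evaluation at 22 points is not
easier.  If `ring` is too slow, write `h = x (x - b) (x - c)` as a variable where possible:
with `u₀ = 1/x`, `u₁ = 1/(x - b)`, `u₂ = 1/(x - c)` one has `X' = x + ∑ (g_i u_i + f_i u_i²)` and
`Y'/y = 1 - ∑ (g_i u_i² + 2 f_i u_i³)`.
Degrees: `n7 d = X^7 + lower`, `h7 d = X^3 + lower`.  `cop`: the roots of `h7` are `0, b, c`;
`N 0 = 4 f(0) b² c²`, `N b = 4 f(b) b² (b - c)²`, `N c = 4 f(c) c² (c - b)²` are not `0`.  `ker`: the points with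
abscissa `0`, `b`, `c` are `± T`, `± 2 T`, `± 3 T` (`xc_eq`).
`inv`: by `sum_xc`, `sum_yc` with `m = 3` and `sum_shift` for `P` and `P + T` (`P + T ∉ ⟨T⟩`): for `P ∉ ⟨T⟩`,
`x = xc P`, the quotients `N x / (h x)²` and `B x / (h x)³` are the right hand sides (up to a constant and the factor
`yc P`).
-/

set_option autoImplicit false

namespace Pool.Agent.RkT

open WeierstrassCurve Polynomial

variable {K : Type} [Field K] [DecidableEq K]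

theorem seven_point [CharZero K] {d : K} (h0 : d ≠ 0) (h1 : d ≠ 1)
    (hd : d ^ 3 - 8 * d ^ 2 + 5 * d + 1 ≠ 0) :
    (SG (a7 d) (b7 d) (c7 d)).toAffine.Nonsingular 0 (-(d ^ 3 - d ^ 2) / 2) := by
  refine sg_ns ?_ ?_
  · rw [delta7]
    exact mul_ne_zero (mul_ne_zero (pow_ne_zero 7 h0) (pow_ne_zero 7 (sub_ne_zero.2 h1))) hd
  · rw [a7, b7, c7]
    field_simp
    ring


omit [DecidableEq K] in
private theorem sv_a [CharZero K] (d : K) : a7 d = (d ^ 4 - 6 * d ^ 3 + 3 * d ^ 2 + 2 * d + 1) / 4 := by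
  rw [a7]
  field_simp
  ring

omit [DecidableEq K] in
private theorem sv_b [CharZero K] (d : K) : b7 d = (2 * d ^ 5 - 4 * d ^ 4 + 2 * d ^ 2) / 4 := by
  rw [b7]
  field_simp
  ring

omit [DecidableEq K] in
private theorem sv_c [CharZero K] (d : K) : c7 d = (d ^ 6 - 2 * d ^ 5 + d ^ 4) / 4 := by
  rw [c7]
  field_simp
  ring

omit [DecidableEq K] in
private theorem sv_f0 [CharZero K] (d : K) : f7 d 0 = d ^ 6 - 2 * d ^ 5 + d ^ 4 := by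
  rw [f7, sv_a, sv_b, sv_c]
  field_simp
  ring

omit [DecidableEq K] in
private theorem sv_fb [CharZero K] (d : K) : f7 d (d ^ 3 - d ^ 2) =
    d ^ 10 - 4 * d ^ 9 + 6 * d ^ 8 - 4 * d ^ 7 + d ^ 6 := by
  rw [f7, sv_a, sv_b, sv_c]
  field_simp
  ring

omit [DecidableEq K] in
private theorem sv_fc [CharZero K] (d : K) : f7 d (d ^ 2 - d) =
    d ^ 8 - 6 * d ^ 7 + 15 * d ^ 6 - 20 * d ^ 5 + 15 * d ^ 4 - 6 * d ^ 3 + d ^ 2 := by
  rw [f7, sv_a, sv_b, sv_c]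
  field_simp
  ring

omit [DecidableEq K] in
private theorem sv_g0 [CharZero K] (d : K) : g7 d 0 = d ^ 5 - 2 * d ^ 4 + d ^ 2 := by
  rw [g7, sv_a, sv_b]
  field_simp
  ring

omit [DecidableEq K] in
private theorem sv_gb [CharZero K] (d : K) : g7 d (d ^ 3 - d ^ 2) =
    d ^ 7 - d ^ 6 - 2 * d ^ 5 + 3 * d ^ 4 - d ^ 3 := by
  rw [g7, sv_a, sv_b]
  field_simp
  ring

omit [DecidableEq K] in
private theorem sv_gc [CharZero K] (d : K) : g7 d (d ^ 2 - d) =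
    d ^ 6 - 6 * d ^ 5 + 13 * d ^ 4 - 13 * d ^ 3 + 6 * d ^ 2 - d := by
  rw [g7, sv_a, sv_b]
  field_simp
  ring

omit [DecidableEq K] in
private theorem sv_b' [CharZero K] (d : K) : b7' d =
    (-20 * d ^ 7 + 142 * d ^ 5 - 284 * d ^ 4 + 280 * d ^ 3 - 138 * d ^ 2 + 20 * d) / 4 := by
  rw [b7', s7, sv_b, sv_g0, sv_gb, sv_gc]
  field_simp
  ring

omit [DecidableEq K] in
private theorem sv_c' [CharZero K] (d : K) : c7' d =
    (-4 * d ^ 11 - 32 * d ^ 10 + 184 * d ^ 9 - 428 * d ^ 8 + 808 * d ^ 7 - 1371 * d ^ 6 + 1570 * d ^ 5 - 1031 * d ^ 4 + 376 * d ^ 3 - 76 * d ^ 2 + 4 * d) / 4 := by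
  rw [c7', s7, w7, sv_a, sv_c, sv_g0, sv_gb, sv_gc, sv_f0, sv_fb, sv_fc]
  field_simp
  ring

omit [DecidableEq K] in
private theorem n7_expand [CharZero K] (d : K) : n7 d =
    X ^ 7 + C (-2 * d ^ 3 + 2 * d) * X ^ 6 + C (d ^ 7 + d ^ 6 - 5 * d ^ 5 + 8 * d ^ 4 - 12 * d ^ 3 + 8 * d ^ 2 - d) * X ^ 5 + C (-6 * d ^ 9 + 21 * d ^ 8 - 36 * d ^ 7 + 46 * d ^ 6 - 37 * d ^ 5 + 11 * d ^ 4 + d ^ 3) * X ^ 4 + C (d ^ 12 - 2 * d ^ 11 + 4 * d ^ 10 - 18 * d ^ 9 + 28 * d ^ 8 - 8 * d ^ 7 - 10 * d ^ 6 + 4 * d ^ 5 + d ^ 4) * X ^ 3 + C (-3 * d ^ 13 + 14 * d ^ 12 - 18 * d ^ 11 - 5 * d ^ 10 + 25 * d ^ 9 - 12 * d ^ 8 - 4 * d ^ 7 + 3 * d ^ 6) * X ^ 2 + C (d ^ 15 - 8 * d ^ 14 + 22 * d ^ 13 - 25 * d ^ 12 + 5 * d ^ 11 + 14 * d ^ 10 - 12 * d ^ 9 + 3 * d ^ 8) * X + C (d ^ 16 - 6 * d ^ 15 + 15 * d ^ 14 - 20 * d ^ 13 + 15 * d ^ 12 - 6 * d ^ 11 + d ^ 10) := by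
  rw [n7, sv_g0, sv_gb, sv_gc, sv_f0, sv_fb, sv_fc]
  simp only [C_add, C_sub, C_mul, C_pow, C_neg, map_ofNat]
  ring

omit [DecidableEq K] in
private theorem h7_expand (d : K) : h7 d =
    X ^ 3 + C (-d ^ 3 + d) * X ^ 2 + C (d ^ 5 - 2 * d ^ 4 + d ^ 3) * X := by
  rw [h7]
  simp only [C_add, C_sub, C_mul, C_pow, C_neg, map_ofNat]
  ring

omit [DecidableEq K] in
private theorem n7_eval [CharZero K] (d x : K) : (n7 d).eval x =
    x ^ 7 + (-2 * d ^ 3 + 2 * d) * x ^ 6 + (d ^ 7 + d ^ 6 - 5 * d ^ 5 + 8 * d ^ 4 - 12 * d ^ 3 + 8 * d ^ 2 - d) * x ^ 5 + (-6 * d ^ 9 + 21 * d ^ 8 - 36 * d ^ 7 + 46 * d ^ 6 - 37 * d ^ 5 + 11 * d ^ 4 + d ^ 3) * x ^ 4 + (d ^ 12 - 2 * d ^ 11 + 4 * d ^ 10 - 18 * d ^ 9 + 28 * d ^ 8 - 8 * d ^ 7 - 10 * d ^ 6 + 4 * d ^ 5 + d ^ 4) * x ^ 3 + (-3 * d ^ 13 + 14 * d ^ 12 - 18 * d ^ 11 - 5 * d ^ 10 + 25 * d ^ 9 - 12 * d ^ 8 - 4 * d ^ 7 + 3 * d ^ 6)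 * x ^ 2 + (d ^ 15 - 8 * d ^ 14 + 22 * d ^ 13 - 25 * d ^ 12 + 5 * d ^ 11 + 14 * d ^ 10 - 12 * d ^ 9 + 3 * d ^ 8) * x + (d ^ 16 - 6 * d ^ 15 + 15 * d ^ 14 - 20 * d ^ 13 + 15 * d ^ 12 - 6 * d ^ 11 + d ^ 10) := by
  rw [n7_expand]
  simp only [eval_add, eval_mul, eval_pow, eval_X, eval_C]

omit [DecidableEq K] in
private theorem h7_eval (d x : K) : (h7 d).eval x =
    x * (x - (d ^ 3 - d ^ 2)) * (x - (d ^ 2 - d)) := by
  simp [h7]

omit [DecidableEq K] in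
private theorem d7_eval [CharZero K] (d x : K) : (d7 d).eval x =
    (7 * x ^ 6 + (-12 * d ^ 3 + 12 * d) * x ^ 5 + (5 * d ^ 7 + 5 * d ^ 6 - 25 * d ^ 5 + 40 * d ^ 4 - 60 * d ^ 3 + 40 * d ^ 2 - 5 * d) * x ^ 4 + (-24 * d ^ 9 + 84 * d ^ 8 - 144 * d ^ 7 + 184 * d ^ 6 - 148 * d ^ 5 + 44 * d ^ 4 + 4 * d ^ 3) * x ^ 3 + (3 * d ^ 12 - 6 * d ^ 11 + 12 * d ^ 10 - 54 * d ^ 9 + 84 * d ^ 8 - 24 * d ^ 7 - 30 * d ^ 6 + 12 * d ^ 5 + 3 * d ^ 4) * x ^ 2 + (-6 * d ^ 13 + 28 * d ^ 12 - 36 * d ^ 11 - 10 * d ^ 10 + 50 * d ^ 9 - 24 * d ^ 8 - 8 * d ^ 7 + 6 * d ^ 6) * x + (d ^ 15 - 8 * d ^ 14 + 22 * d ^ 13 - 25 * d ^ 12 + 5 * d ^ 11 + 14 * d ^ 10 - 12 * d ^ 9 + 3 * d ^ 8)) *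
      (x * (x - (d ^ 3 - d ^ 2)) * (x - (d ^ 2 - d))) -
    2 * (x ^ 7 + (-2 * d ^ 3 + 2 * d) * x ^ 6 + (d ^ 7 + d ^ 6 - 5 * d ^ 5 + 8 * d ^ 4 - 12 * d ^ 3 + 8 * d ^ 2 - d) * x ^ 5 + (-6 * d ^ 9 + 21 * d ^ 8 - 36 * d ^ 7 + 46 * d ^ 6 - 37 * d ^ 5 + 11 * d ^ 4 + d ^ 3) * x ^ 4 + (d ^ 12 - 2 * d ^ 11 + 4 * d ^ 10 - 18 * d ^ 9 + 28 * d ^ 8 - 8 * d ^ 7 - 10 * d ^ 6 + 4 * d ^ 5 + d ^ 4) * x ^ 3 + (-3 * d ^ 13 + 14 * d ^ 12 - 18 * d ^ 11 - 5 * d ^ 10 + 25 * d ^ 9 - 12 * d ^ 8 - 4 * d ^ 7 + 3 * d ^ 6) * x ^ 2 + (d ^ 15 - 8 * d ^ 14 + 22 * d ^ 13 - 25 * d ^ 12 + 5 * d ^ 11 + 14 * d ^ 10 - 12 * d ^ 9 + 3 * d ^ 8) * x + (d ^ 16 - 6 * d ^ 15 + 15 * d ^ 14 - 20 * d ^ 13 + 15 * d ^ 12 - 6 * d ^ 11 + d ^ 10)) *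
      (3 * x ^ 2 + (-2 * d ^ 3 + 2 * d) * x + (d ^ 5 - 2 * d ^ 4 + d ^ 3)) := by
  have e1 : (derivative (n7 d)).eval x =
      7 * x ^ 6 + (-12 * d ^ 3 + 12 * d) * x ^ 5 + (5 * d ^ 7 + 5 * d ^ 6 - 25 * d ^ 5 + 40 * d ^ 4 - 60 * d ^ 3 + 40 * d ^ 2 - 5 * d) * x ^ 4 + (-24 * d ^ 9 + 84 * d ^ 8 - 144 * d ^ 7 + 184 * d ^ 6 - 148 * d ^ 5 + 44 * d ^ 4 + 4 * d ^ 3) * x ^ 3 + (3 * d ^ 12 - 6 * d ^ 11 + 12 * d ^ 10 - 54 * d ^ 9 + 84 * d ^ 8 - 24 * d ^ 7 - 30 * d ^ 6 + 12 * d ^ 5 + 3 * d ^ 4) * x ^ 2 + (-6 * d ^ 13 + 28 * d ^ 12 - 36 * d ^ 11 - 10 * d ^ 10 + 50 * d ^ 9 - 24 * d ^ 8 - 8 * d ^ 7 + 6 * d ^ 6) * x + (d ^ 15 - 8 * d ^ 14 + 22 * d ^ 13 - 25 * d ^ 12 + 5 * d ^ 11 + 14 * d ^ 10 - 12 * d ^ 9 + 3 * d ^ 8) := by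
    rw [n7_expand]
    simp only [derivative_add, derivative_C_mul, derivative_X_pow, derivative_X,
      derivative_C, eval_add, eval_mul, eval_C, eval_pow, eval_X, eval_zero, eval_one]
    push_cast
    ring
  have e2 : (derivative (h7 d)).eval x = 3 * x ^ 2 + (-2 * d ^ 3 + 2 * d) * x + (d ^ 5 - 2 * d ^ 4 + d ^ 3) := by
    rw [h7_expand]
    simp only [derivative_add, derivative_C_mul, derivative_X_pow, derivative_X,
      eval_add, eval_mul, eval_C, eval_pow, eval_X, eval_one]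
    push_cast
    ring
  rw [d7]
  simp only [eval_sub, eval_mul, e1, e2, n7_eval, h7_eval, eval_ofNat]

omit [DecidableEq K] in
private theorem sv_quarter [CharZero K] (A B C B' C' x P N h : K)
    (key : (4 * x ^ 3 + A * x ^ 2 + B * x + C) * P ^ 2 =
      4 * N ^ 3 + A * N ^ 2 * h ^ 2 + B' * N * h ^ 4 + C' * h ^ 6) :
    (x ^ 3 + A / 4 * x ^ 2 + B / 4 * x + C / 4) * P ^ 2 =
      N ^ 3 + A / 4 * N ^ 2 * h ^ 2 + B' / 4 * N * h ^ 4 + C' / 4 * h ^ 6 := by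
  linear_combination key / 4

omit [DecidableEq K] in
private theorem sv_fx0 [CharZero K] (d : K) : 4 * fx (a7 d) (b7 d) (c7 d) 0 = f7 d 0 := by
  rw [fx, f7]

omit [DecidableEq K] in
private theorem sv_fx (d x : K) : 4 * fx (a7 d) (b7 d) (c7 d) x = f7 d x := by
  rw [fx, f7]

omit [DecidableEq K] in
private theorem sv_fx' (d x : K) : 2 * fx' (a7 d) (b7 d) x = g7 d x := by
  rw [fx', g7]

omit [DecidableEq K] in
private theorem sv_delta [CharZero K] {d : K} (h0 : d ≠ 0) (h1 : d ≠ 1)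
    (hd : d ^ 3 - 8 * d ^ 2 + 5 * d + 1 ≠ 0) : (SG (a7 d) (b7 d) (c7 d)).Δ ≠ 0 := by
  rw [delta7]
  exact mul_ne_zero (mul_ne_zero (pow_ne_zero 7 h0) (pow_ne_zero 7 (sub_ne_zero.2 h1))) hd

omit [DecidableEq K] in
private theorem sv_p2 [CharZero K] {d : K} (h0 : d ≠ 0) (h1 : d ≠ 1)
    (hd : d ^ 3 - 8 * d ^ 2 + 5 * d + 1 ≠ 0) :
    (SG (a7 d) (b7 d) (c7 d)).toAffine.Nonsingular (d ^ 3 - d ^ 2) (d ^ 3 * (d - 1) ^ 2 / 2) := by
  refine sg_ns (sv_delta h0 h1 hd) ?_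
  rw [sv_a, sv_b, sv_c]
  field_simp
  ring

omit [DecidableEq K] in
private theorem sv_p3 [CharZero K] {d : K} (h0 : d ≠ 0) (h1 : d ≠ 1)
    (hd : d ^ 3 - 8 * d ^ 2 + 5 * d + 1 ≠ 0) :
    (SG (a7 d) (b7 d) (c7 d)).toAffine.Nonsingular (d ^ 2 - d) (-(d * (d - 1) ^ 3) / 2) := by
  refine sg_ns (sv_delta h0 h1 hd) ?_
  rw [sv_a, sv_b, sv_c]
  field_simp
  ring

private theorem sv_two [CharZero K] {d : K} (h0 : d ≠ 0) (h1 : d ≠ 1)
    (hd : d ^ 3 - 8 * d ^ 2 + 5 * d + 1 ≠ 0) :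
    2 • (Affine.Point.some 0 (-(d ^ 3 - d ^ 2) / 2) (seven_point h0 h1 hd) :
      PG (a7 d) (b7 d) (c7 d)) =
      Affine.Point.some (d ^ 3 - d ^ 2) (d ^ 3 * (d - 1) ^ 2 / 2) (sv_p2 h0 h1 hd) := by
  have hb : d ^ 3 - d ^ 2 ≠ 0 := by
    have e : d ^ 3 - d ^ 2 = d ^ 2 * (d - 1) := by ring
    rw [e]
    exact mul_ne_zero (pow_ne_zero 2 h0) (sub_ne_zero.2 h1)
  have hy : -(d ^ 3 - d ^ 2) / 2 ≠ 0 := div_ne_zero (neg_ne_zero.2 hb) two_ne_zero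
  obtain ⟨h', e⟩ := sg_double (seven_point h0 h1 hd) hy (sv_delta h0 h1 hd)
  have hl : (3 * (0 : K) ^ 2 + 2 * a7 d * 0 + b7 d) / (2 * (-(d ^ 3 - d ^ 2) / 2)) =
      (1 + d - d ^ 2) / 2 := by
    rw [div_eq_iff (mul_ne_zero two_ne_zero hy), b7]
    ring
  rw [e]
  apply pg_congr
  · rw [hl, a7]
    ring
  · rw [hl, a7]
    ring

private theorem sv_three [CharZero K] {d : K} (h0 : d ≠ 0) (h1 : d ≠ 1)
    (hd : d ^ 3 - 8 * d ^ 2 + 5 * d + 1 ≠ 0) :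
    3 • (Affine.Point.some 0 (-(d ^ 3 - d ^ 2) / 2) (seven_point h0 h1 hd) :
      PG (a7 d) (b7 d) (c7 d)) =
      Affine.Point.some (d ^ 2 - d) (-(d * (d - 1) ^ 3) / 2) (sv_p3 h0 h1 hd) := by
  have hb : d ^ 3 - d ^ 2 ≠ 0 := by
    have e : d ^ 3 - d ^ 2 = d ^ 2 * (d - 1) := by ring
    rw [e]
    exact mul_ne_zero (pow_ne_zero 2 h0) (sub_ne_zero.2 h1)
  have e3 : ∀ P : PG (a7 d) (b7 d) (c7 d), 3 • P = P + 2 • P := fun P => succ_nsmul' P 2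
  rw [e3, sv_two h0 h1 hd]
  obtain ⟨h', e⟩ := sg_add (sv_delta h0 h1 hd) (seven_point h0 h1 hd) (sv_p2 h0 h1 hd) hb.symm
  have hb' : (0 : K) - (d ^ 3 - d ^ 2) ≠ 0 := by
    rw [zero_sub]
    exact neg_ne_zero.2 hb
  have hl : (-(d ^ 3 - d ^ 2) / 2 - d ^ 3 * (d - 1) ^ 2 / 2) / (0 - (d ^ 3 - d ^ 2)) =
      (1 + d ^ 2 - d) / 2 := by
    rw [div_eq_iff hb']
    ring
  rw [e]
  apply pg_congr
  · rw [hl, a7]
    ring
  · rw [hl, a7]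
    ring

private theorem sv_four [CharZero K] {d : K} (h0 : d ≠ 0) (h1 : d ≠ 1)
    (hd : d ^ 3 - 8 * d ^ 2 + 5 * d + 1 ≠ 0) :
    4 • (Affine.Point.some 0 (-(d ^ 3 - d ^ 2) / 2) (seven_point h0 h1 hd) :
      PG (a7 d) (b7 d) (c7 d)) =
      -Affine.Point.some (d ^ 2 - d) (-(d * (d - 1) ^ 3) / 2) (sv_p3 h0 h1 hd) := by
  have hy : d ^ 3 * (d - 1) ^ 2 / 2 ≠ 0 :=
    div_ne_zero (mul_ne_zero (pow_ne_zero 3 h0) (pow_ne_zero 2 (sub_ne_zero.2 h1))) two_ne_zero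
  obtain ⟨h', e⟩ := sg_double (sv_p2 h0 h1 hd) hy (sv_delta h0 h1 hd)
  have hl : (3 * (d ^ 3 - d ^ 2) ^ 2 + 2 * a7 d * (d ^ 3 - d ^ 2) + b7 d) /
      (2 * (d ^ 3 * (d - 1) ^ 2 / 2)) = (d ^ 2 + d - 1) / 2 := by
    rw [div_eq_iff (mul_ne_zero two_ne_zero hy), a7, b7]
    ring
  have e4 : ∀ P : PG (a7 d) (b7 d) (c7 d), 4 • P = 2 • (2 • P) := fun P => by
    rw [← mul_smul]
    norm_num
  obtain ⟨h'', e'⟩ := sg_neg (sv_p3 h0 h1 hd)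
  rw [e4, sv_two h0 h1 hd, e, e']
  apply pg_congr
  · rw [hl, a7]
    ring
  · rw [hl, a7]
    ring

private theorem sv_seven [CharZero K] {d : K} (h0 : d ≠ 0) (h1 : d ≠ 1)
    (hd : d ^ 3 - 8 * d ^ 2 + 5 * d + 1 ≠ 0) :
    7 • (Affine.Point.some 0 (-(d ^ 3 - d ^ 2) / 2) (seven_point h0 h1 hd) :
      PG (a7 d) (b7 d) (c7 d)) = 0 := by
  have e7 : ∀ P : PG (a7 d) (b7 d) (c7 d), 7 • P = 4 • P + 3 • P := fun P => by rw [← add_smul]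
  rw [e7, sv_four h0 h1 hd, sv_three h0 h1 hd, neg_add_cancel]

private theorem sv_five [CharZero K] {d : K} (h0 : d ≠ 0) (h1 : d ≠ 1)
    (hd : d ^ 3 - 8 * d ^ 2 + 5 * d + 1 ≠ 0) :
    5 • (Affine.Point.some 0 (-(d ^ 3 - d ^ 2) / 2) (seven_point h0 h1 hd) :
      PG (a7 d) (b7 d) (c7 d)) =
      -Affine.Point.some (d ^ 3 - d ^ 2) (d ^ 3 * (d - 1) ^ 2 / 2) (sv_p2 h0 h1 hd) := by
  have h := sv_seven h0 h1 hd
  have e7 : ∀ P : PG (a7 d) (b7 d) (c7 d), 7 • P = 5 • P + 2 • P := fun P => by rw [← add_smul]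
  rw [e7, sv_two h0 h1 hd] at h
  exact eq_neg_of_add_eq_zero_left h

private theorem sv_six [CharZero K] {d : K} (h0 : d ≠ 0) (h1 : d ≠ 1)
    (hd : d ^ 3 - 8 * d ^ 2 + 5 * d + 1 ≠ 0) :
    6 • (Affine.Point.some 0 (-(d ^ 3 - d ^ 2) / 2) (seven_point h0 h1 hd) :
      PG (a7 d) (b7 d) (c7 d)) =
      -Affine.Point.some 0 (-(d ^ 3 - d ^ 2) / 2) (seven_point h0 h1 hd) := by
  have h := sv_seven h0 h1 hd
  have e7 : ∀ P : PG (a7 d) (b7 d) (c7 d), 7 • P = 6 • P + P := fun P => succ_nsmul P 6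
  rw [e7] at h
  exact eq_neg_of_add_eq_zero_left h

private theorem sv_ne [CharZero K] {d : K} (h0 : d ≠ 0) (h1 : d ≠ 1)
    (hd : d ^ 3 - 8 * d ^ 2 + 5 * d + 1 ≠ 0) (i : ℕ) (hi : 0 < i) (hi' : i < 7) :
    i • (Affine.Point.some 0 (-(d ^ 3 - d ^ 2) / 2) (seven_point h0 h1 hd) :
      PG (a7 d) (b7 d) (c7 d)) ≠ 0 := by
  interval_cases i
  · rw [one_smul]
    exact Affine.Point.some_ne_zero _
  · rw [sv_two h0 h1 hd]
    exact Affine.Point.some_ne_zero _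
  · rw [sv_three h0 h1 hd]
    exact Affine.Point.some_ne_zero _
  · rw [sv_four h0 h1 hd]
    exact neg_ne_zero.2 (Affine.Point.some_ne_zero _)
  · rw [sv_five h0 h1 hd]
    exact neg_ne_zero.2 (Affine.Point.some_ne_zero _)
  · rw [sv_six h0 h1 hd]
    exact neg_ne_zero.2 (Affine.Point.some_ne_zero _)

private theorem sv_ker [CharZero K] {d : K} (h0 : d ≠ 0) (h1 : d ≠ 1)
    (hd : d ^ 3 - 8 * d ^ 2 + 5 * d + 1 ≠ 0) (x y : K)
    (hxy : (SG (a7 d) (b7 d) (c7 d)).toAffine.Nonsingular x y) :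
    (h7 d).eval x = 0 ↔ (Affine.Point.some x y hxy : PG (a7 d) (b7 d) (c7 d)) ∈
      AddSubgroup.zmultiples (Affine.Point.some 0 (-(d ^ 3 - d ^ 2) / 2) (seven_point h0 h1 hd) :
      PG (a7 d) (b7 d) (c7 d)) := by
  set T : PG (a7 d) (b7 d) (c7 d) :=
    Affine.Point.some 0 (-(d ^ 3 - d ^ 2) / 2) (seven_point h0 h1 hd) with hT
  have hTmem : T ∈ AddSubgroup.zmultiples T := AddSubgroup.mem_zmultiples T
  have m2 : (Affine.Point.some (d ^ 3 - d ^ 2) (d ^ 3 * (d - 1) ^ 2 / 2) (sv_p2 h0 h1 hd) :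
      PG (a7 d) (b7 d) (c7 d)) ∈ AddSubgroup.zmultiples T := by
    rw [← sv_two h0 h1 hd]
    exact AddSubgroup.nsmul_mem _ hTmem 2
  have m3 : (Affine.Point.some (d ^ 2 - d) (-(d * (d - 1) ^ 3) / 2) (sv_p3 h0 h1 hd) :
      PG (a7 d) (b7 d) (c7 d)) ∈ AddSubgroup.zmultiples T := by
    rw [← sv_three h0 h1 hd]
    exact AddSubgroup.nsmul_mem _ hTmem 3
  rw [h7_eval]
  constructor
  · intro h
    rcases mul_eq_zero.1 h with h | h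
    · rcases mul_eq_zero.1 h with h | h
      · rcases xc_eq (P := (Affine.Point.some x y hxy : PG (a7 d) (b7 d) (c7 d))) (Q := T)
          (Affine.Point.some_ne_zero _) (Affine.Point.some_ne_zero _)
          (by rw [hT, xc_some, xc_some, h]) with e | e
        · rw [e]; exact hTmem
        · rw [e]; exact neg_mem hTmem
      · rcases xc_eq (P := (Affine.Point.some x y hxy : PG (a7 d) (b7 d) (c7 d)))
          (Q := Affine.Point.some (d ^ 3 - d ^ 2) (d ^ 3 * (d - 1) ^ 2 / 2) (sv_p2 h0 h1 hd))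
          (Affine.Point.some_ne_zero _) (Affine.Point.some_ne_zero _)
          (by rw [xc_some, xc_some]; exact sub_eq_zero.1 h) with e | e
        · rw [e]; exact m2
        · rw [e]; exact neg_mem m2
    · rcases xc_eq (P := (Affine.Point.some x y hxy : PG (a7 d) (b7 d) (c7 d)))
        (Q := Affine.Point.some (d ^ 2 - d) (-(d * (d - 1) ^ 3) / 2) (sv_p3 h0 h1 hd))
        (Affine.Point.some_ne_zero _) (Affine.Point.some_ne_zero _)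
        (by rw [xc_some, xc_some]; exact sub_eq_zero.1 h) with e | e
      · rw [e]; exact m3
      · rw [e]; exact neg_mem m3
  · intro h
    obtain ⟨k, hk⟩ := AddSubgroup.mem_zmultiples_iff.1 h
    have hk2 : k • T = (k % 7).toNat • T := by
      have e1 : ((k % 7).toNat : ℤ) = k % 7 := Int.toNat_of_nonneg (Int.emod_nonneg _ (by norm_num))
      have e5 : (7 : ℤ) • T = 0 := by
        have := sv_seven h0 h1 hd
        rw [← natCast_zsmul] at this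
        exact_mod_cast this
      calc k • T = (7 * (k / 7) + k % 7) • T := by rw [Int.mul_ediv_add_emod]
        _ = (k % 7) • T := by rw [add_smul, mul_comm, mul_smul, e5, smul_zero, zero_add]
        _ = ((k % 7).toNat : ℤ) • T := by rw [e1]
        _ = (k % 7).toNat • T := by rw [natCast_zsmul]
    rw [hk2] at hk
    have hlt : (k % 7).toNat < 7 := by
      have := Int.emod_lt_of_pos k (show (0 : ℤ) < 7 by norm_num)
      omega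
    obtain ⟨h3, e3⟩ := sg_neg (sv_p2 h0 h1 hd)
    obtain ⟨h4, e4⟩ := sg_neg (seven_point h0 h1 hd)
    obtain ⟨h5, e5⟩ := sg_neg (sv_p3 h0 h1 hd)
    generalize (k % 7).toNat = n at hk hlt
    interval_cases n
    · rw [zero_smul] at hk
      exact absurd hk.symm (Affine.Point.some_ne_zero _)
    · rw [one_smul, hT] at hk
      injection hk with hx _
      rw [← hx]; ring
    · rw [hT, sv_two h0 h1 hd] at hk
      injection hk with hx _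
      rw [← hx]; ring
    · rw [hT, sv_three h0 h1 hd] at hk
      injection hk with hx _
      rw [← hx]; ring
    · rw [hT, sv_four h0 h1 hd, e5] at hk
      injection hk with hx _
      rw [← hx]; ring
    · rw [hT, sv_five h0 h1 hd, e3] at hk
      injection hk with hx _
      rw [← hx]; ring
    · rw [hT, sv_six h0 h1 hd, e4] at hk
      injection hk with hx _
      rw [← hx]; ring

omit [DecidableEq K] in
private theorem sv_genN (b c g0 gb gc f0 fb fc x : K) (hx : x ≠ 0) (hb : x - b ≠ 0)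
    (hc : x - c ≠ 0) :
    (X ^ 3 * (X - C b) ^ 2 * (X - C c) ^ 2 +
      (C g0 * X + C f0) * (X - C b) ^ 2 * (X - C c) ^ 2 +
      (C gb * (X - C b) + C fb) * X ^ 2 * (X - C c) ^ 2 +
      (C gc * (X - C c) + C fc) * X ^ 2 * (X - C b) ^ 2 : K[X]).eval x /
      (x * (x - b) * (x - c)) ^ 2 =
    x + (g0 / x + f0 / x ^ 2 + (gb / (x - b) + fb / (x - b) ^ 2) +
      (gc / (x - c) + fc / (x - c) ^ 2)) := by
  simp only [eval_add, eval_sub, eval_mul, eval_pow, eval_X, eval_C]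
  field_simp
  ring

omit [DecidableEq K] in
private theorem sv_genD (b c g0 gb gc f0 fb fc x : K) (hx : x ≠ 0) (hb : x - b ≠ 0)
    (hc : x - c ≠ 0) :
    (derivative (X ^ 3 * (X - C b) ^ 2 * (X - C c) ^ 2 +
      (C g0 * X + C f0) * (X - C b) ^ 2 * (X - C c) ^ 2 +
      (C gb * (X - C b) + C fb) * X ^ 2 * (X - C c) ^ 2 +
      (C gc * (X - C c) + C fc) * X ^ 2 * (X - C b) ^ 2 : K[X]) *
        (X * (X - C b) * (X - C c)) -
      2 * (X ^ 3 * (X - C b) ^ 2 * (X - C c) ^ 2 +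
      (C g0 * X + C f0) * (X - C b) ^ 2 * (X - C c) ^ 2 +
      (C gb * (X - C b) + C fb) * X ^ 2 * (X - C c) ^ 2 +
      (C gc * (X - C c) + C fc) * X ^ 2 * (X - C b) ^ 2) *
        derivative (X * (X - C b) * (X - C c))).eval x /
      (x * (x - b) * (x - c)) ^ 3 =
    1 - (g0 / x ^ 2 + 2 * f0 / x ^ 3 + (gb / (x - b) ^ 2 + 2 * fb / (x - b) ^ 3) +
      (gc / (x - c) ^ 2 + 2 * fc / (x - c) ^ 3)) := by
  simp only [derivative_add, derivative_sub, derivative_mul, derivative_pow, derivative_X,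
    derivative_C, eval_add, eval_sub, eval_mul, eval_pow, eval_X, eval_C, eval_one, eval_zero,
    eval_ofNat, Nat.cast_ofNat]
  norm_num
  field_simp
  ring

/-- the two sums for a point outside the kernel -/
private theorem sv_sums [CharZero K] {d : K} (h0 : d ≠ 0) (h1 : d ≠ 1)
    (hd : d ^ 3 - 8 * d ^ 2 + 5 * d + 1 ≠ 0)
    {P : PG (a7 d) (b7 d) (c7 d)}
    (hP : P ∉ AddSubgroup.zmultiples (Affine.Point.some 0 (-(d ^ 3 - d ^ 2) / 2) (seven_point h0 h1 hd) :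
      PG (a7 d) (b7 d) (c7 d))) :
    (h7 d).eval (xc P) ≠ 0 ∧
    ∑ i ∈ Finset.range 7, xc (P + i • (Affine.Point.some 0 (-(d ^ 3 - d ^ 2) / 2) (seven_point h0 h1 hd) :
      PG (a7 d) (b7 d) (c7 d))) =
      (n7 d).eval (xc P) / (h7 d).eval (xc P) ^ 2 + (2 * (d ^ 3 - d ^ 2) + 2 * (d ^ 2 - d)) ∧
    ∑ i ∈ Finset.range 7, yc (P + i • (Affine.Point.some 0 (-(d ^ 3 - d ^ 2) / 2) (seven_point h0 h1 hd) :
      PG (a7 d) (b7 d) (c7 d))) =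
      yc P * ((d7 d).eval (xc P) / (h7 d).eval (xc P) ^ 3) := by
  have hh : (h7 d).eval (xc P) ≠ 0 := by
    intro h2
    rcases P with _ | ⟨x, y, h3⟩
    · exact hP (zero_mem _)
    · exact hP ((sv_ker h0 h1 hd x y h3).1 h2)
  have hh' := hh
  rw [h7_eval] at hh'
  have hx := left_ne_zero_of_mul (left_ne_zero_of_mul hh')
  have hx' := right_ne_zero_of_mul (left_ne_zero_of_mul hh')
  have hx'' := right_ne_zero_of_mul hh'
  refine ⟨hh, ?_, ?_⟩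
  · rw [sum_xc (sv_delta h0 h1 hd) (p := 7) (m := 3) rfl (sv_seven h0 h1 hd) (sv_ne h0 h1 hd) hP]
    simp only [Finset.sum_range_succ, Finset.sum_range_zero, zero_add, one_smul,
      show (1 + 1 : ℕ) = 2 from rfl, show (2 + 1 : ℕ) = 3 from rfl, sv_two h0 h1 hd,
      sv_three h0 h1 hd, xc_some, sv_fx, sv_fx']
    rw [h7_eval, n7, sv_genN _ _ _ _ _ _ _ _ _ hx hx' hx'', sub_zero]
    ring
  · rw [sum_yc (sv_delta h0 h1 hd) (p := 7) (m := 3) rfl (sv_seven h0 h1 hd) (sv_ne h0 h1 hd) hP]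
    have e8 : ∀ x : K, 8 * fx (a7 d) (b7 d) (c7 d) x = 2 * f7 d x := fun x => by
      rw [← sv_fx]
      ring
    simp only [Finset.sum_range_succ, Finset.sum_range_zero, zero_add, one_smul,
      show (1 + 1 : ℕ) = 2 from rfl, show (2 + 1 : ℕ) = 3 from rfl, sv_two h0 h1 hd,
      sv_three h0 h1 hd, xc_some, e8, sv_fx']
    rw [h7_eval, d7, n7, h7, sv_genD _ _ _ _ _ _ _ _ _ hx hx' hx'', sub_zero]

theorem vel_seven [CharZero K] {d : K} (h0 : d ≠ 0) (h1 : d ≠ 1)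
    (hd : d ^ 3 - 8 * d ^ 2 + 5 * d + 1 ≠ 0) :
    IsVel 7 3 (a7 d) (b7 d) (c7 d) (a7 d) (b7' d) (c7' d) (n7 d) (h7 d) (d7 d)
      (Affine.Point.some 0 (-(d ^ 3 - d ^ 2) / 2) (seven_point h0 h1 hd)) := by
  have h1' : d - 1 ≠ 0 := sub_ne_zero.2 h1
  refine ⟨by norm_num, rfl, ?_, ?_, ?_, ?_, rfl, ?_, ?_, Affine.Point.some_ne_zero _,
    sv_seven h0 h1 hd, sv_ker h0 h1 hd, ?_⟩
  · rw [n7_expand]
    monicity!
  · rw [n7_expand]
    compute_degree!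
  · rw [h7]
    exact (monic_X.mul (monic_X_sub_C _)).mul (monic_X_sub_C _)
  · rw [h7, natDegree_mul (mul_ne_zero X_ne_zero (X_sub_C_ne_zero _)) (X_sub_C_ne_zero _),
      natDegree_mul X_ne_zero (X_sub_C_ne_zero _), natDegree_X, natDegree_X_sub_C,
      natDegree_X_sub_C]
  · apply Polynomial.funext
    intro x
    simp only [eval_add, eval_mul, eval_pow, eval_X, eval_C]
    rw [sv_a, sv_b, sv_c, sv_b', sv_c']
    apply sv_quarter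
    rw [n7_eval, h7_eval, d7_eval]
    ring
  · intro x hx
    rw [h7_eval] at hx
    rw [n7_eval]
    rcases mul_eq_zero.1 hx with h | h
    · rcases mul_eq_zero.1 h with h | h
      · have e : d ^ 10 * (d - 1) ^ 6 ≠ 0 := mul_ne_zero (pow_ne_zero _ h0) (pow_ne_zero _ h1')
        rw [h]
        intro h2
        apply e
        rw [← h2]
        ring
      · have e : d ^ 12 * (d - 1) ^ 10 ≠ 0 := mul_ne_zero (pow_ne_zero _ h0) (pow_ne_zero _ h1')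
        rw [sub_eq_zero.1 h]
        intro h2
        apply e
        rw [← h2]
        ring
    · have e : d ^ 6 * (d - 1) ^ 12 ≠ 0 := mul_ne_zero (pow_ne_zero _ h0) (pow_ne_zero _ h1')
      rw [sub_eq_zero.1 h]
      intro h2
      apply e
      rw [← h2]
      ring
  · intro P hP
    obtain ⟨k1, k2, k3⟩ := sv_sums h0 h1 hd hP
    have hP' : P + (Affine.Point.some 0 (-(d ^ 3 - d ^ 2) / 2) (seven_point h0 h1 hd) :
      PG (a7 d) (b7 d) (c7 d)) ∉ AddSubgroup.zmultiples (Affine.Point.some 0 (-(d ^ 3 - d ^ 2) / 2) (seven_point h0 h1 hd) :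
      PG (a7 d) (b7 d) (c7 d)) := by
      intro h
      apply hP
      have := sub_mem h (AddSubgroup.mem_zmultiples (Affine.Point.some 0 (-(d ^ 3 - d ^ 2) / 2) (seven_point h0 h1 hd) :
      PG (a7 d) (b7 d) (c7 d)))
      rwa [add_sub_cancel_right] at this
    obtain ⟨k1', k2', k3'⟩ := sv_sums h0 h1 hd hP'
    rw [sum_shift (sv_seven h0 h1 hd) xc P, k2] at k2'
    rw [sum_shift (sv_seven h0 h1 hd) yc P, k3] at k3'
    have k4 := add_right_cancel k2'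
    rw [div_eq_div_iff (pow_ne_zero 2 k1) (pow_ne_zero 2 k1')] at k4
    rw [← mul_div_assoc, ← mul_div_assoc,
      div_eq_div_iff (pow_ne_zero 3 k1) (pow_ne_zero 3 k1')] at k3'
    exact ⟨k4.symm, k3'.symm⟩

end Pool.Agent.RkT
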