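import Pool.Agent.RkT.VDesc
import Pool.Agent.RkT.VFive
import Pool.Agent.RkT.VSeven
import Pool.Agent.RkT.TateN
import Pool.Agent.RkT.ArFive
import Pool.Agent.RkT.ArSeven
import Pool.Agent.RkT.Final

/-!
# RkT, module Arr57: removing 5-torsion and 7-torsion
-/

set_option autoImplicit false

namespace Pool.Agent.RkT

open WeierstrassCurve Polynomial

theorem vel_isg' {p m : ℕ} {a b c a' b' c' xT yT : ℚ} {N h B : ℚ[X]} {A₁ A₂ A₃ A₄ A₅ A₆ x₁ y₁ : Qb}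
    {N' h' B' : Qb[X]} (e1 : A₁ = (a : Qb)) (e2 : A₂ = (b : Qb)) (e3 : A₃ = (c : Qb)) (e4 : A₄ = (a' : Qb))
    (e5 : A₅ = (b' : Qb)) (e6 : A₆ = (c' : Qb)) (e7 : x₁ = (xT : Qb)) (e8 : y₁ = (yT : Qb))
    (e9 : N' = N.map (algebraMap ℚ Qb)) (e10 : h' = h.map (algebraMap ℚ Qb))
    (e11 : B' = B.map (algebraMap ℚ Qb))
    (hΔ : (SW a b c).Δ ≠ 0) (hΔ' : (SW a' b' c').Δ ≠ 0)
    (hT : (SG A₁ A₂ A₃).toAffine.Nonsingular x₁ y₁)
    (V : IsVel p m A₁ A₂ A₃ A₄ A₅ A₆ N' h' B' (Affine.Point.some x₁ y₁ hT))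
    (hfin : {P : PG A₁ A₂ A₃ | p • P = 0}.Finite) :
    Isg p (Pt (SW a b c)) (Pt (SW a' b' c')) := by
  subst e1 e2 e3 e4 e5 e6 e7 e8 e9 e10 e11
  exact vel_isg hΔ hΔ' hT V hfin

theorem isg_five {t : ℚ} (ht : t ≠ 0) (hd : t ^ 2 - 11 * t - 1 ≠ 0) :
    Isg 5 (Pt (SW (a5 t) (b5 t) (c5 t))) (Pt (SW (a5 t) (b5' t) (c5' t))) := by
  have ht' : (t : Qb) ≠ 0 := by exact_mod_cast ht
  have hd' : (t : Qb) ^ 2 - 11 * (t : Qb) - 1 ≠ 0 := by exact_mod_cast hd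
  have hΔ : (SW (a5 t) (b5 t) (c5 t)).Δ ≠ 0 := by
    rw [← sg_sw, delta5]
    exact mul_ne_zero (pow_ne_zero 5 ht) hd
  have hΔ' : (SW (a5 t) (b5' t) (c5' t)).Δ ≠ 0 := by
    rw [← sg_sw, delta5']
    exact mul_ne_zero ht (pow_ne_zero 5 hd)
  have hΔq : (SG (a5 (t : Qb)) (b5 (t : Qb)) (c5 (t : Qb))).Δ ≠ 0 := by
    rw [delta5]
    exact mul_ne_zero (pow_ne_zero 5 ht') hd'
  have et : algebraMap ℚ Qb t = (t : Qb) := eq_ratCast _ _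
  refine vel_isg' (xT := 0) (yT := -t / 2) (N := n5 t) (h := h5 t) (B := d5 t) ?_ ?_ ?_ ?_ ?_ ?_ ?_ ?_ ?_ ?_ ?_
    hΔ hΔ' (five_point ht' hd') (vel_five ht' hd') (fin_five hΔq)
  · simp [a5]
  · simp [b5]
  · simp [c5]
  · simp [a5]
  · simp [b5', b5, s5]
  · simp [c5', c5, a5, s5]
  · simp
  · simp
  · rw [n5_map, et]
  · rw [h5_map, et]
  · rw [d5_map, et]

theorem isg_seven {d : ℚ} (h0 : d ≠ 0) (h1 : d ≠ 1) (hd : d ^ 3 - 8 * d ^ 2 + 5 * d + 1 ≠ 0) :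
    Isg 7 (Pt (SW (a7 d) (b7 d) (c7 d))) (Pt (SW (a7 d) (b7' d) (c7' d))) := by
  have h0' : (d : Qb) ≠ 0 := by exact_mod_cast h0
  have h1' : (d : Qb) ≠ 1 := by exact_mod_cast h1
  have hd' : (d : Qb) ^ 3 - 8 * (d : Qb) ^ 2 + 5 * (d : Qb) + 1 ≠ 0 := by exact_mod_cast hd
  have hΔ : (SW (a7 d) (b7 d) (c7 d)).Δ ≠ 0 := by
    rw [← sg_sw, delta7]
    exact mul_ne_zero (mul_ne_zero (pow_ne_zero 7 h0) (pow_ne_zero 7 (sub_ne_zero.2 h1))) hd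
  have hΔ' : (SW (a7 d) (b7' d) (c7' d)).Δ ≠ 0 := by
    rw [← sg_sw, delta7']
    exact mul_ne_zero (mul_ne_zero h0 (sub_ne_zero.2 h1)) (pow_ne_zero 7 hd)
  have hΔq : (SG (a7 (d : Qb)) (b7 (d : Qb)) (c7 (d : Qb))).Δ ≠ 0 := by
    rw [delta7]
    exact mul_ne_zero (mul_ne_zero (pow_ne_zero 7 h0') (pow_ne_zero 7 (sub_ne_zero.2 h1'))) hd'
  have et : algebraMap ℚ Qb d = (d : Qb) := eq_ratCast _ _
  refine vel_isg' (xT := 0) (yT := -(d ^ 3 - d ^ 2) / 2) (N := n7 d) (h := h7 d) (B := d7 d) ?_ ?_ ?_ ?_ ?_ ?_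
    ?_ ?_ ?_ ?_ ?_ hΔ hΔ' (seven_point h0' h1' hd') (vel_seven h0' h1' hd') (fin_seven hΔq)
  · simp [a7]
  · simp [b7]
  · simp [c7]
  · simp [a7]
  · simp [b7', b7, s7, g7, a7]
  · simp [c7', c7, s7, w7, g7, f7, a7, b7]
  · simp
  · simp
  · rw [n7_map, et]
  · rw [h7_map, et]
  · rw [d7_map, et]

/-- a curve without points of order `p`, linked with `A` -/
def Fre (p : ℕ) (A : Type) [AddCommGroup A] : Prop :=
  ∃ a b c : ℚ, (SW a b c).Δ ≠ 0 ∧ Isg p A (Pt (SW a b c)) ∧ ∀ P : Pt (SW a b c), p • P = 0 → P = 0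

theorem Fre.of_isg {p : ℕ} {A B : Type} [AddCommGroup A] [AddCommGroup B] (h : Isg p A B)
    (h' : Fre p B) : Fre p A := by
  obtain ⟨a, b, c, h1, h2, h3⟩ := h'
  exact ⟨a, b, c, h1, h.trans h2, h3⟩

/-- one step of the chain for `5` -/
theorem five_next {t : ℚ} (hΔ : (SW (a5 t) (b5 t) (c5 t)).Δ ≠ 0) :
    Fre 5 (Pt (SW (a5 t) (b5 t) (c5 t))) ∨ ∃ T u : ℚ, u ≠ 0 ∧ T ≠ 0 ∧ (SW (a5 T) (b5 T) (c5 T)).Δ ≠ 0 ∧
      t ^ 4 + 228 * t ^ 3 + 494 * t ^ 2 - 228 * t + 1 =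
        u ^ 4 * (T ^ 4 - 12 * T ^ 3 + 14 * T ^ 2 + 12 * T + 1) ∧
      t * (t ^ 2 - 11 * t - 1) ^ 5 = u ^ 12 * (T ^ 5 * (T ^ 2 - 11 * T - 1)) ∧
      (Fre 5 (Pt (SW (a5 T) (b5 T) (c5 T))) → Fre 5 (Pt (SW (a5 t) (b5 t) (c5 t)))) := by
  have hD := hΔ
  rw [← sg_sw, delta5] at hD
  have ht : t ≠ 0 := by
    rintro rfl
    exact hD (by ring)
  have hd : t ^ 2 - 11 * t - 1 ≠ 0 := right_ne_zero_of_mul hD
  have hI := isg_five ht hd
  have hΔ' : (SW (a5 t) (b5' t) (c5' t)).Δ ≠ 0 := by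
    rw [← sg_sw, delta5']
    exact mul_ne_zero ht (pow_ne_zero 5 hd)
  by_cases h0 : ∀ P : Pt (SW (a5 t) (b5' t) (c5' t)), 5 • P = 0 → P = 0
  · exact Or.inl ⟨_, _, _, hΔ', hI, h0⟩
  · right
    push Not at h0
    obtain ⟨P, h5, hP⟩ := h0
    obtain ⟨T, u, r, hu, ha, hb, hc⟩ := tate_five hΔ' hP h5
    obtain ⟨i1, i2⟩ := inv_change ha hb hc
    rw [← sg_sw, ← sg_sw, delta5', delta5] at i2
    rw [c4_five', c4_five] at i1
    have hR : (SW (a5 T) (b5 T) (c5 T)).Δ ≠ 0 := by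
      rw [← sg_sw, delta5]
      intro hc'
      rw [hc', mul_zero] at i2
      exact mul_ne_zero ht (pow_ne_zero 5 hd) i2
    have hT : T ≠ 0 := by
      rintro rfl
      apply hR
      rw [← sg_sw, delta5]
      ring
    refine ⟨T, u, hu, hT, hR, i1, i2, fun hF => ?_⟩
    obtain ⟨-, e, -⟩ := iso_sw hu hR ha hb hc
    exact Fre.of_isg (hI.trans (Isg.of_equiv 5 e.symm)) hF

theorem five_chain (ℓ : ℕ) (hℓ : ℓ.Prime) (k : ℕ) : ∀ t : ℚ, (SW (a5 t) (b5 t) (c5 t)).Δ ≠ 0 →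
    (padicValRat ℓ t).natAbs = k → k ≠ 0 → Fre 5 (Pt (SW (a5 t) (b5 t) (c5 t))) := by
  induction k using Nat.strong_induction_on with
  | _ k ih =>
    intro t hΔ hk hk0
    rcases five_next hΔ with h | ⟨T, u, hu, hT, hR, e4, e12, hF⟩
    · exact h
    · have ht : t ≠ 0 := by
        rintro rfl
        apply hΔ
        rw [← sg_sw, delta5]
        ring
      have hv : padicValRat ℓ t ≠ 0 := by
        intro hv
        rw [hv] at hk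
        exact hk0 hk.symm
      have h5 := five_step ht hT e4 e12 hu ℓ hℓ hv
      refine hF (ih _ ?_ T hR rfl ?_)
      · omega
      · omega

theorem to_five_free {a b c : ℚ} (hΔ : (SW a b c).Δ ≠ 0) : Fre 5 (Pt (SW a b c)) := by
  by_cases h0 : ∀ P : Pt (SW a b c), 5 • P = 0 → P = 0
  · exact ⟨a, b, c, hΔ, Isg.refl 5 _, h0⟩
  push Not at h0
  obtain ⟨P, h5, hP⟩ := h0
  obtain ⟨t, u, r, hu, ha, hb, hc⟩ := tate_five hΔ hP h5
  have i2 := (inv_change ha hb hc).2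
  have hR : (SW (a5 t) (b5 t) (c5 t)).Δ ≠ 0 := by
    intro hc'
    rw [hc', mul_zero] at i2
    exact hΔ i2
  obtain ⟨-, e, -⟩ := iso_sw hu hR ha hb hc
  refine Fre.of_isg (Isg.of_equiv 5 e.symm) ?_
  have key : ∀ t : ℚ, (SW (a5 t) (b5 t) (c5 t)).Δ ≠ 0 → t ≠ 1 → t ≠ -1 →
      Fre 5 (Pt (SW (a5 t) (b5 t) (c5 t))) := by
    intro t hR h1 h2
    have ht : t ≠ 0 := by
      rintro rfl
      apply hR
      rw [← sg_sw, delta5]
      ring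
    obtain ⟨ℓ, hℓ, hv⟩ := five_one' ht h1 h2
    exact five_chain ℓ hℓ _ t hR rfl (by simpa using hv)
  by_cases h1 : t = 1 ∨ t = -1
  · rcases five_next hR with h | ⟨T, u, hu, hT, hR', e4, e12, hF⟩
    · exact h
    · obtain ⟨g1, g2⟩ := five_one h1 e4 e12 hu
      exact hF (key T hR' g1 g2)
  · push Not at h1
    exact key t hR h1.1 h1.2

/-- one step of the chain for `7` -/
theorem seven_chain (k : ℕ) : ∀ d : ℚ, (SW (a7 d) (b7 d) (c7 d)).Δ ≠ 0 → w7v d = k →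
    Fre 7 (Pt (SW (a7 d) (b7 d) (c7 d))) := by
  induction k using Nat.strong_induction_on with
  | _ k ih =>
    intro d hΔ hk
    have hD := hΔ
    rw [← sg_sw, delta7] at hD
    have hd0 : d ≠ 0 := by
      rintro rfl
      exact hD (by ring)
    have hd1 : d ≠ 1 := by
      rintro rfl
      exact hD (by ring)
    have hd : d ^ 3 - 8 * d ^ 2 + 5 * d + 1 ≠ 0 := right_ne_zero_of_mul hD
    have hI := isg_seven hd0 hd1 hd
    have hΔ' : (SW (a7 d) (b7' d) (c7' d)).Δ ≠ 0 := by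
      rw [← sg_sw, delta7']
      exact mul_ne_zero (mul_ne_zero hd0 (sub_ne_zero.2 hd1)) (pow_ne_zero 7 hd)
    by_cases h0 : ∀ P : Pt (SW (a7 d) (b7' d) (c7' d)), 7 • P = 0 → P = 0
    · exact ⟨_, _, _, hΔ', hI, h0⟩
    · push Not at h0
      obtain ⟨P, h7, hP⟩ := h0
      obtain ⟨D, u, r, hu, ha, hb, hc⟩ := tate_seven hΔ' hP h7
      obtain ⟨i1, i2⟩ := inv_change ha hb hc
      have hR : (SW (a7 D) (b7 D) (c7 D)).Δ ≠ 0 := by
        intro hc'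
        rw [hc', mul_zero] at i2
        exact hΔ' i2
      obtain ⟨-, e, -⟩ := iso_sw hu hR ha hb hc
      rw [← sg_sw, ← sg_sw, delta7', delta7] at i2
      have hE := hR
      rw [← sg_sw, delta7] at hE
      have hD0 : D ≠ 0 := by
        rintro rfl
        exact hE (by ring)
      have hD1 : D ≠ 1 := by
        rintro rfl
        exact hE (by ring)
      have hw := seven_step hd0 hd1 hD0 hD1 i1 i2 hu
      have hpos := seven_pos hD0 hD1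
      exact Fre.of_isg (hI.trans (Isg.of_equiv 7 e.symm)) (ih _ (by omega) D hR rfl)

theorem to_seven_free {a b c : ℚ} (hΔ : (SW a b c).Δ ≠ 0) : Fre 7 (Pt (SW a b c)) := by
  by_cases h0 : ∀ P : Pt (SW a b c), 7 • P = 0 → P = 0
  · exact ⟨a, b, c, hΔ, Isg.refl 7 _, h0⟩
  push Not at h0
  obtain ⟨P, h7, hP⟩ := h0
  obtain ⟨d, u, r, hu, ha, hb, hc⟩ := tate_seven hΔ hP h7
  have i2 := (inv_change ha hb hc).2
  have hR : (SW (a7 d) (b7 d) (c7 d)).Δ ≠ 0 := by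
    intro hc'
    rw [hc', mul_zero] at i2
    exact hΔ i2
  obtain ⟨-, e, -⟩ := iso_sw hu hR ha hb hc
  exact Fre.of_isg (Isg.of_equiv 7 e.symm) (seven_chain _ d hR rfl)

theorem arr_51 {M : Type} [AddCommGroup M] (a b c : ℚ) (hΔ : (SW a b c).Δ ≠ 0)
    (_ : Prim 5 M (Pt (SW a b c))) : Rch 5 (Pt (SW a b c)) (ZMod 1) := by
  obtain ⟨a', b', c', h1, h2, h3⟩ := to_five_free hΔ
  exact ⟨a', b', c', h1, h2, prim_triv h3⟩

theorem arr_71 {M : Type} [AddCommGroup M] (a b c : ℚ) (hΔ : (SW a b c).Δ ≠ 0)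
    (_ : Prim 7 M (Pt (SW a b c))) : Rch 7 (Pt (SW a b c)) (ZMod 1) := by
  obtain ⟨a', b', c', h1, h2, h3⟩ := to_seven_free hΔ
  exact ⟨a', b', c', h1, h2, prim_triv h3⟩

theorem five_kill (m : ZMod 5) : ∃ k : ℕ, 5 ^ k • m = 0 := ⟨1, by revert m; decide⟩

theorem seven_kill (m : ZMod 7) : ∃ k : ℕ, 7 ^ k • m = 0 := ⟨1, by revert m; decide⟩

end Pool.Agent.RkT
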