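import Pool.Agent.RkT.Line

/-!
# Ranks of elliptic curves with given torsion: definitions

`SW a b c` is the curve `y² = x³ + a x² + b x + c` over `ℚ`, `Pt E` the group of rational points.
`Isg p A B`: homomorphisms in both directions with `p`-primary kernels.
`Prim p M B`: `M` is (isomorphic to) the `p`-primary torsion of `B`.  `HasT B T`: the torsion subgroup of `B`
is isomorphic to `T`.
-/

set_option autoImplicit false

namespace Pool.Agent.RkT

open WeierstrassCurve

/-- `y² = x³ + a x² + b x + c` -/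
def SW (a b c : ℚ) : WeierstrassCurve ℚ := ⟨0, a, 0, b, c⟩

/-- the group of rational points -/
abbrev Pt (E : WeierstrassCurve ℚ) : Type := E.toAffine.Point

/-- homomorphisms in both directions with `p`-primary kernels -/
def Isg (p : ℕ) (A B : Type) [AddCommGroup A] [AddCommGroup B] : Prop :=
  ∃ (f : A →+ B) (g : B →+ A), (∀ x, f x = 0 → ∃ k : ℕ, p ^ k • x = 0) ∧
    ∀ y, g y = 0 → ∃ k : ℕ, p ^ k • y = 0

/-- `M` is the `p`-primary torsion of `B` -/
def Prim (p : ℕ) (M B : Type) [AddCommGroup M] [AddCommGroup B] : Prop :=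
  ∃ f : M →+ B, Function.Injective f ∧ ∀ x : B, x ∈ Set.range f ↔ ∃ k : ℕ, p ^ k • x = 0

/-- the torsion subgroup of `B` is isomorphic to `T` -/
def HasT (B T : Type) [AddCommGroup B] [AddCommGroup T] : Prop :=
  Nonempty (AddCommGroup.torsion B ≃+ T)

theorem sw_eq {a b c x y : ℚ} (h : (SW a b c).toAffine.Nonsingular x y) :
    y ^ 2 = x ^ 3 + a * x ^ 2 + b * x + c := by
  have h1 := (Affine.equation_iff _ _).1 h.1
  simp only [SW] at h1
  linear_combination h1

theorem sw_delta (a b c : ℚ) : (SW a b c).Δ =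
    16 * (a ^ 2 * b ^ 2 - 4 * b ^ 3 - 4 * a ^ 3 * c + 18 * a * b * c - 27 * c ^ 2) := by
  simp only [SW, WeierstrassCurve.Δ, WeierstrassCurve.b₂, WeierstrassCurve.b₄,
    WeierstrassCurve.b₆, WeierstrassCurve.b₈]
  ring

theorem sw_ns {a b c x y : ℚ} (hΔ : (SW a b c).Δ ≠ 0)
    (h : y ^ 2 = x ^ 3 + a * x ^ 2 + b * x + c) : (SW a b c).toAffine.Nonsingular x y := by
  rw [← Affine.equation_iff_nonsingular_of_Δ_ne_zero hΔ, Affine.equation_iff]
  simp only [SW]
  linear_combination h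

/-- the discriminant of `y² = x³ + a x² + b x` -/
theorem sw_delta0 {a b : ℚ} (hb : b ≠ 0) (hd : a ^ 2 - 4 * b ≠ 0) : (SW a b 0).Δ ≠ 0 := by
  rw [sw_delta]
  have : 16 * (a ^ 2 * b ^ 2 - 4 * b ^ 3 - 4 * a ^ 3 * 0 + 18 * a * b * 0 - 27 * 0 ^ 2) =
      16 * b ^ 2 * (a ^ 2 - 4 * b) := by ring
  rw [this]
  exact mul_ne_zero (mul_ne_zero (by norm_num) (pow_ne_zero 2 hb)) hd

/-- lines on `SW` -/
theorem sw_line {a b c x1 x2 x3 l n : ℚ} (s1 : x1 + x2 + x3 = l ^ 2 - a)
    (s2 : x1 * x2 + x1 * x3 + x2 * x3 = b - 2 * l * n) (s3 : x1 * x2 * x3 = n ^ 2 - c) :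
    IsLine (SW a b c) x1 x2 x3 l n := by
  refine ⟨?_, ?_, ?_⟩
  · simp only [SW]
    linear_combination s1
  · simp only [SW]
    linear_combination s2
  · simp only [SW]
    linear_combination s3

theorem sw_line_iff {a b c x1 x2 x3 l n : ℚ} (h : IsLine (SW a b c) x1 x2 x3 l n) :
    x1 + x2 + x3 = l ^ 2 - a ∧ x1 * x2 + x1 * x3 + x2 * x3 = b - 2 * l * n ∧
      x1 * x2 * x3 = n ^ 2 - c := by
  have h1 := h.s1
  have h2 := h.s2
  have h3 := h.s3
  simp only [SW] at h1 h2 h3
  exact ⟨by linear_combination h1, by linear_combination h2, by linear_combination h3⟩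

theorem sw_neg {a b c x y : ℚ} (h : (SW a b c).toAffine.Nonsingular x y) :
    ∃ h' : (SW a b c).toAffine.Nonsingular x (-y),
      -(Affine.Point.some x y h : Pt (SW a b c)) = Affine.Point.some x (-y) h' := by
  have e : (SW a b c).toAffine.negY x y = -y := by
    simp only [SW, Affine.negY]
    ring
  refine ⟨e ▸ (Affine.nonsingular_neg x y).2 h, ?_⟩
  rw [Affine.Point.neg_some]
  congr 1

theorem pt_congr {a b c x y x' y' : ℚ} (h : (SW a b c).toAffine.Nonsingular x y)
    (h' : (SW a b c).toAffine.Nonsingular x' y') (hx : x = x') (hy : y = y') :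
    (Affine.Point.some x y h : Pt (SW a b c)) = Affine.Point.some x' y' h' := by
  subst hx hy
  rfl

/-- the points of order `2` are those with `y = 0` -/
theorem two_smul_some {a b c x y : ℚ} (h : (SW a b c).toAffine.Nonsingular x y) :
    2 • (Affine.Point.some x y h : Pt (SW a b c)) = 0 ↔ y = 0 := by
  rw [two_nsmul]
  obtain ⟨h', e⟩ := sw_neg h
  constructor
  · intro h1
    have h2 : (Affine.Point.some x y h : Pt (SW a b c)) = -Affine.Point.some x y h :=
      eq_neg_of_add_eq_zero_left h1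
    rw [e] at h2
    injection h2 with _ h3
    linarith
  · intro h1
    have h2 : (Affine.Point.some x y h : Pt (SW a b c)) = -Affine.Point.some x y h := by
      rw [e]
      exact pt_congr _ _ rfl (by rw [h1]; ring)
    nth_rewrite 2 [h2]
    exact add_neg_cancel _

/-- the doubling formula -/
theorem two_smul_some' {a b c x y : ℚ} (h : (SW a b c).toAffine.Nonsingular x y) (hy : y ≠ 0)
    (hΔ : (SW a b c).Δ ≠ 0) :
    ∃ h', 2 • (Affine.Point.some x y h : Pt (SW a b c)) = Affine.Point.some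
      (((3 * x ^ 2 + 2 * a * x + b) / (2 * y)) ^ 2 - a - 2 * x)
      (-((3 * x ^ 2 + 2 * a * x + b) / (2 * y) *
        (((3 * x ^ 2 + 2 * a * x + b) / (2 * y)) ^ 2 - a - 2 * x - x) + y)) h' := by
  set l := (3 * x ^ 2 + 2 * a * x + b) / (2 * y) with hl
  have hE := sw_eq h
  have hly : 2 * y * l = 3 * x ^ 2 + 2 * a * x + b := by
    rw [hl]
    field_simp
  clear_value l
  have hy3 : (l * (l ^ 2 - a - 2 * x - x) + y) ^ 2 = (l ^ 2 - a - 2 * x) ^ 3 +
      a * (l ^ 2 - a - 2 * x) ^ 2 + b * (l ^ 2 - a - 2 * x) + c := by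
    linear_combination hE + (l ^ 2 - a - 3 * x) * hly
  have h3 := sw_ns hΔ hy3
  have h4 : (-(l * (l ^ 2 - a - 2 * x - x) + y)) ^ 2 = (l ^ 2 - a - 2 * x) ^ 3 +
      a * (l ^ 2 - a - 2 * x) ^ 2 + b * (l ^ 2 - a - 2 * x) + c := by
    rw [neg_sq]
    exact hy3
  refine ⟨sw_ns hΔ h4, ?_⟩
  have hsum := line_sum (l := l) (n := y - l * x) h h h3 (by ring) (by ring) (by ring)
    (sw_line (by ring) (by linear_combination hly) (by linear_combination x * hly - hE))
  obtain ⟨h5, e⟩ := sw_neg h3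
  rw [two_nsmul, eq_neg_of_add_eq_zero_left hsum, e]

end Pool.Agent.RkT
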