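import Mathlib

/-!
# RkT, module Fer: the equation `x⁴ = y⁴ + z²`

Paper proof of `quartic_sub` (Fermat's descent).  Suppose `y ≠ 0`, `z ≠ 0`, `|x|` minimal; then `x ≠ 0`
and `gcd (x, y) = 1` (a common prime divides `z`, and its square divides `z`, so one can divide out).
`(y²)² + z² = (x²)²` is a primitive Pythagorean triple (`PythagoreanTriple.coprime_classification` or
`PythagoreanTriple.coprime_classification'` of Mathlib).
* `y` odd: `y² = m² - n²`, `x² = m² + n²`, `z = 2 m n` (up to sign), `m, n ≠ 0`.  Then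
  `m⁴ = n⁴ + (x y)²` and `0 < |m| < |x|`, `n ≠ 0`, `x y ≠ 0`: contradiction.
* `y` even: `y² = 2 m n`, `x² = m² + n²`, `gcd (m, n) = 1`, `m, n > 0` (choice of signs).  One of `m, n` is
  even, say `n` (symmetric): `m = t²`, `n = 2 s²`.  `x² = t⁴ + 4 s⁴`, so `(t², 2 s², x)` is a primitive
  Pythagorean triple with `2 s²` even: `2 s² = 2 u v`, `t² = u² - v²`, `gcd (u, v) = 1`, so (up to a common
  sign) `u = p²`, `v = q²` and `p⁴ = q⁴ + t²` with `q ≠ 0`, `t ≠ 0` and `|p| < |x|`
  (`x = u² + v² = p⁴ + q⁴`).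
`quartic_subQ`: clear denominators.
Compare `not_fermat_42` in Mathlib (`Mathlib/NumberTheory/FLT/Four.lean`), which treats `a⁴ + b⁴ = c²` and
may be cited.
-/

set_option autoImplicit false

namespace Pool.Agent.RkT

/-- positive coprime factors of a square are squares -/
private theorem fer_sq {a b c : ℤ} (h : IsCoprime a b) (ha : 0 < a) (heq : a * b = c ^ 2) :
    ∃ r : ℤ, a = r ^ 2 := by
  obtain ⟨r, hr | hr⟩ := Int.sq_of_isCoprime h heq
  · exact ⟨r, hr⟩
  · exfalso
    have := sq_nonneg r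
    omega

/-- the case `y²` even of the descent -/
private theorem fer_even {x y z m n : ℤ} (ih : ∀ p q t : ℤ, p.natAbs < x.natAbs →
      p ^ 4 = q ^ 4 + t ^ 2 → q = 0 ∨ t = 0) (hy : y ≠ 0) (h1 : y ^ 2 = 2 * m * n)
    (h3 : x ^ 2 = m ^ 2 + n ^ 2) (hco : IsCoprime m n) (hm0 : 0 < m) (hn0 : 0 < n)
    (hm : m % 2 = 1) (hn : n % 2 = 0) : False := by
  obtain ⟨n', rfl⟩ : ∃ n', n = 2 * n' := ⟨n / 2, by omega⟩
  have hn' : 0 < n' := by omega
  have hye : Even y := by
    have h4 : Even (y ^ 2) := ⟨2 * m * n', by rw [h1]; ring⟩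
    exact (Int.even_pow.1 h4).1
  obtain ⟨y', rfl⟩ := hye
  have h5 : m * n' = y' ^ 2 := by nlinarith
  have hco' : IsCoprime m n' := IsCoprime.of_mul_right_right hco
  obtain ⟨t, rfl⟩ := fer_sq hco' hm0 h5
  obtain ⟨s, rfl⟩ := fer_sq hco'.symm hn' (by rw [mul_comm]; exact h5)
  have hx0 : x ≠ 0 := by
    rintro rfl
    nlinarith
  have hpt : PythagoreanTriple (t ^ 2) (2 * s ^ 2) |x| := by
    unfold PythagoreanTriple
    rw [abs_mul_abs_self]
    linarith
  obtain ⟨u, v, e1, e2, e3, e4, -, hu⟩ := hpt.coprime_classification'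
    (Int.isCoprime_iff_gcd_eq_one.1 hco) hm (abs_pos.2 hx0)
  have huv : u * v = s ^ 2 := by linarith
  have hu0 : 0 < u := by
    rcases hu.eq_or_lt with h | h
    · rw [← h] at huv
      nlinarith
    · exact h
  have hv0 : 0 < v := by
    by_contra hcon
    rw [not_lt] at hcon
    nlinarith
  have hcouv : IsCoprime u v := Int.isCoprime_iff_gcd_eq_one.2 e4
  obtain ⟨p, rfl⟩ := fer_sq hcouv hu0 huv
  obtain ⟨q, rfl⟩ := fer_sq hcouv.symm hv0 (by rw [mul_comm]; exact huv)
  have hlt : p.natAbs < x.natAbs := by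
    rw [Int.natAbs_lt_iff_sq_lt]
    have a1 : p ^ 2 ≤ (p ^ 2) ^ 2 := by nlinarith
    have a2 : 0 < (q ^ 2) ^ 2 := by positivity
    have a3 : 1 ≤ |x| := Int.one_le_abs hx0
    have a4 : |x| ≤ x ^ 2 := by
      rw [← sq_abs x]
      nlinarith
    omega
  rcases ih p q t hlt (by linarith) with h | h
  · rw [h] at hv0
    simp at hv0
  · rw [h] at hm0
    simp at hm0

private theorem fer_main : ∀ k : ℕ, ∀ x y z : ℤ, x.natAbs = k → x ^ 4 = y ^ 4 + z ^ 2 →
    y = 0 ∨ z = 0 := by
  intro k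
  induction k using Nat.strong_induction_on with
  | _ k IH =>
    intro x y z hk h
    by_contra hcon
    push Not at hcon
    obtain ⟨hy, hz⟩ := hcon
    have ih : ∀ p q t : ℤ, p.natAbs < x.natAbs → p ^ 4 = q ^ 4 + t ^ 2 → q = 0 ∨ t = 0 :=
      fun p q t hp => IH p.natAbs (hk ▸ hp) p q t rfl
    have hx : x ≠ 0 := by
      rintro rfl
      have : 0 < y ^ 4 := by positivity
      nlinarith [sq_nonneg z]
    by_cases hg : IsCoprime x y
    · -- the coprime case
      have c1 : IsCoprime (y ^ 2) z := by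
        have c2 : IsCoprime (y ^ 2) (z ^ 2) := by
          have c3 : IsCoprime (y ^ 2) (x ^ 4) := (hg.symm.pow_left).pow_right
          have e : z ^ 2 = x ^ 4 + y ^ 2 * (-(y ^ 2)) := by linarith [h, (by ring : y ^ 4 = y ^ 2 * y ^ 2)]
          rw [e]
          exact IsCoprime.add_mul_left_right c3 _
        exact (IsCoprime.pow_right_iff (by norm_num)).1 c2
      have hpt : PythagoreanTriple (y ^ 2) z (x ^ 2) := by
        unfold PythagoreanTriple
        linarith [h, (by ring : y ^ 4 = y ^ 2 * y ^ 2), (by ring : x ^ 4 = x ^ 2 * x ^ 2)]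
      obtain ⟨m, n, e1, e2, e3, e4⟩ := PythagoreanTriple.coprime_classification.1
        ⟨hpt, Int.isCoprime_iff_gcd_eq_one.1 c1⟩
      have hx2 : 0 < x ^ 2 := by positivity
      have e2' : x ^ 2 = m ^ 2 + n ^ 2 := by
        rcases e2 with e2 | e2
        · exact e2
        · nlinarith [sq_nonneg m, sq_nonneg n]
      rcases e1 with ⟨e1, e5⟩ | ⟨e1, e5⟩
      · -- `y² = m² - n²`
        have hn : n ≠ 0 := by
          rintro rfl
          apply hz
          rw [e5]
          ring
        have hlt : m.natAbs < x.natAbs := by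
          rw [Int.natAbs_lt_iff_sq_lt, e2']
          have : 0 < n ^ 2 := by positivity
          omega
        rcases ih m n (x * y) hlt (by
          have : (x * y) ^ 2 = x ^ 2 * y ^ 2 := by ring
          rw [this, e2', e1]
          ring) with h6 | h6
        · exact hn h6
        · rcases mul_eq_zero.1 h6 with h7 | h7
          · exact hx h7
          · exact hy h7
      · -- `y² = 2 m n`
        have hco : IsCoprime m n := Int.isCoprime_iff_gcd_eq_one.2 e3
        have hy2 : 0 < y ^ 2 := by positivity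
        have hmn : 0 < m * n := by nlinarith
        have key : ∀ a b : ℤ, y ^ 2 = 2 * a * b → x ^ 2 = a ^ 2 + b ^ 2 → IsCoprime a b → 0 < a →
            0 < b → (a % 2 = 0 ∧ b % 2 = 1 ∨ a % 2 = 1 ∧ b % 2 = 0) → False := by
          intro a b f1 f2 f3 f4 f5 f6
          rcases f6 with ⟨f6, f7⟩ | ⟨f6, f7⟩
          · exact fer_even (z := z) ih hy (by rw [f1]; ring) (by rw [f2]; ring) f3.symm f5 f4 f7 f6
          · exact fer_even (z := z) ih hy f1 f2 f3 f4 f5 f6 f7
        rcases pos_and_pos_or_neg_and_neg_of_mul_pos hmn with ⟨a1, a2⟩ | ⟨a1, a2⟩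
        · exact key m n e1 e2' hco a1 a2 e4
        · refine key (-m) (-n) (by rw [e1]; ring) (by rw [e2']; ring) (hco.neg_neg) (by omega)
            (by omega) (by omega)
    · -- a common factor
      have hd1 : Int.gcd x y ≠ 1 := fun hh => hg (Int.isCoprime_iff_gcd_eq_one.2 hh)
      have hd0 : Int.gcd x y ≠ 0 := fun hh => hx (Int.gcd_eq_zero_iff.1 hh).1
      set d : ℤ := (Int.gcd x y : ℤ) with hd
      have hd2 : 2 ≤ d := by
        have : 2 ≤ Int.gcd x y := by omega
        rw [hd]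
        exact_mod_cast this
      obtain ⟨x', hx'⟩ : d ∣ x := Int.gcd_dvd_left ..
      obtain ⟨y', hy'⟩ : d ∣ y := Int.gcd_dvd_right ..
      have hz2 : (d ^ 2) ^ 2 ∣ z ^ 2 := ⟨x' ^ 4 - y' ^ 4, by
        have : z ^ 2 = x ^ 4 - y ^ 4 := by linarith
        rw [this, hx', hy']
        ring⟩
      have hz3 : d ^ 2 ∣ z := (Int.pow_dvd_pow_iff (by norm_num)).1 hz2
      obtain ⟨z', hz'⟩ := hz3
      have h6 : x' ^ 4 = y' ^ 4 + z' ^ 2 := by
        have h7 : d ^ 4 * x' ^ 4 = d ^ 4 * (y' ^ 4 + z' ^ 2) := by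
          rw [hx', hy', hz'] at h
          linear_combination h
        exact mul_left_cancel₀ (by positivity) h7
      have hx'0 : x' ≠ 0 := by
        rintro rfl
        apply hx
        rw [hx']
        ring
      have hlt : x'.natAbs < x.natAbs := by
        rw [hx', Int.natAbs_mul]
        have h8 : 2 ≤ d.natAbs := by omega
        have h9 : 0 < x'.natAbs := Int.natAbs_pos.2 hx'0
        nlinarith
      rcases ih x' y' z' hlt h6 with h7 | h7
      · apply hy
        rw [hy', h7, mul_zero]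
      · apply hz
        rw [hz', h7, mul_zero]

theorem quartic_sub {x y z : ℤ} (h : x ^ 4 = y ^ 4 + z ^ 2) : y = 0 ∨ z = 0 :=
  fer_main x.natAbs x y z rfl h

theorem quartic_subQ {x y z : ℚ} (h : x ^ 4 = y ^ 4 + z ^ 2) : y = 0 ∨ z = 0 := by
  have hxd : (x.den : ℚ) ≠ 0 := by exact_mod_cast x.den_nz
  have hyd : (y.den : ℚ) ≠ 0 := by exact_mod_cast y.den_nz
  have hzd : (z.den : ℚ) ≠ 0 := by exact_mod_cast z.den_nz
  have ex : x * x.den = x.num := Rat.mul_den_eq_num x
  have ey : y * y.den = y.num := Rat.mul_den_eq_num y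
  have ez : z * z.den = z.num := Rat.mul_den_eq_num z
  have h1 : (x.num * y.den * z.den) ^ 4 = (y.num * x.den * z.den) ^ 4 +
      (z.num * x.den * y.den * (x.den * y.den * z.den)) ^ 2 := by
    have h2 : ((x.num : ℚ) * y.den * z.den) ^ 4 = ((y.num : ℚ) * x.den * z.den) ^ 4 +
        ((z.num : ℚ) * x.den * y.den * (x.den * y.den * z.den)) ^ 2 := by
      rw [← ex, ← ey, ← ez]
      linear_combination ((x.den : ℚ) * y.den * z.den) ^ 4 * h
    exact_mod_cast h2
  rcases quartic_sub h1 with h3 | h3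
  · left
    have h4 : y.num = 0 := by
      have hx' : (x.den : ℤ) ≠ 0 := by exact_mod_cast x.den_nz
      have hz' : (z.den : ℤ) ≠ 0 := by exact_mod_cast z.den_nz
      rcases mul_eq_zero.1 h3 with h5 | h5
      · rcases mul_eq_zero.1 h5 with h6 | h6
        · exact h6
        · exact absurd h6 hx'
      · exact absurd h5 hz'
    exact Rat.num_eq_zero.1 h4
  · right
    have hx' : (x.den : ℤ) ≠ 0 := by exact_mod_cast x.den_nz
    have hy' : (y.den : ℤ) ≠ 0 := by exact_mod_cast y.den_nz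
    have hz' : (z.den : ℤ) ≠ 0 := by exact_mod_cast z.den_nz
    have h4 : z.num = 0 := by
      by_contra hne
      exact (mul_ne_zero (mul_ne_zero (mul_ne_zero hne hx') hy')
        (mul_ne_zero (mul_ne_zero hx' hy') hz')) h3
    exact Rat.num_eq_zero.1 h4

end Pool.Agent.RkT
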