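import Pool.Agent.RkT.Fer

/-!
# RkT, module FerB: consequences of the quartic equations

`sq4`: if `p⁴ + 4 q⁴ = r²` then `r⁴ = (2 p q)⁴ + (p⁴ - 4 q⁴)²`, so `p q = 0` or `p⁴ = 4 q⁴`, and the latter
gives `p² = ±2 q²`, so `p = q = 0` (`2` is not a square in `ℚ`).
`ferN1`: `t ≥ 0` (sign).  If `t ≠ 0` put `x = 2 t`, `y = 2 w`: `y² = x³ + 4 x`; `u = y / x`, `v = x - 4 / x`:
`u⁴ = 2⁴ + v²`, so `v = 0` (`quartic_subQ`), `x² = 4`, `t = 1`.
`ferN4`: `ρ = m / n > 1`; `ρ + 1` and `ρ (ρ - 1)` are squares, so `y² = ρ³ - ρ` for some `y ≠ 0`; `u = y / ρ`: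
`u⁴ + 4 = (ρ + 1/ρ)²`: contradiction with `sq4` (`p = u ≠ 0`, `q = 1`).
`ferN5`: `ρ = m / n`, `σ = s / n`, `ρ² = 1 + σ²`; `τ = ρ - σ > 0`, `ρ + σ = 1/τ`, `2 ρ = τ + 1/τ`.
`ρ + 1 = (τ + 1)²/(2 τ)` is a square, so `2 τ = (2 e)²`, `τ = 2 e²`; `2 ρ (ρ - σ) = 2 ρ τ = τ² + 1 = 4 e⁴ + 1` is a square
(as `2 m (m - s)` is): `sq4` with `p = 1`, `q = e`: `e = 0`, contradiction with `τ > 0`.
`ferN3`: `t = p/q` in lowest terms, `0 < p < q`.  Then `p q (p² + q²)(q² + 2 p q - p²)` is a square (multiply by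
`q⁶`), of an integer.  `p`, `q`, and `(p² + q²)(q² + 2 p q - p²)` are pairwise coprime and positive, so `p = a²`,
`q = b²`.  A common prime divisor of `p² + q²` and `q² + 2 p q - p²` divides their sum `2 q (q + p)` and
difference `2 p (p - q)`, so it is `2`.
* `p, q` of different parity: both factors are odd and coprime, so `p² + q² = a⁴ + b⁴` is a square:
  contradiction with `not_fermat_42` (Mathlib).
* `p, q` odd: `p² + q² ≡ 2 (mod 4)`, `q² + 2 p q - p² ≡ 2 p q ≡ 2 (mod 4)`; the halves are odd and coprime and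
  their product is a square, so `p² + q² = 2 c²`: `a⁴ + b⁴ = 2 c²`, `c⁴ = (a b)⁴ + ((a⁴ - b⁴)/2)²`, so `a⁴ = b⁴`
  by `quartic_subQ`, `p = q`: contradiction.
-/

set_option autoImplicit false

namespace Pool.Agent.RkT

private theorem two_not_sq : ¬ IsSquare (2 : ℚ) := by
  intro h
  have h1 : IsSquare ((2 : ℕ) : ℚ) := by exact_mod_cast h
  rw [Rat.isSquare_natCast_iff] at h1
  obtain ⟨r, hr⟩ := h1
  have h2 : r < 2 := by
    by_contra hc
    have : 4 ≤ r * r := Nat.mul_le_mul (not_lt.1 hc) (not_lt.1 hc)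
    omega
  interval_cases r <;> omega

theorem sq4 {p q r : ℚ} (h : p ^ 4 + 4 * q ^ 4 = r ^ 2) : p = 0 ∨ q = 0 := by
  have h1 : r ^ 4 = (2 * p * q) ^ 4 + (p ^ 4 - 4 * q ^ 4) ^ 2 := by
    have : r ^ 4 = (r ^ 2) ^ 2 := by ring
    rw [this, ← h]
    ring
  rcases quartic_subQ h1 with h2 | h2
  · rcases mul_eq_zero.1 h2 with h3 | h3
    · left
      rcases mul_eq_zero.1 h3 with h4 | h4
      · norm_num at h4
      · exact h4
    · right
      exact h3
  · right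
    by_contra hq
    have h3 : (p ^ 2 - 2 * q ^ 2) * (p ^ 2 + 2 * q ^ 2) = 0 := by
      linear_combination h2
    have hq2 : 0 < q ^ 2 := by positivity
    rcases mul_eq_zero.1 h3 with h4 | h4
    · apply two_not_sq
      refine ⟨p / q, ?_⟩
      field_simp
      linear_combination -h4
    · nlinarith [sq_nonneg p]

theorem ferN1 {t w : ℚ} (h : w ^ 2 = 2 * t * (t ^ 2 + 1)) : t = 0 ∨ t = 1 := by
  by_cases ht0 : t = 0
  · exact Or.inl ht0
  right
  have ht : 0 < t := by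
    rcases lt_or_gt_of_ne ht0 with hlt | hgt
    · have h1 : 2 * t * (t ^ 2 + 1) < 0 := by
        have h2 : 0 < t ^ 2 + 1 := by positivity
        nlinarith
      nlinarith [sq_nonneg w]
    · exact hgt
  have h1 : (w / t) ^ 4 = 2 ^ 4 + (2 * t - 2 / t) ^ 2 := by
    have h2 : (w / t) ^ 4 = (w ^ 2) ^ 2 / t ^ 4 := by
      field_simp
    rw [h2, h]
    field_simp
    ring
  rcases quartic_subQ h1 with h2 | h2
  · norm_num at h2
  · have h3 : 2 * t * t = 2 := by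
      field_simp at h2
      linear_combination h2
    have h4 : (t - 1) * (t + 1) = 0 := by linear_combination h3 / 2
    rcases mul_eq_zero.1 h4 with h5 | h5
    · linarith
    · linarith

private theorem fer_cop {p q : ℤ} (h : IsCoprime p q) {z : ℤ} (hz : Prime z) (h2 : ¬ z ∣ 2)
    (hA : z ∣ p ^ 2 + q ^ 2) (hB : z ∣ q ^ 2 + 2 * p * q - p ^ 2) : False := by
  have hpq : z ∣ p → z ∣ q → False := fun a b => hz.not_isUnit (h.isUnit_of_dvd' a b)
  have hnp : ¬ z ∣ p := by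
    intro hp
    refine hpq hp (hz.dvd_of_dvd_pow (n := 2) ?_)
    have : q ^ 2 = (p ^ 2 + q ^ 2) - p * p := by ring
    rw [this]
    exact dvd_sub hA (hp.mul_right p)
  have hnq : ¬ z ∣ q := by
    intro hq
    refine hpq (hz.dvd_of_dvd_pow (n := 2) ?_) hq
    have : p ^ 2 = (p ^ 2 + q ^ 2) - q * q := by ring
    rw [this]
    exact dvd_sub hA (hq.mul_right q)
  have e1 : z ∣ 2 * (q * (q + p)) := by
    have : 2 * (q * (q + p)) = (p ^ 2 + q ^ 2) + (q ^ 2 + 2 * p * q - p ^ 2) := by ring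
    rw [this]
    exact dvd_add hA hB
  have e2 : z ∣ 2 * (p * (p - q)) := by
    have : 2 * (p * (p - q)) = (p ^ 2 + q ^ 2) - (q ^ 2 + 2 * p * q - p ^ 2) := by ring
    rw [this]
    exact dvd_sub hA hB
  have e3 : z ∣ q + p := ((hz.dvd_or_dvd ((hz.dvd_or_dvd e1).resolve_left h2)).resolve_left hnq)
  have e4 : z ∣ p - q := ((hz.dvd_or_dvd ((hz.dvd_or_dvd e2).resolve_left h2)).resolve_left hnp)
  have e5 : z ∣ 2 * p := by
    have : 2 * p = (q + p) + (p - q) := by ring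
    rw [this]
    exact dvd_add e3 e4
  exact hnp ((hz.dvd_or_dvd e5).resolve_left h2)

private theorem fer_sq {x y k : ℤ} (hx : 0 < x) (h : IsCoprime x y) (he : x * y = k ^ 2) :
    ∃ a, x = a ^ 2 := by
  obtain ⟨a, ha | ha⟩ := Int.sq_of_isCoprime h he
  · exact ⟨a, ha⟩
  · nlinarith [sq_nonneg a]

private theorem fer_odd {z x : ℤ} (hx : x % 2 = 1) (hz : z ∣ x) : Prime z → ¬ z ∣ 2 := by
  intro hp h2
  have h3 : z ∣ 1 := by
    have h4 : z ∣ x - 2 * (x / 2) := dvd_sub hz (h2.mul_right _)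
    have h5 : x - 2 * (x / 2) = 1 := by omega
    rwa [h5] at h4
  exact hp.not_isUnit (isUnit_of_dvd_one h3)

private theorem ferZ {p q k : ℤ} (hp : 0 < p) (hpq : p < q) (hc : IsCoprime p q)
    (h : p * (q * ((p ^ 2 + q ^ 2) * (q ^ 2 + 2 * p * q - p ^ 2))) = k ^ 2) : False := by
  have hq : 0 < q := hp.trans hpq
  have hA : 0 < p ^ 2 + q ^ 2 := by positivity
  have hB : 0 < q ^ 2 + 2 * p * q - p ^ 2 := by nlinarith
  have hM : 0 < (p ^ 2 + q ^ 2) * (q ^ 2 + 2 * p * q - p ^ 2) := mul_pos hA hB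
  have cpM : IsCoprime p ((p ^ 2 + q ^ 2) * (q ^ 2 + 2 * p * q - p ^ 2)) := by
    have h1 := (hc.pow_right (n := 4)).add_mul_left_right (2 * q ^ 3 + 2 * p ^ 2 * q - p ^ 3)
    have h2 : q ^ 4 + p * (2 * q ^ 3 + 2 * p ^ 2 * q - p ^ 3) =
        (p ^ 2 + q ^ 2) * (q ^ 2 + 2 * p * q - p ^ 2) := by ring
    rwa [h2] at h1
  have cqM : IsCoprime q ((p ^ 2 + q ^ 2) * (q ^ 2 + 2 * p * q - p ^ 2)) := by
    have h1 := ((hc.symm.pow_right (n := 4)).neg_right).add_mul_left_right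
      (q ^ 3 + 2 * p * q ^ 2 + 2 * p ^ 3)
    have h2 : -p ^ 4 + q * (q ^ 3 + 2 * p * q ^ 2 + 2 * p ^ 3) =
        (p ^ 2 + q ^ 2) * (q ^ 2 + 2 * p * q - p ^ 2) := by ring
    rwa [h2] at h1
  obtain ⟨a, ha⟩ := fer_sq hp (hc.mul_right cpM) h
  obtain ⟨e, he⟩ := fer_sq (mul_pos hq hM) (hc.mul_right cpM).symm (by rw [mul_comm]; exact h)
  obtain ⟨b, hb⟩ := fer_sq hq cqM he
  obtain ⟨f, hf⟩ := fer_sq hM cqM.symm (by rw [mul_comm]; exact he)
  have ha0 : a ≠ 0 := by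
    rintro rfl
    norm_num at ha
    omega
  have hb0 : b ≠ 0 := by
    rintro rfl
    norm_num at hb
    omega
  have hnd : ¬ (2 ∣ p ∧ 2 ∣ q) := fun hd => by
    have h1 := hc.isUnit_of_dvd' hd.1 hd.2
    rw [Int.isUnit_iff] at h1
    omega
  have hne : ¬ (p ^ 2 + q ^ 2 = 0 ∧ q ^ 2 + 2 * p * q - p ^ 2 = 0) := fun h => by
    have := h.1
    omega
  by_cases hpar : (p + q) % 2 = 1
  · -- different parity
    have hAodd : (p ^ 2 + q ^ 2) % 2 = 1 := by
      rcases Int.emod_two_eq_zero_or_one p with h1 | h1 <;>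
        rcases Int.emod_two_eq_zero_or_one q with h2 | h2
      · omega
      · rw [Int.add_emod, pow_two, pow_two, Int.mul_emod p p, Int.mul_emod q q, h1, h2]
        norm_num
      · rw [Int.add_emod, pow_two, pow_two, Int.mul_emod p p, Int.mul_emod q q, h1, h2]
        norm_num
      · omega
    have hcop : IsCoprime (p ^ 2 + q ^ 2) (q ^ 2 + 2 * p * q - p ^ 2) :=
      isCoprime_of_prime_dvd hne fun z hz h1 h2 => fer_cop hc hz (fer_odd hAodd h1 hz) h1 h2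
    obtain ⟨c, hc'⟩ := fer_sq hA hcop hf
    refine not_fermat_42 ha0 hb0 (c := c) ?_
    rw [← hc', ha, hb]
    ring
  · -- both odd
    have hp1 : p % 2 = 1 := by
      by_contra hcon
      apply hnd
      constructor <;> omega
    have hq1 : q % 2 = 1 := by omega
    obtain ⟨p', hp'⟩ : ∃ p', p = 2 * p' + 1 := ⟨p / 2, by omega⟩
    obtain ⟨q', hq'⟩ : ∃ q', q = 2 * q' + 1 := ⟨q / 2, by omega⟩
    obtain ⟨A, hA'⟩ : ∃ A, A = 2 * p' ^ 2 + 2 * p' + 2 * q' ^ 2 + 2 * q' + 1 := ⟨_, rfl⟩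
    obtain ⟨B, hB'⟩ : ∃ B, B = 2 * q' ^ 2 + 2 * q' + 4 * p' * q' + 2 * p' + 2 * q' + 1
        - 2 * p' ^ 2 - 2 * p' := ⟨_, rfl⟩
    have eA : p ^ 2 + q ^ 2 = 2 * A := by rw [hp', hq', hA']; ring
    have eB : q ^ 2 + 2 * p * q - p ^ 2 = 2 * B := by rw [hp', hq', hB']; ring
    have hAodd : A % 2 = 1 := by
      have : A = 2 * (p' ^ 2 + p' + q' ^ 2 + q') + 1 := by rw [hA']; ring
      omega
    have hne2 : ¬ (A = 0 ∧ B = 0) := fun h => by
      have := h.1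
      omega
    have hcop : IsCoprime A B :=
      isCoprime_of_prime_dvd hne2 fun z hz h1 h2 => fer_cop hc hz (fer_odd hAodd h1 hz)
        (by rw [eA]; exact h1.mul_left 2) (by rw [eB]; exact h2.mul_left 2)
    have hf2 : 4 * (A * B) = f ^ 2 := by
      rw [← hf, eA, eB]
      ring
    have hfe : f % 2 = 0 := by
      rcases Int.emod_two_eq_zero_or_one f with h1 | h1
      · exact h1
      · exfalso
        obtain ⟨g, hg⟩ : ∃ g, f = 2 * g + 1 := ⟨f / 2, by omega⟩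
        have h3 : 4 * (A * B) = 4 * (g ^ 2 + g) + 1 := by rw [hf2, hg]; ring
        omega
    obtain ⟨g, hg⟩ : ∃ g, f = 2 * g := ⟨f / 2, by omega⟩
    have hAB : A * B = g ^ 2 := by
      have h3 : 4 * (A * B) = 4 * g ^ 2 := by rw [hf2, hg]; ring
      linarith
    obtain ⟨c, hc'⟩ := fer_sq (by linarith) hcop hAB
    have h4 : ((c : ℚ)) ^ 4 = ((a : ℚ) * b) ^ 4 + (((a : ℚ) ^ 4 - b ^ 4) / 2) ^ 2 := by
      have h5 : (2 : ℚ) * c ^ 2 = a ^ 4 + b ^ 4 := by
        have h6 : 2 * c ^ 2 = a ^ 4 + b ^ 4 := by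
          rw [← hc', ← eA, ha, hb]
          ring
        exact_mod_cast h6
      have h7 : ((c : ℚ)) ^ 4 = ((2 * c ^ 2) / 2) ^ 2 := by ring
      rw [h7, h5]
      ring
    rcases quartic_subQ h4 with h5 | h5
    · rcases mul_eq_zero.1 h5 with h6 | h6
      · exact ha0 (by exact_mod_cast h6)
      · exact hb0 (by exact_mod_cast h6)
    · have h6 : (a : ℚ) ^ 4 = b ^ 4 := by linarith
      have h7 : a ^ 4 = b ^ 4 := by exact_mod_cast h6
      have h8 : p ^ 2 = q ^ 2 := by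
        rw [ha, hb]
        linear_combination h7
      nlinarith

theorem ferN3 {t w : ℚ} (ht : 0 < t) (ht1 : t < 1) :
    w ^ 2 ≠ t * (1 + t ^ 2) * (1 + 2 * t - t ^ 2) := by
  intro h
  have hq : (0 : ℚ) < t.den := by exact_mod_cast t.den_pos
  have ht' : (t.num : ℚ) = t * t.den := (Rat.mul_den_eq_num t).symm
  have hp0 : 0 < t.num := Rat.num_pos.2 ht
  have hpq : t.num < (t.den : ℤ) := by
    have h1 : (t.num : ℚ) < t.den := by
      rw [ht']
      exact mul_lt_of_lt_one_left hq ht1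
    exact_mod_cast h1
  have hc : IsCoprime t.num (t.den : ℤ) := by
    rw [Int.isCoprime_iff_gcd_eq_one]
    exact t.reduced
  have hsq : IsSquare (((t.num * ((t.den : ℤ) * ((t.num ^ 2 + (t.den : ℤ) ^ 2) *
      ((t.den : ℤ) ^ 2 + 2 * t.num * (t.den : ℤ) - t.num ^ 2)))) : ℤ) : ℚ) := by
    refine ⟨w * t.den ^ 3, ?_⟩
    push_cast
    rw [ht']
    linear_combination (-(t.den : ℚ) ^ 6) * h
  rw [Rat.isSquare_intCast_iff] at hsq
  obtain ⟨k, hk⟩ := hsq
  exact ferZ hp0 hpq hc (by rw [hk, pow_two])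

theorem ferN4 {m n : ℚ} (hn : 0 < n) (hmn : n < m) (h1 : IsSquare (n * (m + n))) :
    ¬ IsSquare (m * (m - n)) := by
  rintro ⟨d, hd⟩
  obtain ⟨c, hc⟩ := h1
  have hm : 0 < m := hn.trans hmn
  have hc0 : c ≠ 0 := by
    rintro rfl
    have : 0 < n * (m + n) := by positivity
    rw [hc] at this
    simp at this
  have hd0 : d ≠ 0 := by
    rintro rfl
    have : 0 < m * (m - n) := mul_pos hm (by linarith)
    rw [hd] at this
    simp at this
  have h : (c * d) ^ 4 + 4 * (n * m) ^ 4 = (n * m * (m ^ 2 + n ^ 2)) ^ 2 := by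
    have e : (c * d) ^ 4 = (c * c) ^ 2 * (d * d) ^ 2 := by ring
    rw [e, ← hc, ← hd]
    ring
  rcases sq4 h with h2 | h2
  · exact mul_ne_zero hc0 hd0 h2
  · exact (mul_pos hn hm).ne' h2

theorem ferN5 {m n s : ℚ} (hm : 0 < m) (hn : 0 < n) (hs : 0 < s) (h : m ^ 2 = n ^ 2 + s ^ 2)
    (h1 : IsSquare (n * (m + n))) : ¬ IsSquare (2 * m * (m - s)) := by
  rintro ⟨d, hd⟩
  obtain ⟨c, hc⟩ := h1
  have hms : s < m := by nlinarith
  have hc0 : c ≠ 0 := by
    rintro rfl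
    have : 0 < n * (m + n) := by positivity
    rw [hc] at this
    simp at this
  have h2 : (2 * c) ^ 4 + 4 * (m - s + n) ^ 4 = (4 * (m + n) * d) ^ 2 := by
    have e1 : (2 * c) ^ 4 = 16 * (c * c) ^ 2 := by ring
    have e2 : (4 * (m + n) * d) ^ 2 = 16 * (m + n) ^ 2 * (d * d) := by ring
    have e3 : (m - s + n) ^ 2 = 2 * ((m - s) * (m + n)) := by linear_combination -h
    have e4 : 4 * (m - s + n) ^ 4 = 4 * ((m - s + n) ^ 2) ^ 2 := by ring
    rw [e1, e2, e4, e3, ← hc, ← hd]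
    linear_combination (-(16 * (m + n) ^ 2)) * h
  rcases sq4 h2 with h3 | h3
  · rcases mul_eq_zero.1 h3 with h4 | h4
    · norm_num at h4
    · exact hc0 h4
  · linarith

end Pool.Agent.RkT
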