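import Pool.Agent.RkT.Defs

/-!
# RkT, module GrpI: the relation `Isg`

`trans`: compose; if `f₂ (f₁ x) = 0` then `p^k f₁ x = 0`, `f₁ (p^k x) = 0`, `p^j p^k x = 0`.
`rank`: if `f : A →+ B` has `p`-primary kernel (`p ≠ 0`) and `x_i` is a `ℤ`-linearly independent family in `A`
then so is `f (x_i)`: `∑ n_i f (x_i) = 0` gives `p^k ∑ n_i x_i = 0`, so `p^k n_i = 0`.  Hence
`Module.rank ℤ A ≤ Module.rank ℤ B` (e.g. `Module.rank` is the supremum of the cardinalities of linearly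
independent families, or: `LinearIndependent.cardinal_le_rank`), and conversely with `g`.
-/

set_option autoImplicit false

namespace Pool.Agent.RkT

variable {p : ℕ} {A B C : Type} [AddCommGroup A] [AddCommGroup B] [AddCommGroup C]

theorem Isg.refl (p : ℕ) (A : Type) [AddCommGroup A] : Isg p A A :=
  ⟨AddMonoidHom.id A, AddMonoidHom.id A, fun x hx => ⟨0, by simpa using hx⟩,
    fun x hx => ⟨0, by simpa using hx⟩⟩

theorem Isg.symm (h : Isg p A B) : Isg p B A := by
  obtain ⟨f, g, hf, hg⟩ := h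
  exact ⟨g, f, hg, hf⟩

theorem isg_comp {f : A →+ B} {g : B →+ C} (hf : ∀ x, f x = 0 → ∃ k : ℕ, p ^ k • x = 0)
    (hg : ∀ x, g x = 0 → ∃ k : ℕ, p ^ k • x = 0) (x : A) (hx : g (f x) = 0) :
    ∃ k : ℕ, p ^ k • x = 0 := by
  obtain ⟨k, hk⟩ := hg _ hx
  rw [← map_nsmul] at hk
  obtain ⟨j, hj⟩ := hf _ hk
  refine ⟨j + k, ?_⟩
  rw [pow_add, mul_smul]
  exact hj

theorem Isg.trans (h : Isg p A B) (h' : Isg p B C) : Isg p A C := by
  obtain ⟨f, g, hf, hg⟩ := h
  obtain ⟨f', g', hf', hg'⟩ := h'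
  exact ⟨f'.comp f, g.comp g', fun x hx => isg_comp hf hf' x hx,
    fun x hx => isg_comp hg' hg x hx⟩

theorem Isg.of_equiv (p : ℕ) (e : A ≃+ B) : Isg p A B :=
  ⟨e.toAddMonoidHom, e.symm.toAddMonoidHom, fun x hx => ⟨0, by
      have : e x = 0 := hx
      rw [pow_zero, one_smul]
      exact (map_eq_zero_iff e e.injective).1 this⟩,
    fun x hx => ⟨0, by
      have : e.symm x = 0 := hx
      rw [pow_zero, one_smul]
      exact (map_eq_zero_iff e.symm e.symm.injective).1 this⟩⟩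

theorem isg_rank_le (hp : p ≠ 0) (f : A →+ B) (hf : ∀ x, f x = 0 → ∃ k : ℕ, p ^ k • x = 0) :
    Module.rank ℤ A ≤ Module.rank ℤ B := by
  rw [Module.rank_def ℤ A]
  refine ciSup_le' ?_
  rintro ⟨s, hs⟩
  have hs' : LinearIndependent ℤ (fun x : s => (x : A)) := hs
  have hli : LinearIndependent ℤ (fun x : s => f (x : A)) := by
    rw [linearIndependent_iff'] at hs' ⊢
    intro t g hg i hi
    have h1 : f (∑ i ∈ t, g i • (i : A)) = 0 := by
      rw [map_sum, ← hg]
      exact Finset.sum_congr rfl fun i _ => map_zsmul f _ _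
    obtain ⟨k, hk⟩ := hf _ h1
    have h2 : ∑ i ∈ t, (((p ^ k : ℕ) : ℤ) * g i) • (i : A) = 0 := by
      rw [← hk, Finset.smul_sum]
      refine Finset.sum_congr rfl fun i _ => ?_
      rw [mul_smul, natCast_zsmul]
    have h3 := hs' t _ h2 i hi
    rcases mul_eq_zero.1 h3 with h4 | h4
    · exact absurd h4 (by exact_mod_cast pow_ne_zero k hp)
    · exact h4
  exact hli.cardinal_le_rank

theorem Isg.rank (hp : p ≠ 0) (h : Isg p A B) : Module.rank ℤ A = Module.rank ℤ B := by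
  obtain ⟨f, g, hf, hg⟩ := h
  exact le_antisymm (isg_rank_le hp f hf) (isg_rank_le hp g hg)

end Pool.Agent.RkT
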