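import Pool.Agent.RkT.TwoIsg

/-!
# RkT, module TFa: 2-torsion of the quotient by a point of order 2

`f, g` from `two_isog`; `f P = 0` iff `P = 0` or `P = (0, y)` (then `y = 0`); `g Q = 0` iff `Q = 0` or `Q = (0, 0)`.
`sq_image`: `g Q = (x, y)`: `Q = (X, Y)` with `X ≠ 0`, `x = Y²/(4 X²) = (Y/(2 X))²`.
`two_sq`: `2 P = g (f P)`.  `two_sq'`: translate the curve: `e` a root of `x³ + a x² + b x + c`; for
`2 P = (x, y)`: with `l = (3 x₀² + 2 a x₀ + b)/(2 y₀)` (`P = (x₀, y₀)`, `y₀ ≠ 0`), `x = l² - a - 2 x₀`, one has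
`x - e = ((x₀² - 2 e x₀ - e² - a e - b) / (2 y₀))²`... (check: `(x₀ - e)² - (3 e² + 2 a e + b)` over `2 y₀`,
squared; use `y₀² = (x₀ - e)(x₀² + (e + a) x₀ + e² + a e + b)`).
`leaf_inv`: `Q = (X, 0)`: `X (X² - 2 a X + a² - 4 b) = 0`; if `X ≠ 0`, `(X - a)² = 4 b`, so `b` is a square.
`leaf_four`: let `4 Q = 0`, `2 Q ≠ 0`.  `2 (2 Q) = 0`, so `2 Q = (0, 0)` (`leaf_inv`), `g (2 Q) = 0`, so `P = g Q` has
`2 P = 0`, and `f P = 2 Q ≠ 0`, so `P ≠ 0` and `P = (x, 0)` with `x ≠ 0`, `x² + a x + b = 0`; `x` is a square by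
`sq_image`: contradiction.
-/

set_option autoImplicit false

namespace Pool.Agent.RkT

open WeierstrassCurve

theorem two_sq' {a b c e : ℚ} (hΔ : (SW a b c).Δ ≠ 0) (he : e ^ 3 + a * e ^ 2 + b * e + c = 0)
    {P : Pt (SW a b c)} {x y : ℚ} {h : (SW a b c).toAffine.Nonsingular x y}
    (hP : 2 • P = Affine.Point.some x y h) : IsSquare (x - e) := by
  rcases P with _ | ⟨x0, y0, h0⟩
  · exfalso
    rw [← Affine.Point.zero_def] at hP
    exact Affine.Point.some_ne_zero h (hP.symm.trans (nsmul_zero 2))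
  · by_cases hy : y0 = 0
    · exfalso
      rw [(two_smul_some h0).2 hy] at hP
      exact Affine.Point.some_ne_zero h hP.symm
    · obtain ⟨h', e1⟩ := two_smul_some' h0 hy hΔ
      rw [e1] at hP
      injection hP with hx _
      have hE := sw_eq h0
      refine ⟨(x0 ^ 2 - 2 * e * x0 - 2 * e ^ 2 - 2 * a * e - b) / (2 * y0), ?_⟩
      rw [← hx]
      field_simp
      linear_combination (-4 * (a + 2 * x0 + e)) * hE + (-4 * (a + 2 * x0 + e)) * he

/-- `Q'` is in the image of the dual isogeny -/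
theorem sq_image {a b : ℚ} {g : Pt (SW (-2 * a) (a ^ 2 - 4 * b) 0) →+ Pt (SW a b 0)}
    (hg0 : ∀ x y h, x = 0 → g (Affine.Point.some x y h) = 0)
    (hg : ∀ x y h, x ≠ 0 → ∃ h', g (Affine.Point.some x y h) =
        Affine.Point.some (y ^ 2 / (4 * x ^ 2))
          (y * (a ^ 2 - 4 * b - x ^ 2) / (8 * x ^ 2)) h')
    {Q : Pt (SW (-2 * a) (a ^ 2 - 4 * b) 0)} {x y : ℚ}
    {h : (SW a b 0).toAffine.Nonsingular x y} (hQ : g Q = Affine.Point.some x y h) :
    IsSquare x := by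
  rcases Q with _ | ⟨X, Y, H⟩
  · exfalso
    rw [← Affine.Point.zero_def, map_zero] at hQ
    exact Affine.Point.some_ne_zero h hQ.symm
  · by_cases hX : X = 0
    · exfalso
      rw [hg0 X Y H hX] at hQ
      exact Affine.Point.some_ne_zero h hQ.symm
    · obtain ⟨h', e1⟩ := hg X Y H hX
      rw [e1] at hQ
      injection hQ with hx _
      refine ⟨Y / (2 * X), ?_⟩
      rw [← hx]
      field_simp
      ring

theorem leaf_inv {a b : ℚ} (hns : ¬ IsSquare b) (Q : Pt (SW (-2 * a) (a ^ 2 - 4 * b) 0))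
    (hQ : 2 • Q = 0) : Q = 0 ∨ ∃ h, Q = Affine.Point.some 0 0 h := by
  rcases Q with _ | ⟨X, Y, H⟩
  · exact Or.inl rfl
  · right
    have hY : Y = 0 := (two_smul_some H).1 hQ
    have hE := sw_eq H
    rw [hY] at hE
    have hX : X = 0 := by
      by_contra hX
      apply hns
      have h1 : X * ((X - a) ^ 2 - 4 * b) = 0 := by linear_combination -hE
      have h2 : (X - a) ^ 2 - 4 * b = 0 := by
        rcases mul_eq_zero.1 h1 with h | h
        · exact absurd h hX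
        · exact h
      refine ⟨(X - a) / 2, ?_⟩
      linear_combination (-1 / 4 : ℚ) * h2
    subst hX hY
    exact ⟨H, rfl⟩

theorem leaf_four {a b : ℚ} (hb : b ≠ 0) (hd : a ^ 2 - 4 * b ≠ 0) (hns : ¬ IsSquare b)
    (hr : ∀ x : ℚ, x ^ 2 + a * x + b = 0 → ¬ IsSquare x)
    (Q : Pt (SW (-2 * a) (a ^ 2 - 4 * b) 0)) (hQ : 4 • Q = 0) : 2 • Q = 0 := by
  by_contra hne
  obtain ⟨f, g, hf0, hf, hg0, hg, hgf, hfg⟩ := two_isog hb hd
  have h22 : 2 • (2 • Q) = 0 := by
    rw [← mul_smul]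
    exact hQ
  rcases leaf_inv hns (2 • Q) h22 with h1 | ⟨h1, h2⟩
  · exact hne h1
  · have hg2 : g (2 • Q) = 0 := by
      rw [h2]
      exact hg0 0 0 h1 rfl
    have hP2 : 2 • g Q = 0 := by rw [← map_nsmul, hg2]
    have hfP : f (g Q) = 2 • Q := hfg Q
    generalize hP : g Q = P at hP2 hfP
    rcases P with _ | ⟨x, y, hxy⟩
    · rw [← Affine.Point.zero_def, map_zero] at hfP
      exact hne hfP.symm
    · have hy : y = 0 := (two_smul_some hxy).1 hP2
      have hx : x ≠ 0 := by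
        intro hx
        rw [hf0 x y hxy hx] at hfP
        exact hne hfP.symm
      have hE := sw_eq hxy
      rw [hy] at hE
      have h3 : x * (x ^ 2 + a * x + b) = 0 := by linear_combination -hE
      have h4 : x ^ 2 + a * x + b = 0 := by
        rcases mul_eq_zero.1 h3 with h | h
        · exact absurd h hx
        · exact h
      exact hr x h4 (sq_image hg0 hg hP)

end Pool.Agent.RkT
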