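import Pool.Agent.RkT.TFa

/-!
# RkT, module TFb: curves with full 2-torsion `y² = x (x + p)(x + q)`, `0 < q < p`

The curve is `SW (p + q) (p * q) 0`; `sw_delta0` (`(p + q)² - 4 p q = (p - q)²`).
`full_inv`: `P = (x, 0)`, `x (x + p)(x + q) = 0`.  `full_sq`: `two_sq'` for `e = 0, -p, -q`.
`full_four`: `2 P` has order `2` and is `(x, 0)`, `x ∈ {0, -p, -q}`; by `full_sq` `x` is a square, so `x = 0`
(`-p, -q < 0`) and `p = x + p`, `q = x + q` are squares.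
Now `p = m²`, `q = n²`, `0 < n < m`.  `four_exists`: `R = (m n, m n (m + n))`: `2 R = (0, 0)` by
`two_smul_some'` (`x (2R) = ((x² - b)/(2 y))² = 0`, as `b = m² n²`).
`four_x`: `2 P = (0, 0)` (`full_four`), so `x² = b = m² n²` (`two_smul_some'`:
`l² - a - 2 x = ((x² - b)/(2 y))²`), `x = ± m n`.
`eight`: `2 P` has order `4`, so by `four_x` its abscissa is `± m n`, and by `full_sq` it is a square `≥ 0`, so it is
`m n`, and `m n + m² = m (m + n)`, `m n + n² = n (m + n)` are squares.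
`halve`: `m n = r²`, `n (m + n) = s²`, `m (m + n) = t²`, `r, s, t > 0`;
`S = (x, y)` with `x = r² + r s + r t + s t = (r + s)(r + t)`, `y = (r + s)(r + t)(s + t)`
(`x + m² = (t + r)(t + s)` as `m² + r² = t²`, and `x + n² = (s + r)(s + t)` as `n² + r² = s²`; so `y² = x (x + m²)(x + n²)`).
`2 S` has abscissa `r² = m n` (`x² - b = 2 r y`: `b = r⁴`), so `2 S = ± R` has order `4`
(`four_exists`; or: `2 S = (r², y')`, `2 (2 S) = (0, 0)` by `two_smul_some'`, `y' ≠ 0`).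
-/

set_option autoImplicit false

namespace Pool.Agent.RkT

open WeierstrassCurve

/-- auxiliary: the doubling formula for `c = 0` -/
theorem tfb_dbl {a b x y : ℚ} (hΔ : (SW a b 0).Δ ≠ 0) (h : (SW a b 0).toAffine.Nonsingular x y)
    (hy : y ≠ 0) : ∃ x' y' h', 2 • (Affine.Point.some x y h : Pt (SW a b 0)) =
      Affine.Point.some x' y' h' ∧ 4 * y ^ 2 * x' = (x ^ 2 - b) ^ 2 := by
  obtain ⟨h', e⟩ := two_smul_some' h hy hΔ
  refine ⟨_, _, h', e, ?_⟩
  have hE := sw_eq h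
  have hl : 2 * y * ((3 * x ^ 2 + 2 * a * x + b) / (2 * y)) = 3 * x ^ 2 + 2 * a * x + b := by
    field_simp
  generalize (3 * x ^ 2 + 2 * a * x + b) / (2 * y) = l at hl ⊢
  linear_combination (2 * y * l + (3 * x ^ 2 + 2 * a * x + b)) * hl - 4 * (a + 2 * x) * hE

theorem tfb_delta {p q : ℚ} (hq : 0 < q) (hpq : q < p) : (SW (p + q) (p * q) 0).Δ ≠ 0 := by
  refine sw_delta0 (mul_pos (hq.trans hpq) hq).ne' ?_
  have : (p + q) ^ 2 - 4 * (p * q) = (p - q) ^ 2 := by ring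
  rw [this]
  exact pow_ne_zero 2 (sub_pos.2 hpq).ne'

theorem tfb_lt {m n : ℚ} (hn : 0 < n) (hmn : n < m) : 0 < n ^ 2 ∧ n ^ 2 < m ^ 2 :=
  ⟨pow_pos hn 2, by nlinarith⟩

theorem full_inv {p q : ℚ} (P : Pt (SW (p + q) (p * q) 0)) (hP : 2 • P = 0) :
    P = 0 ∨ (∃ h, P = Affine.Point.some 0 0 h) ∨ (∃ h, P = Affine.Point.some (-p) 0 h) ∨
      ∃ h, P = Affine.Point.some (-q) 0 h := by
  rcases P with _ | ⟨x, y, h⟩
  · exact Or.inl rfl
  · have hy : y = 0 := (two_smul_some h).1 hP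
    subst hy
    have hE := sw_eq h
    have h1 : x * ((x + p) * (x + q)) = 0 := by linear_combination -hE
    right
    rcases mul_eq_zero.1 h1 with h2 | h2
    · subst h2
      exact Or.inl ⟨h, rfl⟩
    rcases mul_eq_zero.1 h2 with h3 | h3
    · have h4 : x = -p := by linear_combination h3
      subst h4
      exact Or.inr (Or.inl ⟨h, rfl⟩)
    · have h4 : x = -q := by linear_combination h3
      subst h4
      exact Or.inr (Or.inr ⟨h, rfl⟩)

theorem full_sq {p q : ℚ} (hq : 0 < q) (hpq : q < p) {P : Pt (SW (p + q) (p * q) 0)} {x y : ℚ}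
    {h : (SW (p + q) (p * q) 0).toAffine.Nonsingular x y}
    (hP : 2 • P = Affine.Point.some x y h) :
    IsSquare x ∧ IsSquare (x + p) ∧ IsSquare (x + q) := by
  have hΔ := tfb_delta hq hpq
  have h0 := two_sq' (e := 0) hΔ (by ring) hP
  have h1 := two_sq' (e := -p) hΔ (by ring) hP
  have h2 := two_sq' (e := -q) hΔ (by ring) hP
  rw [sub_zero] at h0
  rw [sub_neg_eq_add] at h1 h2
  exact ⟨h0, h1, h2⟩

theorem full_four {p q : ℚ} (hq : 0 < q) (hpq : q < p) (P : Pt (SW (p + q) (p * q) 0))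
    (h4 : 4 • P = 0) (h2 : 2 • P ≠ 0) :
    IsSquare p ∧ IsSquare q ∧ ∃ h, 2 • P = Affine.Point.some 0 0 h := by
  have h4' : 2 • (2 • P) = 0 := by
    rw [← mul_nsmul]
    exact h4
  rcases full_inv (2 • P) h4' with h | ⟨h, e⟩ | ⟨h, e⟩ | ⟨h, e⟩
  · exact absurd h h2
  · obtain ⟨_, s1, s2⟩ := full_sq hq hpq e
    rw [zero_add] at s1 s2
    exact ⟨s1, s2, h, e⟩
  · obtain ⟨s0, _, _⟩ := full_sq hq hpq e
    have := s0.nonneg
    linarith
  · obtain ⟨s0, _, _⟩ := full_sq hq hpq e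
    have := s0.nonneg
    linarith

theorem four_exists {m n : ℚ} (hn : 0 < n) (hmn : n < m) :
    ∃ R : Pt (SW (m ^ 2 + n ^ 2) (m ^ 2 * n ^ 2) 0), 4 • R = 0 ∧
      ∃ h, 2 • R = Affine.Point.some 0 0 h := by
  obtain ⟨hn2, hmn2⟩ := tfb_lt hn hmn
  have hΔ := tfb_delta hn2 hmn2
  have hm : 0 < m := hn.trans hmn
  have hy : m * n * (m + n) ≠ 0 := (mul_pos (mul_pos hm hn) (add_pos hm hn)).ne'
  have hns : (SW (m ^ 2 + n ^ 2) (m ^ 2 * n ^ 2) 0).toAffine.Nonsingular (m * n)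
      (m * n * (m + n)) := sw_ns hΔ (by ring)
  obtain ⟨x', y', h', e, he⟩ := tfb_dbl hΔ hns hy
  have hx : x' = 0 := by
    have h1 : 4 * (m * n * (m + n)) ^ 2 * x' = 0 := by
      rw [he]
      ring
    rcases mul_eq_zero.1 h1 with h2 | h2
    · exact absurd h2 (mul_ne_zero (by norm_num) (pow_ne_zero 2 hy))
    · exact h2
  subst hx
  have hy' : y' = 0 := by
    have hE := sw_eq h'
    have h2 : y' ^ 2 = 0 := by rw [hE]; ring
    exact pow_eq_zero_iff (two_ne_zero) |>.1 h2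
  subst hy'
  refine ⟨_, ?_, h', e⟩
  have h4 : (4 : ℕ) = 2 * 2 := rfl
  rw [h4, mul_nsmul, e]
  exact (two_smul_some h').2 rfl

theorem four_x {m n : ℚ} (hn : 0 < n) (hmn : n < m)
    (P : Pt (SW (m ^ 2 + n ^ 2) (m ^ 2 * n ^ 2) 0)) (h4 : 4 • P = 0) (h2 : 2 • P ≠ 0) :
    ∃ x y h, P = Affine.Point.some x y h ∧ (x = m * n ∨ x = -(m * n)) := by
  obtain ⟨hn2, hmn2⟩ := tfb_lt hn hmn
  have hΔ := tfb_delta hn2 hmn2
  obtain ⟨_, _, h, e⟩ := full_four hn2 hmn2 P h4 h2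
  rcases P with _ | ⟨x, y, hns⟩
  · exact absurd (nsmul_zero 2 : 2 • (0 : Pt (SW (m ^ 2 + n ^ 2) (m ^ 2 * n ^ 2) 0)) = 0) h2
  · have hy : y ≠ 0 := fun hy => h2 ((two_smul_some hns).2 hy)
    obtain ⟨x', y', h', e', he⟩ := tfb_dbl hΔ hns hy
    rw [e'] at e
    have hx' : x' = 0 := by
      injection e
    rw [hx', mul_zero] at he
    have h3 : x ^ 2 - m ^ 2 * n ^ 2 = 0 := pow_eq_zero_iff (two_ne_zero) |>.1 he.symm
    refine ⟨x, y, hns, rfl, ?_⟩
    have h5 : (x - m * n) * (x + m * n) = 0 := by linear_combination h3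
    rcases mul_eq_zero.1 h5 with h6 | h6
    · left
      linear_combination h6
    · right
      linear_combination h6

theorem eight {m n : ℚ} (hn : 0 < n) (hmn : n < m)
    (P : Pt (SW (m ^ 2 + n ^ 2) (m ^ 2 * n ^ 2) 0)) (h8 : 8 • P = 0) (h4 : 4 • P ≠ 0) :
    IsSquare (m * n) ∧ IsSquare (n * (m + n)) ∧ IsSquare (m * (m + n)) := by
  obtain ⟨hn2, hmn2⟩ := tfb_lt hn hmn
  have h8' : 4 • (2 • P) = 0 := by
    rw [← mul_nsmul]
    exact h8
  have h4' : 2 • (2 • P) ≠ 0 := by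
    rw [← mul_nsmul]
    exact h4
  have hm : 0 < m := hn.trans hmn
  obtain ⟨x, y, h, e, hx⟩ := four_x hn hmn (2 • P) h8' h4'
  obtain ⟨s0, s1, s2⟩ := full_sq hn2 hmn2 e
  rcases hx with hx | hx
  · rw [hx] at s0 s1 s2
    refine ⟨s0, ?_, ?_⟩
    · have h1 : n * (m + n) = m * n + n ^ 2 := by ring
      rw [h1]
      exact s2
    · have h1 : m * (m + n) = m * n + m ^ 2 := by ring
      rw [h1]
      exact s1
  · have h1 := s0.nonneg
    have h2 := mul_pos hm hn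
    linarith

theorem tfb_root {a : ℚ} (ha : 0 < a) (h : IsSquare a) : ∃ r : ℚ, 0 < r ∧ a = r ^ 2 := by
  obtain ⟨r, hr⟩ := h
  have hr0 : r ≠ 0 := by
    rintro rfl
    rw [mul_zero] at hr
    exact ha.ne' hr
  exact ⟨|r|, abs_pos.2 hr0, by rw [sq_abs, hr]; ring⟩

theorem halve {m n : ℚ} (hn : 0 < n) (hmn : n < m) (h1 : IsSquare (m * n))
    (h2 : IsSquare (n * (m + n))) (h3 : IsSquare (m * (m + n))) :
    ∃ S : Pt (SW (m ^ 2 + n ^ 2) (m ^ 2 * n ^ 2) 0), 8 • S = 0 ∧ 4 • S ≠ 0 := by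
  obtain ⟨hn2, hmn2⟩ := tfb_lt hn hmn
  have hΔ := tfb_delta hn2 hmn2
  have hm : 0 < m := hn.trans hmn
  obtain ⟨r, hr, er⟩ := tfb_root (mul_pos hm hn) h1
  obtain ⟨s, hs, es⟩ := tfb_root (mul_pos hn (add_pos hm hn)) h2
  obtain ⟨t, ht, et⟩ := tfb_root (mul_pos hm (add_pos hm hn)) h3
  have em : m ^ 2 = t ^ 2 - r ^ 2 := by linear_combination et - er
  have en : n ^ 2 = s ^ 2 - r ^ 2 := by linear_combination es - er
  have eb : m ^ 2 * n ^ 2 = r ^ 4 := by linear_combination (m * n + r ^ 2) * er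
  have erel : (t ^ 2 - r ^ 2) * (s ^ 2 - r ^ 2) = r ^ 4 := by rw [← em, ← en, eb]
  have hy : (r + s) * (r + t) * (s + t) ≠ 0 := by positivity
  have hns : (SW (m ^ 2 + n ^ 2) (m ^ 2 * n ^ 2) 0).toAffine.Nonsingular ((r + s) * (r + t))
      ((r + s) * (r + t) * (s + t)) := by
    refine sw_ns hΔ ?_
    rw [em, en]
    ring
  obtain ⟨x', y', h', e, he⟩ := tfb_dbl hΔ hns hy
  have hx' : x' = r ^ 2 := by
    have h5 : ((r + s) * (r + t)) ^ 2 - m ^ 2 * n ^ 2 = 2 * r * ((r + s) * (r + t) * (s + t)) := by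
      rw [eb]
      linear_combination erel
    rw [h5] at he
    have h6 : (4 * ((r + s) * (r + t) * (s + t)) ^ 2) * (x' - r ^ 2) = 0 := by
      linear_combination he
    rcases mul_eq_zero.1 h6 with h7 | h7
    · exact absurd h7 (mul_ne_zero (by norm_num) (pow_ne_zero 2 hy))
    · linear_combination h7
  subst hx'
  have hy' : y' ≠ 0 := by
    intro h0
    have hE := sw_eq h'
    rw [h0] at hE
    have : 0 < (r ^ 2) ^ 3 + (m ^ 2 + n ^ 2) * (r ^ 2) ^ 2 + m ^ 2 * n ^ 2 * r ^ 2 + 0 := by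
      positivity
    rw [← hE] at this
    norm_num at this
  obtain ⟨x2, y2, hh2, e2, he2⟩ := tfb_dbl hΔ h' hy'
  have hx2 : x2 = 0 := by
    have h5 : 4 * y' ^ 2 * x2 = 0 := by
      rw [he2, eb]
      ring
    rcases mul_eq_zero.1 h5 with h6 | h6
    · exact absurd h6 (mul_ne_zero (by norm_num) (pow_ne_zero 2 hy'))
    · exact h6
  subst hx2
  have hy2 : y2 = 0 := by
    have hE := sw_eq hh2
    have h5 : y2 ^ 2 = 0 := by rw [hE]; ring
    exact pow_eq_zero_iff (two_ne_zero) |>.1 h5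
  subst hy2
  refine ⟨Affine.Point.some _ _ hns, ?_, ?_⟩
  · have h8 : (8 : ℕ) = 2 * 2 * 2 := rfl
    rw [h8, mul_nsmul, mul_nsmul, e, e2]
    exact (two_smul_some hh2).2 rfl
  · have h44 : (4 : ℕ) = 2 * 2 := rfl
    rw [h44, mul_nsmul, e]
    exact fun h0 => hy' ((two_smul_some h').1 h0)

end Pool.Agent.RkT
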