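import Pool.Agent.RkT.Iso
import Pool.Agent.RkT.GrpI

/-!
# RkT, module ThreeIsg: the 3-isogeny

`E3 D A B : y² = x³ + D (A x + B)²` and the isogeny to `E3 (-3 D) A ((27 B - 4 A³ D)/9)`.
-/

set_option autoImplicit false

namespace Pool.Agent.RkT

open WeierstrassCurve

/-- `y² = x³ + D (A x + B)²` -/
abbrev E3 (D A B : ℚ) : WeierstrassCurve ℚ := SW (D * A ^ 2) (2 * D * A * B) (D * B ^ 2)

theorem e3_delta (D A B : ℚ) : (E3 D A B).Δ = 16 * D ^ 2 * B ^ 3 * (4 * D * A ^ 3 - 27 * B) := by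
  rw [sw_delta]
  ring

theorem e3_delta' (D A B : ℚ) : (E3 (-3 * D) A ((27 * B - 4 * A ^ 3 * D) / 9)).Δ =
    16 * D ^ 2 * (4 * D * A ^ 3 - 27 * B) ^ 3 * B := by
  rw [sw_delta]
  ring

theorem e3_ne {D A B : ℚ} (h : (E3 D A B).Δ ≠ 0) : D ≠ 0 ∧ B ≠ 0 ∧ 4 * D * A ^ 3 - 27 * B ≠ 0 := by
  rw [e3_delta] at h
  refine ⟨?_, ?_, ?_⟩
  · rintro rfl
    exact h (by ring)
  · rintro rfl
    exact h (by ring)
  · intro h1
    exact h (by rw [h1]; ring)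

theorem e3_ns' {D A B : ℚ} (h : (E3 D A B).Δ ≠ 0) : (E3 (-3 * D) A ((27 * B - 4 * A ^ 3 * D) / 9)).Δ ≠ 0 := by
  obtain ⟨h1, h2, h3⟩ := e3_ne h
  rw [e3_delta']
  exact mul_ne_zero (mul_ne_zero (mul_ne_zero (by norm_num) (pow_ne_zero 2 h1)) (pow_ne_zero 3 h3)) h2

/-- symmetric functions of the abscissas of the images -/
theorem tri_one {x1 x2 x3 a b c e1 e2 e3 : ℚ} (h1 : x1 + x2 + x3 = e1) (h2 : x1 * x2 + x1 * x3 + x2 * x3 = e2)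
    (h3 : x1 * x2 * x3 = e3) (h0 : e3 ≠ 0) :
    (x1 ^ 3 + a * x1 ^ 2 + b * x1 + c) / x1 ^ 2 + (x2 ^ 3 + a * x2 ^ 2 + b * x2 + c) / x2 ^ 2 +
      (x3 ^ 3 + a * x3 ^ 2 + b * x3 + c) / x3 ^ 2 =
    (3 * a * e3 ^ 2 + b * e2 * e3 - 2 * c * e1 * e3 + c * e2 ^ 2 + e1 * e3 ^ 2) / e3 ^ 2 := by
  subst h1 h2 h3
  have g1 : x1 ≠ 0 := by rintro rfl; exact h0 (by ring)
  have g2 : x2 ≠ 0 := by rintro rfl; exact h0 (by ring)
  have g3 : x3 ≠ 0 := by rintro rfl; exact h0 (by ring)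
  field_simp
  ring

theorem tri_two {x1 x2 x3 a b c e1 e2 e3 : ℚ} (h1 : x1 + x2 + x3 = e1) (h2 : x1 * x2 + x1 * x3 + x2 * x3 = e2)
    (h3 : x1 * x2 * x3 = e3) (h0 : e3 ≠ 0) :
    (x1 ^ 3 + a * x1 ^ 2 + b * x1 + c) / x1 ^ 2 * ((x2 ^ 3 + a * x2 ^ 2 + b * x2 + c) / x2 ^ 2) +
      (x1 ^ 3 + a * x1 ^ 2 + b * x1 + c) / x1 ^ 2 * ((x3 ^ 3 + a * x3 ^ 2 + b * x3 + c) / x3 ^ 2) +
      (x2 ^ 3 + a * x2 ^ 2 + b * x2 + c) / x2 ^ 2 * ((x3 ^ 3 + a * x3 ^ 2 + b * x3 + c) / x3 ^ 2) =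
    (3 * a ^ 2 * e3 ^ 2 + 2 * a * b * e2 * e3 - 4 * a * c * e1 * e3 + 2 * a * c * e2 ^ 2 + 2 * a * e1 * e3 ^ 2 +
      b ^ 2 * e1 * e3 + b * c * e1 * e2 - 3 * b * c * e3 + b * e1 * e2 * e3 - 3 * b * e3 ^ 2 + c ^ 2 * e1 ^ 2 -
      2 * c ^ 2 * e2 - 2 * c * e1 ^ 2 * e3 + c * e1 * e2 ^ 2 - c * e2 * e3 + e2 * e3 ^ 2) / e3 ^ 2 := by
  subst h1 h2 h3
  have g1 : x1 ≠ 0 := by rintro rfl; exact h0 (by ring)
  have g2 : x2 ≠ 0 := by rintro rfl; exact h0 (by ring)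
  have g3 : x3 ≠ 0 := by rintro rfl; exact h0 (by ring)
  field_simp
  ring

theorem tri_three {x1 x2 x3 a b c e1 e2 e3 : ℚ} (h1 : x1 + x2 + x3 = e1) (h2 : x1 * x2 + x1 * x3 + x2 * x3 = e2)
    (h3 : x1 * x2 * x3 = e3) (h0 : e3 ≠ 0) :
    (x1 ^ 3 + a * x1 ^ 2 + b * x1 + c) / x1 ^ 2 * ((x2 ^ 3 + a * x2 ^ 2 + b * x2 + c) / x2 ^ 2) *
      ((x3 ^ 3 + a * x3 ^ 2 + b * x3 + c) / x3 ^ 2) =
    (a ^ 3 * e3 ^ 2 + a ^ 2 * b * e2 * e3 - 2 * a ^ 2 * c * e1 * e3 + a ^ 2 * c * e2 ^ 2 + a ^ 2 * e1 * e3 ^ 2 +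
      a * b ^ 2 * e1 * e3 + a * b * c * e1 * e2 - 3 * a * b * c * e3 + a * b * e1 * e2 * e3 - 3 * a * b * e3 ^ 2 +
      a * c ^ 2 * e1 ^ 2 - 2 * a * c ^ 2 * e2 - 2 * a * c * e1 ^ 2 * e3 + a * c * e1 * e2 ^ 2 - a * c * e2 * e3 +
      a * e2 * e3 ^ 2 + b ^ 3 * e3 + b ^ 2 * c * e2 + b ^ 2 * e1 ^ 2 * e3 - 2 * b ^ 2 * e2 * e3 + b * c ^ 2 * e1 +
      b * c * e1 ^ 2 * e2 - b * c * e1 * e3 - 2 * b * c * e2 ^ 2 - 2 * b * e1 * e3 ^ 2 + b * e2 ^ 2 * e3 + c ^ 3 +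
      c ^ 2 * e1 ^ 3 - 3 * c ^ 2 * e1 * e2 + 3 * c ^ 2 * e3 - 3 * c * e1 * e2 * e3 + c * e2 ^ 3 + 3 * c * e3 ^ 2 +
      e3 ^ 3) / e3 ^ 2 := by
  subst h1 h2 h3
  have g1 : x1 ≠ 0 := by rintro rfl; exact h0 (by ring)
  have g2 : x2 ≠ 0 := by rintro rfl; exact h0 (by ring)
  have g3 : x3 ≠ 0 := by rintro rfl; exact h0 (by ring)
  field_simp
  ring

/-- image of a point on a line -/
theorem e3_on {D A B l n x y : ℚ} (h0 : n ^ 2 - D * B ^ 2 ≠ 0) (hx : x ≠ 0)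
    (hE : y ^ 2 = x ^ 3 + D * A ^ 2 * x ^ 2 + 2 * D * A * B * x + D * B ^ 2) (hy : y = l * x + n) :
    y * (x ^ 3 - 4 * D * B * (A * x + 2 * B)) / x ^ 3 =
      (l * n ^ 2 + 3 * l * D * B ^ 2 - 4 * n * D * A * B) / (n ^ 2 - D * B ^ 2) *
        ((x ^ 3 + 4 * D * A ^ 2 / 3 * x ^ 2 + 4 * D * A * B * x + 4 * D * B ^ 2) / x ^ 2) +
      (n ^ 3 - 9 * n * D * B ^ 2 + 4 / 3 * n * D ^ 2 * A ^ 3 * B - 4 / 3 * l * n ^ 2 * D * A ^ 2 +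
        4 * l ^ 2 * n * D * A * B - 4 * l ^ 3 * D * B ^ 2) / (n ^ 2 - D * B ^ 2) := by
  rw [hy] at hE ⊢
  field_simp
  linear_combination (3 * (4 * x * l * D * B ^ 2 - 4 * x * n * D * A * B - 8 * n * D * B ^ 2)) * hE

theorem e3_curve {D A B x y : ℚ} (hx : x ≠ 0)
    (hE : y ^ 2 = x ^ 3 + D * A ^ 2 * x ^ 2 + 2 * D * A * B * x + D * B ^ 2) :
    (y * (x ^ 3 - 4 * D * B * (A * x + 2 * B)) / x ^ 3) ^ 2 =
      ((x ^ 3 + 4 * D * A ^ 2 / 3 * x ^ 2 + 4 * D * A * B * x + 4 * D * B ^ 2) / x ^ 2) ^ 3 +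
      (-3 * D * A ^ 2) * ((x ^ 3 + 4 * D * A ^ 2 / 3 * x ^ 2 + 4 * D * A * B * x + 4 * D * B ^ 2) / x ^ 2) ^ 2 +
      (2 * (-3 * D) * A * ((27 * B - 4 * A ^ 3 * D) / 9)) *
        ((x ^ 3 + 4 * D * A ^ 2 / 3 * x ^ 2 + 4 * D * A * B * x + 4 * D * B ^ 2) / x ^ 2) +
      -3 * D * ((27 * B - 4 * A ^ 3 * D) / 9) ^ 2 := by
  field_simp
  linear_combination (2187 * (x ^ 3 - 4 * D * B * (A * x + 2 * B)) ^ 2) * hE

/-- the function of the isogeny -/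
noncomputable def threeFun {D A B : ℚ} (hΔ : (E3 D A B).Δ ≠ 0) :
    Pt (E3 D A B) → Pt (E3 (-3 * D) A ((27 * B - 4 * A ^ 3 * D) / 9))
  | .zero => 0
  | .some x y h => if hx : x = 0 then 0 else
      Affine.Point.some ((x ^ 3 + 4 * D * A ^ 2 / 3 * x ^ 2 + 4 * D * A * B * x + 4 * D * B ^ 2) / x ^ 2)
        (y * (x ^ 3 - 4 * D * B * (A * x + 2 * B)) / x ^ 3) (sw_ns (e3_ns' hΔ) (e3_curve hx (sw_eq h)))

theorem threeFun_zero {D A B : ℚ} (hΔ : (E3 D A B).Δ ≠ 0) : threeFun hΔ 0 = 0 := rfl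

theorem threeFun_ker {D A B : ℚ} (hΔ : (E3 D A B).Δ ≠ 0) (x y : ℚ) (h) (hx : x = 0) :
    threeFun hΔ (Affine.Point.some x y h) = 0 := by
  unfold threeFun
  exact dif_pos hx

theorem threeFun_some {D A B : ℚ} (hΔ : (E3 D A B).Δ ≠ 0) (x y : ℚ) (h) (hx : x ≠ 0) :
    ∃ h', threeFun hΔ (Affine.Point.some x y h) =
      Affine.Point.some ((x ^ 3 + 4 * D * A ^ 2 / 3 * x ^ 2 + 4 * D * A * B * x + 4 * D * B ^ 2) / x ^ 2)
        (y * (x ^ 3 - 4 * D * B * (A * x + 2 * B)) / x ^ 3) h' := by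
  refine ⟨sw_ns (e3_ns' hΔ) (e3_curve hx (sw_eq h)), ?_⟩
  unfold threeFun
  exact dif_neg hx

theorem threeFun_neg {D A B : ℚ} (hΔ : (E3 D A B).Δ ≠ 0) (P : Pt (E3 D A B)) :
    threeFun hΔ (-P) = -threeFun hΔ P := by
  rcases P with _ | ⟨x, y, h⟩
  · rw [← Affine.Point.zero_def, neg_zero, threeFun_zero, neg_zero]
  · obtain ⟨h', e⟩ := sw_neg h
    rw [e]
    by_cases hx : x = 0
    · rw [threeFun_ker hΔ x _ _ hx, threeFun_ker hΔ x _ _ hx, neg_zero]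
    · obtain ⟨h1, e1⟩ := threeFun_some hΔ x (-y) h' hx
      obtain ⟨h2, e2⟩ := threeFun_some hΔ x y h hx
      rw [e1, e2]
      obtain ⟨h3, e3⟩ := sw_neg h2
      rw [e3]
      exact pt_congr _ _ rfl (by ring)

/-- a line through a point of the kernel -/
theorem threeFun_line0 {D A B : ℚ} (hΔ : (E3 D A B).Δ ≠ 0) {x1 y1 x2 y2 x3 y3 l n : ℚ}
    (h1 : (E3 D A B).toAffine.Nonsingular x1 y1) (h2 : (E3 D A B).toAffine.Nonsingular x2 y2)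
    (h3 : (E3 D A B).toAffine.Nonsingular x3 y3)
    (e2 : y2 = l * x2 + n) (e3 : y3 = l * x3 + n) (hL : IsLine (E3 D A B) x1 x2 x3 l n) (hx : x1 = 0) :
    threeFun hΔ (Affine.Point.some x1 y1 h1) + threeFun hΔ (Affine.Point.some x2 y2 h2) +
      threeFun hΔ (Affine.Point.some x3 y3 h3) = 0 := by
  obtain ⟨hD, hB, hd⟩ := e3_ne hΔ
  obtain ⟨s1, s2, s3⟩ := sw_line_iff hL
  rw [threeFun_ker hΔ x1 y1 h1 hx, zero_add]
  subst hx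
  have hn2 : n ^ 2 = D * B ^ 2 := by linear_combination -s3
  have hn : n ≠ 0 := by
    rintro rfl
    have : D * B ^ 2 = 0 := by rw [← hn2]; ring
    exact mul_ne_zero hD (pow_ne_zero 2 hB) this
  have hDe : D = n ^ 2 / B ^ 2 := by
    rw [hn2]
    field_simp
  have key : x2 = 0 ↔ x3 = 0 := by
    constructor
    · intro hx2
      rw [hx2] at s1 s2
      have g1 : l * n = D * A * B := by linear_combination (1 / 2 : ℚ) * s2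
      have g2 : l = D * A * B / n := by
        field_simp
        exact g1
      have g3 : l ^ 2 = D * A ^ 2 := by
        rw [g2, div_pow, hn2]
        field_simp
      linear_combination s1 + g3
    · intro hx3
      rw [hx3] at s1 s2
      have g1 : l * n = D * A * B := by linear_combination (1 / 2 : ℚ) * s2
      have g2 : l = D * A * B / n := by
        field_simp
        exact g1
      have g3 : l ^ 2 = D * A ^ 2 := by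
        rw [g2, div_pow, hn2]
        field_simp
      linear_combination s1 + g3
  by_cases hx2 : x2 = 0
  · rw [threeFun_ker hΔ x2 y2 h2 hx2, threeFun_ker hΔ x3 y3 h3 (key.1 hx2), zero_add]
  · have hx3 : x3 ≠ 0 := fun hx3 => hx2 (key.2 hx3)
    obtain ⟨g2, f2⟩ := threeFun_some hΔ x2 y2 h2 hx2
    obtain ⟨g3, f3⟩ := threeFun_some hΔ x3 y3 h3 hx3
    rw [f2, f3]
    obtain ⟨g4, f4⟩ := sw_neg g2
    have s1' : x2 + x3 = l ^ 2 - D * A ^ 2 := by linear_combination s1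
    have s2' : x2 * x3 = 2 * D * A * B - 2 * l * n := by linear_combination s2
    have hT : x2 ^ 2 * x3 ^ 2 - 4 * D * A * B * (x2 * x3) - 4 * D * B ^ 2 * (x2 + x3) = 0 := by
      linear_combination (x2 * x3 + (2 * D * A * B - 2 * l * n) - 4 * D * A * B) * s2' - 4 * D * B ^ 2 * s1' +
        4 * l ^ 2 * hn2
    have hU : y2 * (x2 ^ 3 - 4 * D * B * (A * x2 + 2 * B)) * x3 ^ 3 +
        y3 * (x3 ^ 3 - 4 * D * B * (A * x3 + 2 * B)) * x2 ^ 3 = 0 := by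
      have g5 : y2 * (x2 ^ 3 - 4 * D * B * (A * x2 + 2 * B)) * x3 ^ 3 +
          y3 * (x3 ^ 3 - 4 * D * B * (A * x3 + 2 * B)) * x2 ^ 3 =
          l * (x2 * x3) ^ 3 * (x2 + x3) + 2 * n * (x2 * x3) ^ 3 - 4 * (D * A * B) * l * (x2 * x3) ^ 2 * (x2 + x3) -
            4 * (D * A * B) * n * (x2 * x3) * ((x2 + x3) ^ 2 - 2 * (x2 * x3)) -
            8 * (D * B ^ 2) * l * (x2 * x3) * ((x2 + x3) ^ 2 - 2 * (x2 * x3)) -
            8 * (D * B ^ 2) * n * ((x2 + x3) ^ 3 - 3 * (x2 + x3) * (x2 * x3)) := by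
        rw [e2, e3]
        ring
      rw [g5, s1', s2', hDe]
      field_simp
      ring
    have hX : (x2 ^ 3 + 4 * D * A ^ 2 / 3 * x2 ^ 2 + 4 * D * A * B * x2 + 4 * D * B ^ 2) / x2 ^ 2 =
        (x3 ^ 3 + 4 * D * A ^ 2 / 3 * x3 ^ 2 + 4 * D * A * B * x3 + 4 * D * B ^ 2) / x3 ^ 2 := by
      rw [div_eq_div_iff (pow_ne_zero 2 hx2) (pow_ne_zero 2 hx3)]
      linear_combination (x2 - x3) * hT
    have hY : y3 * (x3 ^ 3 - 4 * D * B * (A * x3 + 2 * B)) / x3 ^ 3 =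
        -(y2 * (x2 ^ 3 - 4 * D * B * (A * x2 + 2 * B)) / x2 ^ 3) := by
      rw [← neg_div, div_eq_div_iff (pow_ne_zero 3 hx3) (pow_ne_zero 3 hx2)]
      linear_combination hU
    rw [pt_congr g3 g4 hX.symm hY, ← f4, add_neg_cancel]

theorem threeFun_line {D A B : ℚ} (hΔ : (E3 D A B).Δ ≠ 0) {x1 y1 x2 y2 x3 y3 l n : ℚ}
    (h1 : (E3 D A B).toAffine.Nonsingular x1 y1) (h2 : (E3 D A B).toAffine.Nonsingular x2 y2)
    (h3 : (E3 D A B).toAffine.Nonsingular x3 y3) (e1 : y1 = l * x1 + n)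
    (e2 : y2 = l * x2 + n) (e3 : y3 = l * x3 + n) (hL : IsLine (E3 D A B) x1 x2 x3 l n) :
    threeFun hΔ (Affine.Point.some x1 y1 h1) + threeFun hΔ (Affine.Point.some x2 y2 h2) +
      threeFun hΔ (Affine.Point.some x3 y3 h3) = 0 := by
  by_cases hx1 : x1 = 0
  · exact threeFun_line0 hΔ h1 h2 h3 e2 e3 hL hx1
  by_cases hx2 : x2 = 0
  · have := threeFun_line0 hΔ h2 h1 h3 e1 e3 hL.swap hx2
    rw [← this]
    abel
  by_cases hx3 : x3 = 0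
  · have := threeFun_line0 hΔ h3 h1 h2 e1 e2 hL.rot.rot hx3
    rw [← this]
    abel
  obtain ⟨s1, s2, s3⟩ := sw_line_iff hL
  have h0 : n ^ 2 - D * B ^ 2 ≠ 0 := by
    rw [← s3]
    exact mul_ne_zero (mul_ne_zero hx1 hx2) hx3
  obtain ⟨g1, f1⟩ := threeFun_some hΔ x1 y1 h1 hx1
  obtain ⟨g2, f2⟩ := threeFun_some hΔ x2 y2 h2 hx2
  obtain ⟨g3, f3⟩ := threeFun_some hΔ x3 y3 h3 hx3
  rw [f1, f2, f3]
  refine line_sum g1 g2 g3 (e3_on h0 hx1 (sw_eq h1) e1) (e3_on h0 hx2 (sw_eq h2) e2)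
    (e3_on h0 hx3 (sw_eq h3) e3) (sw_line ?_ ?_ ?_)
  · rw [tri_one s1 s2 s3 h0]
    field_simp
    ring
  · rw [tri_two s1 s2 s3 h0]
    field_simp
    ring
  · rw [tri_three s1 s2 s3 h0]
    field_simp
    ring

/-- points with `x = 0` are killed by `3` -/
theorem e3_kill {D A B : ℚ} (hΔ : (E3 D A B).Δ ≠ 0) {x y : ℚ} (h : (E3 D A B).toAffine.Nonsingular x y)
    (hx : x = 0) : 3 • (Affine.Point.some x y h : Pt (E3 D A B)) = 0 := by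
  obtain ⟨hD, hB, hd⟩ := e3_ne hΔ
  have hE := sw_eq h
  subst hx
  have hn2 : y ^ 2 = D * B ^ 2 := by linear_combination hE
  have hn : y ≠ 0 := by
    rintro rfl
    have : D * B ^ 2 = 0 := by rw [← hn2]; ring
    exact mul_ne_zero hD (pow_ne_zero 2 hB) this
  have hsum := line_sum (l := D * A * B / y) (n := y) h h h (by ring) (by ring) (by ring)
    (sw_line (by rw [div_pow, hn2]; field_simp; ring) (by field_simp; ring) (by linear_combination -hn2))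
  rw [← hsum]
  abel

/-- the 3-isogeny -/
theorem three_isog {D A B : ℚ} (hΔ : (E3 D A B).Δ ≠ 0) :
    ∃ f : Pt (E3 D A B) →+ Pt (E3 (-3 * D) A ((27 * B - 4 * A ^ 3 * D) / 9)),
      (∀ x y h, x = 0 → f (Affine.Point.some x y h) = 0) ∧ ∀ P, f P = 0 → 3 • P = 0 := by
  refine ⟨⟨⟨threeFun hΔ, threeFun_zero hΔ⟩, hom_of_line _ (threeFun_zero hΔ) (threeFun_neg hΔ) ?_⟩, ?_, ?_⟩
  · intro x1 y1 x2 y2 x3 y3 l n h1 h2 h3 e1 e2 e3 hL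
    exact threeFun_line hΔ h1 h2 h3 e1 e2 e3 hL
  · intro x y h hx
    exact threeFun_ker hΔ x y h hx
  · intro P hP
    rcases P with _ | ⟨x, y, h⟩
    · exact nsmul_zero 3
    · by_cases hx : x = 0
      · exact e3_kill hΔ h hx
      · exfalso
        obtain ⟨h', e⟩ := threeFun_some hΔ x y h hx
        have h1 : threeFun hΔ (Affine.Point.some x y h) = 0 := hP
        rw [e] at h1
        exact Affine.Point.some_ne_zero h' h1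

theorem three_isg {D A B : ℚ} (hΔ : (E3 D A B).Δ ≠ 0) :
    Isg 3 (Pt (E3 D A B)) (Pt (E3 (-3 * D) A ((27 * B - 4 * A ^ 3 * D) / 9))) := by
  obtain ⟨f, -, hf⟩ := three_isog hΔ
  obtain ⟨g, -, hg⟩ := three_isog (e3_ns' hΔ)
  obtain ⟨-, e, -⟩ := iso_sw (a' := D * A ^ 2) (b' := 2 * D * A * B) (c' := D * B ^ 2) (u := 1 / 3) (r := 0)
    (by norm_num) (e3_ns' (e3_ns' hΔ)) (by ring) (by ring) (by ring)
  refine ⟨f, (e : _ →+ _).comp g, fun x hx => ⟨1, by rw [pow_one]; exact hf x hx⟩, fun y hy => ⟨1, ?_⟩⟩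
  rw [pow_one]
  have h1 : e (g y) = 0 := hy
  exact hg y ((map_eq_zero_iff e e.injective).1 h1)

end Pool.Agent.RkT
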