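import Pool.Agent.RkT.Iso
import Pool.Agent.RkT.TFb
import Pool.Agent.RkT.GrpI
import Pool.Agent.RkT.GrpP
import Pool.Agent.RkT.FerB

/-!
# RkT, module TwoA: quotients by points of order 2
-/

set_option autoImplicit false

namespace Pool.Agent.RkT

open WeierstrassCurve

/-- `y² = x (x + p)(x + q)` -/
abbrev FF (p q : ℚ) : WeierstrassCurve ℚ := SW (p + q) (p * q) 0

/-- the quotient of `SW a b 0` by `(0, 0)` -/
abbrev QQ (a b : ℚ) : WeierstrassCurve ℚ := SW (-2 * a) (a ^ 2 - 4 * b) 0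

theorem qq_delta {a b : ℚ} (hb : b ≠ 0) (hd : a ^ 2 - 4 * b ≠ 0) : (QQ a b).Δ ≠ 0 := by
  refine sw_delta0 hd ?_
  have : (-2 * a) ^ 2 - 4 * (a ^ 2 - 4 * b) = 16 * b := by ring
  rw [this]
  exact mul_ne_zero (by norm_num) hb

theorem sw_delta0' {a b : ℚ} (h : (SW a b 0).Δ ≠ 0) : b ≠ 0 ∧ a ^ 2 - 4 * b ≠ 0 := by
  rw [sw_delta] at h
  constructor
  · rintro rfl
    exact h (by ring)
  · intro h1
    have : a ^ 2 = 4 * b := by linarith
    apply h
    linear_combination (16 * b ^ 2) * this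

theorem quot_isg {a b : ℚ} (hb : b ≠ 0) (hd : a ^ 2 - 4 * b ≠ 0) : Isg 2 (Pt (SW a b 0)) (Pt (QQ a b)) := by
  obtain ⟨f, g, -, -, -, -, hgf, hfg⟩ := two_isog hb hd
  refine ⟨f, g, fun x hx => ⟨1, ?_⟩, fun y hy => ⟨1, ?_⟩⟩
  · rw [pow_one, ← hgf, hx, map_zero]
  · rw [pow_one, ← hfg, hy, map_zero]

/-- a leaf: the 2-primary torsion of the quotient is cyclic of order `2^k` -/
theorem leaf_cyc {a b : ℚ} (hb : b ≠ 0) (hd : a ^ 2 - 4 * b ≠ 0) (hns : ¬ IsSquare b) {k : ℕ} (hk : 1 ≤ k)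
    (R : Pt (SW a b 0)) (hR : 2 ^ k • R = 0)
    (hR2 : ∃ (x y : ℚ) (h : (SW a b 0).toAffine.Nonsingular x y), x ≠ 0 ∧
      2 ^ (k - 1) • R = Affine.Point.some x y h)
    (hno : ∀ x y (h : (SW a b 0).toAffine.Nonsingular x y),
      2 ^ k • (Affine.Point.some x y h : Pt (SW a b 0)) = 0 →
      (∃ (x' y' : ℚ) (h' : (SW a b 0).toAffine.Nonsingular x' y'), x' ≠ 0 ∧
        2 ^ (k - 1) • (Affine.Point.some x y h : Pt (SW a b 0)) = Affine.Point.some x' y' h') →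
      ¬ IsSquare x) :
    Prim 2 (ZMod (2 ^ k)) (Pt (QQ a b)) := by
  obtain ⟨f, g, hf0, hf, hg0, hg, hgf, hfg⟩ := two_isog hb hd
  have hne : ∀ P : Pt (SW a b 0), f P ≠ 0 → ∃ x y h, x ≠ 0 ∧ P = Affine.Point.some x y h := by
    intro P hP
    rcases P with _ | ⟨x, y, h⟩
    · exact absurd (map_zero f) hP
    · refine ⟨x, y, h, ?_, rfl⟩
      intro hx
      exact hP (hf0 x y h hx)
  have hfne : ∀ x y (h : (SW a b 0).toAffine.Nonsingular x y), x ≠ 0 → f (Affine.Point.some x y h) ≠ 0 := by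
    intro x y h hx
    obtain ⟨h', e⟩ := hf x y h hx
    rw [e]
    exact Affine.Point.some_ne_zero h'
  have h2k : 2 ^ k = 2 ^ (k - 1) * 2 := by
    rw [← pow_succ]
    congr 1
    omega
  have hQ : 2 ^ k • f R = 0 := by rw [← map_nsmul, hR, map_zero]
  have hQ' : 2 ^ (k - 1) • f R ≠ 0 := by
    obtain ⟨x, y, h, hx, e⟩ := hR2
    rw [← map_nsmul, e]
    exact hfne x y h hx
  refine prim_cyc Nat.prime_two (f R) hk hQ hQ' ?_ ?_
  · intro y hy
    have h2 : 2 • (2 ^ (k - 1) • f R) = 0 := by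
      rw [← mul_nsmul, ← h2k]
      exact hQ
    rcases leaf_inv hns _ h2 with h3 | ⟨h3, e3⟩
    · exact absurd h3 hQ'
    · rcases leaf_inv hns y hy with h4 | ⟨h4, e4⟩
      · exact ⟨0, by rw [zero_nsmul]; exact h4⟩
      · exact ⟨1, by rw [one_nsmul, e3, e4]⟩
  · intro y hy
    by_contra hne2
    have h2 : 2 • (2 ^ k • y) = 0 := by
      rw [← mul_nsmul, ← pow_succ]
      exact hy
    rcases leaf_inv hns _ h2 with h3 | ⟨h3, e3⟩
    · exact hne2 h3
    · have hG : 2 ^ k • g y = 0 := by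
        rw [← map_nsmul, e3]
        exact hg0 _ _ _ rfl
      have hG2 : f (2 ^ (k - 1) • g y) ≠ 0 := by
        rw [map_nsmul, hfg, ← mul_nsmul, mul_comm 2 (2 ^ (k - 1)), ← h2k]
        exact hne2
      obtain ⟨x', y', h', hx', e'⟩ := hne _ hG2
      have hG0 : g y ≠ 0 := by
        intro h0
        rw [h0, nsmul_zero] at e'
        exact Affine.Point.some_ne_zero h' e'.symm
      generalize hgy : g y = G at hG e' hG0
      rcases G with _ | ⟨x, w, h⟩
      · exact hG0 rfl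
      · exact hno x w h hG ⟨x', y', h', hx', e'⟩ (sq_image hg0 hg hgy)

/-- the quotient by an arbitrary point of order 2 -/
theorem quot_two {a b c : ℚ} (hΔ : (SW a b c).Δ ≠ 0) (T : Pt (SW a b c)) (hT : 2 • T = 0) (hT0 : T ≠ 0) :
    ∃ a' b' c', (SW a' b' c').Δ ≠ 0 ∧ Isg 2 (Pt (SW a b c)) (Pt (SW a' b' c')) ∧
      ∃ (f : Pt (SW a b c) →+ Pt (SW a' b' c')) (T' : Pt (SW a' b' c')), f T = 0 ∧
        (∀ z, f z = 0 → z = 0 ∨ z = T) ∧ T' ≠ 0 ∧ 2 • T' = 0 ∧ ∀ z, f z = T' → 2 • z = 0 := by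
  rcases T with _ | ⟨e0, y0, h0⟩
  · exact absurd rfl hT0
  have hy0 := (two_smul_some h0).1 hT
  subst hy0
  have hE := sw_eq h0
  obtain ⟨hΔ', e, he⟩ := iso_sw (a' := a + 3 * e0) (b' := b + 2 * a * e0 + 3 * e0 ^ 2) (c' := 0) (u := 1)
    (r := -e0) one_ne_zero hΔ (by ring) (by ring) (by linear_combination hE)
  obtain ⟨hb, hd⟩ := sw_delta0' hΔ'
  obtain ⟨f, g, hf0, hf, hg0, hg, hgf, hfg⟩ := two_isog hb hd
  have hT'ns := sw_ns (qq_delta hb hd) (x := 0) (y := 0) (by ring)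
  refine ⟨_, _, _, qq_delta hb hd, (Isg.of_equiv 2 e).trans (quot_isg hb hd), f.comp (e : _ →+ _),
    Affine.Point.some 0 0 hT'ns, ?_, ?_, Affine.Point.some_ne_zero _, (two_smul_some _).2 rfl, ?_⟩
  · obtain ⟨h', e'⟩ := he e0 0 h0
    change f (e _) = 0
    rw [e']
    exact hf0 _ _ _ (by ring)
  · intro z hz
    have hz' : f (e z) = 0 := hz
    rcases z with _ | ⟨x, y, h⟩
    · exact Or.inl rfl
    · right
      obtain ⟨h', e'⟩ := he x y h
      rw [e'] at hz'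
      by_cases hx : (1 : ℚ) ^ 2 * x + -e0 = 0
      · have hx' : x = e0 := by linarith
        subst hx'
        have hE2 := sw_eq h
        have hy : y = 0 := by
          have : y ^ 2 = 0 := by rw [hE2]; linear_combination -hE
          exact pow_eq_zero_iff two_ne_zero |>.1 this
        exact pt_congr _ _ rfl hy
      · exfalso
        obtain ⟨h'', e''⟩ := hf _ _ h' hx
        rw [e''] at hz'
        exact Affine.Point.some_ne_zero _ hz'
  · intro z hz
    have hz' : f (e z) = Affine.Point.some 0 0 hT'ns := hz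
    have h1 : g (f (e z)) = 0 := by
      rw [hz']
      exact hg0 _ _ _ rfl
    rw [hgf, ← map_nsmul] at h1
    exact (map_eq_zero_iff e e.injective).1 h1

end Pool.Agent.RkT
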