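import Pool.Agent.RkT.TwoA

/-!
# RkT, module TwoB: curves with full 2-torsion, leaves and steps
-/

set_option autoImplicit false

namespace Pool.Agent.RkT

open WeierstrassCurve

/-- some curve linked with `A` by `p`-power isogenies has `p`-primary torsion `M` -/
def Rch (p : ℕ) (A M : Type) [AddCommGroup A] [AddCommGroup M] : Prop :=
  ∃ a b c : ℚ, (SW a b c).Δ ≠ 0 ∧ Isg p A (Pt (SW a b c)) ∧ Prim p M (Pt (SW a b c))

theorem Rch.of_isg {p : ℕ} {A B M : Type} [AddCommGroup A] [AddCommGroup B] [AddCommGroup M]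
    (h : Isg p A B) (h' : Rch p B M) : Rch p A M := by
  obtain ⟨a, b, c, h1, h2, h3⟩ := h'
  exact ⟨a, b, c, h1, h.trans h2, h3⟩

theorem Rch.of_equiv {p : ℕ} {A B M : Type} [AddCommGroup A] [AddCommGroup B] [AddCommGroup M]
    (e : A ≃+ B) (h' : Rch p B M) : Rch p A M := Rch.of_isg (Isg.of_equiv p e) h'

theorem leaf_sh {a0 b0 c0 a b r : ℚ} (hb : b ≠ 0) (hd : a ^ 2 - 4 * b ≠ 0) (hns : ¬ IsSquare b)
    (e : Pt (SW a0 b0 c0) ≃+ Pt (SW a b 0))
    (he : ∀ x y h, ∃ h', e (Affine.Point.some x y h) = Affine.Point.some (x + r) y h') {k : ℕ} (hk : 1 ≤ k)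
    (R : Pt (SW a0 b0 c0)) (hR : 2 ^ k • R = 0)
    (hR2 : ∃ (x y : ℚ) (h : (SW a0 b0 c0).toAffine.Nonsingular x y), x + r ≠ 0 ∧
      2 ^ (k - 1) • R = Affine.Point.some x y h)
    (hno : ∀ x y (h : (SW a0 b0 c0).toAffine.Nonsingular x y),
      2 ^ k • (Affine.Point.some x y h : Pt (SW a0 b0 c0)) = 0 →
      (∃ (x' y' : ℚ) (h' : (SW a0 b0 c0).toAffine.Nonsingular x' y'), x' + r ≠ 0 ∧
        2 ^ (k - 1) • (Affine.Point.some x y h : Pt (SW a0 b0 c0)) = Affine.Point.some x' y' h') →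
      ¬ IsSquare (x + r)) :
    Rch 2 (Pt (SW a0 b0 c0)) (ZMod (2 ^ k)) := by
  refine ⟨_, _, _, qq_delta hb hd, (Isg.of_equiv 2 e).trans (quot_isg hb hd), ?_⟩
  have key : ∀ (G : Pt (SW a0 b0 c0)) (x y : ℚ) (h : (SW a b 0).toAffine.Nonsingular x y),
      e G = Affine.Point.some x y h → ∃ (x0 : ℚ) (h0 : (SW a0 b0 c0).toAffine.Nonsingular x0 y),
        G = Affine.Point.some x0 y h0 ∧ x = x0 + r := by
    intro G x y h hG
    rcases G with _ | ⟨x0, y0, h0⟩
    · exfalso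
      rw [← Affine.Point.zero_def, map_zero] at hG
      exact Affine.Point.some_ne_zero h hG.symm
    · obtain ⟨h', e'⟩ := he x0 y0 h0
      rw [e'] at hG
      injection hG with hx hy
      subst hy
      exact ⟨x0, h0, rfl, hx.symm⟩
  refine leaf_cyc hb hd hns hk (e R) (by rw [← map_nsmul, hR, map_zero]) ?_ ?_
  · obtain ⟨x, y, h, hx, e1⟩ := hR2
    obtain ⟨h', e'⟩ := he x y h
    exact ⟨x + r, y, h', hx, by rw [← map_nsmul, e1, e']⟩
  · intro x y h h1 h2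
    obtain ⟨x', y', h', hx', e'⟩ := h2
    obtain ⟨G, hG⟩ := e.surjective (Affine.Point.some x y h)
    obtain ⟨x0, h0, rfl, rfl⟩ := key G x y h hG
    refine hno x0 y h0 ?_ ?_
    · apply e.injective
      rw [map_nsmul, hG, h1, map_zero]
    · have h3 : e (2 ^ (k - 1) • (Affine.Point.some x0 y h0 : Pt (SW a0 b0 c0))) =
          Affine.Point.some x' y' h' := by rw [map_nsmul, hG, e']
      obtain ⟨x1, h4, e4, rfl⟩ := key _ _ _ _ h3
      exact ⟨x1, y', h4, hx', e4⟩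

theorem ff_delta {p q : ℚ} (hq : 0 < q) (hpq : q < p) : (FF p q).Δ ≠ 0 := tfb_delta hq hpq

/-- leaf at `(-q, 0)` -/
theorem leaf_q {p q : ℚ} (hq : 0 < q) (hpq : q < p) {k : ℕ} (hk : 1 ≤ k)
    (R : Pt (FF p q)) (hR : 2 ^ k • R = 0)
    (hR2 : ∃ (x y : ℚ) (h : (FF p q).toAffine.Nonsingular x y), x + q ≠ 0 ∧
      2 ^ (k - 1) • R = Affine.Point.some x y h)
    (hno : ∀ x y (h : (FF p q).toAffine.Nonsingular x y),
      2 ^ k • (Affine.Point.some x y h : Pt (FF p q)) = 0 →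
      (∃ (x' y' : ℚ) (h' : (FF p q).toAffine.Nonsingular x' y'), x' + q ≠ 0 ∧
        2 ^ (k - 1) • (Affine.Point.some x y h : Pt (FF p q)) = Affine.Point.some x' y' h') →
      ¬ IsSquare (x + q)) :
    Rch 2 (Pt (FF p q)) (ZMod (2 ^ k)) := by
  obtain ⟨hΔ', e, he⟩ := iso_sw (a' := p - 2 * q) (b' := -(q * (p - q))) (c' := 0) (u := 1)
    (r := q) one_ne_zero (ff_delta hq hpq) (by ring) (by ring) (by ring)
  have he' : ∀ x y h, ∃ h', e (Affine.Point.some x y h) = Affine.Point.some (x + q) y h' := by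
    intro x y h
    obtain ⟨h', e'⟩ := he x y h
    have h1 : (1 : ℚ) ^ 2 * x + q = x + q := by ring
    have h2 : (1 : ℚ) ^ 3 * y = y := by ring
    have h3 := h'
    rw [h1, h2] at h3
    exact ⟨h3, e'.trans (pt_congr _ _ h1 h2)⟩
  have hneg : -(q * (p - q)) < 0 := by
    have := mul_pos hq (sub_pos.2 hpq)
    linarith
  refine leaf_sh hneg.ne ?_ ?_ e he' hk R hR hR2 hno
  · have : (p - 2 * q) ^ 2 - 4 * -(q * (p - q)) = p ^ 2 := by ring
    rw [this]
    exact pow_ne_zero 2 (hq.trans hpq).ne'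
  · intro h
    exact absurd h.nonneg (not_le.2 hneg)

/-- leaf at `(-p, 0)` -/
theorem leaf_p {p q : ℚ} (hq : 0 < q) (hpq : q < p) (hns : ¬ IsSquare (p * (p - q))) {k : ℕ} (hk : 1 ≤ k)
    (R : Pt (FF p q)) (hR : 2 ^ k • R = 0)
    (hR2 : ∃ (x y : ℚ) (h : (FF p q).toAffine.Nonsingular x y), x + p ≠ 0 ∧
      2 ^ (k - 1) • R = Affine.Point.some x y h)
    (hno : ∀ x y (h : (FF p q).toAffine.Nonsingular x y),
      2 ^ k • (Affine.Point.some x y h : Pt (FF p q)) = 0 →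
      (∃ (x' y' : ℚ) (h' : (FF p q).toAffine.Nonsingular x' y'), x' + p ≠ 0 ∧
        2 ^ (k - 1) • (Affine.Point.some x y h : Pt (FF p q)) = Affine.Point.some x' y' h') →
      ¬ IsSquare (x + p)) :
    Rch 2 (Pt (FF p q)) (ZMod (2 ^ k)) := by
  obtain ⟨hΔ', e, he⟩ := iso_sw (a' := q - 2 * p) (b' := p * (p - q)) (c' := 0) (u := 1)
    (r := p) one_ne_zero (ff_delta hq hpq) (by ring) (by ring) (by ring)
  have he' : ∀ x y h, ∃ h', e (Affine.Point.some x y h) = Affine.Point.some (x + p) y h' := by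
    intro x y h
    obtain ⟨h', e'⟩ := he x y h
    have h1 : (1 : ℚ) ^ 2 * x + p = x + p := by ring
    have h2 : (1 : ℚ) ^ 3 * y = y := by ring
    have h3 := h'
    rw [h1, h2] at h3
    exact ⟨h3, e'.trans (pt_congr _ _ h1 h2)⟩
  refine leaf_sh (mul_pos (hq.trans hpq) (sub_pos.2 hpq)).ne' ?_ hns e he' hk R hR hR2 hno
  have : (q - 2 * p) ^ 2 - 4 * (p * (p - q)) = q ^ 2 := by ring
  rw [this]
  exact pow_ne_zero 2 hq.ne'

/-- leaf at `(0, 0)` with torsion `Z/2` -/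
theorem leaf_0 {p q : ℚ} (hq : 0 < q) (hpq : q < p) (hns : ¬ IsSquare (p * q)) :
    Rch 2 (Pt (FF p q)) (ZMod (2 ^ 1)) := by
  obtain ⟨hb, hd⟩ := sw_delta0' (ff_delta hq hpq)
  refine ⟨_, _, _, qq_delta hb hd, quot_isg hb hd, ?_⟩
  have hR : (FF p q).toAffine.Nonsingular (-q) 0 := sw_ns (ff_delta hq hpq) (by ring)
  refine leaf_cyc hb hd hns le_rfl (Affine.Point.some (-q) 0 hR) ?_ ?_ ?_
  · rw [pow_one]
    exact (two_smul_some hR).2 rfl
  · exact ⟨-q, 0, hR, by linarith [hq.ne'], by simp⟩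
  · intro x y h h1 h2 h3
    obtain ⟨x', y', h', hx', e'⟩ := h2
    rw [pow_one] at h1
    have hx0 : x ≠ 0 := by
      have h4 : (Affine.Point.some x y h : Pt (FF p q)) = Affine.Point.some x' y' h' := by simpa using e'
      injection h4 with h5
      rw [h5]
      exact hx'
    have hxn := h3.nonneg
    have hpos : 0 < x := lt_of_le_of_ne hxn (Ne.symm hx0)
    have hy := (two_smul_some h).1 h1
    subst hy
    have hE := sw_eq h
    have hp : 0 < p := hq.trans hpq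
    have : 0 < x ^ 3 + (p + q) * x ^ 2 + p * q * x + 0 := by positivity
    rw [← hE] at this
    norm_num at this

/-- the step to the quotient by `(0, 0)` -/
theorem step {m n : ℚ} (hn : 0 < n) (hmn : n < m) :
    Isg 2 (Pt (FF (m ^ 2) (n ^ 2))) (Pt (FF ((m + n) ^ 2) (4 * (m * n)))) := by
  obtain ⟨hn2, hmn2⟩ := tfb_lt hn hmn
  obtain ⟨hb, hd⟩ := sw_delta0' (ff_delta hn2 hmn2)
  obtain ⟨-, e, -⟩ := iso_sw (a' := (m + n) ^ 2 + 4 * (m * n)) (b' := (m + n) ^ 2 * (4 * (m * n))) (c' := 0)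
    (u := 1) (r := -(m + n) ^ 2) one_ne_zero (qq_delta hb hd) (by ring) (by ring) (by ring)
  exact (quot_isg hb hd).trans (Isg.of_equiv 2 e)

theorem step_lt {m n : ℚ} (hn : 0 < n) (hmn : n < m) : 0 < 4 * (m * n) ∧ 4 * (m * n) < (m + n) ^ 2 := by
  have hm : 0 < m := hn.trans hmn
  constructor
  · positivity
  · nlinarith [mul_pos (sub_pos.2 hmn) (sub_pos.2 hmn)]

theorem fer_use {m n k : ℚ} (hn : 0 < n) (hmn : n < m) (hk : 0 < k) (h : 4 * (m * n) = k ^ 2) :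
    ¬ IsSquare ((m + n) * k) := by
  rintro ⟨w, hw⟩
  have hm : 0 < m := hn.trans hmn
  have h1 : (2 * m / k * (2 * w / k)) ^ 2 = 2 * (2 * m / k) * ((2 * m / k) ^ 2 + 1) := by
    have h2 : n = k ^ 2 / (4 * m) := by
      field_simp
      linarith
    have h3 : w ^ 2 = (m + n) * k := by rw [hw]; ring
    rw [mul_pow, div_pow (2 * w), mul_pow, h3, h2]
    field_simp
    ring
  rcases ferN1 h1 with h2 | h2
  · have : 0 < 2 * m / k := by positivity
    linarith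
  · have h3 : 2 * m = k := by
      field_simp at h2
      linarith
    have h4 : n = m := by
      have h5 : m * (n - m) = 0 := by
        rw [← h3] at h
        linarith
      rcases mul_eq_zero.1 h5 with h6 | h6
      · exact absurd h6 hm.ne'
      · linarith
    exact hmn.ne h4

/-- after at most two steps `q` is not a square -/
theorem reach {m n : ℚ} (hn : 0 < n) (hmn : n < m) :
    ∃ p q, 0 < q ∧ q < p ∧ ¬ IsSquare q ∧ Isg 2 (Pt (FF (m ^ 2) (n ^ 2))) (Pt (FF p q)) := by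
  have hm : 0 < m := hn.trans hmn
  obtain ⟨s1, s2⟩ := step_lt hn hmn
  by_cases h : IsSquare (4 * (m * n))
  · obtain ⟨k, hk, e⟩ := tfb_root s1 h
    have hk2 : k < m + n := by
      rw [e] at s2
      exact lt_of_pow_lt_pow_left₀ 2 (by positivity) s2
    obtain ⟨t1, t2⟩ := step_lt hk hk2
    refine ⟨_, _, t1, t2, ?_, (e ▸ step hn hmn : Isg 2 _ (Pt (FF ((m + n) ^ 2) (k ^ 2)))).trans (step hk hk2)⟩
    rintro ⟨w, hw⟩
    exact fer_use hn hmn hk e ⟨w / 2, by linarith⟩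
  · exact ⟨_, _, s1, s2, h, step hn hmn⟩

end Pool.Agent.RkT
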