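import Pool.Agent.RkT.TwoB

/-!
# RkT, module TwoC: curves with full 2-torsion
-/

set_option autoImplicit false

namespace Pool.Agent.RkT

open WeierstrassCurve

theorem ff_0 {p q : ℚ} (hq : 0 < q) (hpq : q < p) : (FF p q).toAffine.Nonsingular 0 0 :=
  sw_ns (ff_delta hq hpq) (by ring)

theorem ff_p {p q : ℚ} (hq : 0 < q) (hpq : q < p) : (FF p q).toAffine.Nonsingular (-p) 0 :=
  sw_ns (ff_delta hq hpq) (by ring)

theorem ff_q {p q : ℚ} (hq : 0 < q) (hpq : q < p) : (FF p q).toAffine.Nonsingular (-q) 0 :=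
  sw_ns (ff_delta hq hpq) (by ring)

theorem ff_sum {p q : ℚ} (hq : 0 < q) (hpq : q < p) :
    (Affine.Point.some (-p) 0 (ff_p hq hpq) : Pt (FF p q)) + Affine.Point.some 0 0 (ff_0 hq hpq) =
      Affine.Point.some (-q) 0 (ff_q hq hpq) := by
  have h := line_sum (l := 0) (n := 0) (ff_p hq hpq) (ff_0 hq hpq) (ff_q hq hpq) (by ring) (by ring) (by ring)
    (sw_line (by ring) (by ring) (by ring))
  rw [eq_neg_of_add_eq_zero_left h]
  obtain ⟨h', e⟩ := sw_neg (ff_q hq hpq)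
  rw [e]
  exact pt_congr _ _ rfl (by ring)

theorem ff_two {p q : ℚ} (hq : 0 < q) (hpq : q < p) (y : Pt (FF p q)) (hy : 2 • y = 0) :
    y = 0 ∨ y = Affine.Point.some (-p) 0 (ff_p hq hpq) ∨ y = Affine.Point.some 0 0 (ff_0 hq hpq) ∨
      y = Affine.Point.some (-p) 0 (ff_p hq hpq) + Affine.Point.some 0 0 (ff_0 hq hpq) := by
  rw [ff_sum hq hpq]
  rcases full_inv y hy with h | ⟨h, e⟩ | ⟨h, e⟩ | ⟨h, e⟩
  · exact Or.inl h
  · exact Or.inr (Or.inr (Or.inl e))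
  · exact Or.inr (Or.inl e)
  · exact Or.inr (Or.inr (Or.inr e))

theorem prim22 {p q : ℚ} (hq : 0 < q) (hpq : q < p) (h : ¬ (IsSquare p ∧ IsSquare q)) :
    Prim 2 (ZMod 2 × ZMod (2 ^ 1)) (Pt (FF p q)) := by
  have e1 : 2 ^ (1 - 1) • (Affine.Point.some 0 0 (ff_0 hq hpq) : Pt (FF p q)) =
      Affine.Point.some 0 0 (ff_0 hq hpq) := by simp
  refine prim_two (Affine.Point.some 0 0 (ff_0 hq hpq)) (Affine.Point.some (-p) 0 (ff_p hq hpq)) le_rfl
    ?_ ?_ ?_ (Affine.Point.some_ne_zero _) ?_ ?_ ?_ ?_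
  · rw [pow_one]
    exact (two_smul_some _).2 rfl
  · rw [e1]
    exact Affine.Point.some_ne_zero _
  · exact (two_smul_some _).2 rfl
  · rw [e1]
    intro h1
    injection h1 with h2
    have : p = 0 := by linarith
    linarith
  · intro y hy
    rw [e1]
    exact ff_two hq hpq y hy
  · intro y hy
    by_contra hne
    rw [pow_one] at hne
    exact h (let t := full_four hq hpq y hy hne; ⟨t.1, t.2.1⟩)
  · intro h1
    omega

theorem prim24 {m n : ℚ} (hn : 0 < n) (hmn : n < m)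
    (h8 : ∀ G : Pt (FF (m ^ 2) (n ^ 2)), 8 • G = 0 → 4 • G = 0) :
    Prim 2 (ZMod 2 × ZMod (2 ^ 2)) (Pt (FF (m ^ 2) (n ^ 2))) := by
  obtain ⟨hn2, hmn2⟩ := tfb_lt hn hmn
  obtain ⟨R, hR, h0, hR2⟩ := four_exists hn hmn
  have e1 : 2 ^ (2 - 1) • R = Affine.Point.some 0 0 (ff_0 hn2 hmn2) := by
    have : 2 ^ (2 - 1) • R = 2 • R := by norm_num
    rw [this, hR2]
  have h4 : ∀ y : Pt (FF (m ^ 2) (n ^ 2)), ∀ T : Pt (FF (m ^ 2) (n ^ 2)), 2 • y = T → 2 • T = 0 → T ≠ 0 →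
      T = Affine.Point.some 0 0 (ff_0 hn2 hmn2) := by
    intro y T hy hT hT0
    have h5 : 4 • y = 0 := by
      have : 4 • y = 2 • (2 • y) := by rw [← mul_nsmul]
      rw [this, hy, hT]
    obtain ⟨-, -, h6, e6⟩ := full_four hn2 hmn2 y h5 (by rw [hy]; exact hT0)
    rw [← hy, e6]
  refine prim_two R (Affine.Point.some (-m ^ 2) 0 (ff_p hn2 hmn2)) (by norm_num) hR ?_ ?_
    (Affine.Point.some_ne_zero _) ?_ ?_ ?_ ?_
  · rw [e1]
    exact Affine.Point.some_ne_zero _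
  · exact (two_smul_some _).2 rfl
  · rw [e1]
    intro h1
    injection h1 with h2
    linarith
  · intro y hy
    rw [e1]
    exact ff_two hn2 hmn2 y hy
  · intro y hy
    exact h8 y hy
  · intro _ y
    rw [e1]
    refine ⟨fun hy => ?_, fun hy => ?_⟩
    · have := h4 y _ hy ((two_smul_some _).2 rfl) (Affine.Point.some_ne_zero _)
      injection this with h2
      linarith
    · have h9 : (Affine.Point.some (-m ^ 2) 0 (ff_p hn2 hmn2) : Pt (FF (m ^ 2) (n ^ 2))) +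
          Affine.Point.some 0 0 (ff_0 hn2 hmn2) = Affine.Point.some (-n ^ 2) 0 (ff_q hn2 hmn2) :=
        ff_sum hn2 hmn2
      rw [h9] at hy
      have := h4 y _ hy ((two_smul_some _).2 rfl) (Affine.Point.some_ne_zero _)
      injection this with h2
      linarith

/-- leaf with torsion `Z/2` -/
theorem leaf2q {p q : ℚ} (hq : 0 < q) (hpq : q < p) (h : ¬ IsSquare q) : Rch 2 (Pt (FF p q)) (ZMod (2 ^ 1)) := by
  refine leaf_q hq hpq le_rfl (Affine.Point.some 0 0 (ff_0 hq hpq)) ?_ ⟨0, 0, ff_0 hq hpq, by linarith [hq.ne'], by simp⟩ ?_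
  · rw [pow_one]
    exact (two_smul_some _).2 rfl
  · intro x y h1 h2 h3 h4
    obtain ⟨x', y', h', hx', e'⟩ := h3
    rw [pow_one] at h2
    have hx0 : x + q ≠ 0 := by
      have h4 : (Affine.Point.some x y h1 : Pt (FF p q)) = Affine.Point.some x' y' h' := by simpa using e'
      injection h4 with h5
      rw [h5]
      exact hx'
    rcases full_inv _ h2 with h5 | ⟨h5, e⟩ | ⟨h5, e⟩ | ⟨h5, e⟩
    · exact Affine.Point.some_ne_zero _ h5
    · injection e with e1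
      rw [e1, zero_add] at h4
      exact h h4
    · injection e with e1
      rw [e1] at h4
      have := h4.nonneg
      linarith
    · injection e with e1
      apply hx0
      rw [e1]
      ring

theorem full_to_two {p q : ℚ} (hq : 0 < q) (hpq : q < p) : Rch 2 (Pt (FF p q)) (ZMod (2 ^ 1)) := by
  by_cases h1 : IsSquare q
  · by_cases h2 : IsSquare p
    · obtain ⟨n, hn, rfl⟩ := tfb_root hq h1
      obtain ⟨m, hm, rfl⟩ := tfb_root (hq.trans hpq) h2
      have hmn : n < m := lt_of_pow_lt_pow_left₀ 2 hm.le hpq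
      obtain ⟨p, q, hq', hpq', hns, hI⟩ := reach hn hmn
      exact Rch.of_isg hI (leaf2q hq' hpq' hns)
    · refine leaf_0 hq hpq fun h3 => h2 ?_
      obtain ⟨n, hn, rfl⟩ := tfb_root hq h1
      obtain ⟨w, hw⟩ := h3
      exact ⟨w / n, by field_simp; linarith⟩
  · exact leaf2q hq hpq h1

theorem full_to_22 {p q : ℚ} (hq : 0 < q) (hpq : q < p) : Rch 2 (Pt (FF p q)) (ZMod 2 × ZMod (2 ^ 1)) := by
  by_cases h : IsSquare p ∧ IsSquare q
  · obtain ⟨n, hn, rfl⟩ := tfb_root hq h.2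
    obtain ⟨m, hm, rfl⟩ := tfb_root (hq.trans hpq) h.1
    have hmn : n < m := lt_of_pow_lt_pow_left₀ 2 hm.le hpq
    obtain ⟨p, q, hq', hpq', hns, hI⟩ := reach hn hmn
    exact ⟨_, _, _, ff_delta hq' hpq', hI, prim22 hq' hpq' fun h => hns h.2⟩
  · exact ⟨_, _, _, ff_delta hq hpq, Isg.refl 2 _, prim22 hq hpq h⟩

theorem full_to_24 {m n : ℚ} (hn : 0 < n) (hmn : n < m) :
    Rch 2 (Pt (FF (m ^ 2) (n ^ 2))) (ZMod 2 × ZMod (2 ^ 2)) := by
  obtain ⟨hn2, hmn2⟩ := tfb_lt hn hmn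
  by_cases h8 : ∀ G : Pt (FF (m ^ 2) (n ^ 2)), 8 • G = 0 → 4 • G = 0
  · exact ⟨_, _, _, ff_delta hn2 hmn2, Isg.refl 2 _, prim24 hn hmn h8⟩
  · push Not at h8
    obtain ⟨G, g1, g2⟩ := h8
    obtain ⟨⟨w, hw⟩, -, -⟩ := eight hn hmn G g1 g2
    obtain ⟨s1, s2⟩ := step_lt hn hmn
    obtain ⟨k, hk, e⟩ := tfb_root s1 ⟨2 * w, by linarith⟩
    have hm : 0 < m := hn.trans hmn
    have hk2 : k < m + n := by
      rw [e] at s2
      exact lt_of_pow_lt_pow_left₀ 2 (by positivity) s2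
    obtain ⟨t1, t2⟩ := tfb_lt hk hk2
    have hI : Isg 2 (Pt (FF (m ^ 2) (n ^ 2))) (Pt (FF ((m + n) ^ 2) (k ^ 2))) := e ▸ step hn hmn
    refine ⟨_, _, _, ff_delta t1 t2, hI, prim24 hk hk2 ?_⟩
    intro G' g3
    by_contra g4
    exact fer_use hn hmn hk e (eight hk hk2 G' g3 g4).1

/-- leaf with torsion `Z/4` -/
theorem leaf4q {m n : ℚ} (hn : 0 < n) (hmn : n < m) (h : ¬ IsSquare (n * (m + n))) :
    Rch 2 (Pt (FF (m ^ 2) (n ^ 2))) (ZMod (2 ^ 2)) := by
  obtain ⟨hn2, hmn2⟩ := tfb_lt hn hmn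
  obtain ⟨R, hR, h0, hR2⟩ := four_exists hn hmn
  have hm : 0 < m := hn.trans hmn
  refine leaf_q hn2 hmn2 (by norm_num) R hR ⟨0, 0, h0, by linarith [hn2.ne'], ?_⟩ ?_
  · have : 2 ^ (2 - 1) • R = 2 • R := by norm_num
    rw [this, hR2]
  · intro x y h1 h2 h3 h4
    obtain ⟨x', y', h', hx', e'⟩ := h3
    have e2 : 2 • (Affine.Point.some x y h1 : Pt (FF (m ^ 2) (n ^ 2))) = Affine.Point.some x' y' h' := by
      have : 2 ^ (2 - 1) • (Affine.Point.some x y h1 : Pt (FF (m ^ 2) (n ^ 2))) =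
          2 • (Affine.Point.some x y h1 : Pt (FF (m ^ 2) (n ^ 2))) := by norm_num
      rw [← this, e']
    obtain ⟨x1, y1, g1, e1, hx1⟩ := four_x hn hmn _ h2 (by rw [e2]; exact Affine.Point.some_ne_zero _)
    injection e1 with e3
    rw [← e3] at hx1
    rcases hx1 with hx1 | hx1
    · apply h
      rw [hx1] at h4
      have : n * (m + n) = m * n + n ^ 2 := by ring
      rw [this]
      exact h4
    · rw [hx1] at h4
      have h5 := h4.nonneg
      nlinarith [mul_pos hn (sub_pos.2 hmn)]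

theorem leaf4p {m n : ℚ} (hn : 0 < n) (hmn : n < m) (hns : ¬ IsSquare (m ^ 2 * (m ^ 2 - n ^ 2)))
    (h1' : ¬ IsSquare (m * (m + n))) (h2' : ¬ IsSquare (m * (m - n))) :
    Rch 2 (Pt (FF (m ^ 2) (n ^ 2))) (ZMod (2 ^ 2)) := by
  obtain ⟨hn2, hmn2⟩ := tfb_lt hn hmn
  obtain ⟨R, hR, h0, hR2⟩ := four_exists hn hmn
  have hm : 0 < m := hn.trans hmn
  refine leaf_p hn2 hmn2 hns (by norm_num) R hR ⟨0, 0, h0, by linarith [(hn2.trans hmn2).ne'], ?_⟩ ?_
  · have : 2 ^ (2 - 1) • R = 2 • R := by norm_num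
    rw [this, hR2]
  · intro x y h1 h2 h3 h4
    obtain ⟨x', y', h', hx', e'⟩ := h3
    have e2 : 2 • (Affine.Point.some x y h1 : Pt (FF (m ^ 2) (n ^ 2))) = Affine.Point.some x' y' h' := by
      have : 2 ^ (2 - 1) • (Affine.Point.some x y h1 : Pt (FF (m ^ 2) (n ^ 2))) =
          2 • (Affine.Point.some x y h1 : Pt (FF (m ^ 2) (n ^ 2))) := by norm_num
      rw [← this, e']
    obtain ⟨x1, y1, g1, e1, hx1⟩ := four_x hn hmn _ h2 (by rw [e2]; exact Affine.Point.some_ne_zero _)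
    injection e1 with e3
    rw [← e3] at hx1
    rcases hx1 with hx1 | hx1
    · apply h1'
      rw [hx1] at h4
      have : m * (m + n) = m * n + m ^ 2 := by ring
      rw [this]
      exact h4
    · apply h2'
      rw [hx1] at h4
      have : m * (m - n) = -(m * n) + m ^ 2 := by ring
      rw [this]
      exact h4

theorem full_24_to_4 {m n : ℚ} (hn : 0 < n) (hmn : n < m)
    (h8 : ∀ G : Pt (FF (m ^ 2) (n ^ 2)), 8 • G = 0 → 4 • G = 0) :
    Rch 2 (Pt (FF (m ^ 2) (n ^ 2))) (ZMod (2 ^ 2)) := by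
  obtain ⟨hn2, hmn2⟩ := tfb_lt hn hmn
  have hm : 0 < m := hn.trans hmn
  by_cases h1 : IsSquare (n * (m + n))
  · by_cases hs : IsSquare (m ^ 2 - n ^ 2)
    · obtain ⟨s, hs0, es⟩ := tfb_root (sub_pos.2 hmn2) hs
      have hsm : s < m := lt_of_pow_lt_pow_left₀ 2 hm.le (by linarith)
      have hI : Isg 2 (Pt (FF (m ^ 2) (n ^ 2))) (Pt (FF ((m + s) ^ 2) ((m - s) ^ 2))) := by
        obtain ⟨hΔ', e, -⟩ := iso_sw (a' := n ^ 2 - 2 * m ^ 2) (b' := m ^ 2 * (m ^ 2 - n ^ 2)) (c' := 0) (u := 1)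
          (r := m ^ 2) one_ne_zero (ff_delta hn2 hmn2) (by ring) (by ring) (by ring)
        obtain ⟨hb, hd⟩ := sw_delta0' hΔ'
        have hn' : n ^ 2 = m ^ 2 - s ^ 2 := by linarith
        have e2 : QQ (n ^ 2 - 2 * m ^ 2) (m ^ 2 * (m ^ 2 - n ^ 2)) = FF ((m + s) ^ 2) ((m - s) ^ 2) := by
          have a1 : -2 * (n ^ 2 - 2 * m ^ 2) = (m + s) ^ 2 + (m - s) ^ 2 := by
            rw [hn']
            ring
          have a2 : (n ^ 2 - 2 * m ^ 2) ^ 2 - 4 * (m ^ 2 * (m ^ 2 - n ^ 2)) = (m + s) ^ 2 * (m - s) ^ 2 := by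
            rw [hn']
            ring
          change SW (-2 * (n ^ 2 - 2 * m ^ 2)) ((n ^ 2 - 2 * m ^ 2) ^ 2 - 4 * (m ^ 2 * (m ^ 2 - n ^ 2))) 0 =
            SW ((m + s) ^ 2 + (m - s) ^ 2) ((m + s) ^ 2 * (m - s) ^ 2) 0
          rw [a1, a2]
        rw [← e2]
        exact (Isg.of_equiv 2 e).trans (quot_isg hb hd)
      refine Rch.of_isg hI (leaf4q (sub_pos.2 hsm) (by linarith) ?_)
      have h5 := ferN5 hm hn hs0 (by linarith) h1
      intro h6
      apply h5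
      have : 2 * m * (m - s) = (m - s) * (m + s + (m - s)) := by ring
      rw [this]
      exact h6
    · refine leaf4p hn hmn ?_ ?_ (ferN4 hn hmn h1)
      · rintro ⟨w, hw⟩
        exact hs ⟨w / m, by field_simp; linarith⟩
      · intro h2
        obtain ⟨u, hu⟩ := h1
        obtain ⟨v, hv⟩ := h2
        have h3 : IsSquare (m * n) := by
          refine ⟨u * v / (m + n), ?_⟩
          have : (m + n) ≠ 0 := (add_pos hm hn).ne'
          field_simp
          have h4 : (u * v) ^ 2 = (n * (m + n)) * (m * (m + n)) := by rw [hu, hv]; ring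
          linear_combination -h4
        obtain ⟨S, s1, s2⟩ := halve hn hmn h3 ⟨u, hu⟩ ⟨v, hv⟩
        exact s2 (h8 S s1)
  · exact leaf4q hn hmn h1

end Pool.Agent.RkT
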