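import Pool.Agent.RkT.TwoC

/-!
# RkT, module TwoD: points of order 8 and the arrows
-/

set_option autoImplicit false

namespace Pool.Agent.RkT

open WeierstrassCurve

theorem sixteen {m n : ℚ} (hn : 0 < n) (hmn : n < m) {x y : ℚ}
    (h : (FF (m ^ 2) (n ^ 2)).toAffine.Nonsingular x y)
    (h8 : 8 • (Affine.Point.some x y h : Pt (FF (m ^ 2) (n ^ 2))) = 0)
    (h4 : 4 • (Affine.Point.some x y h : Pt (FF (m ^ 2) (n ^ 2))) ≠ 0) : ¬ IsSquare (x + n ^ 2) := by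
  obtain ⟨hn2, hmn2⟩ := tfb_lt hn hmn
  have hm : 0 < m := hn.trans hmn
  obtain ⟨q1, q2, q3⟩ := eight hn hmn _ h8 h4
  obtain ⟨r, hr, er⟩ := tfb_root (mul_pos hm hn) q1
  obtain ⟨s, hs, es⟩ := tfb_root (mul_pos hn (add_pos hm hn)) q2
  obtain ⟨t, ht, et⟩ := tfb_root (mul_pos hm (add_pos hm hn)) q3
  have em : m ^ 2 = t ^ 2 - r ^ 2 := by linear_combination et - er
  have en : n ^ 2 = s ^ 2 - r ^ 2 := by linear_combination es - er
  have eb : m ^ 2 * n ^ 2 = r ^ 4 := by linear_combination (m * n + r ^ 2) * er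
  have erel : s ^ 2 * t ^ 2 = r ^ 2 * (s ^ 2 + t ^ 2) := by
    have h1 : (t ^ 2 - r ^ 2) * (s ^ 2 - r ^ 2) = r ^ 4 := by rw [← em, ← en, eb]
    linear_combination h1
  have h4' : 2 • (2 • (Affine.Point.some x y h : Pt (FF (m ^ 2) (n ^ 2)))) ≠ 0 := by
    rw [← mul_nsmul]
    exact h4
  have h8' : 4 • (2 • (Affine.Point.some x y h : Pt (FF (m ^ 2) (n ^ 2)))) = 0 := by
    rw [← mul_nsmul]
    exact h8
  have hy : y ≠ 0 := by
    intro hy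
    rw [(two_smul_some h).2 hy, nsmul_zero] at h4'
    exact h4' rfl
  obtain ⟨x', y', h', e', he⟩ := tfb_dbl (ff_delta hn2 hmn2) h hy
  have hx' : x' = r ^ 2 := by
    rw [e'] at h4' h8'
    obtain ⟨x1, y1, g1, e1, hx1⟩ := four_x hn hmn _ h8' h4'
    injection e1 with e2
    have hsq := (full_sq hn2 hmn2 e').1.nonneg
    rw [← e2] at hx1
    rcases hx1 with hx1 | hx1
    · rw [hx1, er]
    · have := mul_pos hm hn
      linarith
  rw [hx', eb] at he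
  have hE := sw_eq h
  have hE' : y ^ 2 = x * (x + m ^ 2) * (x + n ^ 2) := by rw [hE]; ring
  rintro ⟨w, hw⟩
  have hxn : 0 ≤ x + n ^ 2 := by rw [hw]; exact mul_self_nonneg w
  have hy2 : 0 < y ^ 2 := by positivity
  have hx0 : 0 < x := by
    by_contra hc
    push Not at hc
    have h1 : 0 ≤ x + m ^ 2 := by linarith
    have h2 : x * (x + m ^ 2) * (x + n ^ 2) ≤ 0 := by
      have := mul_nonneg h1 hxn
      nlinarith
    linarith
  have hq : ((x - r ^ 2) ^ 2 - 2 * (s * t) * x) * ((x - r ^ 2) ^ 2 + 2 * (s * t) * x) = 0 := by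
    rw [hE', em, en] at he
    linear_combination -he + (4 * r ^ 2 * x - 4 * x ^ 2) * erel
  have hA : (x - r ^ 2) ^ 2 = 2 * (s * t) * x := by
    rcases mul_eq_zero.1 hq with h1 | h1
    · linarith
    · exfalso
      have : 0 < (x - r ^ 2) ^ 2 + 2 * (s * t) * x := by positivity
      linarith
  have hB : (x - r ^ 2 - s * t - r * (s + t)) * (x - r ^ 2 - s * t + r * (s + t)) = 0 := by
    linear_combination hA + erel
  -- parameters
  have hsr : r < s := lt_of_pow_lt_pow_left₀ 2 hs.le (by linarith)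
  have hτ0 : 0 < (s - r) / n := div_pos (sub_pos.2 hsr) hn
  have hτ1 : (s - r) / n < 1 := by
    rw [div_lt_one hn]
    have : s < r + n := by
      apply lt_of_pow_lt_pow_left₀ 2 (by positivity)
      nlinarith [mul_pos hr hn]
    linarith
  obtain ⟨τ, hτ⟩ : ∃ τ, τ = (s - r) / n := ⟨_, rfl⟩
  rw [← hτ] at hτ0 hτ1
  have hs' : s = r + n * τ := by
    rw [hτ]
    field_simp
    ring
  have hr' : r = n * (1 - τ ^ 2) / (2 * τ) := by
    rw [hs'] at en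
    have h1 : n * (2 * r * τ - n * (1 - τ ^ 2)) = 0 := by linear_combination -en
    rcases mul_eq_zero.1 h1 with h2 | h2
    · exact absurd h2 hn.ne'
    · field_simp
      linarith
  have hs'' : s = n * (1 + τ ^ 2) / (2 * τ) := by
    rw [hs', hr']
    field_simp
    ring
  have ht' : t = r * s / n := by
    have h1 : (t * n) ^ 2 = (r * s) ^ 2 := by
      rw [mul_pow, mul_pow, ← et, ← er, ← es]
      ring
    have h2 : t * n = r * s := by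
      have := (sq_eq_sq₀ (by positivity) (by positivity)).1 h1
      exact this
    field_simp
    linarith
  rcases mul_eq_zero.1 hB with h1 | h1
  · -- `x + n² = (s + r) (s + t)`
    have h2 : w ^ 2 = (s + r) * (s + t) := by linear_combination -hw + h1 + en
    refine ferN3 (t := τ) (w := 2 * τ ^ 2 * w / n) hτ0 hτ1 ?_
    rw [div_pow, mul_pow, h2, ht', hs'', hr']
    field_simp
    ring
  · have h2 : w ^ 2 = (s - r) * (s + t) := by linear_combination -hw + h1 + en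
    refine ferN3 (t := τ) (w := 2 * τ * w / n) hτ0 hτ1 ?_
    rw [div_pow, mul_pow, h2, ht', hs'', hr']
    field_simp
    ring

/-- leaf with torsion `Z/8` -/
theorem full_28_to_8 {m n : ℚ} (hn : 0 < n) (hmn : n < m) (G : Pt (FF (m ^ 2) (n ^ 2))) (h8 : 8 • G = 0)
    (h4 : 4 • G ≠ 0) : Rch 2 (Pt (FF (m ^ 2) (n ^ 2))) (ZMod (2 ^ 3)) := by
  obtain ⟨hn2, hmn2⟩ := tfb_lt hn hmn
  have h4' : 2 • (2 • G) ≠ 0 := by
    rw [← mul_nsmul]
    exact h4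
  have h8' : 4 • (2 • G) = 0 := by
    rw [← mul_nsmul]
    exact h8
  obtain ⟨-, -, h0, e0⟩ := full_four hn2 hmn2 _ h8' h4'
  refine leaf_q hn2 hmn2 (by norm_num) G h8 ⟨0, 0, h0, by linarith [hn2.ne'], ?_⟩ ?_
  · have : 2 ^ (3 - 1) • G = 2 • (2 • G) := by
      rw [← mul_nsmul]
      norm_num
    rw [this, e0]
  · intro x y h1 h2 h3
    obtain ⟨x', y', h', hx', e'⟩ := h3
    refine sixteen hn hmn h1 h2 ?_
    have : 2 ^ (3 - 1) • (Affine.Point.some x y h1 : Pt (FF (m ^ 2) (n ^ 2))) =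
        4 • (Affine.Point.some x y h1 : Pt (FF (m ^ 2) (n ^ 2))) := by norm_num
    rw [← this, e']
    exact Affine.Point.some_ne_zero _

/-- the curve with roots `e1, e2, e3` -/
abbrev WW (e1 e2 e3 : ℚ) : WeierstrassCurve ℚ :=
  SW (-(e1 + e2 + e3)) (e1 * e2 + e1 * e3 + e2 * e3) (-(e1 * e2 * e3))

theorem ww_delta {e1 e2 e3 : ℚ} (h1 : e1 ≠ e2) (h2 : e1 ≠ e3) (h3 : e2 ≠ e3) : (WW e1 e2 e3).Δ ≠ 0 := by
  rw [sw_delta]
  have : 16 * ((-(e1 + e2 + e3)) ^ 2 * (e1 * e2 + e1 * e3 + e2 * e3) ^ 2 -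
      4 * (e1 * e2 + e1 * e3 + e2 * e3) ^ 3 - 4 * (-(e1 + e2 + e3)) ^ 3 * (-(e1 * e2 * e3)) +
      18 * (-(e1 + e2 + e3)) * (e1 * e2 + e1 * e3 + e2 * e3) * (-(e1 * e2 * e3)) -
      27 * (-(e1 * e2 * e3)) ^ 2) = 16 * ((e1 - e2) * (e1 - e3) * (e2 - e3)) ^ 2 := by ring
  rw [this]
  exact mul_ne_zero (by norm_num) (pow_ne_zero 2 (mul_ne_zero (mul_ne_zero (sub_ne_zero.2 h1)
    (sub_ne_zero.2 h2)) (sub_ne_zero.2 h3)))

theorem ww_delta' {e1 e2 e3 : ℚ} (h : (WW e1 e2 e3).Δ ≠ 0) : e1 ≠ e2 ∧ e1 ≠ e3 ∧ e2 ≠ e3 := by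
  rw [sw_delta] at h
  refine ⟨?_, ?_, ?_⟩ <;> rintro rfl <;> exact h (by ring)

theorem ww_norm3 {e1 e2 e3 : ℚ} (h1 : e2 < e1) (h2 : e3 < e2) :
    Nonempty (Pt (WW e1 e2 e3) ≃+ Pt (FF (e1 - e3) (e1 - e2))) := by
  obtain ⟨-, e, -⟩ := iso_sw (a' := e1 - e3 + (e1 - e2)) (b' := (e1 - e3) * (e1 - e2)) (c' := 0) (u := 1)
    (r := -e1) one_ne_zero (ww_delta h1.ne' (h2.trans h1).ne' h2.ne') (by ring) (by ring) (by ring)
  exact ⟨e⟩

theorem ww_swap (e1 e2 e3 : ℚ) : WW e1 e2 e3 = WW e2 e1 e3 := by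
  have h1 : -(e1 + e2 + e3) = -(e2 + e1 + e3) := by ring
  have h2 : e1 * e2 + e1 * e3 + e2 * e3 = e2 * e1 + e2 * e3 + e1 * e3 := by ring
  have h3 : -(e1 * e2 * e3) = -(e2 * e1 * e3) := by ring
  change SW _ _ _ = SW _ _ _
  rw [h1, h2, h3]

theorem ww_swap' (e1 e2 e3 : ℚ) : WW e1 e2 e3 = WW e1 e3 e2 := by
  have h1 : -(e1 + e2 + e3) = -(e1 + e3 + e2) := by ring
  have h2 : e1 * e2 + e1 * e3 + e2 * e3 = e1 * e3 + e1 * e2 + e3 * e2 := by ring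
  have h3 : -(e1 * e2 * e3) = -(e1 * e3 * e2) := by ring
  change SW _ _ _ = SW _ _ _
  rw [h1, h2, h3]

theorem ww_norm (e1 e2 e3 : ℚ) (h1 : e1 ≠ e2) (h2 : e1 ≠ e3) (h3 : e2 ≠ e3) :
    ∃ p q, 0 < q ∧ q < p ∧ Nonempty (Pt (WW e1 e2 e3) ≃+ Pt (FF p q)) := by
  have key : ∀ a b c : ℚ, b < a → c < b →
      ∃ p q, 0 < q ∧ q < p ∧ Nonempty (Pt (WW a b c) ≃+ Pt (FF p q)) := by
    intro a b c hab hbc
    exact ⟨a - c, a - b, by linarith, by linarith, ww_norm3 hab hbc⟩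
  rcases lt_or_gt_of_ne h1 with k1 | k1
  · rcases lt_or_gt_of_ne h2 with k2 | k2
    · rcases lt_or_gt_of_ne h3 with k3 | k3
      · -- e1 < e2 < e3
        rw [ww_swap, ww_swap', ww_swap]
        exact key e3 e2 e1 k3 k1
      · -- e1 < e3 < e2
        rw [ww_swap, ww_swap']
        exact key e2 e3 e1 k3 k2
    · -- e3 < e1 < e2
      rw [ww_swap]
      exact key e2 e1 e3 k1 k2
  · rcases lt_or_gt_of_ne h2 with k2 | k2
    · -- e2 < e1 < e3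
      rw [ww_swap', ww_swap]
      exact key e3 e1 e2 k2 k1
    · rcases lt_or_gt_of_ne h3 with k3 | k3
      · -- e2 < e3 < e1
        rw [ww_swap']
        exact key e1 e3 e2 k2 k3
      · exact key e1 e2 e3 k1 k3

/-- two different points of order 2 -/
theorem full_norm {a b c : ℚ} (hΔ : (SW a b c).Δ ≠ 0) (T1 T2 : Pt (SW a b c)) (h1 : 2 • T1 = 0) (h2 : 2 • T2 = 0)
    (h10 : T1 ≠ 0) (h20 : T2 ≠ 0) (h12 : T1 ≠ T2) :
    ∃ p q, 0 < q ∧ q < p ∧ Nonempty (Pt (SW a b c) ≃+ Pt (FF p q)) := by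
  rcases T1 with _ | ⟨x1, y1, g1⟩
  · exact absurd rfl h10
  rcases T2 with _ | ⟨x2, y2, g2⟩
  · exact absurd rfl h20
  have hy1 := (two_smul_some g1).1 h1
  have hy2 := (two_smul_some g2).1 h2
  subst hy1 hy2
  have hx : x1 ≠ x2 := by
    rintro rfl
    exact h12 rfl
  have E1 := sw_eq g1
  have E2 := sw_eq g2
  have hb : b = -(x1 ^ 2 + x1 * x2 + x2 ^ 2) - a * (x1 + x2) := by
    have h3 : (x1 - x2) * (x1 ^ 2 + x1 * x2 + x2 ^ 2 + a * (x1 + x2) + b) = 0 := by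
      linear_combination E2 - E1
    rcases mul_eq_zero.1 h3 with h4 | h4
    · exact absurd (sub_eq_zero.1 h4) hx
    · linarith
  have hc : c = -x1 ^ 3 - a * x1 ^ 2 - b * x1 := by linear_combination -E1
  have e : SW a b c = WW x1 x2 (-a - x1 - x2) := by
    have k1 : a = -(x1 + x2 + (-a - x1 - x2)) := by ring
    have k2 : b = x1 * x2 + x1 * (-a - x1 - x2) + x2 * (-a - x1 - x2) := by
      rw [hb]
      ring
    have k3 : c = -(x1 * x2 * (-a - x1 - x2)) := by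
      rw [hc, hb]
      ring
    change SW a b c = SW _ _ _
    rw [← k1, ← k2, ← k3]
  rw [e] at hΔ ⊢
  obtain ⟨d1, d2, d3⟩ := ww_delta' hΔ
  exact ww_norm _ _ _ d1 d2 d3

/-- full 2-torsion and a point of order 4 -/
theorem four_norm {a b c : ℚ} (hΔ : (SW a b c).Δ ≠ 0) (x t : Pt (SW a b c)) (h4 : 4 • x = 0) (h2 : 2 • x ≠ 0)
    (ht : 2 • t = 0) (ht0 : t ≠ 0) (htx : t ≠ 2 • x) :
    ∃ m n, 0 < n ∧ n < m ∧ Nonempty (Pt (SW a b c) ≃+ Pt (FF (m ^ 2) (n ^ 2))) := by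
  have h4' : 2 • (2 • x) = 0 := by
    rw [← mul_nsmul]
    exact h4
  obtain ⟨p, q, hq, hpq, ⟨e⟩⟩ := full_norm hΔ t (2 • x) ht h4' ht0 h2 htx
  obtain ⟨hp', hq', -⟩ := full_four hq hpq (e x) (by rw [← map_nsmul, h4, map_zero]) (by
    rw [← map_nsmul]
    intro h
    exact h2 ((map_eq_zero_iff e e.injective).1 h))
  obtain ⟨n, hn, rfl⟩ := tfb_root hq hq'
  obtain ⟨m, hm, rfl⟩ := tfb_root (hq.trans hpq) hp'
  exact ⟨m, n, hn, lt_of_pow_lt_pow_left₀ 2 hm.le hpq, ⟨e⟩⟩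

/-- a point of order 4 gives full 2-torsion on the quotient -/
theorem quot_four {a b c : ℚ} (hΔ : (SW a b c).Δ ≠ 0) (x : Pt (SW a b c)) (h4 : 4 • x = 0) (h2 : 2 • x ≠ 0) :
    ∃ p q, 0 < q ∧ q < p ∧ Isg 2 (Pt (SW a b c)) (Pt (FF p q)) := by
  have h4' : 2 • (2 • x) = 0 := by
    rw [← mul_nsmul]
    exact h4
  obtain ⟨a', b', c', hΔ', hI, f, T', f1, f2, f3, f4, f5⟩ := quot_two hΔ (2 • x) h4' h2
  have k1 : 2 • f x = 0 := by rw [← map_nsmul, f1]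
  have k2 : f x ≠ 0 := by
    intro h
    rcases f2 x h with h3 | h3
    · rw [h3, nsmul_zero] at h2
      exact h2 rfl
    · apply h2
      rw [← h3] at h4'
      exact h4'
  have k3 : f x ≠ T' := fun h => h2 (f5 x h)
  obtain ⟨p, q, hq, hpq, ⟨e⟩⟩ := full_norm hΔ' (f x) T' k1 f4 k2 f3 k3
  exact ⟨p, q, hq, hpq, hI.trans (Isg.of_equiv 2 e)⟩

theorem quot_eight {a b c : ℚ} (hΔ : (SW a b c).Δ ≠ 0) (x : Pt (SW a b c)) (h8 : 8 • x = 0) (h4 : 4 • x ≠ 0) :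
    ∃ m n, 0 < n ∧ n < m ∧ Isg 2 (Pt (SW a b c)) (Pt (FF (m ^ 2) (n ^ 2))) := by
  have h8' : 2 • (4 • x) = 0 := by
    rw [← mul_nsmul]
    exact h8
  have h42 : 4 • x = 2 • (2 • x) := by rw [← mul_nsmul]
  obtain ⟨a', b', c', hΔ', hI, f, T', f1, f2, f3, f4, f5⟩ := quot_two hΔ (4 • x) h8' h4
  have k1 : 4 • f x = 0 := by rw [← map_nsmul, f1]
  have k2 : 2 • f x ≠ 0 := by
    rw [← map_nsmul]
    intro h
    rcases f2 _ h with h3 | h3
    · rw [h42, h3, nsmul_zero] at h4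
      exact h4 rfl
    · apply h4
      rw [h42, h3]
      exact h8'
  have k3 : T' ≠ 2 • f x := by
    rw [← map_nsmul]
    intro h
    apply h4
    rw [h42]
    exact f5 _ h.symm
  obtain ⟨m, n, hn, hmn, ⟨e⟩⟩ := four_norm hΔ' (f x) T' k1 k2 f4 f3 k3
  exact ⟨m, n, hn, hmn, hI.trans (Isg.of_equiv 2 e)⟩

/-- every curve with a point of order 2 -/
theorem arr_2 {a b c : ℚ} (hΔ : (SW a b c).Δ ≠ 0) (T : Pt (SW a b c)) (hT : 2 • T = 0) (hT0 : T ≠ 0) :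
    Rch 2 (Pt (SW a b c)) (ZMod (2 ^ 1)) := by
  by_cases h1 : ∀ y : Pt (SW a b c), 2 • y = 0 → y = 0 ∨ y = T
  · by_cases h2 : ∀ y : Pt (SW a b c), 4 • y = 0 → 2 • y = 0
    · refine ⟨a, b, c, hΔ, Isg.refl 2 _, prim_cyc Nat.prime_two T le_rfl ?_ ?_ ?_ ?_⟩
      · rw [pow_one]
        exact hT
      · simpa using hT0
      · intro y hy
        rcases h1 y hy with h3 | h3
        · exact ⟨0, by rw [h3, zero_nsmul]⟩
        · exact ⟨1, by simpa using h3⟩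
      · intro y hy
        rw [pow_one]
        exact h2 y hy
    · push Not at h2
      obtain ⟨x, h4, h2⟩ := h2
      obtain ⟨p, q, hq, hpq, hI⟩ := quot_four hΔ x h4 h2
      exact Rch.of_isg hI (full_to_two hq hpq)
  · push Not at h1
    obtain ⟨y, hy, hy0, hyT⟩ := h1
    obtain ⟨p, q, hq, hpq, ⟨e⟩⟩ := full_norm hΔ y T hy hT hy0 hT0 hyT
    exact Rch.of_equiv e (full_to_two hq hpq)

/-- every curve with a point of order 4 -/
theorem arr_22 {a b c : ℚ} (hΔ : (SW a b c).Δ ≠ 0) (x : Pt (SW a b c)) (h4 : 4 • x = 0) (h2 : 2 • x ≠ 0) :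
    Rch 2 (Pt (SW a b c)) (ZMod 2 × ZMod (2 ^ 1)) := by
  obtain ⟨p, q, hq, hpq, hI⟩ := quot_four hΔ x h4 h2
  exact Rch.of_isg hI (full_to_22 hq hpq)

/-- every curve with a point of order 8 -/
theorem arr_24 {a b c : ℚ} (hΔ : (SW a b c).Δ ≠ 0) (x : Pt (SW a b c)) (h8 : 8 • x = 0) (h4 : 4 • x ≠ 0) :
    Rch 2 (Pt (SW a b c)) (ZMod 2 × ZMod (2 ^ 2)) := by
  obtain ⟨m, n, hn, hmn, hI⟩ := quot_eight hΔ x h8 h4
  exact Rch.of_isg hI (full_to_24 hn hmn)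

theorem arr_4 {a b c : ℚ} (hΔ : (SW a b c).Δ ≠ 0) (h : Prim 2 (ZMod 2 × ZMod (2 ^ 2)) (Pt (SW a b c))) :
    Rch 2 (Pt (SW a b c)) (ZMod (2 ^ 2)) := by
  obtain ⟨x, t, k1, k2, k3, k4, k5, -, k7⟩ := prim_two_use (by norm_num) h
  have e1 : 2 ^ (2 - 1) • x = 2 • x := by norm_num
  rw [e1] at k2 k5
  obtain ⟨m, n, hn, hmn, ⟨e⟩⟩ := four_norm hΔ x t k1 k2 k3 k4 k5
  refine Rch.of_equiv e (full_24_to_4 hn hmn ?_)
  intro G hG
  obtain ⟨y, rfl⟩ := e.surjective G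
  rw [← map_nsmul] at hG ⊢
  have h1 := (map_eq_zero_iff e e.injective).1 hG
  have h2 := k7 y h1
  rw [show 4 • y = 2 ^ 2 • y from rfl, h2, map_zero]

theorem arr_8 {a b c : ℚ} (hΔ : (SW a b c).Δ ≠ 0) (h : Prim 2 (ZMod 2 × ZMod (2 ^ 3)) (Pt (SW a b c))) :
    Rch 2 (Pt (SW a b c)) (ZMod (2 ^ 3)) := by
  obtain ⟨x, t, k1, k2, k3, k4, k5, -, -⟩ := prim_two_use (by norm_num) h
  have e1 : 2 ^ (3 - 1) • x = 4 • x := by norm_num
  have e2 : 4 • x = 2 • (2 • x) := by rw [← mul_nsmul]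
  have e3 : 2 ^ 3 • x = 4 • (2 • x) := by
    rw [← mul_nsmul]
    norm_num
  rw [e1] at k2 k5
  obtain ⟨m, n, hn, hmn, ⟨e⟩⟩ := four_norm hΔ (2 • x) t (by rw [← e3]; exact k1) (by rw [← e2]; exact k2) k3 k4
    (by rw [← e2]; exact k5)
  refine Rch.of_equiv e (full_28_to_8 hn hmn (e x) ?_ ?_)
  · rw [← map_nsmul]
    have : 8 • x = 0 := k1
    rw [this, map_zero]
  · rw [← map_nsmul]
    intro h1
    exact k2 ((map_eq_zero_iff e e.injective).1 h1)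

end Pool.Agent.RkT
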