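import Pool.Agent.RkT.Defs

/-!
# RkT, module TwoIsg: the 2-isogeny

`C : y² = x³ + a x² + b x`, `C' : y² = x³ - 2 a x² + (a² - 4 b) x`, `b ≠ 0`, `b' = a² - 4 b ≠ 0`
(`sw_delta0`: both are nonsingular, so use `sw_ns` to construct points, `sw_eq` for the equations).
`isog_fun`: the map `f : C → C'`, `f 0 = 0`, `f (0, 0) = 0`, `f (x, y) = (y²/x², y (b - x²)/x²)` for `x ≠ 0`.
Additive by `hom_of_line`: `f (-P) = - f P` (`sw_neg`).  Let `y_i = l x_i + n` with (`sw_line_iff`)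
`x₁ + x₂ + x₃ = l² - a`, `x₁x₂ + x₁x₃ + x₂x₃ = b - 2 l n`, `x₁ x₂ x₃ = n²`.
* some `x_i = 0`, say `x₁ = 0`: `n = 0`, `x₂ x₃ = b ≠ 0`, `y₂ = l x₂`, `y₃ = l x₃`: `f P₂ = (l², l (x₃ - x₂))`,
  `f P₃ = (l², l (x₂ - x₃)) = - f P₂`, `f P₁ = 0`.
* all `x_i ≠ 0`: `n ≠ 0`, `u_i = y_i / x_i = l + n / x_i`, `n / x₁ = x₂ x₃ / n` etc., so (with `s = ∑`)
  `u₁ + u₂ + u₃ = l + b/n`, `u₁u₂ + u₁u₃ + u₂u₃ = 2 l b/n - a`, `u₁u₂u₃ = l² b/n - a l + n`.
  The image points are `(X_i, Y_i) = (u_i², u_i (b/x_i - x_i))` and lie on the line `Y = L X + N` with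
  `L = b/n - l`, `N = -(b l² - a l n + n²)/n`; `X₁ + X₂ + X₃ = L² + 2 a`,
  `X₁X₂ + X₁X₃ + X₂X₃ = (a² - 4 b) - 2 L N`, `X₁X₂X₃ = N²` (symmetric functions of the `u_i`).  `line_sum`.
`two_isog`: `f` as above; `g = e ∘ f'` where `f'` is the same map for `C'` (with values in
`C'' : y² = x³ + 4 a x² + 16 b x`; note `(-2 a)² - 4 (a² - 4 b) = 16 b`) and `e : C'' → C`, `(x, y) ↦ (x/4, y/8)`
(additive, also by `hom_of_line`).
`g (f P) = 2 P`: for `y ≠ 0` by `two_smul_some'` (both sides have abscissa `((x² - b)/(2 y))²`), for `y = 0` by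
`two_smul_some` (if `x ≠ 0`, `y = 0` then `f P = (0, 0)`).  `f (g Q) = 2 Q` in the same way.
-/

set_option autoImplicit false

namespace Pool.Agent.RkT

open WeierstrassCurve

theorem isog_disc {a b : ℚ} (hb : b ≠ 0) : (-2 * a) ^ 2 - 4 * (a ^ 2 - 4 * b) ≠ 0 := by
  have h : (-2 * a) ^ 2 - 4 * (a ^ 2 - 4 * b) = 16 * b := by ring
  rw [h]
  exact mul_ne_zero (by norm_num) hb

theorem isog_img {a b x y : ℚ} (hb : b ≠ 0) (hd : a ^ 2 - 4 * b ≠ 0)
    (h : (SW a b 0).toAffine.Nonsingular x y) (hx : x ≠ 0) :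
    (SW (-2 * a) (a ^ 2 - 4 * b) 0).toAffine.Nonsingular (y ^ 2 / x ^ 2)
      (y * (b - x ^ 2) / x ^ 2) := by
  refine sw_ns (sw_delta0 hd (isog_disc hb)) ?_
  have hE := sw_eq h
  have hX : y ^ 2 / x ^ 2 = x + a + b / x := by
    field_simp
    linear_combination hE
  have hY : (y * (b - x ^ 2) / x ^ 2) ^ 2 = (y ^ 2 / x ^ 2) * ((b - x ^ 2) / x) ^ 2 := by
    field_simp
  rw [hY, hX]
  field_simp
  ring

noncomputable def isogF {a b : ℚ} (hb : b ≠ 0) (hd : a ^ 2 - 4 * b ≠ 0) :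
    Pt (SW a b 0) → Pt (SW (-2 * a) (a ^ 2 - 4 * b) 0)
  | Affine.Point.zero => 0
  | Affine.Point.some x y h =>
      if hx : x = 0 then 0
      else Affine.Point.some (y ^ 2 / x ^ 2) (y * (b - x ^ 2) / x ^ 2) (isog_img hb hd h hx)

theorem isogF_zero {a b : ℚ} (hb : b ≠ 0) (hd : a ^ 2 - 4 * b ≠ 0) : isogF hb hd 0 = 0 := rfl

theorem isogF_some0 {a b x y : ℚ} (hb : b ≠ 0) (hd : a ^ 2 - 4 * b ≠ 0)
    (h : (SW a b 0).toAffine.Nonsingular x y) (hx : x = 0) :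
    isogF hb hd (Affine.Point.some x y h) = 0 := by
  unfold isogF
  simp only [hx, dite_true]

theorem isogF_some {a b x y : ℚ} (hb : b ≠ 0) (hd : a ^ 2 - 4 * b ≠ 0)
    (h : (SW a b 0).toAffine.Nonsingular x y) (hx : x ≠ 0) :
    isogF hb hd (Affine.Point.some x y h) =
      Affine.Point.some (y ^ 2 / x ^ 2) (y * (b - x ^ 2) / x ^ 2) (isog_img hb hd h hx) := by
  unfold isogF
  simp only [hx, dite_false]

theorem isogF_neg {a b : ℚ} (hb : b ≠ 0) (hd : a ^ 2 - 4 * b ≠ 0) (P : Pt (SW a b 0)) :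
    isogF hb hd (-P) = -isogF hb hd P := by
  rcases P with _ | ⟨x, y, h⟩
  · rw [← Affine.Point.zero_def, neg_zero, isogF_zero, neg_zero]
  obtain ⟨h', e⟩ := sw_neg h
  rw [e]
  by_cases hx : x = 0
  · rw [isogF_some0 hb hd h hx, isogF_some0 hb hd h' hx, neg_zero]
  · rw [isogF_some hb hd h hx, isogF_some hb hd h' hx]
    obtain ⟨h'', e'⟩ := sw_neg (isog_img hb hd h hx)
    rw [e']
    exact pt_congr _ _ (by ring) (by ring)

theorem isog_line_zero {a b x1 y1 x2 y2 x3 y3 l n : ℚ} (hb : b ≠ 0) (hd : a ^ 2 - 4 * b ≠ 0)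
    (h1 : (SW a b 0).toAffine.Nonsingular x1 y1) (h2 : (SW a b 0).toAffine.Nonsingular x2 y2)
    (h3 : (SW a b 0).toAffine.Nonsingular x3 y3) (_e1 : y1 = l * x1 + n) (e2 : y2 = l * x2 + n)
    (e3 : y3 = l * x3 + n) (h : IsLine (SW a b 0) x1 x2 x3 l n) (hx1 : x1 = 0) :
    isogF hb hd (Affine.Point.some x1 y1 h1) + isogF hb hd (Affine.Point.some x2 y2 h2) +
      isogF hb hd (Affine.Point.some x3 y3 h3) = 0 := by
  obtain ⟨_, s2, s3⟩ := sw_line_iff h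
  have hn : n = 0 := by
    have : n ^ 2 = 0 := by
      rw [hx1] at s3
      linear_combination -s3
    exact pow_eq_zero_iff (two_ne_zero) |>.1 this
  have hbb : x2 * x3 = b := by
    rw [hx1, hn] at s2
    linear_combination s2
  have hx2 : x2 ≠ 0 := fun hc => hb (by rw [← hbb, hc, zero_mul])
  have hx3 : x3 ≠ 0 := fun hc => hb (by rw [← hbb, hc, mul_zero])
  rw [isogF_some0 hb hd h1 hx1, isogF_some hb hd h2 hx2, isogF_some hb hd h3 hx3, zero_add]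
  rw [← eq_neg_iff_add_eq_zero]
  obtain ⟨h'', e'⟩ := sw_neg (isog_img hb hd h3 hx3)
  rw [e']
  refine pt_congr _ _ ?_ ?_
  · rw [e2, e3, hn]
    field_simp
    ring
  · rw [e2, e3, hn, ← hbb]
    field_simp
    ring

theorem isog_L1 {a b x y l n : ℚ} (hx : x ≠ 0) (hn : n ≠ 0) (e : y = l * x + n)
    (E : y ^ 2 = x ^ 3 + a * x ^ 2 + b * x + 0) :
    y * (b - x ^ 2) / x ^ 2 = (b / n - l) * (y ^ 2 / x ^ 2) +
      (-((b * l ^ 2 - a * l * n + n ^ 2) / n)) := by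
  subst e
  field_simp
  linear_combination (l * n) * E

theorem isog_line_ne {a b x1 y1 x2 y2 x3 y3 l n : ℚ} (hb : b ≠ 0) (hd : a ^ 2 - 4 * b ≠ 0)
    (h1 : (SW a b 0).toAffine.Nonsingular x1 y1) (h2 : (SW a b 0).toAffine.Nonsingular x2 y2)
    (h3 : (SW a b 0).toAffine.Nonsingular x3 y3) (e1 : y1 = l * x1 + n) (e2 : y2 = l * x2 + n)
    (e3 : y3 = l * x3 + n) (h : IsLine (SW a b 0) x1 x2 x3 l n) (hx1 : x1 ≠ 0) (hx2 : x2 ≠ 0)
    (hx3 : x3 ≠ 0) :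
    isogF hb hd (Affine.Point.some x1 y1 h1) + isogF hb hd (Affine.Point.some x2 y2 h2) +
      isogF hb hd (Affine.Point.some x3 y3 h3) = 0 := by
  obtain ⟨s1, s2, s3⟩ := sw_line_iff h
  have hn : n ≠ 0 := by
    intro hc
    rw [hc] at s3
    have : x1 * x2 * x3 = 0 := by rw [s3]; ring
    exact mul_ne_zero (mul_ne_zero hx1 hx2) hx3 this
  have s3' : x1 * x2 * x3 = n ^ 2 := by rw [s3]; ring
  -- the slopes
  have hu : ∀ x y x' x'' : ℚ, x ≠ 0 → y = l * x + n → x * x' * x'' = n ^ 2 →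
      y ^ 2 / x ^ 2 = (l + x' * x'' / n) ^ 2 := by
    intro x y x' x'' hx hy hp
    have hw : n / x = x' * x'' / n := by
      field_simp
      linear_combination -hp
    rw [← hw, hy]
    field_simp
  have X1 := hu x1 y1 x2 x3 hx1 e1 s3'
  have X2 := hu x2 y2 x1 x3 hx2 e2 (by linear_combination s3')
  have X3 := hu x3 y3 x1 x2 hx3 e3 (by linear_combination s3')
  have w1 : x2 * x3 / n + x1 * x3 / n + x1 * x2 / n = b / n - 2 * l := by
    field_simp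
    linear_combination s2
  have w2 : (x2 * x3 / n) * (x1 * x3 / n) + (x2 * x3 / n) * (x1 * x2 / n) +
      (x1 * x3 / n) * (x1 * x2 / n) = l ^ 2 - a := by
    have : (x2 * x3 / n) * (x1 * x3 / n) + (x2 * x3 / n) * (x1 * x2 / n) +
      (x1 * x3 / n) * (x1 * x2 / n) = (x1 * x2 * x3) * (x1 + x2 + x3) / n ^ 2 := by
      field_simp
      ring
    rw [this, s3', s1]
    field_simp
  have w3 : (x2 * x3 / n) * (x1 * x3 / n) * (x1 * x2 / n) = n := by
    have : (x2 * x3 / n) * (x1 * x3 / n) * (x1 * x2 / n) = (x1 * x2 * x3) ^ 2 / n ^ 3 := by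
      field_simp
    rw [this, s3']
    field_simp
  generalize hw1 : x2 * x3 / n = v1 at *
  generalize hw2 : x1 * x3 / n = v2 at *
  generalize hw3 : x1 * x2 / n = v3 at *
  have U1 : (l + v1) + (l + v2) + (l + v3) = l + b / n := by linear_combination w1
  have U2 : (l + v1) * (l + v2) + (l + v1) * (l + v3) + (l + v2) * (l + v3) =
      2 * l * (b / n) - a := by
    linear_combination w2 + 2 * l * w1
  have U3 : (l + v1) * (l + v2) * (l + v3) = (b * l ^ 2 - a * l * n + n ^ 2) / n := by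
    have : (b * l ^ 2 - a * l * n + n ^ 2) / n = l ^ 2 * (b / n) - a * l + n := by
      field_simp
    rw [this]
    linear_combination w3 + l * w2 + l ^ 2 * w1
  rw [isogF_some hb hd h1 hx1, isogF_some hb hd h2 hx2, isogF_some hb hd h3 hx3]
  refine line_sum (l := b / n - l) (n := -((b * l ^ 2 - a * l * n + n ^ 2) / n)) _ _ _
    (isog_L1 hx1 hn e1 (sw_eq h1)) (isog_L1 hx2 hn e2 (sw_eq h2)) (isog_L1 hx3 hn e3 (sw_eq h3))
    (sw_line ?_ ?_ ?_)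
  · rw [X1, X2, X3]
    have : (l + v1) ^ 2 + (l + v2) ^ 2 + (l + v3) ^ 2 =
      ((l + v1) + (l + v2) + (l + v3)) ^ 2 -
        2 * ((l + v1) * (l + v2) + (l + v1) * (l + v3) + (l + v2) * (l + v3)) := by ring
    rw [this, U1, U2]
    ring
  · rw [X1, X2, X3, ← U3]
    have : (l + v1) ^ 2 * (l + v2) ^ 2 + (l + v1) ^ 2 * (l + v3) ^ 2 +
        (l + v2) ^ 2 * (l + v3) ^ 2 =
      ((l + v1) * (l + v2) + (l + v1) * (l + v3) + (l + v2) * (l + v3)) ^ 2 -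
        2 * (((l + v1) + (l + v2) + (l + v3)) * ((l + v1) * (l + v2) * (l + v3))) := by ring
    rw [this, U1, U2, U3]
    field_simp
    ring
  · rw [X1, X2, X3, ← U3]
    ring

theorem isogF_add {a b : ℚ} (hb : b ≠ 0) (hd : a ^ 2 - 4 * b ≠ 0) (P Q : Pt (SW a b 0)) :
    isogF hb hd (P + Q) = isogF hb hd P + isogF hb hd Q := by
  refine hom_of_line (isogF hb hd) (isogF_zero hb hd) (isogF_neg hb hd) ?_ P Q
  intro x1 y1 x2 y2 x3 y3 l n h1 h2 h3 e1 e2 e3 h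
  by_cases hx1 : x1 = 0
  · exact isog_line_zero hb hd h1 h2 h3 e1 e2 e3 h hx1
  by_cases hx2 : x2 = 0
  · have := isog_line_zero hb hd h2 h1 h3 e2 e1 e3 h.swap hx2
    rw [← this]
    abel
  by_cases hx3 : x3 = 0
  · have := isog_line_zero hb hd h3 h1 h2 e3 e1 e2 h.rot.rot hx3
    rw [← this]
    abel
  exact isog_line_ne hb hd h1 h2 h3 e1 e2 e3 h hx1 hx2 hx3

theorem isog_fun {a b : ℚ} (hb : b ≠ 0) (hd : a ^ 2 - 4 * b ≠ 0) :
    ∃ f : Pt (SW a b 0) →+ Pt (SW (-2 * a) (a ^ 2 - 4 * b) 0),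
      (∀ x y h, x = 0 → f (Affine.Point.some x y h) = 0) ∧
      (∀ x y h, x ≠ 0 → ∃ h', f (Affine.Point.some x y h) =
        Affine.Point.some (y ^ 2 / x ^ 2) (y * (b - x ^ 2) / x ^ 2) h') :=
  ⟨⟨⟨isogF hb hd, isogF_zero hb hd⟩, isogF_add hb hd⟩,
    fun _ _ h hx => isogF_some0 hb hd h hx,
    fun _ _ h hx => ⟨isog_img hb hd h hx, isogF_some hb hd h hx⟩⟩

theorem scale_img {a b A B x y : ℚ} (hA : A = 4 * a) (hB : B = 16 * b)
    (hΔ : (SW a b 0).Δ ≠ 0)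
    (h : (SW A B 0).toAffine.Nonsingular x y) :
    (SW a b 0).toAffine.Nonsingular (x / 4) (y / 8) := by
  refine sw_ns hΔ ?_
  have hE := sw_eq h
  subst hA hB
  linear_combination (1 / 64) * hE

noncomputable def scaleF {a b A B : ℚ} (hA : A = 4 * a) (hB : B = 16 * b)
    (hΔ : (SW a b 0).Δ ≠ 0) : Pt (SW A B 0) → Pt (SW a b 0)
  | Affine.Point.zero => 0
  | Affine.Point.some x y h => Affine.Point.some (x / 4) (y / 8) (scale_img hA hB hΔ h)

theorem scale_hom {a b A B : ℚ} (hA : A = 4 * a) (hB : B = 16 * b)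
    (hΔ : (SW a b 0).Δ ≠ 0) : ∃ e : Pt (SW A B 0) →+ Pt (SW a b 0),
    ∀ x y h, ∃ h', e (Affine.Point.some x y h) = Affine.Point.some (x / 4) (y / 8) h' := by
  have hadd : ∀ P Q, scaleF hA hB hΔ (P + Q) = scaleF hA hB hΔ P + scaleF hA hB hΔ Q := by
    intro P Q
    refine hom_of_line (scaleF hA hB hΔ) rfl ?_ ?_ P Q
    · intro P
      rcases P with _ | ⟨x, y, h⟩
      · rw [← Affine.Point.zero_def, neg_zero]
        change (0 : Pt (SW a b 0)) = -0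
        rw [neg_zero]
      · obtain ⟨h', e⟩ := sw_neg h
        rw [e]
        change Affine.Point.some (x / 4) (-y / 8) (scale_img hA hB hΔ h') =
          -Affine.Point.some (x / 4) (y / 8) (scale_img hA hB hΔ h)
        obtain ⟨h'', e'⟩ := sw_neg (scale_img hA hB hΔ h)
        rw [e']
        exact pt_congr _ _ rfl (by ring)
    · intro x1 y1 x2 y2 x3 y3 l n h1 h2 h3 e1 e2 e3 h
      obtain ⟨s1, s2, s3⟩ := sw_line_iff h
      change Affine.Point.some (x1 / 4) (y1 / 8) (scale_img hA hB hΔ h1) +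
        Affine.Point.some (x2 / 4) (y2 / 8) (scale_img hA hB hΔ h2) +
        Affine.Point.some (x3 / 4) (y3 / 8) (scale_img hA hB hΔ h3) = 0
      subst hA hB
      refine line_sum (l := l / 2) (n := n / 8) _ _ _ (by rw [e1]; ring) (by rw [e2]; ring)
        (by rw [e3]; ring) (sw_line ?_ ?_ ?_)
      · linear_combination (1 / 4) * s1
      · linear_combination (1 / 16) * s2
      · linear_combination (1 / 64) * s3
  exact ⟨⟨⟨scaleF hA hB hΔ, rfl⟩, hadd⟩, fun x y h => ⟨scale_img hA hB hΔ h, rfl⟩⟩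

theorem dbl_X {a b x y : ℚ} (hx : x ≠ 0) (hy : y ≠ 0)
    (E : y ^ 2 = x ^ 3 + a * x ^ 2 + b * x + 0) :
    (y * (b - x ^ 2) / x ^ 2) ^ 2 / (4 * (y ^ 2 / x ^ 2) ^ 2) =
      ((3 * x ^ 2 + 2 * a * x + b) / (2 * y)) ^ 2 - a - 2 * x := by
  have hb : b = (y ^ 2 - x ^ 3 - a * x ^ 2) / x := by
    field_simp
    linear_combination -E
  subst hb
  field_simp
  ring

theorem dbl_Y {a b x y : ℚ} (hx : x ≠ 0) (hy : y ≠ 0)
    (E : y ^ 2 = x ^ 3 + a * x ^ 2 + b * x + 0) :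
    (y * (b - x ^ 2) / x ^ 2) * (a ^ 2 - 4 * b - (y ^ 2 / x ^ 2) ^ 2) /
        (8 * (y ^ 2 / x ^ 2) ^ 2) =
      (-((3 * x ^ 2 + 2 * a * x + b) / (2 * y) *
        (((3 * x ^ 2 + 2 * a * x + b) / (2 * y)) ^ 2 - a - 2 * x - x) + y)) := by
  have hb : b = (y ^ 2 - x ^ 3 - a * x ^ 2) / x := by
    field_simp
    linear_combination -E
  subst hb
  field_simp
  ring

theorem dbl_X' {a b x y : ℚ} (hx : x ≠ 0) (hy : y ≠ 0)
    (E : y ^ 2 = x ^ 3 + (-2 * a) * x ^ 2 + (a ^ 2 - 4 * b) * x + 0) :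
    (y * (a ^ 2 - 4 * b - x ^ 2) / (8 * x ^ 2)) ^ 2 / (y ^ 2 / (4 * x ^ 2)) ^ 2 =
      ((3 * x ^ 2 + 2 * (-2 * a) * x + (a ^ 2 - 4 * b)) / (2 * y)) ^ 2 - (-2 * a) - 2 * x := by
  have hb : b = (a ^ 2 - (y ^ 2 - x ^ 3 + 2 * a * x ^ 2) / x) / 4 := by
    field_simp
    linear_combination E
  subst hb
  field_simp
  ring

theorem dbl_Y' {a b x y : ℚ} (hx : x ≠ 0) (hy : y ≠ 0)
    (E : y ^ 2 = x ^ 3 + (-2 * a) * x ^ 2 + (a ^ 2 - 4 * b) * x + 0) :
    (y * (a ^ 2 - 4 * b - x ^ 2) / (8 * x ^ 2)) * (b - (y ^ 2 / (4 * x ^ 2)) ^ 2) /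
        (y ^ 2 / (4 * x ^ 2)) ^ 2 =
      (-((3 * x ^ 2 + 2 * (-2 * a) * x + (a ^ 2 - 4 * b)) / (2 * y) *
        (((3 * x ^ 2 + 2 * (-2 * a) * x + (a ^ 2 - 4 * b)) / (2 * y)) ^ 2 - (-2 * a) - 2 * x - x)
          + y)) := by
  have hb : b = (a ^ 2 - (y ^ 2 - x ^ 3 + 2 * a * x ^ 2) / x) / 4 := by
    field_simp
    linear_combination E
  subst hb
  field_simp
  ring

theorem two_isog {a b : ℚ} (hb : b ≠ 0) (hd : a ^ 2 - 4 * b ≠ 0) :
    ∃ (f : Pt (SW a b 0) →+ Pt (SW (-2 * a) (a ^ 2 - 4 * b) 0))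
      (g : Pt (SW (-2 * a) (a ^ 2 - 4 * b) 0) →+ Pt (SW a b 0)),
      (∀ x y h, x = 0 → f (Affine.Point.some x y h) = 0) ∧
      (∀ x y h, x ≠ 0 → ∃ h', f (Affine.Point.some x y h) =
        Affine.Point.some (y ^ 2 / x ^ 2) (y * (b - x ^ 2) / x ^ 2) h') ∧
      (∀ x y h, x = 0 → g (Affine.Point.some x y h) = 0) ∧
      (∀ x y h, x ≠ 0 → ∃ h', g (Affine.Point.some x y h) =
        Affine.Point.some (y ^ 2 / (4 * x ^ 2))
          (y * (a ^ 2 - 4 * b - x ^ 2) / (8 * x ^ 2)) h') ∧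
      (∀ P, g (f P) = 2 • P) ∧ (∀ Q, f (g Q) = 2 • Q) := by
  obtain ⟨f, f0, f1⟩ := isog_fun hb hd
  obtain ⟨f', f'0, f'1⟩ := isog_fun hd (isog_disc (a := a) hb)
  obtain ⟨e, he⟩ := scale_hom (a := a) (b := b) (A := -2 * (-2 * a))
    (B := (-2 * a) ^ 2 - 4 * (a ^ 2 - 4 * b)) (by ring) (by ring) (sw_delta0 hb hd)
  have g0 : ∀ x y h, x = 0 → (e.comp f') (Affine.Point.some x y h) = 0 := by
    intro x y h hx
    rw [AddMonoidHom.comp_apply, f'0 x y h hx, map_zero]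
  have g1 : ∀ x y h, x ≠ 0 → ∃ h', (e.comp f') (Affine.Point.some x y h) =
        Affine.Point.some (y ^ 2 / (4 * x ^ 2))
          (y * (a ^ 2 - 4 * b - x ^ 2) / (8 * x ^ 2)) h' := by
    intro x y h hx
    obtain ⟨h1, e1⟩ := f'1 x y h hx
    obtain ⟨h2, e2⟩ := he _ _ h1
    have ex : y ^ 2 / x ^ 2 / 4 = y ^ 2 / (4 * x ^ 2) := by
      field_simp
    have ey : y * (a ^ 2 - 4 * b - x ^ 2) / x ^ 2 / 8 =
        y * (a ^ 2 - 4 * b - x ^ 2) / (8 * x ^ 2) := by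
      field_simp
    have h3 : (SW a b 0).toAffine.Nonsingular (y ^ 2 / (4 * x ^ 2))
        (y * (a ^ 2 - 4 * b - x ^ 2) / (8 * x ^ 2)) := by
      rw [← ex, ← ey]
      exact h2
    refine ⟨h3, ?_⟩
    rw [AddMonoidHom.comp_apply, e1, e2]
    exact pt_congr _ _ ex ey
  refine ⟨f, e.comp f', f0, f1, g0, g1, ?_, ?_⟩
  · intro P
    rcases P with _ | ⟨x, y, h⟩
    · rw [← Affine.Point.zero_def, map_zero, map_zero]
      exact (nsmul_zero 2).symm
    have hE := sw_eq h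
    by_cases hy : y = 0
    · rw [(two_smul_some h).2 hy]
      by_cases hx : x = 0
      · rw [f0 x y h hx, map_zero]
      · obtain ⟨h1, e1⟩ := f1 x y h hx
        rw [e1]
        exact g0 _ _ _ (by rw [hy]; ring)
    · have hx : x ≠ 0 := by
        intro hx
        apply hy
        rw [hx] at hE
        have : y ^ 2 = 0 := by rw [hE]; ring
        exact pow_eq_zero_iff (two_ne_zero) |>.1 this
      obtain ⟨h1, e1⟩ := f1 x y h hx
      have hX : y ^ 2 / x ^ 2 ≠ 0 := div_ne_zero (pow_ne_zero 2 hy) (pow_ne_zero 2 hx)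
      obtain ⟨h2, e2⟩ := g1 _ _ h1 hX
      obtain ⟨h3, e3⟩ := two_smul_some' h hy (sw_delta0 hb hd)
      rw [e1, e2, e3]
      exact pt_congr _ _ (dbl_X hx hy hE) (dbl_Y hx hy hE)
  · intro Q
    rcases Q with _ | ⟨x, y, h⟩
    · rw [← Affine.Point.zero_def, map_zero, map_zero]
      exact (nsmul_zero 2).symm
    have hE := sw_eq h
    by_cases hy : y = 0
    · rw [(two_smul_some h).2 hy]
      by_cases hx : x = 0
      · rw [g0 x y h hx, map_zero]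
      · obtain ⟨h1, e1⟩ := g1 x y h hx
        rw [e1]
        exact f0 _ _ _ (by rw [hy]; ring)
    · have hx : x ≠ 0 := by
        intro hx
        apply hy
        rw [hx] at hE
        have : y ^ 2 = 0 := by rw [hE]; ring
        exact pow_eq_zero_iff (two_ne_zero) |>.1 this
      obtain ⟨h1, e1⟩ := g1 x y h hx
      have hX : y ^ 2 / (4 * x ^ 2) ≠ 0 :=
        div_ne_zero (pow_ne_zero 2 hy) (mul_ne_zero (by norm_num) (pow_ne_zero 2 hx))
      obtain ⟨h2, e2⟩ := f1 _ _ h1 hX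
      obtain ⟨h3, e3⟩ := two_smul_some' h hy (sw_delta0 hd (isog_disc hb))
      rw [e1, e2, e3]
      exact pt_congr _ _ (dbl_X' hx hy hE) (dbl_Y' hx hy hE)

end Pool.Agent.RkT
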