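import Pool.Agent.RkT.VDefs

/-!
# RkT, module VAbel: zeros of a function have sum zero

`abel_sum`: let `R` be the coordinate ring of `W = SG a b c` (`Affine.CoordinateRing`) and
`f = p • 1 + q • mk W Y ∈ R` (`CoordinateRing.coe_basis`, `norm_smul_basis`).  The norm of `f` over `K[X]` is
`p² - q² (X³ + a X² + b X + c) ≠ 0`, so `f ≠ 0` and `dim_K R / (f)` is the degree of the norm
(`finrank_quotient_span_eq_natDegree_norm`), which is `|S| = n`.  For `P = (x, y) ∈ S` let
`I_P = XYIdeal W x (C y)`; `R / I_P ≃ K` (`quotientXYIdealEquiv`), so `I_P` is maximal and of codimension one; the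
`I_P` are pairwise different, hence pairwise coprime, and `f ∈ I_P` (`XYIdeal` is the kernel of the evaluation at
`(x, y)`).  So `f ∈ ⨅ I_P = ∏ I_P` and `R / ∏ I_P ≃ ∏ R / I_P` has dimension `n` (Chinese remainder theorem,
`Ideal.quotientInfRingEquivPiQuotient`).  `R / (f) → R / ∏ I_P` is surjective and both sides have dimension `n`,
so it is injective and `(f) = ∏ I_P`.
`toClass : W.Point →+ Additive (ClassGroup R)` is injective (`toClass_injective`) and
`toClass (some x y h) = ClassGroup.mk (XYIdeal' h)`, where `XYIdeal' h` is the unit fractional ideal `I_P`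
(`XYIdeal'_eq`).  So `toClass (∑ P) = mk (∏ XYIdeal' _)`, and this is `1` since the product is the principal ideal
`(f)` (`ClassGroup.mk_eq_one_of_coe_ideal`).
-/

set_option autoImplicit false

namespace Pool.Agent.RkT

open WeierstrassCurve Polynomial Affine

open scoped Polynomial.Bivariate

variable {K : Type} [Field K] [DecidableEq K]

/-- the ideal of the point `P`, the unit ideal at infinity -/
private noncomputable def ip {a b c : K} : PG a b c → Ideal (SG a b c).toAffine.CoordinateRing
  | .zero => 1
  | .some x y _ => CoordinateRing.XYIdeal (SG a b c).toAffine x (C y)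

/-- the invertible fractional ideal of the point `P` -/
private noncomputable def up {a b c : K} : PG a b c →
    (FractionalIdeal (nonZeroDivisors (SG a b c).toAffine.CoordinateRing)
      (SG a b c).toAffine.FunctionField)ˣ
  | .zero => 1
  | .some _ _ h => CoordinateRing.XYIdeal' (W := (SG a b c).toAffine) h

private theorem up_coe {a b c : K} (P : PG a b c) :
    (up P : FractionalIdeal (nonZeroDivisors (SG a b c).toAffine.CoordinateRing)
      (SG a b c).toAffine.FunctionField) = (ip P : Ideal (SG a b c).toAffine.CoordinateRing) := by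
  rcases P with _ | ⟨x, y, h⟩
  · simp [up, ip]
  · exact CoordinateRing.XYIdeal'_eq h

private theorem cls_up {a b c : K} (P : PG a b c) :
    Point.toClass P = Additive.ofMul (ClassGroup.mk (SG a b c).toAffine.FunctionField (up P)) := by
  rcases P with _ | ⟨x, y, h⟩
  · simp only [up, map_one]
    rfl
  · rfl

private theorem mem_ip {a b c : K} (p q : K[X]) (P : PG a b c) (hP : P ≠ 0)
    (h0 : p.eval (xc P) + q.eval (xc P) * yc P = 0) :
    (p • (1 : (SG a b c).toAffine.CoordinateRing) + q • CoordinateRing.mk (SG a b c).toAffine Y) ∈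
      ip P := by
  rcases P with _ | ⟨x, y, h⟩
  · exact absurd rfl hP
  rw [xc_some, yc_some] at h0
  simp only [ip, CoordinateRing.XYIdeal, CoordinateRing.XClass, CoordinateRing.YClass]
  have h1 : (C p + C q * (Y : K[X][Y])) ∈
      Ideal.span ({C (X - C x), (Y : K[X][Y]) - C (C y)} : Set K[X][Y]) := by
    rw [mem_span_C_X_sub_C_X_sub_C_iff_eval_eval_eq_zero]
    simpa using h0
  have h2 := Ideal.mem_map_of_mem (CoordinateRing.mk (SG a b c).toAffine) h1
  rw [Ideal.map_span, Set.image_pair] at h2
  have h3 : (p • (1 : (SG a b c).toAffine.CoordinateRing) +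
      q • CoordinateRing.mk (SG a b c).toAffine Y) =
      CoordinateRing.mk (SG a b c).toAffine (C p + C q * (Y : K[X][Y])) := by
    rw [CoordinateRing.smul, CoordinateRing.smul, map_add, map_mul, mul_one]
  rw [h3]
  exact h2

/-- the quotient by the ideal of an affine point -/
private noncomputable def qe {a b c x y : K} (h : (SG a b c).toAffine.Nonsingular x y) :
    ((SG a b c).toAffine.CoordinateRing ⧸ ip (Point.some x y h : PG a b c)) ≃ₐ[K] K :=
  CoordinateRing.quotientXYIdealEquiv (W' := (SG a b c).toAffine) h.1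

private theorem ip_max {a b c : K} (P : PG a b c) (hP : P ≠ 0) : (ip P).IsMaximal := by
  rcases P with _ | ⟨x, y, h⟩
  · exact absurd rfl hP
  · refine Ideal.Quotient.maximal_of_isField _ ?_
    exact MulEquiv.isField (Field.toIsField K) (qe h).toMulEquiv

private theorem ip_fin {a b c : K} (P : PG a b c) (hP : P ≠ 0) :
    Module.finrank K ((SG a b c).toAffine.CoordinateRing ⧸ ip P) = 1 := by
  rcases P with _ | ⟨x, y, h⟩
  · exact absurd rfl hP
  · rw [(qe h).toLinearEquiv.finrank_eq, Module.finrank_self]

private theorem ip_finite {a b c : K} (P : PG a b c) (hP : P ≠ 0) :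
    Module.Finite K ((SG a b c).toAffine.CoordinateRing ⧸ ip P) := by
  rcases P with _ | ⟨x, y, h⟩
  · exact absurd rfl hP
  · exact Module.Finite.equiv (qe h).symm.toLinearEquiv

private theorem ip_inj {a b c : K} (P Q : PG a b c) (hP : P ≠ 0) (hQ : Q ≠ 0) (h : ip P = ip Q) :
    P = Q := by
  have hm := ip_max P hP
  rcases P with _ | ⟨x, y, h1⟩
  · exact absurd rfl hP
  rcases Q with _ | ⟨x', y', h2⟩
  · exact absurd rfl hQ
  have key : ∀ t : K, algebraMap K (SG a b c).toAffine.CoordinateRing t ∈
      ip (Point.some x y h1 : PG a b c) → t = 0 := by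
    intro t ht
    by_contra hne
    exact hm.ne_top (Ideal.eq_top_of_isUnit_mem _ ht
      ((isUnit_iff_ne_zero.2 hne).map (algebraMap K (SG a b c).toAffine.CoordinateRing)))
  have e1 : CoordinateRing.XClass (SG a b c).toAffine x ∈ ip (Point.some x y h1 : PG a b c) :=
    Ideal.subset_span (by simp)
  have e2 : CoordinateRing.XClass (SG a b c).toAffine x' ∈ ip (Point.some x y h1 : PG a b c) := by
    rw [h]
    exact Ideal.subset_span (by simp)
  have e3 : CoordinateRing.YClass (SG a b c).toAffine (C y) ∈ ip (Point.some x y h1 : PG a b c) :=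
    Ideal.subset_span (by simp)
  have e4 : CoordinateRing.YClass (SG a b c).toAffine (C y') ∈ ip (Point.some x y h1 : PG a b c) := by
    rw [h]
    exact Ideal.subset_span (by simp)
  have hmk : ∀ t : K, algebraMap K (SG a b c).toAffine.CoordinateRing t =
      CoordinateRing.mk (SG a b c).toAffine (C (C t)) := fun t => rfl
  have hx : x = x' := by
    have h3 := key (x' - x) (by
      rw [hmk]
      have := sub_mem e1 e2
      rw [CoordinateRing.XClass, CoordinateRing.XClass, ← map_sub] at this
      convert this using 2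
      simp only [map_sub]
      ring)
    linear_combination -h3
  have hy : y = y' := by
    have h3 := key (y' - y) (by
      rw [hmk]
      have := sub_mem e3 e4
      rw [CoordinateRing.YClass, CoordinateRing.YClass, ← map_sub] at this
      convert this using 2
      simp only [map_sub]
      ring)
    linear_combination -h3
  exact pg_congr _ _ hx hy

theorem abel_sum {a b c : K} (p q : K[X]) (S : Finset (PG a b c))
    (hS : ∀ P ∈ S, P ≠ 0 ∧ p.eval (xc P) + q.eval (xc P) * yc P = 0)
    (hne : p ^ 2 - q ^ 2 * (X ^ 3 + C a * X ^ 2 + C b * X + C c) ≠ 0)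
    (hdeg : (p ^ 2 - q ^ 2 * (X ^ 3 + C a * X ^ 2 + C b * X + C c)).natDegree = S.card) :
    ∑ P ∈ S, P = 0 := by
  classical
  set f : (SG a b c).toAffine.CoordinateRing :=
    p • (1 : (SG a b c).toAffine.CoordinateRing) + q • CoordinateRing.mk (SG a b c).toAffine Y with hf
  have hnorm : Algebra.norm K[X] f = p ^ 2 - q ^ 2 * (X ^ 3 + C a * X ^ 2 + C b * X + C c) := by
    rw [hf, CoordinateRing.norm_smul_basis]
    simp only [SG, map_zero, zero_mul, add_zero, mul_zero, sub_zero]
  have hf0 : f ≠ 0 := by
    intro h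
    have : Module.Finite K[X] (SG a b c).toAffine.CoordinateRing :=
      Module.Finite.of_basis (CoordinateRing.basis (SG a b c).toAffine)
    rw [h, Algebra.norm_zero] at hnorm
    exact hne hnorm.symm
  have hpw : (S : Set (PG a b c)).Pairwise (Function.onFun IsCoprime (ip (a := a) (b := b) (c := c))) := by
    intro P hP Q hQ hPQ
    have m1 := ip_max P (hS P hP).1
    have m2 := ip_max Q (hS Q hQ).1
    exact Ideal.isCoprime_of_isMaximal fun h => hPQ (ip_inj P Q (hS P hP).1 (hS Q hQ).1 h)
  have hprod : ∏ P ∈ S, ip P = ⨅ P ∈ S, ip P := Ideal.prod_eq_iInf_of_pairwise_isCoprime hpw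
  have hinf : (⨅ P ∈ S, ip P) = ⨅ P : S, ip P.1 := (iInf_subtype' ..)
  have hpw' : Pairwise (Function.onFun IsCoprime (fun P : S => ip P.1)) := by
    intro P Q hPQ
    exact hpw P.2 Q.2 (fun h => hPQ (Subtype.ext h))
  -- dimension of the quotient by the intersection
  have hfinI : ∀ P : S, Module.Finite K ((SG a b c).toAffine.CoordinateRing ⧸ ip P.1) :=
    fun P => ip_finite P.1 (hS P.1 P.2).1
  let e := Ideal.quotientInfRingEquivPiQuotient (fun P : S => ip P.1) hpw'
  let e' : ((SG a b c).toAffine.CoordinateRing ⧸ ⨅ P : S, ip P.1) ≃ₐ[K]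
      (∀ P : S, (SG a b c).toAffine.CoordinateRing ⧸ ip P.1) :=
    AlgEquiv.ofRingEquiv (f := e) (fun r => rfl)
  have hd1 : Module.finrank K ((SG a b c).toAffine.CoordinateRing ⧸ ⨅ P : S, ip P.1) = S.card := by
    rw [e'.toLinearEquiv.finrank_eq, Module.finrank_pi_fintype]
    rw [Finset.sum_congr rfl (fun P _ => ip_fin P.1 (hS P.1 P.2).1)]
    simp
  have hd2 : Module.finrank K ((SG a b c).toAffine.CoordinateRing ⧸ Ideal.span {f}) = S.card := by
    rw [finrank_quotient_span_eq_natDegree_norm (CoordinateRing.basis (SG a b c).toAffine) hf0, hnorm,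
      hdeg]
  have hb : Ideal.span {f} ≠ ⊥ := Ideal.span_singleton_eq_bot.not.2 hf0
  have hfin2 : Module.Finite K ((SG a b c).toAffine.CoordinateRing ⧸ Ideal.span {f}) := by
    have : ∀ i, Module.Finite K
        (K[X] ⧸ Ideal.span ({(Ideal.span {f}).smithCoeffs
          (CoordinateRing.basis (SG a b c).toAffine) hb i} : Set K[X])) := fun i =>
      PowerBasis.finite <| AdjoinRoot.powerBasis <|
        (Ideal.span {f}).smithCoeffs_ne_zero (CoordinateRing.basis (SG a b c).toAffine) hb i
    exact Module.Finite.equiv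
      (Ideal.quotientEquivDirectSum K (CoordinateRing.basis (SG a b c).toAffine) hb).symm
  have hle : Ideal.span {f} ≤ ⨅ P : S, ip P.1 := by
    rw [Ideal.span_singleton_le_iff_mem, Ideal.mem_iInf]
    intro P
    exact mem_ip p q P.1 (hS P.1 P.2).1 (hS P.1 P.2).2
  have heq : (⨅ P : S, ip P.1) = Ideal.span {f} := by
    let g := Ideal.Quotient.factorₐ K hle
    have hg : Function.Surjective g.toLinearMap := Ideal.Quotient.factor_surjective hle
    have hgi : Function.Injective g.toLinearMap := by
      have hfin1 : Module.Finite K ((SG a b c).toAffine.CoordinateRing ⧸ ⨅ P : S, ip P.1) :=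
        Module.Finite.of_surjective g.toLinearMap hg
      exact (LinearMap.injective_iff_surjective_of_finrank_eq_finrank (hd2.trans hd1.symm)).2 hg
    refine le_antisymm ?_ hle
    intro r hr
    have h1 : g.toLinearMap (Ideal.Quotient.mk _ r) = 0 := by
      change Ideal.Quotient.factor hle (Ideal.Quotient.mk _ r) = 0
      rw [Ideal.Quotient.factor_mk]
      exact Ideal.Quotient.eq_zero_iff_mem.2 hr
    have h2 : (Ideal.Quotient.mk (Ideal.span {f}) r) = 0 := hgi (h1.trans (map_zero _).symm)
    exact Ideal.Quotient.eq_zero_iff_mem.1 h2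
  apply Point.toClass_injective
  rw [map_sum, map_zero, Finset.sum_congr rfl (fun P _ => cls_up P), ← ofMul_prod, ← map_prod]
  have hcoe : ((∏ P ∈ S, up P :
      (FractionalIdeal (nonZeroDivisors (SG a b c).toAffine.CoordinateRing)
        (SG a b c).toAffine.FunctionField)ˣ) :
      FractionalIdeal (nonZeroDivisors (SG a b c).toAffine.CoordinateRing)
        (SG a b c).toAffine.FunctionField) =
      ((∏ P ∈ S, ip P : Ideal (SG a b c).toAffine.CoordinateRing) :
        FractionalIdeal (nonZeroDivisors (SG a b c).toAffine.CoordinateRing)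
        (SG a b c).toAffine.FunctionField) := by
    rw [Units.coe_prod, Finset.prod_congr rfl (fun P _ => up_coe P)]
    exact (map_prod (FractionalIdeal.coeIdealHom _ _) _ _).symm
  have h1 := (ClassGroup.mk_eq_one_of_coe_ideal hcoe).2 ⟨f, hf0, by rw [hprod, hinf, heq]⟩
  rw [h1]
  rfl

end Pool.Agent.RkT
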