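import Pool.Agent.RkT.Defs

/-!
# RkT, module VDefs: curves over a general field and the data of a cyclic isogeny

`SG a b c` is the curve `y² = x³ + a x² + b x + c` over a field `K`, `PG a b c` the group of its points, `xc`, `yc`
the coordinates (with value `0` at infinity).  `IsVel p m a b c a' b' c' N h B T`: the data of an isogeny of
degree `p = 2 m + 1` from `SG a b c` to `SG a' b' c'` with kernel generated by the point `T` of order `p`; the
isogeny is `(x, y) ↦ (N x / (h x)², y B x / (h x)³)`.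
-/

set_option autoImplicit false

namespace Pool.Agent.RkT

open WeierstrassCurve Polynomial

section Basic

variable {K : Type} [Field K]

/-- `y² = x³ + a x² + b x + c` -/
def SG (a b c : K) : WeierstrassCurve K := ⟨0, a, 0, b, c⟩

/-- the group of points -/
abbrev PG (a b c : K) : Type := (SG a b c).toAffine.Point

theorem sg_sw (a b c : ℚ) : SG a b c = SW a b c := rfl

theorem sg_eq {a b c x y : K} (h : (SG a b c).toAffine.Nonsingular x y) :
    y ^ 2 = x ^ 3 + a * x ^ 2 + b * x + c := by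
  have h1 := (Affine.equation_iff _ _).1 h.1
  simp only [SG] at h1
  linear_combination h1

theorem sg_delta (a b c : K) : (SG a b c).Δ =
    16 * (a ^ 2 * b ^ 2 - 4 * b ^ 3 - 4 * a ^ 3 * c + 18 * a * b * c - 27 * c ^ 2) := by
  simp only [SG, WeierstrassCurve.Δ, WeierstrassCurve.b₂, WeierstrassCurve.b₄,
    WeierstrassCurve.b₆, WeierstrassCurve.b₈]
  ring

theorem sg_ns {a b c x y : K} (hΔ : (SG a b c).Δ ≠ 0)
    (h : y ^ 2 = x ^ 3 + a * x ^ 2 + b * x + c) : (SG a b c).toAffine.Nonsingular x y := by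
  rw [← Affine.equation_iff_nonsingular_of_Δ_ne_zero hΔ, Affine.equation_iff]
  simp only [SG]
  linear_combination h

theorem sg_line {a b c x1 x2 x3 l n : K} (s1 : x1 + x2 + x3 = l ^ 2 - a)
    (s2 : x1 * x2 + x1 * x3 + x2 * x3 = b - 2 * l * n) (s3 : x1 * x2 * x3 = n ^ 2 - c) :
    IsLine (SG a b c) x1 x2 x3 l n := by
  refine ⟨?_, ?_, ?_⟩
  · simp only [SG]
    linear_combination s1
  · simp only [SG]
    linear_combination s2
  · simp only [SG]
    linear_combination s3

theorem sg_line_iff {a b c x1 x2 x3 l n : K} (h : IsLine (SG a b c) x1 x2 x3 l n) :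
    x1 + x2 + x3 = l ^ 2 - a ∧ x1 * x2 + x1 * x3 + x2 * x3 = b - 2 * l * n ∧
      x1 * x2 * x3 = n ^ 2 - c := by
  have h1 := h.s1
  have h2 := h.s2
  have h3 := h.s3
  simp only [SG] at h1 h2 h3
  exact ⟨by linear_combination h1, by linear_combination h2, by linear_combination h3⟩

theorem sg_neg {a b c x y : K} (h : (SG a b c).toAffine.Nonsingular x y) :
    ∃ h' : (SG a b c).toAffine.Nonsingular x (-y),
      -(Affine.Point.some x y h : PG a b c) = Affine.Point.some x (-y) h' := by
  have e : (SG a b c).toAffine.negY x y = -y := by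
    simp only [SG, Affine.negY]
    ring
  refine ⟨e ▸ (Affine.nonsingular_neg x y).2 h, ?_⟩
  rw [Affine.Point.neg_some]
  congr 1

theorem pg_congr {a b c x y x' y' : K} (h : (SG a b c).toAffine.Nonsingular x y)
    (h' : (SG a b c).toAffine.Nonsingular x' y') (hx : x = x') (hy : y = y') :
    (Affine.Point.some x y h : PG a b c) = Affine.Point.some x' y' h' := by
  subst hx hy
  rfl

/-- the abscissa, `0` at infinity -/
def xc {a b c : K} : PG a b c → K
  | .zero => 0
  | .some x _ _ => x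

/-- the ordinate, `0` at infinity -/
def yc {a b c : K} : PG a b c → K
  | .zero => 0
  | .some _ y _ => y

theorem xc_some {a b c x y : K} (h : (SG a b c).toAffine.Nonsingular x y) :
    xc (Affine.Point.some x y h : PG a b c) = x := rfl

theorem yc_some {a b c x y : K} (h : (SG a b c).toAffine.Nonsingular x y) :
    yc (Affine.Point.some x y h : PG a b c) = y := rfl

/-- points with the same abscissa are equal or opposite -/
theorem xc_eq {a b c : K} {P Q : PG a b c} (hP : P ≠ 0) (hQ : Q ≠ 0) (h : xc P = xc Q) :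
    P = Q ∨ P = -Q := by
  rcases P with _ | ⟨x, y, h1⟩
  · exact absurd rfl hP
  rcases Q with _ | ⟨x', y', h2⟩
  · exact absurd rfl hQ
  change x = x' at h
  subst h
  obtain ⟨h3, e⟩ := sg_neg h2
  have h4 := sg_eq h1
  have h5 := sg_eq h2
  have h6 : (y - y') * (y + y') = 0 := by linear_combination h4 - h5
  rcases mul_eq_zero.1 h6 with h7 | h7
  · exact Or.inl (pg_congr _ _ rfl (by linear_combination h7))
  · right
    rw [e]
    exact pg_congr _ _ rfl (by linear_combination h7)

variable [DecidableEq K]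

/-- the points of order `2` are those with `y = 0` -/
theorem sg_two [CharZero K] {a b c x y : K} (h : (SG a b c).toAffine.Nonsingular x y) :
    2 • (Affine.Point.some x y h : PG a b c) = 0 ↔ y = 0 := by
  rw [two_nsmul]
  obtain ⟨h', e⟩ := sg_neg h
  constructor
  · intro h1
    have h2 : (Affine.Point.some x y h : PG a b c) = -Affine.Point.some x y h :=
      eq_neg_of_add_eq_zero_left h1
    rw [e] at h2
    injection h2 with _ h3
    have h4 : (2 : K) * y = 0 := by linear_combination h3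
    exact (mul_eq_zero.1 h4).resolve_left two_ne_zero
  · intro h1
    have h2 : (Affine.Point.some x y h : PG a b c) = -Affine.Point.some x y h := by
      rw [e]
      exact pg_congr _ _ rfl (by rw [h1]; ring)
    nth_rewrite 2 [h2]
    exact add_neg_cancel _

/-- the doubling formula -/
theorem sg_double [CharZero K] {a b c x y : K} (h : (SG a b c).toAffine.Nonsingular x y) (hy : y ≠ 0)
    (hΔ : (SG a b c).Δ ≠ 0) :
    ∃ h', 2 • (Affine.Point.some x y h : PG a b c) = Affine.Point.some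
      (((3 * x ^ 2 + 2 * a * x + b) / (2 * y)) ^ 2 - a - 2 * x)
      (-((3 * x ^ 2 + 2 * a * x + b) / (2 * y) *
        (((3 * x ^ 2 + 2 * a * x + b) / (2 * y)) ^ 2 - a - 2 * x - x) + y)) h' := by
  set l := (3 * x ^ 2 + 2 * a * x + b) / (2 * y) with hl
  have hE := sg_eq h
  have hly : 2 * y * l = 3 * x ^ 2 + 2 * a * x + b := by
    rw [hl]
    field_simp
  clear_value l
  have hy3 : (l * (l ^ 2 - a - 2 * x - x) + y) ^ 2 = (l ^ 2 - a - 2 * x) ^ 3 +
      a * (l ^ 2 - a - 2 * x) ^ 2 + b * (l ^ 2 - a - 2 * x) + c := by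
    linear_combination hE + (l ^ 2 - a - 3 * x) * hly
  have h3 := sg_ns hΔ hy3
  have h4 : (-(l * (l ^ 2 - a - 2 * x - x) + y)) ^ 2 = (l ^ 2 - a - 2 * x) ^ 3 +
      a * (l ^ 2 - a - 2 * x) ^ 2 + b * (l ^ 2 - a - 2 * x) + c := by
    rw [neg_sq]
    exact hy3
  refine ⟨sg_ns hΔ h4, ?_⟩
  have hsum := line_sum (l := l) (n := y - l * x) h h h3 (by ring) (by ring) (by ring)
    (sg_line (by ring) (by linear_combination hly) (by linear_combination x * hly - hE))
  obtain ⟨h5, e⟩ := sg_neg h3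
  rw [two_nsmul, eq_neg_of_add_eq_zero_left hsum, e]

/-- the addition formula for points with different abscissas -/
theorem sg_add {a b c x1 y1 x2 y2 : K} (hΔ : (SG a b c).Δ ≠ 0)
    (h1 : (SG a b c).toAffine.Nonsingular x1 y1) (h2 : (SG a b c).toAffine.Nonsingular x2 y2)
    (hx : x1 ≠ x2) :
    ∃ h', (Affine.Point.some x1 y1 h1 : PG a b c) + Affine.Point.some x2 y2 h2 = Affine.Point.some
      (((y1 - y2) / (x1 - x2)) ^ 2 - a - x1 - x2)
      (-((y1 - y2) / (x1 - x2) * (((y1 - y2) / (x1 - x2)) ^ 2 - a - x1 - x2 - x1) + y1)) h' := by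
  have hd : x1 - x2 ≠ 0 := sub_ne_zero.2 hx
  set l := (y1 - y2) / (x1 - x2) with hl
  have hE1 := sg_eq h1
  have hE2 := sg_eq h2
  have hly : l * (x1 - x2) = y1 - y2 := by
    rw [hl]
    field_simp
  clear_value l
  have hy2 : y2 = y1 - l * (x1 - x2) := by linear_combination hly
  have key : (x1 - x2) * (x1 ^ 2 + x1 * x2 + x2 ^ 2 + a * (x1 + x2) + b - l * (y1 + y2)) = 0 := by
    linear_combination hE2 - hE1 - (y1 + y2) * hly
  have key' : x1 ^ 2 + x1 * x2 + x2 ^ 2 + a * (x1 + x2) + b - l * (y1 + y2) = 0 :=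
    (mul_eq_zero.1 key).resolve_left hd
  have hy3 : (l * (l ^ 2 - a - x1 - x2 - x1) + y1) ^ 2 = (l ^ 2 - a - x1 - x2) ^ 3 +
      a * (l ^ 2 - a - x1 - x2) ^ 2 + b * (l ^ 2 - a - x1 - x2) + c := by
    rw [hy2] at key'
    linear_combination hE1 + (l ^ 2 - a - 2 * x1 - x2) * (-key')
  have h3 := sg_ns hΔ hy3
  have h4 : (-(l * (l ^ 2 - a - x1 - x2 - x1) + y1)) ^ 2 = (l ^ 2 - a - x1 - x2) ^ 3 +
      a * (l ^ 2 - a - x1 - x2) ^ 2 + b * (l ^ 2 - a - x1 - x2) + c := by
    rw [neg_sq]
    exact hy3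
  refine ⟨sg_ns hΔ h4, ?_⟩
  rw [hy2] at key'
  have hsum := line_sum (l := l) (n := y1 - l * x1) h1 h2 h3 (by ring) (by rw [hy2]; ring) (by ring)
    (sg_line (by ring) (by linear_combination -key') (by linear_combination -x1 * key' - hE1))
  obtain ⟨h5, e⟩ := sg_neg h3
  rw [eq_neg_of_add_eq_zero_left hsum, e]

/-- the data of an isogeny of degree `p = 2 m + 1` with kernel generated by `T` -/
structure IsVel (p m : ℕ) (a b c a' b' c' : K) (N h B : K[X]) (T : PG a b c) : Prop where
  hp : p.Prime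
  hpm : p = 2 * m + 1
  Nm : N.Monic
  Nd : N.natDegree = p
  Hm : h.Monic
  Hd : h.natDegree = m
  Be : B = derivative N * h - 2 * N * derivative h
  eqn : (X ^ 3 + C a * X ^ 2 + C b * X + C c) * B ^ 2 =
    N ^ 3 + C a' * N ^ 2 * h ^ 2 + C b' * N * h ^ 4 + C c' * h ^ 6
  cop : ∀ x, h.eval x = 0 → N.eval x ≠ 0
  T0 : T ≠ 0
  Tp : p • T = 0
  ker : ∀ x y hxy, h.eval x = 0 ↔
    (Affine.Point.some x y hxy : PG a b c) ∈ AddSubgroup.zmultiples T
  inv : ∀ P : PG a b c, P ∉ AddSubgroup.zmultiples T →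
    N.eval (xc (P + T)) * h.eval (xc P) ^ 2 = N.eval (xc P) * h.eval (xc (P + T)) ^ 2 ∧
    yc (P + T) * B.eval (xc (P + T)) * h.eval (xc P) ^ 3 =
      yc P * B.eval (xc P) * h.eval (xc (P + T)) ^ 3

/-- `φ` is the isogeny with the data `N, h, B, T` -/
structure IsPhi {a b c : K} (a' b' c' : K) (N h B : K[X]) (T : PG a b c) (φ : PG a b c → PG a' b' c') :
    Prop where
  k0 : ∀ P ∈ AddSubgroup.zmultiples T, φ P = 0
  k1 : ∀ x y hxy, h.eval x ≠ 0 → ∃ h', φ (Affine.Point.some x y hxy) =
    Affine.Point.some (N.eval x / h.eval x ^ 2) (y * B.eval x / h.eval x ^ 3) h'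
  neg : ∀ P, φ (-P) = -φ P
  fib : ∀ P Q, φ P = φ Q ↔ P - Q ∈ AddSubgroup.zmultiples T
  surj : Function.Surjective φ

end Basic

/-- the algebraic numbers -/
abbrev Qb : Type := AlgebraicClosure ℚ

noncomputable instance decQb : DecidableEq Qb := Classical.decEq _

end Pool.Agent.RkT
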