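import Pool.Agent.RkT.VDefs

/-!
# RkT, module VFin: finite and infinite sets of points

`pg_infinite`: `K` is infinite (algebraically closed), for every `x` there is `y` with
`y² = x³ + a x² + b x + c`, and `(x, y)` is nonsingular (`sg_ns`): an injection of `K` into the set of points.
`two_finite`: by `sg_two` the points are `0` and the `(x, 0)` with `x` a root of `X³ + a X² + b X + c`.
`fin_double`: homogeneous doubling.  Let `U₀ = X`, `V₀ = 1` and
`U' = U⁴ - 2 b U² V² - 8 c U V³ + (b² - 4 a c) V⁴`, `V' = 4 V (U³ + a U² V + b U V² + c V³)` (polynomials in `K[X]`).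
(`sg_double`: the abscissa of `2 (x, y)` is `(x⁴ - 2 b x² - 8 c x + b² - 4 a c) / (4 (x³ + a x² + b x + c))`, as
`4 y² = 4 (x³ + a x² + b x + c)`.)  By induction on `k`: `U_k` is monic of degree `4^k`; `V_k` has degree
at most `4^k - 1` and the coefficient of `X^(4^k - 1)` in `V_k` is `4^k`; and if `2^j P ≠ 0` for all `j ≤ k` then
`V_k (x) ≠ 0` and `xc (2^k P) = U_k (x) / V_k (x)`, `x = xc P` (if `Q = 2^k P`, `2 Q ≠ 0` then `yc Q ≠ 0` by `sg_two`,
and `V' = 4 V⁴ (yc Q)²`).  Let `k ≥ 1` and `2^k P = P` or `2^k P = -P`, `P ≠ 0`.  Then `2^j P ≠ 0` for all `j ≤ k`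
(else `2^k P = 0`) and `xc P = xc (2^k P)`, so `xc P` is a root of `U_k - X V_k`, whose coefficient at
`X^(4^k)` is `1 - 4^k ≠ 0`.  So there are finitely many possible `xc P`, and for every abscissa at most two points
(`xc_eq`).
`fin_five`: `5 P = 0` gives `2² P = -P`.  `fin_seven`: `7 P = 0` gives `2³ P = P`.
-/

set_option autoImplicit false

namespace Pool.Agent.RkT

open WeierstrassCurve Polynomial

variable {K : Type} [Field K] [DecidableEq K]

theorem pg_infinite [IsAlgClosed K] {a b c : K} (hΔ : (SG a b c).Δ ≠ 0) : Infinite (PG a b c) := by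
  have h1 : ∀ x : K, ∃ y : K, y ^ 2 = x ^ 3 + a * x ^ 2 + b * x + c := by
    intro x
    exact IsAlgClosed.exists_pow_nat_eq _ (by norm_num)
  choose f hf using h1
  have : Infinite K := IsAlgClosed.instInfinite
  refine Infinite.of_injective (fun x : K => (Affine.Point.some x (f x) (sg_ns hΔ (hf x)) : PG a b c)) ?_
  intro x y hxy
  have h2 := congrArg xc hxy
  exact h2

private theorem fin_of_xc {a b c : K} (S : Set (PG a b c)) (T : Set K) (hT : T.Finite)
    (h : ∀ P ∈ S, P ≠ 0 → xc P ∈ T) : S.Finite := by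
  have h1 : (S \ {0}).Finite := by
    have h2 : ∀ x ∈ T, ({P : PG a b c | P ≠ 0 ∧ xc P = x}).Finite := by
      intro x _
      by_cases hx : ∃ P0 : PG a b c, P0 ≠ 0 ∧ xc P0 = x
      · obtain ⟨P0, h3, h4⟩ := hx
        refine (Set.toFinite ({P0, -P0} : Set (PG a b c))).subset ?_
        rintro P ⟨h5, h6⟩
        exact xc_eq h5 h3 (h6.trans h4.symm)
      · push Not at hx
        refine Set.finite_empty.subset ?_
        rintro P ⟨h5, h6⟩
        exact absurd h6 (hx P h5)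
    refine (hT.biUnion h2).subset ?_
    rintro P ⟨h3, h4⟩
    have h5 : P ≠ 0 := h4
    exact Set.mem_biUnion (h P h3 h5) ⟨h5, rfl⟩
  refine (h1.union (Set.finite_singleton (0 : PG a b c))).subset ?_
  intro P hP
  by_cases h2 : P = 0
  · exact Or.inr h2
  · exact Or.inl ⟨hP, h2⟩

theorem two_finite [CharZero K] (a b c : K) : {P : PG a b c | 2 • P = 0}.Finite := by
  set f : K[X] := X ^ 3 + C a * X ^ 2 + C b * X + C c with hf
  have hf0 : f ≠ 0 := by
    intro h0
    have h1 : f.coeff 3 = 1 := by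
      rw [hf]
      simp
    rw [h0] at h1
    simp at h1
  refine fin_of_xc _ (f.rootSet K) (Polynomial.rootSet_finite f K) ?_
  intro P hP h0
  rcases P with _ | ⟨x, y, h1⟩
  · exact absurd rfl h0
  have h2 : y = 0 := (sg_two h1).1 hP
  have h3 := sg_eq h1
  rw [Polynomial.mem_rootSet]
  refine ⟨hf0, ?_⟩
  change aeval x f = 0
  rw [hf]
  simp only [map_add, map_mul, map_pow, aeval_X, aeval_C, Algebra.algebraMap_self, RingHom.id_apply]
  rw [← h3, h2]
  ring

/-- the iterated doubling polynomials -/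
private noncomputable def UV (a b c : K) : ℕ → K[X] × K[X]
  | 0 => (X, 1)
  | k + 1 => ((UV a b c k).1 ^ 4 - C (2 * b) * ((UV a b c k).1 ^ 2 * (UV a b c k).2 ^ 2) -
      C (8 * c) * ((UV a b c k).1 * (UV a b c k).2 ^ 3) + C (b ^ 2 - 4 * a * c) * (UV a b c k).2 ^ 4,
      C 4 * ((UV a b c k).2 * (UV a b c k).1 ^ 3) + C (4 * a) * ((UV a b c k).2 ^ 2 * (UV a b c k).1 ^ 2) +
      C (4 * b) * ((UV a b c k).2 ^ 3 * (UV a b c k).1) + C (4 * c) * (UV a b c k).2 ^ 4)

private theorem uv_step (a b c r : K) (M : ℕ) (u v : K[X]) (hu : u.natDegree ≤ M + 1)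
    (hu1 : u.coeff (M + 1) = 1) (hv : v.natDegree ≤ M) (hv1 : v.coeff M = r) :
    (u ^ 4 - C (2 * b) * (u ^ 2 * v ^ 2) - C (8 * c) * (u * v ^ 3) +
      C (b ^ 2 - 4 * a * c) * v ^ 4).natDegree ≤ 4 * M + 4 ∧
    (u ^ 4 - C (2 * b) * (u ^ 2 * v ^ 2) - C (8 * c) * (u * v ^ 3) +
      C (b ^ 2 - 4 * a * c) * v ^ 4).coeff (4 * M + 4) = 1 ∧
    (C 4 * (v * u ^ 3) + C (4 * a) * (v ^ 2 * u ^ 2) + C (4 * b) * (v ^ 3 * u) +
      C (4 * c) * v ^ 4).natDegree ≤ 4 * M + 3 ∧
    (C 4 * (v * u ^ 3) + C (4 * a) * (v ^ 2 * u ^ 2) + C (4 * b) * (v ^ 3 * u) +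
      C (4 * c) * v ^ 4).coeff (4 * M + 3) = 4 * r := by
  have p2 : (u ^ 2).natDegree ≤ 2 * (M + 1) := natDegree_pow_le_of_le 2 hu
  have p3 : (u ^ 3).natDegree ≤ 3 * (M + 1) := natDegree_pow_le_of_le 3 hu
  have p4 : (u ^ 4).natDegree ≤ 4 * (M + 1) := natDegree_pow_le_of_le 4 hu
  have q2 : (v ^ 2).natDegree ≤ 2 * M := natDegree_pow_le_of_le 2 hv
  have q3 : (v ^ 3).natDegree ≤ 3 * M := natDegree_pow_le_of_le 3 hv
  have q4 : (v ^ 4).natDegree ≤ 4 * M := natDegree_pow_le_of_le 4 hv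
  have m22 : (u ^ 2 * v ^ 2).natDegree ≤ 4 * M + 2 :=
    (natDegree_mul_le_of_le p2 q2).trans (by omega)
  have m13 : (u * v ^ 3).natDegree ≤ 4 * M + 1 :=
    (natDegree_mul_le_of_le hu q3).trans (by omega)
  have n13 : (v * u ^ 3).natDegree ≤ 4 * M + 3 :=
    (natDegree_mul_le_of_le hv p3).trans (by omega)
  have n22 : (v ^ 2 * u ^ 2).natDegree ≤ 4 * M + 2 :=
    (natDegree_mul_le_of_le q2 p2).trans (by omega)
  have n31 : (v ^ 3 * u).natDegree ≤ 4 * M + 1 :=
    (natDegree_mul_le_of_le q3 hu).trans (by omega)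
  have c4 : (u ^ 4).coeff (4 * M + 4) = 1 := by
    have h := coeff_pow_of_natDegree_le (m := 4) hu
    rw [hu1, one_pow] at h
    rw [← h]
    congr 1
  have c3 : (u ^ 3).coeff (3 * M + 3) = 1 := by
    have h := coeff_pow_of_natDegree_le (m := 3) hu
    rw [hu1, one_pow] at h
    rw [← h]
    congr 1
  have c13 : (v * u ^ 3).coeff (4 * M + 3) = r := by
    have h := coeff_mul_add_eq_of_natDegree_le hv (p3.trans (by omega : 3 * (M + 1) ≤ 3 * M + 3))
    rw [hv1, c3, mul_one] at h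
    rw [← h]
    congr 1
    ring
  refine ⟨?_, ?_, ?_, ?_⟩
  · refine natDegree_add_le_of_degree_le (natDegree_sub_le_of_le (natDegree_sub_le_of_le
      (p4.trans (by omega)) ?_ |>.trans (le_of_eq (max_self _))) ?_ |>.trans
      (le_of_eq (max_self _))) ?_
    · exact (natDegree_C_mul_le _ _).trans (m22.trans (by omega))
    · exact (natDegree_C_mul_le _ _).trans (m13.trans (by omega))
    · exact (natDegree_C_mul_le _ _).trans (q4.trans (by omega))
  · rw [coeff_add, coeff_sub, coeff_sub, coeff_C_mul, coeff_C_mul, coeff_C_mul, c4,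
      coeff_eq_zero_of_natDegree_lt (lt_of_le_of_lt m22 (by omega)),
      coeff_eq_zero_of_natDegree_lt (lt_of_le_of_lt m13 (by omega)),
      coeff_eq_zero_of_natDegree_lt (lt_of_le_of_lt q4 (by omega))]
    ring
  · refine natDegree_add_le_of_degree_le (natDegree_add_le_of_degree_le
      (natDegree_add_le_of_degree_le ?_ ?_) ?_) ?_
    · exact (natDegree_C_mul_le _ _).trans n13
    · exact (natDegree_C_mul_le _ _).trans (n22.trans (by omega))
    · exact (natDegree_C_mul_le _ _).trans (n31.trans (by omega))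
    · exact (natDegree_C_mul_le _ _).trans (q4.trans (by omega))
  · rw [coeff_add, coeff_add, coeff_add, coeff_C_mul, coeff_C_mul, coeff_C_mul, coeff_C_mul, c13,
      coeff_eq_zero_of_natDegree_lt (lt_of_le_of_lt n22 (by omega)),
      coeff_eq_zero_of_natDegree_lt (lt_of_le_of_lt n31 (by omega)),
      coeff_eq_zero_of_natDegree_lt (lt_of_le_of_lt q4 (by omega))]
    ring

private theorem uv_deg (a b c : K) (k : ℕ) : ∃ M : ℕ, 4 ^ k = M + 1 ∧
    (UV a b c k).1.natDegree ≤ M + 1 ∧ (UV a b c k).1.coeff (M + 1) = 1 ∧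
    (UV a b c k).2.natDegree ≤ M ∧ (UV a b c k).2.coeff M = 4 ^ k := by
  induction k with
  | zero =>
    refine ⟨0, by norm_num, ?_, ?_, ?_, ?_⟩
    · simp [UV]
    · simp [UV]
    · simp [UV]
    · simp [UV]
  | succ k ih =>
    obtain ⟨M, hM, h1, h2, h3, h4⟩ := ih
    obtain ⟨g1, g2, g3, g4⟩ := uv_step a b c (4 ^ k) M _ _ h1 h2 h3 h4
    refine ⟨4 * M + 3, by rw [pow_succ, hM]; ring, ?_, ?_, ?_, ?_⟩
    · exact g1
    · exact g2
    · exact g3
    · rw [pow_succ', ← g4]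
      rfl

private theorem uv_eval [CharZero K] {a b c : K} (hΔ : (SG a b c).Δ ≠ 0) (P : PG a b c) (k : ℕ)
    (hP : ∀ j ≤ k, 2 ^ j • P ≠ 0) :
    (UV a b c k).2.eval (xc P) ≠ 0 ∧
      xc (2 ^ k • P) = (UV a b c k).1.eval (xc P) / (UV a b c k).2.eval (xc P) := by
  induction k with
  | zero => simp [UV]
  | succ k ih =>
    obtain ⟨h1, h2⟩ := ih (fun j hj => hP j (hj.trans (Nat.le_succ k)))
    have h3 : (2 : ℕ) ^ (k + 1) • P = 2 • (2 ^ k • P) := by
      rw [← mul_nsmul', ← pow_succ']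
    have h4 := hP (k + 1) le_rfl
    have h5 := hP k (Nat.le_succ k)
    rw [h3] at h4 ⊢
    set Q : PG a b c := 2 ^ k • P with hQ
    clear_value Q
    rcases Q with _ | ⟨x, y, hxy⟩
    · exact absurd rfl h5
    have hy : y ≠ 0 := fun h => h4 ((sg_two hxy).2 h)
    obtain ⟨h', e⟩ := sg_double hxy hy hΔ
    rw [e, xc_some]
    rw [xc_some] at h2
    have hE := sg_eq hxy
    set u := (UV a b c k).1.eval (xc P) with hu
    set v := (UV a b c k).2.eval (xc P) with hv
    have hux : u = x * v := by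
      rw [h2]
      field_simp
    have e1 : (UV a b c (k + 1)).1.eval (xc P) = u ^ 4 - 2 * b * (u ^ 2 * v ^ 2) -
        8 * c * (u * v ^ 3) + (b ^ 2 - 4 * a * c) * v ^ 4 := by
      rw [hu, hv]
      simp only [UV, eval_add, eval_sub, eval_mul, eval_pow, eval_C]
    have e2 : (UV a b c (k + 1)).2.eval (xc P) = 4 * (v * u ^ 3) + 4 * a * (v ^ 2 * u ^ 2) +
        4 * b * (v ^ 3 * u) + 4 * c * v ^ 4 := by
      rw [hu, hv]
      simp only [UV, eval_add, eval_mul, eval_pow, eval_C]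
    have e3 : (UV a b c (k + 1)).2.eval (xc P) = 4 * v ^ 4 * y ^ 2 := by
      rw [e2, hux]
      linear_combination (-4 * v ^ 4) * hE
    have e4 : (UV a b c (k + 1)).1.eval (xc P) = v ^ 4 * (x ^ 4 - 2 * b * x ^ 2 - 8 * c * x +
        (b ^ 2 - 4 * a * c)) := by
      rw [e1, hux]
      ring
    have h6 : (4 : K) * v ^ 4 * y ^ 2 ≠ 0 :=
      mul_ne_zero (mul_ne_zero (by norm_num) (pow_ne_zero 4 h1)) (pow_ne_zero 2 hy)
    refine ⟨by rw [e3]; exact h6, ?_⟩
    rw [e3, e4, eq_div_iff h6]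
    have h7 : ((3 * x ^ 2 + 2 * a * x + b) / (2 * y)) ^ 2 * (4 * y ^ 2) =
        (3 * x ^ 2 + 2 * a * x + b) ^ 2 := by
      field_simp
      ring
    linear_combination v ^ 4 * h7 - (4 * v ^ 4 * (a + 2 * x)) * hE

theorem fin_double [CharZero K] {a b c : K} (hΔ : (SG a b c).Δ ≠ 0) (k : ℕ) (hk : 1 ≤ k) :
    {P : PG a b c | 2 ^ k • P = P ∨ 2 ^ k • P = -P}.Finite := by
  obtain ⟨M, hM, h1, h2, h3, h4⟩ := uv_deg a b c k
  set F : K[X] := (UV a b c k).1 - X * (UV a b c k).2 with hF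
  have hF0 : F ≠ 0 := by
    intro h0
    have h5 : F.coeff (M + 1) = 1 - 4 ^ k := by
      rw [hF, coeff_sub, coeff_X_mul, h2, h4]
    rw [h0, coeff_zero] at h5
    have h6 : ((4 ^ k : ℕ) : K) = ((1 : ℕ) : K) := by
      push_cast
      linear_combination h5
    have h7 : (4 : ℕ) ^ k = 1 := Nat.cast_injective h6
    have h8 : 1 < (4 : ℕ) ^ k := Nat.one_lt_pow (by omega) (by norm_num)
    omega
  refine fin_of_xc _ (F.rootSet K) (Polynomial.rootSet_finite F K) ?_
  intro P hP h0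
  have h5 : (2 : ℕ) ^ k • P ≠ 0 := by
    rcases hP with h | h
    · rw [h]; exact h0
    · rw [h]; exact neg_ne_zero.2 h0
  have h6 : ∀ j ≤ k, (2 : ℕ) ^ j • P ≠ 0 := by
    intro j hj h7
    apply h5
    obtain ⟨i, rfl⟩ := Nat.exists_eq_add_of_le hj
    rw [pow_add, mul_comm, mul_nsmul', h7, smul_zero]
  obtain ⟨h7, h8⟩ := uv_eval hΔ P k h6
  have h9 : xc (2 ^ k • P) = xc P := by
    rcases hP with h | h
    · rw [h]
    · rw [h]
      rcases P with _ | ⟨x, y, hxy⟩
      · exact absurd rfl h0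
      obtain ⟨h', e⟩ := sg_neg hxy
      rw [e, xc_some, xc_some]
  rw [h9, eq_div_iff h7] at h8
  rw [Polynomial.mem_rootSet]
  refine ⟨hF0, ?_⟩
  rw [coe_aeval_eq_eval, hF, eval_sub, eval_mul, eval_X, ← h8]
  ring

theorem fin_five [CharZero K] {a b c : K} (hΔ : (SG a b c).Δ ≠ 0) :
    {P : PG a b c | 5 • P = 0}.Finite := by
  refine (fin_double hΔ 2 (by norm_num)).subset ?_
  intro P hP
  right
  have h : (5 : ℕ) • P = 0 := hP
  have h' : 2 ^ 2 • P + P = 0 := by
    rw [← h]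
    abel
  exact eq_neg_of_add_eq_zero_left h'

theorem fin_seven [CharZero K] {a b c : K} (hΔ : (SG a b c).Δ ≠ 0) :
    {P : PG a b c | 7 • P = 0}.Finite := by
  refine (fin_double hΔ 3 (by norm_num)).subset ?_
  intro P hP
  left
  have h : (7 : ℕ) • P = 0 := hP
  have h' : 2 ^ 3 • P = 7 • P + P := by abel
  rw [h', h, zero_add]

end Pool.Agent.RkT
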