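import Pool.Agent.RkT.VAbel

/-!
# RkT, module VLine: three points with sum zero on the quotient

`three_sum`.  `φ P, φ Q, φ R` are pairwise different and not `0` and have sum `0`; by `sum_line` (for `SG`, see
`sg_line_iff`) there are `l, n` with `Y = l X + n` for the three points `(X, Y)`.  Let
`q = B`, `p' = -(C l * N * h + C n * h ^ 3)`.  The polynomial `p'² - B² f`, `f = X³ + a X² + b X + c`, has degree
`3 p`: `deg (B² f) = 2 * 3 m + 3 = 3 p` (`B = N' h - 2 N h'` has degree `p - 1 + m = 3 m` and leading coefficient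
`p - 2 m = 1`, the coefficient of `X^(3m)`; use `natDegree` bounds and `coeff`, `derivative` of monic polynomials),
and `deg p' ≤ p + m = 3 m + 1` (also `3 m ≤ 3 m + 1` for `h³`), so `deg p'² ≤ 6 m + 2 < 3 p = 6 m + 3`.
Let `S` be the set of the `3 p` points `P + i T`, `Q + i T`, `R + i T`, `i < p` (different: `φ P, φ Q, φ R` are
different and `φ (P + i T) = φ P` by `hφ.fib`; `i T ≠ j T` for `i ≠ j < p`).  None of them is `0` (`φ 0 = 0`), none is in
`⟨T⟩` (`hφ.k0`), so `h x ≠ 0` at them (`V.ker`), and for such a point `(x, y)` over `(X, Y)`, `X = N x / (h x)²`,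
`Y = y B x / (h x)³`, the equation `Y = l X + n` gives `y B x = l N x h x + n (h x)³`.  `abel_sum` gives
`∑_S = 0`, and `∑_{i < p} (P + i T) = p P + (p (p - 1) / 2) T = p P` as `p` divides `p (p - 1) / 2 = p m`.
-/

set_option autoImplicit false

namespace Pool.Agent.RkT

open WeierstrassCurve Polynomial

variable {K : Type} [Field K] [DecidableEq K]

/-- the degree of the function of the line -/
private theorem deg_line {p m : ℕ} {a b c a' b' c' : K} {N h B : K[X]} {T : PG a b c}
    (V : IsVel p m a b c a' b' c' N h B T) (l n : K) :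
    ((-(C l * N * h + C n * h ^ 3)) ^ 2 -
      B ^ 2 * (X ^ 3 + C a * X ^ 2 + C b * X + C c)).natDegree = 3 * p := by
  have e : (-(C l * N * h + C n * h ^ 3)) ^ 2 - B ^ 2 * (X ^ 3 + C a * X ^ 2 + C b * X + C c) =
      -(N ^ 3 - ((C l * N * h + C n * h ^ 3) ^ 2 -
        (C a' * N ^ 2 * h ^ 2 + C b' * N * h ^ 4 + C c' * h ^ 6))) := by
    linear_combination -V.eqn
  rw [e, natDegree_neg]
  have hNd := V.Nd
  have hHd := V.Hd
  have hpm := V.hpm
  have hN3 : (N ^ 3).natDegree = 3 * p := by
    rw [natDegree_pow, hNd]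
  have h1 : (C l * N * h + C n * h ^ 3).natDegree ≤ 3 * m + 1 := by
    refine natDegree_add_le_of_degree_le ?_ ?_
    · refine (natDegree_mul_le).trans ?_
      have := natDegree_C_mul_le l N
      omega
    · refine (natDegree_C_mul_le _ _).trans ?_
      refine (natDegree_pow_le).trans ?_
      rw [hHd]
      omega
  have h2 : ((C l * N * h + C n * h ^ 3) ^ 2).natDegree ≤ 6 * m + 2 := by
    refine (natDegree_pow_le).trans ?_
    omega
  have h3 : (C a' * N ^ 2 * h ^ 2).natDegree ≤ 6 * m + 2 := by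
    refine (natDegree_mul_le).trans ?_
    have e1 := natDegree_C_mul_le a' (N ^ 2)
    have e2 : (N ^ 2).natDegree ≤ 2 * N.natDegree := natDegree_pow_le
    have e3 : (h ^ 2).natDegree ≤ 2 * h.natDegree := natDegree_pow_le
    omega
  have h4 : (C b' * N * h ^ 4).natDegree ≤ 6 * m + 2 := by
    refine (natDegree_mul_le).trans ?_
    have e1 := natDegree_C_mul_le b' N
    have e3 : (h ^ 4).natDegree ≤ 4 * h.natDegree := natDegree_pow_le
    omega
  have h5 : (C c' * h ^ 6).natDegree ≤ 6 * m + 2 := by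
    refine (natDegree_C_mul_le _ _).trans ?_
    have e3 : (h ^ 6).natDegree ≤ 6 * h.natDegree := natDegree_pow_le
    omega
  have h6 : ((C l * N * h + C n * h ^ 3) ^ 2 -
        (C a' * N ^ 2 * h ^ 2 + C b' * N * h ^ 4 + C c' * h ^ 6)).natDegree ≤ 6 * m + 2 := by
    refine (natDegree_sub_le _ _).trans (max_le h2 ?_)
    exact natDegree_add_le_of_degree_le (natDegree_add_le_of_degree_le h3 h4) h5
  rw [natDegree_sub_eq_left_of_natDegree_lt]
  · exact hN3
  · rw [hN3]
    omega

/-- the function of the line vanishes at the points over the line -/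
private theorem zero_line {a b c a' b' c' : K} {N h B : K[X]} {T : PG a b c}
    {φ : PG a b c → PG a' b' c'}
    (hφ : IsPhi a' b' c' N h B T φ) (hker : ∀ x y hxy, h.eval x = 0 ↔
      (Affine.Point.some x y hxy : PG a b c) ∈ AddSubgroup.zmultiples T)
    {l n x y : K} (hxy : (SG a' b' c').toAffine.Nonsingular x y) (e : y = l * x + n)
    (P : PG a b c) (hP : φ P = Affine.Point.some x y hxy) :
    P ≠ 0 ∧ (-(C l * N * h + C n * h ^ 3)).eval (xc P) + B.eval (xc P) * yc P = 0 := by
  have hne : φ P ≠ 0 := by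
    rw [hP]
    exact Affine.Point.some_ne_zero hxy
  have hnT : P ∉ AddSubgroup.zmultiples T := fun h1 => hne (hφ.k0 P h1)
  have hP0 : P ≠ 0 := by
    rintro rfl
    exact hnT (zero_mem _)
  refine ⟨hP0, ?_⟩
  rcases P with _ | ⟨u, v, huv⟩
  · exact absurd rfl hP0
  have hh : h.eval u ≠ 0 := fun h1 => hnT ((hker u v huv).1 h1)
  obtain ⟨h', e'⟩ := hφ.k1 u v huv hh
  rw [hP] at e'
  injection e' with e1 e2
  rw [xc_some, yc_some]
  simp only [eval_neg, eval_add, eval_mul, eval_C, eval_pow]
  rw [e1, e2] at e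
  field_simp at e
  linear_combination e

/-- the sum over a coset -/
private theorem sum_coset {p m : ℕ} (hpm : p = 2 * m + 1) {G : Type} [AddCommGroup G] {T : G}
    (hT : p • T = 0) (P : G) : ∑ i : Fin p, (P + (i : ℕ) • T) = p • P := by
  rw [Finset.sum_add_distrib, Finset.sum_const, Finset.card_univ, Fintype.card_fin]
  have h1 : ∑ i : Fin p, (i : ℕ) • T = (∑ i : Fin p, (i : ℕ)) • T := by
    rw [Finset.sum_smul]
  have h2 : (∑ i : Fin p, (i : ℕ)) = p * m := by
    rw [Fin.sum_univ_eq_sum_range (fun i => i) p]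
    have h3 := Finset.sum_range_id_mul_two p
    have h4 : p - 1 = 2 * m := by omega
    rw [h4] at h3
    have h5 : p * (2 * m) = (p * m) * 2 := by ring
    rw [h5] at h3
    exact Nat.eq_of_mul_eq_mul_right (by norm_num) h3
  rw [h1, h2, mul_comm, mul_smul, hT, smul_zero, add_zero]

theorem three_sum [CharZero K] {p m : ℕ} {a b c a' b' c' : K} {N h B : K[X]} {T : PG a b c}
    (V : IsVel p m a b c a' b' c' N h B T) {φ : PG a b c → PG a' b' c'}
    (hφ : IsPhi a' b' c' N h B T φ) (P Q R : PG a b c) (h0 : φ P + φ Q + φ R = 0) (hP : φ P ≠ 0)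
    (hQ : φ Q ≠ 0) (hR : φ R ≠ 0) (h1 : φ P ≠ φ Q) (h2 : φ Q ≠ φ R) (h3 : φ P ≠ φ R) :
    p • P + p • Q + p • R = 0 := by
  classical
  rcases e1 : φ P with _ | ⟨x1, y1, g1⟩
  · exact absurd e1 hP
  rcases e2 : φ Q with _ | ⟨x2, y2, g2⟩
  · exact absurd e2 hQ
  rcases e3 : φ R with _ | ⟨x3, y3, g3⟩
  · exact absurd e3 hR
  rw [e1, e2, e3] at h0
  obtain ⟨l, n, k1, k2, k3, -⟩ := sum_line g1 g2 g3 h0
  let A : Fin 3 → PG a b c := ![P, Q, R]
  have hAi : Function.Injective (fun j => φ (A j)) := by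
    intro i j hij
    fin_cases i <;> fin_cases j <;> simp_all [A]
  have hfib : ∀ (D : PG a b c) (i : ℕ), φ (D + i • T) = φ D := by
    intro D i
    rw [hφ.fib]
    rw [add_sub_cancel_left]
    exact AddSubgroup.nsmul_mem _ (AddSubgroup.mem_zmultiples T) i
  have hord : addOrderOf T = p := by
    have := Fact.mk V.hp
    exact addOrderOf_eq_prime V.Tp V.T0
  have hTi : ∀ i j : Fin p, (i : ℕ) • T = (j : ℕ) • T → i = j := by
    intro i j hij
    have := nsmul_injOn_Iio_addOrderOf (x := T) (by rw [hord]; exact i.2) (by rw [hord]; exact j.2) hij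
    exact Fin.ext this
  let F : Fin 3 × Fin p → PG a b c := fun z => A z.1 + (z.2 : ℕ) • T
  have hF : Function.Injective F := by
    rintro ⟨j, i⟩ ⟨j', i'⟩ hz
    have h4 : φ (A j) = φ (A j') := by
      rw [← hfib (A j) i, ← hfib (A j') i']
      exact congrArg φ hz
    have h5 : j = j' := hAi h4
    subst h5
    have h6 : (i : ℕ) • T = (i' : ℕ) • T := add_left_cancel hz
    rw [hTi i i' h6]
  have hcard : (Finset.univ.image F).card = 3 * p := by
    rw [Finset.card_image_of_injective _ hF]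
    simp
  have hdeg := deg_line V l n
  have hsum := abel_sum (-(C l * N * h + C n * h ^ 3)) B (Finset.univ.image F) (by
      intro D hD
      obtain ⟨⟨j, i⟩, -, rfl⟩ := Finset.mem_image.1 hD
      have h7 : φ (F (j, i)) = φ (A j) := hfib (A j) i
      fin_cases j
      · exact zero_line hφ V.ker g1 k1 _ (h7.trans e1)
      · exact zero_line hφ V.ker g2 k2 _ (h7.trans e2)
      · exact zero_line hφ V.ker g3 k3 _ (h7.trans e3)) (by
      intro h8
      rw [h8, natDegree_zero] at hdeg
      have := V.hp.pos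
      omega) (by rw [hdeg, hcard])
  rw [Finset.sum_image (fun z _ z' _ hz => hF hz), Fintype.sum_prod_type, Fin.sum_univ_three] at hsum
  have s1 : ∀ j, ∑ i : Fin p, F (j, i) = p • A j := fun j => sum_coset V.hpm V.Tp (A j)
  rw [s1, s1, s1] at hsum
  exact hsum

end Pool.Agent.RkT
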