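import Pool.Agent.RkT.VDefs

/-!
# RkT, module VMap: the isogeny with given data as a map

`K` is algebraically closed of characteristic `0`.  Let `⟨T⟩ = zmultiples T` (a group with `p` elements: `T ≠ 0`,
`p T = 0`, `p` prime) and `f = X³ + a X² + b X + c`.  Put `φ P = 0` for `P ∈ ⟨T⟩` and
`φ (x, y) = (N x / (h x)², y B x / (h x)³)` otherwise.  If `(x, y) ∉ ⟨T⟩` then `h x ≠ 0` (`V.ker`), and by `V.eqn`
at `x` and `y² = f x` the image is on the second curve (nonsingular by `hΔ'`, `sg_ns`).  `neg`: `x, -y`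
(`sg_neg`).  `φ P ≠ 0` if `P ∉ ⟨T⟩`.
Invariance: for `P ∉ ⟨T⟩` the identities `V.inv P`, divided by powers of `h (xc P)` and `h (xc (P + T))` (both not
zero, `P + T ∉ ⟨T⟩`, in particular `P + T ≠ 0`) say `φ (P + T) = φ P`; by induction (and for `-T` as well, or since
every element of `⟨T⟩` is `i T` with `i` a natural number) `φ (P + S) = φ P` for `S ∈ ⟨T⟩`.
`surj`: `0 = φ 0`.  Let `(X', Y')` be on the second curve.  `G = N - C X' * h ^ 2` is monic of degree `p`
(`deg h² = 2 m < p`), so it has a root `x₀`; `h x₀ ≠ 0` by `V.cop` (else `N x₀ = 0`).  Choose `y₀` with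
`y₀² = f x₀` (`IsAlgClosed.exists_pow_nat_eq` or `IsAlgClosed.exists_eq_mul_self`); `(x₀, y₀)` is nonsingular by
`hΔ`, not in `⟨T⟩`, and by `V.eqn` `(y₀ B x₀ / (h x₀)³)² = Y'²`, so `φ (x₀, y₀)` or `φ (x₀, -y₀)` is `(X', Y')`.
`fib`, from left to right.  If `P ∈ ⟨T⟩` or `Q ∈ ⟨T⟩` then both are.  So let `P, Q ∉ ⟨T⟩`, `φ P = φ Q = (X', Y')`
and `G` as above.  For all `R ∉ ⟨T⟩` with `φ R = (X', Y')` the number `x = xc R` is a root of `G`; and if
`B x = 0` it is a multiple root: `h x * G' x = h (N' - 2 X' h h') = N' h - 2 N h' = B x = 0` (as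
`X' h² = N` at `x`).
Case 1: `2 P ∉ ⟨T⟩`.  The `p` numbers `xc (P + i T)`, `i < p`, are different (`xc_eq`:
`P + i T = P + j T` gives `i = j`, and `P + i T = -(P + j T)` gives `2 P ∈ ⟨T⟩`).  They are roots of `G`, which has
degree `p`, so they are all the roots and they are simple.  So `xc Q = xc (P + i T)` for some `i` and
`Q = ± (P + i T)` (`xc_eq`).  If `Q = P + i T` we are done.  If `Q = -(P + i T)`, then `φ Q = - φ P`, so
`2 φ P = 0`, `Y' = 0`, i.e. `yc P * B (xc P) = 0`; `yc P ≠ 0` as `2 P ≠ 0` (`sg_two`), so `B (xc P) = 0` and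
`xc P` is a multiple root: contradiction.
Case 2: `2 Q ∉ ⟨T⟩`: the same with `P` and `Q` exchanged.
Case 3: `2 P, 2 Q ∈ ⟨T⟩`.  As `p` is odd, `2 P = 2 S` with `S ∈ ⟨T⟩`; replace `P` by `P - S`, and similarly `Q`
(`φ` does not change).  So `2 P = 2 Q = 0`, `P = (e₁, 0)`, `Q = (e₂, 0)` and `Y' = 0`.  Suppose `P ≠ Q`; then
`e₁ ≠ e₂`.  For `1 ≤ i ≤ m` let `x_i = xc (P + i T)`; these are `m` different numbers (`xc_eq`:
`P + i T = -(P + j T)` gives `(i + j) T = 0`), different from `e₁` and `e₂` (as `2 (P + i T) = 2 i T ≠ 0`), and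
`yc (P + i T) ≠ 0`, `Y' = 0` give `B x_i = 0`, so they are multiple roots of `G`.  So `G`, of degree
`p = 2 m + 1`, would have at least `2 + 2 m` roots: contradiction.
-/

set_option linter.all false

namespace Pool.Agent.RkT

open WeierstrassCurve Polynomial

variable {K : Type} [Field K] [DecidableEq K]

private theorem count_double {G : K[X]} (hG : G ≠ 0) (S D : Finset K)
    (hS : ∀ x ∈ S, G.eval x = 0) (hDS : D ⊆ S) (hD : ∀ x ∈ D, (derivative G).eval x = 0) :
    S.card + D.card ≤ G.natDegree := by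
  have h1 : S.val + D.val ≤ G.roots := by
    rw [Multiset.le_iff_count]
    intro x
    rw [Multiset.count_add, count_roots, Multiset.count_eq_of_nodup S.nodup,
      Multiset.count_eq_of_nodup D.nodup]
    by_cases hx : x ∈ D
    · have hxS := hDS hx
      have h2 : 1 < G.rootMultiplicity x :=
        (one_lt_rootMultiplicity_iff_isRoot hG).2 ⟨hS x hxS, hD x hx⟩
      rw [if_pos (by exact hxS), if_pos (by exact hx)]
      omega
    · by_cases hxS : x ∈ S
      · have h2 : 0 < G.rootMultiplicity x := (rootMultiplicity_pos hG).2 (hS x hxS)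
        rw [if_pos (by exact hxS), if_neg (by exact hx)]
        omega
      · rw [if_neg (by exact hxS), if_neg (by exact hx)]
        omega
  have h2 := Multiset.card_le_card h1
  rw [Multiset.card_add] at h2
  exact le_trans h2 (card_roots' G)

theorem exists_phi [IsAlgClosed K] [CharZero K] {p m : ℕ} {a b c a' b' c' : K} {N h B : K[X]}
    {T : PG a b c} (hΔ : (SG a b c).Δ ≠ 0) (hΔ' : (SG a' b' c').Δ ≠ 0)
    (V : IsVel p m a b c a' b' c' N h B T) :
    ∃ φ : PG a b c → PG a' b' c', IsPhi a' b' c' N h B T φ := by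
  set Z := AddSubgroup.zmultiples T with hZ
  have hp1 : 1 < p := V.hp.one_lt
  have hm1 : 1 ≤ m := by
    have := V.hpm
    omega
  have hTZ : T ∈ Z := AddSubgroup.mem_zmultiples T
  -- the equation at a point
  have heqn : ∀ x : K, (x ^ 3 + a * x ^ 2 + b * x + c) * B.eval x ^ 2 =
      N.eval x ^ 3 + a' * N.eval x ^ 2 * h.eval x ^ 2 + b' * N.eval x * h.eval x ^ 4 +
        c' * h.eval x ^ 6 := by
    intro x
    have := congrArg (Polynomial.eval x) V.eqn
    simpa using this
  -- points outside Z
  have hout : ∀ P : PG a b c, P ∉ Z → P ≠ 0 ∧ h.eval (xc P) ≠ 0 ∧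
      ∃ hxy, P = Affine.Point.some (xc P) (yc P) hxy := by
    intro P hP
    rcases P with _ | ⟨x, y, h1⟩
    · exact absurd (zero_mem Z) hP
    · refine ⟨Affine.Point.some_ne_zero h1, ?_, h1, rfl⟩
      intro h2
      exact hP ((V.ker x y h1).1 h2)
  have hex : ∀ P : PG a b c, ∃ Q : PG a' b' c', (P ∈ Z → Q = 0) ∧
      (P ∉ Z → ∃ h', Q = Affine.Point.some (N.eval (xc P) / h.eval (xc P) ^ 2)
        (yc P * B.eval (xc P) / h.eval (xc P) ^ 3) h') := by
    intro P
    by_cases hP : P ∈ Z
    · exact ⟨0, fun _ => rfl, fun h1 => absurd hP h1⟩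
    · obtain ⟨h0, hh, hxy, hPe⟩ := hout P hP
      have hy := sg_eq hxy
      have he := heqn (xc P)
      have hns : (SG a' b' c').toAffine.Nonsingular (N.eval (xc P) / h.eval (xc P) ^ 2)
          (yc P * B.eval (xc P) / h.eval (xc P) ^ 3) := by
        apply sg_ns hΔ'
        field_simp
        rw [hy]
        linear_combination he
      exact ⟨Affine.Point.some _ _ hns, fun h1 => absurd h1 hP, fun _ => ⟨hns, rfl⟩⟩
  choose φ hφ0 hφ1 using hex
  -- negation
  have hneg : ∀ P, φ (-P) = -φ P := by
    intro P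
    by_cases hP : P ∈ Z
    · rw [hφ0 P hP, hφ0 _ (Z.neg_mem hP), neg_zero]
    · have hP' : -P ∉ Z := fun h1 => hP (by simpa using Z.neg_mem h1)
      obtain ⟨h0, hh, hxy, hPe⟩ := hout P hP
      obtain ⟨h1, e1⟩ := hφ1 P hP
      obtain ⟨h2, e2⟩ := hφ1 (-P) hP'
      obtain ⟨h3, e3⟩ := sg_neg h1
      obtain ⟨h4, e4⟩ := sg_neg hxy
      have hx : xc (-P) = xc P := by
        conv_lhs => rw [hPe, e4]
        rfl
      have hy : yc (-P) = -yc P := by
        conv_lhs => rw [hPe, e4]
        rfl
      rw [e1, e2, e3]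
      apply pg_congr
      · rw [hx]
      · rw [hx, hy]
        ring
  -- invariance
  have hinv1 : ∀ P, φ (P + T) = φ P := by
    intro P
    by_cases hP : P ∈ Z
    · rw [hφ0 P hP, hφ0 _ (Z.add_mem hP hTZ)]
    · have hP' : P + T ∉ Z := fun h1 => hP (by simpa using Z.sub_mem h1 hTZ)
      obtain ⟨h0, hh, hxy, hPe⟩ := hout P hP
      obtain ⟨h0', hh', hxy', hPe'⟩ := hout _ hP'
      obtain ⟨h1, e1⟩ := hφ1 P hP
      obtain ⟨h2, e2⟩ := hφ1 (P + T) hP'
      obtain ⟨i1, i2⟩ := V.inv P hP
      rw [e1, e2]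
      apply pg_congr
      · rw [div_eq_div_iff (pow_ne_zero _ hh') (pow_ne_zero _ hh)]
        exact i1
      · rw [div_eq_div_iff (pow_ne_zero _ hh') (pow_ne_zero _ hh)]
        exact i2
  have hinvn : ∀ (n : ℕ) P, φ (P + n • T) = φ P := by
    intro n
    induction n with
    | zero => intro P; rw [zero_nsmul, add_zero]
    | succ n ih => intro P; rw [succ_nsmul, ← add_assoc, hinv1, ih]
  have hZn : ∀ S ∈ Z, ∃ n : ℕ, S = n • T := by
    intro S hS
    obtain ⟨k, hk⟩ := AddSubgroup.mem_zmultiples_iff.1 hS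
    refine ⟨(k % p).toNat, ?_⟩
    have hp0 : (p : ℤ) ≠ 0 := by exact_mod_cast V.hp.ne_zero
    have h1 : ((k % p).toNat : ℤ) = k % p := Int.toNat_of_nonneg (Int.emod_nonneg _ hp0)
    have h2 : ((k % p).toNat : ℤ) • T = k • T := by
      rw [h1]
      have h3 : k = k % p + p * (k / p) := (Int.emod_add_mul_ediv k p).symm
      conv_rhs => rw [h3, add_zsmul, mul_comm, mul_zsmul, natCast_zsmul, V.Tp, zsmul_zero, add_zero]
    rw [← hk, ← h2, natCast_zsmul]
  have hinv : ∀ P S, S ∈ Z → φ (P + S) = φ P := by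
    intro P S hS
    obtain ⟨n, hn⟩ := hZn S hS
    rw [hn, hinvn]
  -- order of T
  have hord : ∀ k : ℤ, k • T = 0 → (p : ℤ) ∣ k := by
    intro k hk
    have h1 : addOrderOf T = p := by
      haveI := Fact.mk V.hp
      exact addOrderOf_eq_prime V.Tp V.T0
    rw [← h1]
    exact (addOrderOf_dvd_iff_zsmul_eq_zero).2 hk
  -- the polynomial G
  have hG : ∀ X' : K, (N - C X' * h ^ 2).natDegree = p ∧ N - C X' * h ^ 2 ≠ 0 := by
    intro X'
    have hd : (C X' * h ^ 2).natDegree < N.natDegree := by
      have h1 : (C X' * h ^ 2).natDegree ≤ 2 * m := by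
        refine le_trans (natDegree_C_mul_le _ _) ?_
        refine le_trans (natDegree_pow_le) ?_
        rw [V.Hd]
      rw [V.Nd]
      have := V.hpm
      omega
    have h2 : (N - C X' * h ^ 2).natDegree = p := by
      rw [natDegree_sub_eq_left_of_natDegree_lt hd, V.Nd]
    refine ⟨h2, ?_⟩
    intro h3
    rw [h3, natDegree_zero] at h2
    omega
  have hGr : ∀ (P : PG a b c), P ∉ Z → (N - C (xc (φ P)) * h ^ 2).eval (xc P) = 0 := by
    intro P hP
    obtain ⟨h0, hh, hxy, hPe⟩ := hout P hP
    obtain ⟨h1, e1⟩ := hφ1 P hP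
    rw [e1, xc_some]
    simp only [eval_sub, eval_mul, eval_C, eval_pow]
    field_simp
    ring
  have hGd : ∀ (P : PG a b c), P ∉ Z → B.eval (xc P) = 0 →
      (derivative (N - C (xc (φ P)) * h ^ 2)).eval (xc P) = 0 := by
    intro P hP hB
    obtain ⟨h0, hh, hxy, hPe⟩ := hout P hP
    obtain ⟨h1, e1⟩ := hφ1 P hP
    have hX : xc (φ P) * h.eval (xc P) ^ 2 = N.eval (xc P) := by
      rw [e1, xc_some]
      field_simp
    rw [V.Be] at hB
    simp only [eval_sub, eval_mul, eval_ofNat] at hB
    have h2 : h.eval (xc P) * (derivative (N - C (xc (φ P)) * h ^ 2)).eval (xc P) = 0 := by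
      simp only [derivative_sub, derivative_mul, derivative_C, derivative_pow, eval_sub, eval_mul,
        eval_add, eval_C, eval_pow, eval_zero, zero_mul, zero_add, eval_natCast]
      push_cast
      linear_combination hB - 2 * (derivative h).eval (xc P) * hX
    exact (mul_eq_zero.1 h2).resolve_left hh
  have hφne : ∀ P, P ∉ Z → φ P ≠ 0 := by
    intro P hP
    obtain ⟨h1, e1⟩ := hφ1 P hP
    rw [e1]
    exact Affine.Point.some_ne_zero h1
  -- if Y' = 0 and 2 P ≠ 0 then B = 0
  have hB0 : ∀ P, P ∉ Z → 2 • P ≠ 0 → 2 • φ P = 0 → B.eval (xc P) = 0 := by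
    intro P hP h2 h3
    obtain ⟨h0, hh, hxy, hPe⟩ := hout P hP
    obtain ⟨h1, e1⟩ := hφ1 P hP
    rw [e1, sg_two] at h3
    have h4 : yc P ≠ 0 := by
      intro h5
      apply h2
      rw [hPe, sg_two]
      exact h5
    rw [div_eq_zero_iff] at h3
    rcases h3 with h3 | h3
    · exact (mul_eq_zero.1 h3).resolve_left h4
    · exact absurd h3 (pow_ne_zero _ hh)
  -- case 1
  have case1 : ∀ P Q, P ∉ Z → Q ∉ Z → 2 • P ∉ Z → φ P = φ Q → P - Q ∈ Z := by
    intro P Q hP hQ h2P hPQ
    set G := N - C (xc (φ P)) * h ^ 2 with hGdef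
    obtain ⟨hGdeg, hG0⟩ := hG (xc (φ P))
    have hPi : ∀ i : ℕ, P + i • T ∉ Z := by
      intro i h1
      apply hP
      have := Z.sub_mem h1 (Z.nsmul_mem hTZ i)
      simpa using this
    have hPi0 : ∀ i : ℕ, P + i • T ≠ 0 := fun i => (hout _ (hPi i)).1
    have hinj : Set.InjOn (fun i : ℕ => xc (P + i • T)) (Finset.range p : Set ℕ) := by
      intro i hi j hj hij
      simp only [Finset.coe_range, Set.mem_Iio] at hi hj
      rcases xc_eq (hPi0 i) (hPi0 j) hij with h1 | h1
      · have h2 : ((i : ℤ) - j) • T = 0 := by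
          rw [sub_zsmul, natCast_zsmul, natCast_zsmul, ← sub_eq_add_neg, sub_eq_zero]
          exact add_left_cancel h1
        have h3 := hord _ h2
        have h4 : ((i : ℤ) - j) = 0 := by
          apply Int.eq_zero_of_abs_lt_dvd h3
          rw [abs_lt]
          constructor <;> omega
        omega
      · exfalso
        apply h2P
        have h2 : 2 • P = -(j • T) - i • T := by
          rw [two_nsmul]
          have h3 : P + i • T + (P + j • T) = 0 := by
            rw [h1]
            exact neg_add_cancel _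
          have h4 : P + P + (i • T + j • T) = 0 := by
            rw [← h3]
            abel
          have h5 := eq_neg_of_add_eq_zero_left h4
          rw [h5]
          abel
        rw [h2]
        exact Z.sub_mem (Z.neg_mem (Z.nsmul_mem hTZ j)) (Z.nsmul_mem hTZ i)
    set S := (Finset.range p).image (fun i : ℕ => xc (P + i • T)) with hS
    have hScard : S.card = p := by
      rw [hS, Finset.card_image_of_injOn hinj, Finset.card_range]
    have hSroot : ∀ x ∈ S, G.eval x = 0 := by
      intro x hx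
      rw [hS, Finset.mem_image] at hx
      obtain ⟨i, _, rfl⟩ := hx
      have h1 := hGr _ (hPi i)
      rwa [hinvn] at h1
    have hQr : G.eval (xc Q) = 0 := by
      have h1 := hGr Q hQ
      rwa [← hPQ] at h1
    have hQS : xc Q ∈ S := by
      by_contra hc
      have h1 := count_double hG0 (insert (xc Q) S) ∅ (by
        intro x hx
        rcases Finset.mem_insert.1 hx with h2 | h2
        · rw [h2]; exact hQr
        · exact hSroot x h2) (Finset.empty_subset _) (by simp)
      rw [Finset.card_insert_of_notMem hc, hScard, hGdeg] at h1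
      simp at h1
    rw [hS, Finset.mem_image] at hQS
    obtain ⟨i, _, hi⟩ := hQS
    rcases xc_eq (hPi0 i) (hout Q hQ).1 hi with h1 | h1
    · have h2 : P - Q = -(i • T) := by
        rw [← h1]
        abel
      rw [h2]
      exact Z.neg_mem (Z.nsmul_mem hTZ i)
    · exfalso
      have h2 : φ P = -φ Q := by
        rw [← hinvn i P, h1, hneg]
      have h3 : 2 • φ P = 0 := by
        rw [two_nsmul]
        nth_rewrite 2 [h2]
        rw [hPQ]
        exact add_neg_cancel _
      have h4 : 2 • P ≠ 0 := fun h5 => h2P (by rw [h5]; exact Z.zero_mem)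
      have h5 := hGd P hP (hB0 P hP h4 h3)
      have hPS : xc P ∈ S := by
        rw [hS, Finset.mem_image]
        exact ⟨0, Finset.mem_range.2 (by omega), by rw [zero_nsmul, add_zero]⟩
      have h6 := count_double hG0 S {xc P} hSroot (by simpa using hPS) (by
        intro x hx
        rw [Finset.mem_singleton.1 hx]
        exact h5)
      rw [hScard, Finset.card_singleton, hGdeg] at h6
      omega
  -- case 3 reduced
  have case3 : ∀ P Q, P ∉ Z → Q ∉ Z → 2 • P = 0 → 2 • Q = 0 → φ P = φ Q → P = Q := by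
    intro P Q hP hQ h2P h2Q hPQ
    by_contra hne
    set G := N - C (xc (φ P)) * h ^ 2 with hGdef
    obtain ⟨hGdeg, hG0⟩ := hG (xc (φ P))
    have hPi : ∀ i : ℕ, P + i • T ∉ Z := by
      intro i h1
      apply hP
      have := Z.sub_mem h1 (Z.nsmul_mem hTZ i)
      simpa using this
    have hPi0 : ∀ i : ℕ, P + i • T ≠ 0 := fun i => (hout _ (hPi i)).1
    have h2φ : 2 • φ P = 0 := by
      have h1 : -P = P := by
        rw [two_nsmul] at h2P
        exact (eq_neg_of_add_eq_zero_left h2P).symm
      have h2 : φ P = -φ P := by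
        rw [← hneg, h1]
      rw [two_nsmul]
      nth_rewrite 2 [h2]
      exact add_neg_cancel _
    have hiT : ∀ i : ℕ, 1 ≤ i → i ≤ 2 * m → i • T ≠ 0 := by
      intro i h1 h2 h3
      have h4 := hord (i : ℤ) (by rw [natCast_zsmul]; exact h3)
      have h5 : p ∣ i := by exact_mod_cast h4
      have h6 := Nat.le_of_dvd (by omega) h5
      have := V.hpm
      omega
    have h2i : ∀ i : ℕ, 1 ≤ i → i ≤ m → 2 • (P + i • T) ≠ 0 := by
      intro i h1 h2 h3
      rw [nsmul_add, h2P, zero_add, ← mul_nsmul'] at h3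
      exact hiT (2 * i) (by omega) (by omega) h3
    set D := (Finset.Icc 1 m).image (fun i : ℕ => xc (P + i • T)) with hD
    have hinj : Set.InjOn (fun i : ℕ => xc (P + i • T)) (Finset.Icc 1 m : Set ℕ) := by
      intro i hi j hj hij
      simp only [Finset.coe_Icc, Set.mem_Icc] at hi hj
      rcases xc_eq (hPi0 i) (hPi0 j) hij with h1 | h1
      · have h2 : ((i : ℤ) - j) • T = 0 := by
          rw [sub_zsmul, natCast_zsmul, natCast_zsmul, ← sub_eq_add_neg, sub_eq_zero]
          exact add_left_cancel h1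
        have h3 := hord _ h2
        have h4 : ((i : ℤ) - j) = 0 := by
          apply Int.eq_zero_of_abs_lt_dvd h3
          rw [abs_lt]
          have := V.hpm
          constructor <;> omega
        omega
      · exfalso
        have h3 : P + i • T + (P + j • T) = 0 := by
          rw [h1]
          exact neg_add_cancel _
        have h4 : (i + j) • T = 0 := by
          rw [add_nsmul]
          have h5 : P + i • T + (P + j • T) = 2 • P + (i • T + j • T) := by
            rw [two_nsmul]
            abel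
          rw [h5, h2P, zero_add] at h3
          exact h3
        exact hiT (i + j) (by omega) (by omega) h4
    have hDcard : D.card = m := by
      rw [hD, Finset.card_image_of_injOn hinj]
      simp
    have hPD : xc P ∉ D := by
      intro h1
      rw [hD, Finset.mem_image] at h1
      obtain ⟨i, hi, h2⟩ := h1
      rw [Finset.mem_Icc] at hi
      apply h2i i hi.1 hi.2
      rcases xc_eq (hPi0 i) (hout P hP).1 h2 with h3 | h3
      · rw [h3, h2P]
      · rw [h3, smul_neg, h2P, neg_zero]
    have hQD : xc Q ∉ D := by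
      intro h1
      rw [hD, Finset.mem_image] at h1
      obtain ⟨i, hi, h2⟩ := h1
      rw [Finset.mem_Icc] at hi
      apply h2i i hi.1 hi.2
      rcases xc_eq (hPi0 i) (hout Q hQ).1 h2 with h3 | h3
      · rw [h3, h2Q]
      · rw [h3, smul_neg, h2Q, neg_zero]
    have hPQx : xc P ≠ xc Q := by
      intro h1
      rcases xc_eq (hout P hP).1 (hout Q hQ).1 h1 with h3 | h3
      · exact hne h3
      · apply hne
        rw [h3]
        rw [two_nsmul] at h2Q
        exact (eq_neg_of_add_eq_zero_left h2Q).symm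
    have hDr : ∀ x ∈ D, G.eval x = 0 ∧ (derivative G).eval x = 0 := by
      intro x hx
      rw [hD, Finset.mem_image] at hx
      obtain ⟨i, hi, rfl⟩ := hx
      rw [Finset.mem_Icc] at hi
      have h1 := hGr _ (hPi i)
      have h2 : 2 • φ (P + i • T) = 0 := by rw [hinvn]; exact h2φ
      have h3 := hGd _ (hPi i) (hB0 _ (hPi i) (h2i i hi.1 hi.2) h2)
      rw [hinvn] at h1 h3
      exact ⟨h1, h3⟩
    have h6 := count_double hG0 (insert (xc P) (insert (xc Q) D)) D (by
        intro x hx
        rcases Finset.mem_insert.1 hx with h1 | h1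
        · rw [h1]; exact hGr P hP
        · rcases Finset.mem_insert.1 h1 with h2 | h2
          · have h3 := hGr Q hQ
            rw [← hPQ] at h3
            rw [h2]; exact h3
          · exact (hDr x h2).1)
      (fun x hx => Finset.mem_insert_of_mem (Finset.mem_insert_of_mem hx))
      (fun x hx => (hDr x hx).2)
    rw [Finset.card_insert_of_notMem (by
        rw [Finset.mem_insert]
        rintro (h1 | h1)
        · exact hPQx h1
        · exact hPD h1), Finset.card_insert_of_notMem hQD, hDcard, hGdeg, V.hpm] at h6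
    omega
  -- halving in Z
  have hhalf : ∀ S ∈ Z, ∃ S' ∈ Z, S = 2 • S' := by
    intro S hS
    refine ⟨(m + 1) • S, Z.nsmul_mem hS _, ?_⟩
    have h1 : p • S = 0 := by
      obtain ⟨n, hn⟩ := hZn S hS
      rw [hn, ← mul_nsmul', mul_comm, mul_nsmul', V.Tp, nsmul_zero]
    rw [← mul_nsmul']
    have h2 : 2 * (m + 1) = p + 1 := by
      rw [V.hpm]; ring
    rw [h2, add_nsmul, h1, one_nsmul, zero_add]
  refine ⟨φ, ?_, ?_, hneg, ?_, ?_⟩
  · intro P hP
    exact hφ0 P hP
  · intro x y hxy hh
    have hP : (Affine.Point.some x y hxy : PG a b c) ∉ Z := fun h1 => hh ((V.ker x y hxy).2 h1)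
    obtain ⟨h1, e1⟩ := hφ1 _ hP
    exact ⟨h1, e1⟩
  · intro P Q
    constructor
    · intro hPQ
      by_cases hP : P ∈ Z
      · have hQ : Q ∈ Z := by
          by_contra hQ
          exact hφne Q hQ (by rw [← hPQ]; exact hφ0 P hP)
        exact Z.sub_mem hP hQ
      · have hQ : Q ∉ Z := by
          intro hQ
          exact hφne P hP (by rw [hPQ]; exact hφ0 Q hQ)
        by_cases h2P : 2 • P ∈ Z
        · by_cases h2Q : 2 • Q ∈ Z
          · obtain ⟨S, hS, e1⟩ := hhalf _ h2P
            obtain ⟨R, hR, e2⟩ := hhalf _ h2Q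
            have h1 : P - S = Q - R := by
              apply case3
              · intro h2
                exact hP (by simpa using Z.add_mem h2 hS)
              · intro h2
                exact hQ (by simpa using Z.add_mem h2 hR)
              · rw [nsmul_sub, e1, sub_self]
              · rw [nsmul_sub, e2, sub_self]
              · rw [sub_eq_add_neg, sub_eq_add_neg, hinv P _ (Z.neg_mem hS),
                  hinv Q _ (Z.neg_mem hR), hPQ]
            have h2 : P - Q = S - R := by
              have h3 : P - Q = (P - S) - (Q - R) + (S - R) := by abel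
              rw [h3, h1, sub_self, zero_add]
            change P - Q ∈ Z
            rw [h2]
            exact Z.sub_mem hS hR
          · have h1 := case1 Q P hQ hP h2Q hPQ.symm
            have h2 := Z.neg_mem h1
            rwa [neg_sub] at h2
        · exact case1 P Q hP hQ h2P hPQ
    · intro h1
      have h2 := hinv Q (P - Q) h1
      rw [add_sub_cancel] at h2
      exact h2
  · intro R
    rcases R with _ | ⟨X', Y', hR⟩
    · exact ⟨0, hφ0 0 Z.zero_mem⟩
    · obtain ⟨hGdeg, hG0⟩ := hG X'
      have hdeg : (N - C X' * h ^ 2).degree ≠ 0 := by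
        intro h1
        have h2 : (N - C X' * h ^ 2).natDegree = 0 := natDegree_eq_of_degree_eq_some h1
        rw [hGdeg] at h2
        omega
      obtain ⟨x0, hx0⟩ := IsAlgClosed.exists_root _ hdeg
      have hx1 : N.eval x0 = X' * h.eval x0 ^ 2 := by
        have h1 : (N - C X' * h ^ 2).eval x0 = 0 := hx0
        simp only [eval_sub, eval_mul, eval_C, eval_pow] at h1
        linear_combination h1
      have hh : h.eval x0 ≠ 0 := by
        intro h1
        apply V.cop x0 h1
        rw [hx1, h1]
        ring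
      obtain ⟨y0, hy0⟩ := IsAlgClosed.exists_pow_nat_eq (x0 ^ 3 + a * x0 ^ 2 + b * x0 + c)
        (n := 2) (by norm_num)
      have hns := sg_ns hΔ hy0
      have hP : (Affine.Point.some x0 y0 hns : PG a b c) ∉ Z := fun h1 => hh ((V.ker _ _ hns).2 h1)
      obtain ⟨h1, e1⟩ : ∃ h', φ (Affine.Point.some x0 y0 hns) =
          Affine.Point.some (N.eval x0 / h.eval x0 ^ 2) (y0 * B.eval x0 / h.eval x0 ^ 3) h' :=
        hφ1 _ hP
      have hX : N.eval x0 / h.eval x0 ^ 2 = X' := by
        rw [hx1]
        field_simp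
      have hY := sg_eq h1
      rw [hX] at hY
      have hY' := sg_eq hR
      have h2 : (y0 * B.eval x0 / h.eval x0 ^ 3 - Y') * (y0 * B.eval x0 / h.eval x0 ^ 3 + Y') = 0 := by
        linear_combination hY - hY'
      rcases mul_eq_zero.1 h2 with h3 | h3
      · refine ⟨Affine.Point.some x0 y0 hns, ?_⟩
        rw [e1]
        exact pg_congr _ _ hX (by linear_combination h3)
      · refine ⟨-Affine.Point.some x0 y0 hns, ?_⟩
        rw [hneg, e1]
        obtain ⟨h4, e4⟩ := sg_neg h1
        rw [e4]
        exact pg_congr _ _ hX (by linear_combination -h3)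

end Pool.Agent.RkT
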