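import Pool.Agent.RkT.VHom
import Pool.Agent.RkT.VMap
import Pool.Agent.RkT.VLine
import Pool.Agent.RkT.VFin

/-!
# RkT, module VDesc: descent from the algebraic numbers to the rationals

`base_hom`: the map `0 ↦ 0`, `(x, y) ↦ (σ x, σ y)`.  `(σ x, σ y)` is nonsingular: use `hΔ`, so that `Δ` of the
image curve is `σ Δ ≠ 0` (`sg_delta`), and `sg_ns`.  It respects negation (`sg_neg`) and lines (`sg_line_iff`,
`sg_line`), so it is additive by `hom_of_line`, `line_sum`.  It is injective.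
`vel_isg`.  Write `E = PG (a : Qb) b c`, `E'` similarly.  From `exists_phi` we have `φ : E → E'`, and
`hom_of_three` (with `three_sum`, `pg_infinite`, `two_finite`) gives `ψ : E' →+ E` with `ψ (φ P) = p P`;
`ker_primary` (with `hfin`) gives `j` with `p^j y = 0` for `ψ y = 0`.  Let `ι : Pt (SW a b c) → E`, `ι'` be the
homomorphisms of `base_hom` for `algebraMap ℚ Qb` (note `SG a b c = SW a b c` for `ℚ`, `sg_sw`).
An automorphism `σ` of `Qb` over `ℚ` gives `σ_E : E →+ E`, `σ_E' : E' →+ E'` (`base_hom`; `σ` fixes the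
coefficients), and `φ (σ_E P) = σ_E' (φ P)`: for `P = (x, y)` with `h x ≠ 0` because the polynomials `N, h, B` have
rational coefficients, so `σ (N x) = N (σ x)` and so on; for `P ∈ ⟨T⟩` because `σ_E T = T`.
(1) If `y' ∈ E'` is `ι' q` then `ψ y' ∈ range ι`: let `y' = φ P`; `φ (σ_E P) = σ_E' y' = y' = φ P`, so
`σ_E P - P ∈ ⟨T⟩`, `σ_E (p P) = p (σ_E P) = p P` for all `σ`.  So `p P = ψ y'` is `0` or its coordinates are fixed
by all `σ`, so they are rational (`Qb` is Galois over `ℚ`: `InfiniteGalois`, `IsGalois`, or the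
minimal polynomial: `IsAlgClosure`/`Normal` gives for `x ∉ ℚ` an automorphism moving `x`; the point
with rational coordinates is nonsingular over `ℚ` by `sw_ns` and `hΔ`).
(2) So there is `ψ₀ : Pt (SW a' b' c') →+ Pt (SW a b c)` with `ι (ψ₀ q) = ψ (ι' q)` (`ι` is injective).  If
`ψ₀ q = 0` then `p^j ι' q = 0`, `p^j q = 0`.
(3) For `x : Pt (SW a b c)`: `φ (ι x)` is `0` or has rational coordinates, so it is `ι' q` for some `q`, and
`ι (ψ₀ q) = ψ (φ (ι x)) = p ι x`, `ψ₀ q = p x`.  Now `isg_of_dual`.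
-/

set_option autoImplicit false

namespace Pool.Agent.RkT

open WeierstrassCurve Polynomial

private theorem vd_delta {F K : Type} [Field F] [Field K] (σ : F →+* K)
    {a b c : F} {a' b' c' : K} (ha : σ a = a') (hb : σ b = b') (hc : σ c = c')
    (hΔ : (SG a b c).Δ ≠ 0) : (SG a' b' c').Δ ≠ 0 := by
  have h1 : (SG a' b' c').Δ = σ (SG a b c).Δ := by
    rw [sg_delta, sg_delta, ← ha, ← hb, ← hc]
    simp only [map_mul, map_sub, map_add, map_pow, map_ofNat]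
  rw [h1]
  exact (map_ne_zero σ).2 hΔ

private theorem vd_ns {F K : Type} [Field F] [Field K] (σ : F →+* K)
    {a b c : F} {a' b' c' : K} (ha : σ a = a') (hb : σ b = b') (hc : σ c = c')
    (hΔ : (SG a b c).Δ ≠ 0) {x y : F} (h : (SG a b c).toAffine.Nonsingular x y) :
    (SG a' b' c').toAffine.Nonsingular (σ x) (σ y) := by
  apply sg_ns (vd_delta σ ha hb hc hΔ)
  have h1 := congrArg σ (sg_eq h)
  rw [← ha, ← hb, ← hc]
  simpa only [map_mul, map_add, map_pow] using h1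

theorem base_hom {F K : Type} [Field F] [Field K] [DecidableEq F] [DecidableEq K] (σ : F →+* K)
    {a b c : F} {a' b' c' : K} (ha : σ a = a') (hb : σ b = b') (hc : σ c = c')
    (hΔ : (SG a b c).Δ ≠ 0) :
    ∃ f : PG a b c →+ PG a' b' c', Function.Injective f ∧
      ∀ x y hxy, ∃ h', f (Affine.Point.some x y hxy) = Affine.Point.some (σ x) (σ y) h' := by
  obtain ⟨f, hf0, hf⟩ : ∃ f : PG a b c → PG a' b' c', f 0 = 0 ∧
      ∀ x y hxy, f (Affine.Point.some x y hxy) =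
        Affine.Point.some (σ x) (σ y) (vd_ns σ ha hb hc hΔ hxy) := by
    refine ⟨fun P => match P with
      | .zero => 0
      | .some x y hxy => Affine.Point.some (σ x) (σ y) (vd_ns σ ha hb hc hΔ hxy), rfl, ?_⟩
    intro x y hxy
    rfl
  have hneg : ∀ P, f (-P) = -f P := by
    intro P
    rcases P with _ | ⟨x, y, h⟩
    · rw [← Affine.Point.zero_def, neg_zero, hf0, neg_zero]
    · obtain ⟨h1, e1⟩ := sg_neg h
      obtain ⟨h2, e2⟩ := sg_neg (vd_ns σ ha hb hc hΔ h)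
      rw [e1, hf, hf, e2]
      exact pg_congr _ _ rfl (map_neg σ y)
  have hl : ∀ (x1 y1 x2 y2 x3 y3 l n : F) (h1 : (SG a b c).toAffine.Nonsingular x1 y1)
      (h2 : (SG a b c).toAffine.Nonsingular x2 y2) (h3 : (SG a b c).toAffine.Nonsingular x3 y3),
      y1 = l * x1 + n → y2 = l * x2 + n → y3 = l * x3 + n → IsLine (SG a b c) x1 x2 x3 l n →
      f (Affine.Point.some x1 y1 h1) + f (Affine.Point.some x2 y2 h2) +
        f (Affine.Point.some x3 y3 h3) = 0 := by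
    intro x1 y1 x2 y2 x3 y3 l n h1 h2 h3 e1 e2 e3 hL
    rw [hf, hf, hf]
    obtain ⟨s1, s2, s3⟩ := sg_line_iff hL
    apply line_sum (l := σ l) (n := σ n)
    · rw [e1, map_add, map_mul]
    · rw [e2, map_add, map_mul]
    · rw [e3, map_add, map_mul]
    · apply sg_line
      · have := congrArg σ s1
        rw [← ha]
        simpa only [map_add, map_sub, map_mul, map_pow] using this
      · have := congrArg σ s2
        rw [← hb]
        simpa only [map_add, map_sub, map_mul, map_pow, map_ofNat] using this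
      · have := congrArg σ s3
        rw [← hc]
        simpa only [map_add, map_sub, map_mul, map_pow] using this
  refine ⟨AddMonoidHom.mk' f (hom_of_line f hf0 hneg hl), ?_, ?_⟩
  · rw [injective_iff_map_eq_zero]
    intro P hP
    rcases P with _ | ⟨x, y, h⟩
    · rfl
    · exfalso
      rw [AddMonoidHom.mk'_apply, hf] at hP
      exact Affine.Point.some_ne_zero _ hP
  · intro x y hxy
    exact ⟨_, hf x y hxy⟩

private theorem vd_rat (x : Qb) (hx : ∀ σ : Qb ≃ₐ[ℚ] Qb, σ x = x) : ∃ r : ℚ, algebraMap ℚ Qb r = x := by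
  have hB2 : Algebra.IsAlgebraic ℚ Qb := by
    convert (AlgebraicClosure.isAlgebraic ℚ)
    · rfl
    · exact Subsingleton.elim _ _
  have hA : IsAlgClosure ℚ Qb := ⟨inferInstance, hB2⟩
  have hB : Normal ℚ Qb := IsAlgClosure.normal ℚ Qb
  have hC : Algebra.IsSeparable ℚ Qb := Algebra.IsAlgebraic.isSeparable_of_perfectField
  have hG : IsGalois ℚ Qb := IsGalois.mk
  have h1 : x ∈ (⊥ : IntermediateField ℚ Qb) := (InfiniteGalois.mem_bot_iff_fixed x).2 hx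
  exact IntermediateField.mem_bot.1 h1

private theorem vd_fix {a b c : ℚ} (hΔ : (SG a b c).Δ ≠ 0)
    (ι : PG a b c →+ PG (a : Qb) (b : Qb) (c : Qb))
    (hι : ∀ x y hxy, ∃ h', ι (Affine.Point.some x y hxy) =
      Affine.Point.some (algebraMap ℚ Qb x) (algebraMap ℚ Qb y) h')
    (Z : PG (a : Qb) (b : Qb) (c : Qb))
    (hZ : ∀ (σ : Qb ≃ₐ[ℚ] Qb) x y h, Z = Affine.Point.some x y h → σ x = x ∧ σ y = y) :
    ∃ z, ι z = Z := by
  rcases Z with _ | ⟨x, y, h⟩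
  · exact ⟨0, map_zero ι⟩
  · obtain ⟨x0, hx0⟩ := vd_rat x (fun σ => (hZ σ x y h rfl).1)
    obtain ⟨y0, hy0⟩ := vd_rat y (fun σ => (hZ σ x y h rfl).2)
    have h1 := sg_eq h
    have h2 : y0 ^ 2 = x0 ^ 3 + a * x0 ^ 2 + b * x0 + c := by
      apply (algebraMap ℚ Qb).injective
      rw [← hx0, ← hy0] at h1
      simpa only [map_mul, map_add, map_pow, eq_ratCast] using h1
    obtain ⟨h3, e3⟩ := hι x0 y0 (sg_ns hΔ h2)
    exact ⟨_, e3.trans (pg_congr _ _ hx0 hy0)⟩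

private theorem vd_eval (σ : Qb ≃ₐ[ℚ] Qb) (P : ℚ[X]) (x : Qb) :
    (P.map (algebraMap ℚ Qb)).eval (σ x) = σ ((P.map (algebraMap ℚ Qb)).eval x) := by
  rw [Polynomial.eval_map_algebraMap, Polynomial.eval_map_algebraMap,
    Polynomial.aeval_algHom_apply]

private theorem vd_main {p m : ℕ} {a b c a' b' c' xT yT : ℚ} {N h B : ℚ[X]}
    (hΔ : (SG a b c).Δ ≠ 0) (hΔ' : (SG a' b' c').Δ ≠ 0)
    (hT : (SG (a : Qb) (b : Qb) (c : Qb)).toAffine.Nonsingular (xT : Qb) (yT : Qb))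
    (V : IsVel p m (a : Qb) (b : Qb) (c : Qb) (a' : Qb) (b' : Qb) (c' : Qb)
      (N.map (algebraMap ℚ Qb)) (h.map (algebraMap ℚ Qb)) (B.map (algebraMap ℚ Qb))
      (Affine.Point.some (xT : Qb) (yT : Qb) hT))
    (hfin : {P : PG (a : Qb) (b : Qb) (c : Qb) | p • P = 0}.Finite) :
    Isg p (PG a b c) (PG a' b' c') := by
  have hQ : ∀ r : ℚ, algebraMap ℚ Qb r = (r : Qb) := fun r => eq_ratCast _ r
  have hσQ : ∀ (σ : Qb ≃ₐ[ℚ] Qb) (r : ℚ), ((σ : Qb →ₐ[ℚ] Qb) : Qb →+* Qb) (r : Qb) = (r : Qb) :=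
    fun σ r => map_ratCast _ r
  have hD : (SG (a : Qb) (b : Qb) (c : Qb)).Δ ≠ 0 :=
    vd_delta (algebraMap ℚ Qb) (hQ a) (hQ b) (hQ c) hΔ
  have hD' : (SG (a' : Qb) (b' : Qb) (c' : Qb)).Δ ≠ 0 :=
    vd_delta (algebraMap ℚ Qb) (hQ a') (hQ b') (hQ c') hΔ'
  obtain ⟨φ, hφ⟩ := exists_phi hD hD' V
  obtain ⟨ψ, hψ⟩ := hom_of_three V.Tp φ hφ.surj (fun P Q hPQ => (hφ.fib P Q).1 hPQ)
    (hφ.k0 0 (zero_mem _)) hφ.neg
    (fun P Q R h0 hP hQ' hR h1 h2 h3 => three_sum V hφ P Q R h0 hP hQ' hR h1 h2 h3)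
    (pg_infinite hD') (two_finite _ _ _)
  obtain ⟨j, hj⟩ := ker_primary V.hp V.T0 V.Tp φ hφ.surj hφ.fib ψ hψ hfin
  obtain ⟨ι, hιi, hι⟩ := base_hom (algebraMap ℚ Qb) (hQ a) (hQ b) (hQ c) hΔ
  obtain ⟨ι', hιi', hι'⟩ := base_hom (algebraMap ℚ Qb) (hQ a') (hQ b') (hQ c') hΔ'
  have hE : ∀ σ : Qb ≃ₐ[ℚ] Qb, ∃ f : PG (a : Qb) (b : Qb) (c : Qb) →+ PG (a : Qb) (b : Qb) (c : Qb),
      ∀ x y hxy, ∃ h', f (Affine.Point.some x y hxy) = Affine.Point.some (σ x) (σ y) h' := by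
    intro σ
    obtain ⟨f, -, hf⟩ := base_hom ((σ : Qb →ₐ[ℚ] Qb) : Qb →+* Qb) (hσQ σ a) (hσQ σ b) (hσQ σ c) hD
    exact ⟨f, hf⟩
  have hE' : ∀ σ : Qb ≃ₐ[ℚ] Qb, ∃ f : PG (a' : Qb) (b' : Qb) (c' : Qb) →+ PG (a' : Qb) (b' : Qb) (c' : Qb),
      ∀ x y hxy, ∃ h', f (Affine.Point.some x y hxy) = Affine.Point.some (σ x) (σ y) h' := by
    intro σ
    obtain ⟨f, -, hf⟩ := base_hom ((σ : Qb →ₐ[ℚ] Qb) : Qb →+* Qb) (hσQ σ a') (hσQ σ b') (hσQ σ c') hD'
    exact ⟨f, hf⟩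
  choose s hs using hE
  choose s' hs' using hE'
  have hcomm : ∀ (σ : Qb ≃ₐ[ℚ] Qb) P, φ (s σ P) = s' σ (φ P) := by
    intro σ P
    by_cases hP : P ∈ AddSubgroup.zmultiples (Affine.Point.some (xT : Qb) (yT : Qb) hT :
        PG (a : Qb) (b : Qb) (c : Qb))
    · rw [hφ.k0 P hP, map_zero]
      apply hφ.k0
      obtain ⟨k, hk⟩ := AddSubgroup.mem_zmultiples_iff.1 hP
      rw [← hk, map_zsmul]
      obtain ⟨h1, e1⟩ := hs σ _ _ hT
      rw [e1]
      apply AddSubgroup.zsmul_mem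
      rw [pg_congr h1 hT (hσQ σ xT) (hσQ σ yT)]
      exact AddSubgroup.mem_zmultiples _
    · rcases P with _ | ⟨x, y, hxy⟩
      · exact absurd (zero_mem _) hP
      · have hne : (h.map (algebraMap ℚ Qb)).eval x ≠ 0 := fun h0 => hP ((V.ker x y hxy).1 h0)
        obtain ⟨h1, e1⟩ := hs σ x y hxy
        have hne' : (h.map (algebraMap ℚ Qb)).eval (σ x) ≠ 0 := by
          rw [vd_eval]
          exact (map_ne_zero σ).2 hne
        obtain ⟨h2, e2⟩ := hφ.k1 x y hxy hne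
        obtain ⟨h3, e3⟩ := hφ.k1 (σ x) (σ y) h1 hne'
        obtain ⟨h4, e4⟩ := hs' σ _ _ h2
        rw [e1, e3, e2, e4]
        apply pg_congr
        · rw [vd_eval, vd_eval, map_div₀, map_pow]
        · rw [vd_eval, vd_eval, map_div₀, map_mul, map_pow]
  have hfixR : ∀ (σ : Qb ≃ₐ[ℚ] Qb) (z : PG a b c), s σ (ι z) = ι z := by
    intro σ z
    rcases z with _ | ⟨x, y, hxy⟩
    · exact (congrArg (s σ) (map_zero ι)).trans ((map_zero (s σ)).trans (map_zero ι).symm)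
    · obtain ⟨h1, e1⟩ := hι x y hxy
      obtain ⟨h2, e2⟩ := hs σ _ _ h1
      rw [e1, e2]
      exact pg_congr _ _ (σ.commutes x) (σ.commutes y)
  have hfixR' : ∀ (σ : Qb ≃ₐ[ℚ] Qb) (z : PG a' b' c'), s' σ (ι' z) = ι' z := by
    intro σ z
    rcases z with _ | ⟨x, y, hxy⟩
    · exact (congrArg (s' σ) (map_zero ι')).trans ((map_zero (s' σ)).trans (map_zero ι').symm)
    · obtain ⟨h1, e1⟩ := hι' x y hxy
      obtain ⟨h2, e2⟩ := hs' σ _ _ h1
      rw [e1, e2]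
      exact pg_congr _ _ (σ.commutes x) (σ.commutes y)
  have hcoE : ∀ Z, (∀ σ, s σ Z = Z) → ∃ z, ι z = Z := by
    intro Z hZ
    apply vd_fix hΔ ι hι
    intro σ x y hxy e
    have h1 := hZ σ
    obtain ⟨h2, e2⟩ := hs σ x y hxy
    rw [e, e2] at h1
    injection h1 with h3 h4
    exact ⟨h3, h4⟩
  have hcoE' : ∀ Z, (∀ σ, s' σ Z = Z) → ∃ z, ι' z = Z := by
    intro Z hZ
    apply vd_fix hΔ' ι' hι'
    intro σ x y hxy e
    have h1 := hZ σ
    obtain ⟨h2, e2⟩ := hs' σ x y hxy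
    rw [e, e2] at h1
    injection h1 with h3 h4
    exact ⟨h3, h4⟩
  have h1 : ∀ q : PG a' b' c', ∃ z : PG a b c, ι z = ψ (ι' q) := by
    intro q
    apply hcoE
    intro σ
    obtain ⟨P, hP⟩ := hφ.surj (ι' q)
    have h2 : φ (s σ P) = φ P := by rw [hcomm, hP, hfixR']
    have h3 := (hφ.fib _ _).1 h2
    obtain ⟨k, hk⟩ := AddSubgroup.mem_zmultiples_iff.1 h3
    have h4 : p • (s σ P - P) = 0 := by
      rw [← hk, smul_comm, V.Tp, smul_zero]
    rw [← hP, hψ, map_nsmul, ← sub_eq_zero, ← smul_sub, h4]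
  choose g hg using h1
  refine isg_of_dual (AddMonoidHom.mk' g ?_) j ?_ ?_
  · intro x y
    apply hιi
    rw [map_add, hg, hg, hg, map_add, map_add]
  · intro q hq
    rw [AddMonoidHom.mk'_apply] at hq
    have h2 := hg q
    rw [hq, map_zero] at h2
    have h3 := hj _ h2.symm
    apply hιi'
    rw [map_nsmul, h3, map_zero]
  · intro x
    obtain ⟨q, hq⟩ := hcoE' (φ (ι x)) (fun σ => by rw [← hcomm, hfixR])
    refine ⟨q, ?_⟩
    rw [AddMonoidHom.mk'_apply]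
    apply hιi
    rw [hg, hq, hψ, map_nsmul]

theorem vel_isg {p m : ℕ} {a b c a' b' c' xT yT : ℚ} {N h B : ℚ[X]}
    (hΔ : (SW a b c).Δ ≠ 0) (hΔ' : (SW a' b' c').Δ ≠ 0)
    (hT : (SG (a : Qb) (b : Qb) (c : Qb)).toAffine.Nonsingular (xT : Qb) (yT : Qb))
    (V : IsVel p m (a : Qb) (b : Qb) (c : Qb) (a' : Qb) (b' : Qb) (c' : Qb)
      (N.map (algebraMap ℚ Qb)) (h.map (algebraMap ℚ Qb)) (B.map (algebraMap ℚ Qb))
      (Affine.Point.some (xT : Qb) (yT : Qb) hT))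
    (hfin : {P : PG (a : Qb) (b : Qb) (c : Qb) | p • P = 0}.Finite) :
    Isg p (Pt (SW a b c)) (Pt (SW a' b' c')) :=
  vd_main hΔ hΔ' hT V hfin

end Pool.Agent.RkT
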