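import Pool.Agent.RkT.VDefs

/-!
# RkT, module VFun: the universal curves with a point of order 5 or 7 and their quotients

`SG (a5 t) (b5 t) (c5 t)` is the curve `y² + (1 - t) x y - t y = x³ - t x²` after completing the square, with the
point `(0, -t/2)` of order 5, whose multiples have the abscissas `0, t`.  `SG (a5 t) (b5' t) (c5' t)` is the
quotient.  `SG (a7 d) (b7 d) (c7 d)` is `y² + (1 + d - d²) x y + (d² - d³) y = x³ + (d² - d³) x²`, with the point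
`(0, -(d³ - d²)/2)` of order 7, whose multiples have the abscissas `0, d³ - d², d² - d`; the quotient is
`SG (a7 d) (b7' d) (c7' d)`.
-/

set_option autoImplicit false

namespace Pool.Agent.RkT

open WeierstrassCurve Polynomial

variable {K : Type} [Field K]

/-! ### order 5 -/

def a5 (t : K) : K := (t ^ 2 - 6 * t + 1) / 4

def b5 (t : K) : K := t * (t - 1) / 2

def c5 (t : K) : K := t ^ 2 / 4

/-- sum of the numbers `2 f'(x_i)` -/
def s5 (t : K) : K := t ^ 3 + 2 * t ^ 2 - t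

def b5' (t : K) : K := b5 t - 5 * s5 t

def c5' (t : K) : K := c5 t - 4 * a5 t * s5 t - 7 * (2 * t ^ 4 + t ^ 3 + t ^ 2)

noncomputable def h5 (t : K) : K[X] := X * (X - C t)

noncomputable def n5 (t : K) : K[X] :=
  X ^ 3 * (X - C t) ^ 2 + (C (t ^ 2 - t) * X + C (t ^ 2)) * (X - C t) ^ 2 +
    (C (t ^ 3 + t ^ 2) * (X - C t) + C (t ^ 4)) * X ^ 2

noncomputable def d5 (t : K) : K[X] := derivative (n5 t) * h5 t - 2 * n5 t * derivative (h5 t)

theorem h5_map {F : Type} [Field F] (σ : F →+* K) (t : F) : (h5 t).map σ = h5 (σ t) := by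
  simp [h5]

theorem n5_map {F : Type} [Field F] (σ : F →+* K) (t : F) : (n5 t).map σ = n5 (σ t) := by
  simp [n5]

theorem d5_map {F : Type} [Field F] (σ : F →+* K) (t : F) : (d5 t).map σ = d5 (σ t) := by
  rw [d5, d5, ← h5_map, ← n5_map, derivative_map, derivative_map]
  simp

theorem delta5 [CharZero K] (t : K) : (SG (a5 t) (b5 t) (c5 t)).Δ = t ^ 5 * (t ^ 2 - 11 * t - 1) := by
  rw [sg_delta, a5, b5, c5]
  field_simp
  ring

theorem delta5' [CharZero K] (t : K) :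
    (SG (a5 t) (b5' t) (c5' t)).Δ = t * (t ^ 2 - 11 * t - 1) ^ 5 := by
  rw [sg_delta, b5', c5', a5, b5, c5, s5]
  field_simp
  ring

theorem c4_five [CharZero K] (t : K) : 16 * (a5 t ^ 2 - 3 * b5 t) =
    t ^ 4 - 12 * t ^ 3 + 14 * t ^ 2 + 12 * t + 1 := by
  rw [a5, b5]
  field_simp
  ring

theorem c4_five' [CharZero K] (t : K) : 16 * (a5 t ^ 2 - 3 * b5' t) =
    t ^ 4 + 228 * t ^ 3 + 494 * t ^ 2 - 228 * t + 1 := by
  rw [b5', a5, b5, s5]
  field_simp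
  ring

/-! ### order 7 -/

def a7 (d : K) : K := d ^ 2 - d ^ 3 + (1 + d - d ^ 2) ^ 2 / 4

def b7 (d : K) : K := (1 + d - d ^ 2) * (d ^ 2 - d ^ 3) / 2

def c7 (d : K) : K := (d ^ 2 - d ^ 3) ^ 2 / 4

/-- `2 f'(x)` -/
def g7 (d x : K) : K := 2 * (3 * x ^ 2 + 2 * a7 d * x + b7 d)

/-- `4 f(x)` -/
def f7 (d x : K) : K := 4 * (x ^ 3 + a7 d * x ^ 2 + b7 d * x + c7 d)

def s7 (d : K) : K := g7 d 0 + g7 d (d ^ 3 - d ^ 2) + g7 d (d ^ 2 - d)

def w7 (d : K) : K := f7 d 0 + (f7 d (d ^ 3 - d ^ 2) + (d ^ 3 - d ^ 2) * g7 d (d ^ 3 - d ^ 2)) +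
  (f7 d (d ^ 2 - d) + (d ^ 2 - d) * g7 d (d ^ 2 - d))

def b7' (d : K) : K := b7 d - 5 * s7 d

def c7' (d : K) : K := c7 d - 4 * a7 d * s7 d - 7 * w7 d

noncomputable def h7 (d : K) : K[X] := X * (X - C (d ^ 3 - d ^ 2)) * (X - C (d ^ 2 - d))

noncomputable def n7 (d : K) : K[X] :=
  X ^ 3 * (X - C (d ^ 3 - d ^ 2)) ^ 2 * (X - C (d ^ 2 - d)) ^ 2 +
    (C (g7 d 0) * X + C (f7 d 0)) * (X - C (d ^ 3 - d ^ 2)) ^ 2 * (X - C (d ^ 2 - d)) ^ 2 +
    (C (g7 d (d ^ 3 - d ^ 2)) * (X - C (d ^ 3 - d ^ 2)) + C (f7 d (d ^ 3 - d ^ 2))) *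
      X ^ 2 * (X - C (d ^ 2 - d)) ^ 2 +
    (C (g7 d (d ^ 2 - d)) * (X - C (d ^ 2 - d)) + C (f7 d (d ^ 2 - d))) *
      X ^ 2 * (X - C (d ^ 3 - d ^ 2)) ^ 2

noncomputable def d7 (d : K) : K[X] := derivative (n7 d) * h7 d - 2 * n7 d * derivative (h7 d)

theorem h7_map {F : Type} [Field F] (σ : F →+* K) (d : F) : (h7 d).map σ = h7 (σ d) := by
  simp [h7]

theorem n7_map {F : Type} [Field F] (σ : F →+* K) (d : F) : (n7 d).map σ = n7 (σ d) := by
  have e2 : ∀ x : F, σ (g7 d x) = g7 (σ d) (σ x) := by intro x; simp [g7, a7, b7, map_ofNat]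
  have e3 : ∀ x : F, σ (f7 d x) = f7 (σ d) (σ x) := by intro x; simp [f7, a7, b7, c7, map_ofNat]
  simp [n7, e2, e3]

theorem d7_map {F : Type} [Field F] (σ : F →+* K) (d : F) : (d7 d).map σ = d7 (σ d) := by
  rw [d7, d7, ← h7_map, ← n7_map, derivative_map, derivative_map]
  simp

theorem delta7 [CharZero K] (d : K) : (SG (a7 d) (b7 d) (c7 d)).Δ =
    d ^ 7 * (d - 1) ^ 7 * (d ^ 3 - 8 * d ^ 2 + 5 * d + 1) := by
  rw [sg_delta, a7, b7, c7]
  field_simp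
  ring

theorem delta7' [CharZero K] (d : K) : (SG (a7 d) (b7' d) (c7' d)).Δ =
    d * (d - 1) * (d ^ 3 - 8 * d ^ 2 + 5 * d + 1) ^ 7 := by
  rw [sg_delta, b7', c7', w7, s7]
  simp only [g7, f7]
  rw [a7, b7, c7]
  field_simp
  ring

/-- the invariant `c₄` -/
def C4 (d : K) : K := 16 * (a7 d ^ 2 - 3 * b7 d)

/-- the invariant `c₄` of the quotient -/
def C4' (d : K) : K := 16 * (a7 d ^ 2 - 3 * b7' d)

end Pool.Agent.RkT
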