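import Pool.Agent.RkT.GrpI

/-!
# RkT, module VHom: group theory for the dual isogeny

`hom_of_three`: for `y : B` choose `x` with `φ x = y` and put `ψ y = p x`; this does not depend on the choice
(`hfib`, `p T = 0`), `ψ (φ x) = p x`, `ψ 0 = 0`, `ψ (-y) = -ψ y`.  Call `(u, v)` good if `ψ (u + v) = ψ u + ψ v`.
`(u, v)` is good if `u = 0` or `v = 0` or `u + v = 0`, and if `u ≠ v`, `u + 2 v ≠ 0`, `2 u + v ≠ 0` (then `u, v`,
`-(u + v)` are not `0`, pairwise different, with sum `0`; use `h3`).  For arbitrary `u, v` with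
`u, v, u + v ≠ 0` choose `r ∈ B` such that the pairs `(u + r, v - r)`, `(u, r)`, `(v, -r)` are good: it is
sufficient that `r` is none of the elements `u, -2u, -v, 2v, -2u-v, u+2v` and that
`2 r` is none of the elements `-u`, `v`, `v - u`; the set of the excluded `r` is finite, because
`{r | 2 r = d}` is empty or a translate of `{r | 2 r = 0}`, and `B` is infinite.  Then
`ψ (u + v) = ψ (u + r) + ψ (v - r) = ψ u + ψ r + ψ v + ψ (-r) = ψ u + ψ v`.

`ker_primary`: `E = {x | p x = 0}` is a finite subgroup of `A`, of exponent `p`, so it has `p^j` elements for some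
`j` (`IsPGroup`, or Cauchy's theorem).  `φ` maps `E` onto `ker ψ = {y | ψ y = 0}` and each fibre has exactly `p`
elements (a coset of `⟨T⟩`, `T ∈ E`), so `p |ker ψ| = p^j`, `|ker ψ|` divides `p^j` and `p^j y = 0` for
`y ∈ ker ψ`.

`isg_of_dual`: the homomorphism in the other direction is `g x = p^j y` for any `y` with `ψ y = p x`: it does not
depend on the choice of `y`, it is additive, and `g x = 0` implies `0 = ψ (p^j y) = p^j p x`.
-/

set_option autoImplicit false

namespace Pool.Agent.RkT

variable {A B : Type} [AddCommGroup A] [AddCommGroup B]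

private theorem vhom_fin {G : Type} [AddCommGroup G] (h2 : {y : G | 2 • y = 0}.Finite) (d : G) :
    {r : G | 2 • r = d}.Finite := by
  by_cases h : ∃ r0 : G, 2 • r0 = d
  · obtain ⟨r0, hr0⟩ := h
    refine (h2.image (fun y => y + r0)).subset ?_
    intro r hr
    refine ⟨r - r0, ?_, sub_add_cancel r r0⟩
    have hr' : 2 • r = d := hr
    change 2 • (r - r0) = 0
    rw [smul_sub, hr', hr0, sub_self]
  · have h3 : {r : G | 2 • r = d} = ∅ := by
      ext r
      constructor
      · intro hr
        exact absurd ⟨r, hr⟩ h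
      · intro hr
        exact absurd hr (Set.notMem_empty r)
    rw [h3]
    exact Set.finite_empty

theorem hom_of_three {p : ℕ} {T : A} (hT : p • T = 0) (φ : A → B) (hs : Function.Surjective φ)
    (hfib : ∀ P Q, φ P = φ Q → P - Q ∈ AddSubgroup.zmultiples T) (h0 : φ 0 = 0)
    (hneg : ∀ P, φ (-P) = -φ P)
    (h3 : ∀ P Q R, φ P + φ Q + φ R = 0 → φ P ≠ 0 → φ Q ≠ 0 → φ R ≠ 0 → φ P ≠ φ Q → φ Q ≠ φ R →
      φ P ≠ φ R → p • P + p • Q + p • R = 0) (hinf : Infinite B) (h2 : {y : B | 2 • y = 0}.Finite) :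
    ∃ ψ : B →+ A, ∀ P, ψ (φ P) = p • P := by
  have hmul : ∀ P Q, φ P = φ Q → p • P = p • Q := by
    intro P Q h
    obtain ⟨k, hk⟩ := AddSubgroup.mem_zmultiples_iff.1 (hfib P Q h)
    have h1 : p • (P - Q) = 0 := by
      rw [← hk, smul_comm, hT, smul_zero]
    rw [smul_sub] at h1
    exact sub_eq_zero.1 h1
  choose s hs' using hs
  obtain ⟨F, hF0⟩ : ∃ F : B → A, F = fun y => p • s y := ⟨_, rfl⟩
  have hF : ∀ P, F (φ P) = p • P := by
    intro P
    rw [hF0]
    exact hmul _ _ (hs' (φ P))
  have F0 : F 0 = 0 := by rw [← h0, hF, smul_zero]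
  have Fneg : ∀ y, F (-y) = -F y := by
    intro y
    rw [← hs' y, ← hneg, hF, hF, smul_neg]
  have gen : ∀ u v : B, u ≠ v → u + 2 • v ≠ 0 → 2 • u + v ≠ 0 → F (u + v) = F u + F v := by
    intro u v huv h1 h2'
    by_cases hu : u = 0
    · rw [hu, F0, zero_add, zero_add]
    by_cases hv : v = 0
    · rw [hv, F0, add_zero, add_zero]
    by_cases hw : u + v = 0
    · rw [hw, F0, eq_neg_of_add_eq_zero_right hw, Fneg, add_neg_cancel]
    have h3' := h3 (s u) (s v) (s (-(u + v)))
    rw [hs', hs', hs'] at h3'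
    have h4 := h3' (add_neg_cancel _) hu hv (neg_ne_zero.2 hw) huv
      (fun h5 => h1 (by
        have h6 : v + (u + v) = 0 := by
          nth_rewrite 1 [h5]
          exact neg_add_cancel _
        rw [← h6, two_nsmul]
        abel))
      (fun h5 => h2' (by
        have h6 : u + (u + v) = 0 := by
          nth_rewrite 1 [h5]
          exact neg_add_cancel _
        rw [← h6, two_nsmul]
        abel))
    rw [← hF, ← hF, ← hF, hs', hs', hs', Fneg] at h4
    exact (sub_eq_zero.1 (by rw [sub_eq_add_neg]; exact h4)).symm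
  have hadd : ∀ u v : B, F (u + v) = F u + F v := by
    intro u v
    have hfin : (({u, -(2 • u), -v, 2 • v, -(2 • u + v), u + 2 • v} : Set B) ∪
        ({r | 2 • r = -u} ∪ ({r | 2 • r = v} ∪ {r | 2 • r = v - u}))).Finite :=
      (Set.toFinite _).union ((vhom_fin h2 _).union ((vhom_fin h2 _).union (vhom_fin h2 _)))
    obtain ⟨r, hr⟩ := hfin.exists_notMem
    simp only [Set.mem_union, Set.mem_insert_iff, Set.mem_singleton_iff, Set.mem_ofPred_eq, not_or] at hr
    obtain ⟨⟨r1, r2, r3, r4, r5, r6⟩, r7, r8, r9⟩ := hr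
    have e1 : F (u + v) = F (u + r) + F (v - r) := by
      rw [← gen (u + r) (v - r) ?_ ?_ ?_]
      · congr 1
        abel
      · intro h
        refine r9 ?_
        rw [two_nsmul]
        have h' := sub_eq_zero.2 h
        refine sub_eq_zero.1 ?_
        rw [← h']
        abel
      · intro h
        refine r6 ?_
        refine (sub_eq_zero.1 ?_).symm
        rw [← h, smul_sub, two_nsmul, two_nsmul]
        abel
      · intro h
        refine r5 ?_
        refine eq_neg_of_add_eq_zero_left ?_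
        rw [← h, smul_add, two_nsmul, two_nsmul]
        abel
    have e2 : F (u + r) = F u + F r := by
      refine gen u r (fun h => r1 h.symm) ?_ ?_
      · intro h
        exact r7 (eq_neg_of_add_eq_zero_right h)
      · intro h
        exact r2 (eq_neg_of_add_eq_zero_right h)
    have e3 : F (v - r) = F v + F (-r) := by
      rw [sub_eq_add_neg]
      refine gen v (-r) ?_ ?_ ?_
      · intro h
        refine r3 ?_
        rw [h, neg_neg]
      · intro h
        refine r8 ?_
        refine (sub_eq_zero.1 ?_).symm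
        rw [← h, smul_neg, sub_eq_add_neg]
      · intro h
        refine r4 ?_
        refine (sub_eq_zero.1 ?_).symm
        rw [← h, sub_eq_add_neg]
    rw [e1, e2, e3, Fneg]
    abel
  exact ⟨AddMonoidHom.mk' F hadd, hF⟩

theorem ker_primary {p : ℕ} (hp : p.Prime) {T : A} (hT0 : T ≠ 0) (hT : p • T = 0) (φ : A → B)
    (hs : Function.Surjective φ) (hfib : ∀ P Q, φ P = φ Q ↔ P - Q ∈ AddSubgroup.zmultiples T)
    (ψ : B →+ A) (hψ : ∀ P, ψ (φ P) = p • P) (hfin : {P : A | p • P = 0}.Finite) :
    ∃ j : ℕ, ∀ y, ψ y = 0 → p ^ j • y = 0 := by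
  classical
  haveI : Fact p.Prime := ⟨hp⟩
  have hord : addOrderOf T = p := addOrderOf_eq_prime hT hT0
  have hTf : IsOfFinAddOrder T := isOfFinAddOrder_iff_nsmul_eq_zero.2 ⟨p, hp.pos, hT⟩
  obtain ⟨E, hE⟩ : ∃ E : AddSubgroup A, ∀ x, x ∈ E ↔ p • x = 0 :=
    ⟨(nsmulAddMonoidHom p : A →+ A).ker, fun x => by rw [AddMonoidHom.mem_ker]; rfl⟩
  have hEs : (E : Set A) = {P : A | p • P = 0} := by
    ext x
    exact hE x
  haveI : Finite E := by
    have h1 : (E : Set A).Finite := by
      rw [hEs]
      exact hfin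
    exact h1
  obtain ⟨m, hm⟩ : ∃ m : ℕ, Nat.card E = p ^ m := by
    have h1 : IsPGroup p (Multiplicative E) := by
      intro x
      refine ⟨1, ?_⟩
      have h2 : p • (Multiplicative.toAdd x) = 0 := by
        refine Subtype.ext ?_
        exact (hE _).1 (Multiplicative.toAdd x).2
      rw [pow_one]
      exact congrArg Multiplicative.ofAdd h2
    obtain ⟨m, hm⟩ := IsPGroup.iff_card.1 h1
    exact ⟨m, hm⟩
  have hEc : hfin.toFinset.card = p ^ m := by
    rw [← hm, ← Set.ncard_eq_toFinset_card _ hfin, ← hEs]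
    rfl
  have hfib' : ∀ y ∈ hfin.toFinset.image φ, (hfin.toFinset.filter fun x => φ x = y).card = p := by
    intro y hy
    obtain ⟨P, hP, rfl⟩ := Finset.mem_image.1 hy
    rw [Set.Finite.mem_toFinset] at hP
    have hP' : p • P = 0 := hP
    have h1 : (hfin.toFinset.filter fun x => φ x = φ P) =
        (Finset.range p).image (fun k => P + k • T) := by
      ext Q
      rw [Finset.mem_filter, Set.Finite.mem_toFinset, Finset.mem_image]
      constructor
      · rintro ⟨_, hQ⟩
        have h2 := (hfib Q P).1 hQ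
        rw [IsOfFinAddOrder.mem_zmultiples_iff_mem_range_addOrderOf hTf, hord, Finset.mem_image] at h2
        obtain ⟨k, hk, hk'⟩ := h2
        refine ⟨k, hk, ?_⟩
        rw [hk']
        abel
      · rintro ⟨k, hk, rfl⟩
        constructor
        · change p • (P + k • T) = 0
          rw [smul_add, hP', smul_comm, hT, smul_zero, add_zero]
        · rw [hfib, add_sub_cancel_left]
          exact AddSubgroup.nsmul_mem_zmultiples T k
    rw [h1, Finset.card_image_of_injOn, Finset.card_range]
    intro k hk l hl hkl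
    have h3 : k • T = l • T := add_left_cancel hkl
    have h4 := nsmul_injOn_Iio_addOrderOf (x := T)
    rw [hord] at h4
    exact h4 (Finset.mem_range.1 hk) (Finset.mem_range.1 hl) h3
  have hcard : p ^ m = (hfin.toFinset.image φ).card * p := by
    rw [← hEc, Finset.card_eq_sum_card_image φ hfin.toFinset, Finset.sum_congr rfl hfib',
      Finset.sum_const, smul_eq_mul]
  have hK : ((hfin.toFinset.image φ : Finset B) : Set B) = (ψ.ker : Set B) := by
    ext y
    rw [Finset.mem_coe, Finset.mem_image, SetLike.mem_coe, AddMonoidHom.mem_ker]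
    constructor
    · rintro ⟨P, hP, rfl⟩
      rw [hψ]
      exact (Set.Finite.mem_toFinset hfin).1 hP
    · intro hy
      obtain ⟨P, rfl⟩ := hs y
      rw [hψ] at hy
      exact ⟨P, (Set.Finite.mem_toFinset hfin).2 hy, rfl⟩
  have hKc : Nat.card ψ.ker = (hfin.toFinset.image φ).card := by
    rw [← Set.ncard_coe_finset, hK]
    rfl
  refine ⟨m, fun y hy => ?_⟩
  have h5 : Nat.card ψ.ker • (⟨y, hy⟩ : ψ.ker) = 0 := card_nsmul_eq_zero'
  have h6 : Nat.card ψ.ker • y = 0 := congrArg Subtype.val h5
  rw [hcard, ← hKc, mul_comm, mul_smul, h6, smul_zero]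

theorem isg_of_dual {p : ℕ} (ψ : B →+ A) (j : ℕ) (hk : ∀ y, ψ y = 0 → p ^ j • y = 0)
    (hr : ∀ x : A, ∃ y, ψ y = p • x) : Isg p A B := by
  choose s hs using hr
  have key : ∀ y y' : B, ψ y = ψ y' → p ^ j • y = p ^ j • y' := by
    intro y y' h
    have h1 := hk (y - y') (by rw [map_sub, h, sub_self])
    rw [smul_sub] at h1
    exact sub_eq_zero.1 h1
  refine ⟨AddMonoidHom.mk' (fun x => p ^ j • s x) ?_, ψ, ?_, fun y hy => ⟨j, hk y hy⟩⟩
  · intro x x'
    change p ^ j • s (x + x') = p ^ j • s x + p ^ j • s x'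
    rw [← smul_add]
    refine key _ _ ?_
    rw [map_add, hs, hs, hs, smul_add]
  · intro x hx
    have h1 : p ^ j • s x = 0 := hx
    have h2 : ψ (p ^ j • s x) = 0 := by rw [h1, map_zero]
    rw [map_nsmul, hs, smul_smul] at h2
    exact ⟨j + 1, by rw [pow_succ]; exact h2⟩

end Pool.Agent.RkT
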